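import Pool.Agent.Lib.MP_a17b09_nt.HY.Defs20

/-!
Project MRH (MP_a17b09): the number of lattice points in a hyperbolic sector, with main term.
-/

set_option autoImplicit false

open Filter Topology Finset

namespace Pool.Agent.Lib.MP_a17b09_nt.MRH.CntH84

open Pool.Agent.Lib.MP_a17b09_nt.CH Pool.Agent.Lib.MP_a17b09_nt.HY

/-- the sector in the coordinates -/
theorem sec_iff {d : ℕ} {Q : Form} (hQ : Hyp d Q) {T : ℝ} (hT : 0 < T) (n : ℝ) (v : V) :
    (Sec Q T v ∧ (Q.q v : ℝ) ≤ n) ↔ 0 ≤ hY Q v ∧ hY Q v * Real.cosh T < hX Q v * Real.sinh T ∧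
      hX Q v ^ 2 ≤ n + hY Q v ^ 2 := by
  have hsT : 0 < Real.sinh T := Real.sinh_pos_iff.2 hT
  have hcT : 0 < Real.cosh T := Real.cosh_pos T
  have hsc : Real.sinh T < Real.cosh T := Real.sinh_lt_cosh T
  constructor
  · rintro ⟨⟨hcn, hp0, hpT⟩, hn⟩
    obtain ⟨hX1, hY1⟩ := polar hQ hcn
    have hq0 : (0 : ℝ) < Q.q v := by exact_mod_cast hcn.q_pos hQ
    have hs0 : 0 < √(Q.q v : ℝ) := Real.sqrt_pos.2 hq0
    refine ⟨?_, ?_, ?_⟩
    · rw [hY1]
      exact mul_nonneg hs0.le (Real.sinh_nonneg_iff.2 hp0)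
    · have h1 : Real.sinh (ps Q v - T) < 0 := by
        rw [Real.sinh_neg_iff]
        linarith
      rw [Real.sinh_sub] at h1
      rw [hX1, hY1]
      nlinarith
    · rw [hQ.q_eq] at hn
      linarith
  · rintro ⟨h0, h1, h2⟩
    have hX0 : 0 < hX Q v := by
      by_contra hc
      push Not at hc
      have : hX Q v * Real.sinh T ≤ 0 := mul_nonpos_of_nonpos_of_nonneg hc hsT.le
      nlinarith [mul_nonneg h0 hcT.le]
    have hcn : Cn Q v := by
      unfold Cn
      rw [abs_of_nonneg h0]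
      by_contra hc
      push Not at hc
      nlinarith [mul_le_mul_of_nonneg_right hc hcT.le, mul_pos hX0 (sub_pos.2 hsc)]
    obtain ⟨hX1, hY1⟩ := polar hQ hcn
    have hq0 : (0 : ℝ) < Q.q v := by exact_mod_cast hcn.q_pos hQ
    have hs0 : 0 < √(Q.q v : ℝ) := Real.sqrt_pos.2 hq0
    refine ⟨⟨hcn, ?_, ?_⟩, ?_⟩
    · rw [hY1] at h0
      exact Real.sinh_nonneg_iff.1 (nonneg_of_mul_nonneg_right h0 hs0)
    · have h3 : √(Q.q v : ℝ) * Real.sinh (ps Q v - T) < 0 := by
        rw [Real.sinh_sub]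
        rw [hX1, hY1] at h1
        nlinarith
      have h4 : Real.sinh (ps Q v - T) < 0 := by
        by_contra hc
        push Not at hc
        nlinarith [mul_nonneg hs0.le hc]
      rw [Real.sinh_neg_iff] at h4
      linarith
    · rw [hQ.q_eq]
      linarith

/-! ### the area -/

/-- the area to the height `y` -/
noncomputable def FF (n T y : ℝ) : ℝ :=
  (y * √(n + y ^ 2) + n * Real.arsinh (y / √n)) / 2 -
    y ^ 2 * (Real.cosh T / Real.sinh T) / 2

/-- the width at the height `y` -/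
noncomputable def ff (n T y : ℝ) : ℝ := √(n + y ^ 2) - y * (Real.cosh T / Real.sinh T)

theorem FF_deriv {n T : ℝ} (hn : 0 < n) (y : ℝ) : HasDerivAt (FF n T) (ff n T y) y := by
  have hs : 0 < √n := Real.sqrt_pos.2 hn
  have hp : 0 < n + y ^ 2 := by positivity
  have h1 : HasDerivAt (fun y : ℝ => n + y ^ 2) (2 * y) y := by
    have := (hasDerivAt_pow 2 y).const_add n
    simpa using this
  have h2 : HasDerivAt (fun y : ℝ => √(n + y ^ 2)) (2 * y / (2 * √(n + y ^ 2))) y :=
    h1.sqrt hp.ne'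
  have h3 : HasDerivAt (fun y : ℝ => y * √(n + y ^ 2))
      (1 * √(n + y ^ 2) + y * (2 * y / (2 * √(n + y ^ 2)))) y := (hasDerivAt_id' y).mul h2
  have h4 : HasDerivAt (fun y : ℝ => y / √n) (1 / √n) y := (hasDerivAt_id' y).div_const _
  have h5 : HasDerivAt (fun y : ℝ => Real.arsinh (y / √n))
      ((√(1 + (y / √n) ^ 2))⁻¹ * (1 / √n)) y := (Real.hasDerivAt_arsinh _).comp y h4
  have h6 : HasDerivAt (fun y : ℝ => y ^ 2 * (Real.cosh T / Real.sinh T) / 2)
      (y * (Real.cosh T / Real.sinh T)) y := by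
    have := ((hasDerivAt_pow 2 y).mul_const (Real.cosh T / Real.sinh T)).div_const 2
    refine this.congr_deriv ?_
    simp
    ring
  have h7 := ((h3.add (h5.const_mul n)).div_const 2).sub h6
  refine h7.congr_deriv ?_
  unfold ff
  have e1 : √(1 + (y / √n) ^ 2) = √(n + y ^ 2) / √n := by
    rw [← Real.sqrt_div hp.le]
    congr 1
    rw [div_pow, Real.sq_sqrt hn.le]
    field_simp
  have h8 : 0 < √(n + y ^ 2) := Real.sqrt_pos.2 hp
  have h9 := Real.sq_sqrt hp.le
  have h10 := Real.sq_sqrt hn.le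
  rw [e1]
  have e2 : n * ((√(n + y ^ 2) / √n)⁻¹ * (1 / √n)) = n / √(n + y ^ 2) := by
    field_simp
  rw [e2]
  congr 1
  field_simp
  nlinarith

theorem ff_anti {n T : ℝ} (hT : 0 < T) {u v : ℝ} (hu : 0 ≤ u) (huv : u ≤ v) (hn : 0 < n) :
    ff n T v ≤ ff n T u := by
  unfold ff
  have hsT : 0 < Real.sinh T := Real.sinh_pos_iff.2 hT
  have h1 : 1 ≤ Real.cosh T / Real.sinh T := by
    rw [one_le_div hsT]
    exact (Real.sinh_lt_cosh T).le
  have h2 : √(n + v ^ 2) ≤ √(n + u ^ 2) + (v - u) := by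
    rw [Real.sqrt_le_left (by have := Real.sqrt_nonneg (n + u ^ 2); linarith)]
    have h3 := Real.sq_sqrt (show 0 ≤ n + u ^ 2 by positivity)
    have h4 : u ≤ √(n + u ^ 2) := by
      apply Real.le_sqrt_of_sq_le
      linarith
    nlinarith [mul_nonneg (sub_nonneg.2 huv) (sub_nonneg.2 h4)]
  nlinarith [mul_nonneg (sub_nonneg.2 huv) (sub_nonneg.2 h1)]

theorem FF_bd {n T : ℝ} (hT : 0 < T) (hn : 0 < n) {u v : ℝ} (hu : 0 ≤ u) (huv : u ≤ v) :
    ff n T v * (v - u) ≤ FF n T v - FF n T u ∧ FF n T v - FF n T u ≤ ff n T u * (v - u) := by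
  rcases huv.eq_or_lt with h | h
  · subst h; simp
  · obtain ⟨ξ, hξ, hξ'⟩ := exists_hasDerivAt_eq_slope (FF n T) (ff n T) h
      (fun y _ => (FF_deriv hn y).continuousAt.continuousWithinAt) (fun y _ => FF_deriv hn y)
    have h1 : FF n T v - FF n T u = ff n T ξ * (v - u) := by
      rw [hξ']
      field_simp [sub_ne_zero.2 h.ne']
    rw [h1]
    have h2 := ff_anti (n := n) hT (hu.trans hξ.1.le) hξ.2.le hn
    have h3 := ff_anti (n := n) hT hu hξ.1.le hn
    have h4 : 0 ≤ v - u := by linarith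
    exact ⟨mul_le_mul_of_nonneg_right h2 h4, mul_le_mul_of_nonneg_right h3 h4⟩

theorem FF_end {n T : ℝ} (hT : 0 < T) (hn : 0 < n) :
    FF n T (√n * Real.sinh T) = n * T / 2 ∧ ff n T (√n * Real.sinh T) = 0 := by
  have hs : 0 < √n := Real.sqrt_pos.2 hn
  have hsT : 0 < Real.sinh T := Real.sinh_pos_iff.2 hT
  have h10 := Real.sq_sqrt hn.le
  have e1 : √(n + (√n * Real.sinh T) ^ 2) = √n * Real.cosh T := by
    rw [mul_pow, h10]
    have : n + n * Real.sinh T ^ 2 = n * Real.cosh T ^ 2 := by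
      rw [Real.cosh_sq]; ring
    rw [this, Real.sqrt_mul hn.le, Real.sqrt_sq (Real.cosh_pos T).le]
  have e2 : √n * Real.sinh T / √n = Real.sinh T := by field_simp
  constructor
  · unfold FF
    rw [e1, e2, Real.arsinh_sinh, mul_pow, h10]
    have e3 : √n * Real.sinh T * (√n * Real.cosh T) = n * (Real.sinh T * Real.cosh T) := by
      rw [← h10]; ring_nf
      rw [Real.sqrt_sq hs.le]
    rw [e3]
    field_simp
    ring
  · unfold ff
    rw [e1]
    field_simp
    ring

/-- the sum over the slices -/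
theorem sum_ff {n T c : ℝ} (hT : 0 < T) (hn : 0 < n) (hc : 0 < c) :
    |∑ y ∈ Finset.range (⌊√n * Real.sinh T / c⌋₊ + 1), ff n T (c * y) - n * T / (2 * c)| ≤
      √n := by
  have hsT : 0 < Real.sinh T := Real.sinh_pos_iff.2 hT
  have hs : 0 < √n := Real.sqrt_pos.2 hn
  set Y : ℝ := √n * Real.sinh T with hY
  have hY0 : 0 < Y := by positivity
  set M : ℕ := ⌊Y / c⌋₊ with hM
  have hMY : c * M ≤ Y := by
    have := Nat.floor_le (show 0 ≤ Y / c by positivity)
    rw [le_div_iff₀ hc] at this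
    rw [hM]
    linarith
  have hMY' : Y < c * (M + 1) := by
    have := Nat.lt_floor_add_one (Y / c)
    rw [div_lt_iff₀ hc] at this
    rw [hM]
    linarith
  obtain ⟨e1, e2⟩ := FF_end hT hn
  have e0 : FF n T 0 = 0 := by
    unfold FF; simp
  have f0 : ff n T 0 = √n := by
    unfold ff; simp
  -- lower and upper sums
  have key : ∀ m : ℕ, FF n T (c * m) ≤ c * ∑ y ∈ Finset.range m, ff n T (c * y) ∧
      c * ∑ y ∈ Finset.range m, ff n T (c * (y + 1 : ℕ)) ≤ FF n T (c * m) := by
    intro m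
    induction m with
    | zero => simp [e0]
    | succ m ih =>
      obtain ⟨ih1, ih2⟩ := ih
      have h1 := FF_bd (n := n) hT hn (u := c * m) (v := c * (m + 1 : ℕ)) (by positivity)
        (by push_cast; nlinarith)
      have h2 : c * ((m + 1 : ℕ) : ℝ) - c * m = c := by push_cast; ring
      rw [h2] at h1
      rw [Finset.sum_range_succ, Finset.sum_range_succ, mul_add, mul_add]
      constructor
      · linarith [h1.2]
      · linarith [h1.1]
  have h3 := key M
  have h4 := FF_bd (n := n) hT hn (u := c * M) (v := Y) (by positivity) hMY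
  rw [e1, e2, zero_mul] at h4
  have h5 : 0 ≤ ff n T (c * M) := by
    have := ff_anti (n := n) hT (show 0 ≤ c * M by positivity) hMY hn
    linarith
  have h6 : ff n T (c * M) * (Y - c * M) ≤ c * ff n T (c * M) := by
    nlinarith [mul_nonneg h5 (show 0 ≤ c - (Y - c * M) by nlinarith)]
  have h7 : ∑ y ∈ Finset.range M, ff n T (c * (y + 1 : ℕ)) + √n =
      ∑ y ∈ Finset.range (M + 1), ff n T (c * y) := by
    rw [Finset.sum_range_succ' (fun y : ℕ => ff n T (c * y)) M]
    simp [f0]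
  have h8 : n * T / 2 ≤ c * ∑ y ∈ Finset.range (M + 1), ff n T (c * y) := by
    rw [Finset.sum_range_succ, mul_add]
    linarith [h3.1, h4.2]
  have h9 : c * ∑ y ∈ Finset.range (M + 1), ff n T (c * y) ≤ n * T / 2 + c * √n := by
    rw [← h7, mul_add]
    linarith [h3.2, h4.1]
  rw [abs_le]
  have e3 : n * T / (2 * c) = (n * T / 2) / c := by field_simp
  rw [e3]
  constructor
  · have : (n * T / 2) / c ≤ ∑ y ∈ Finset.range (M + 1), ff n T (c * y) := by
      rw [div_le_iff₀ hc]; linarith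
    linarith
  · have : ∑ y ∈ Finset.range (M + 1), ff n T (c * y) ≤ (n * T / 2 + c * √n) / c := by
      rw [le_div_iff₀ hc]; linarith
    have e4 : (n * T / 2 + c * √n) / c = (n * T / 2) / c + √n := by field_simp
    linarith

/-! ### the number of points -/

/-- the points of the sector -/
def SS (Q : Form) (T n : ℝ) : Set V := {v : V | Sec Q T v ∧ (Q.q v : ℝ) ≤ n}

/-- **number of lattice points in the sector** -/
theorem cnt {d : ℕ} {Q : Form} (hQ : Hyp d Q) {T : ℝ} (hT : 0 < T) : ∃ C : ℝ, 0 < C ∧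
    ∀ n : ℝ, 0 ≤ n → (SS Q T n).Finite ∧
      |((SS Q T n).ncard : ℝ) - T / √(d : ℝ) * n| ≤ C * (√n + 1) := by
  have hsa := hQ.sa
  have hsd := hQ.sd
  have hsT : 0 < Real.sinh T := Real.sinh_pos_iff.2 hT
  have hcT : 0 < Real.cosh T := Real.cosh_pos T
  set s : ℝ := √(Q.a : ℝ) with hs
  set e : ℝ := √(d : ℝ) with he
  set c : ℝ := e / (2 * s) with hc
  have hc0 : 0 < c := by positivity
  refine ⟨1 / s + Real.sinh T / c + 1, by positivity, fun n hn => ?_⟩
  rcases hn.eq_or_lt with h0 | hn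
  · subst h0
    have h1 : SS Q T 0 = ∅ := by
      rw [Set.eq_empty_iff_forall_notMem]
      rintro v ⟨h1, h2⟩
      have h3 : (0 : ℝ) < Q.q v := by exact_mod_cast h1.1.q_pos hQ
      linarith
    rw [h1]
    refine ⟨Set.finite_empty, ?_⟩
    simp
    positivity
  set M : ℕ := ⌊√n * Real.sinh T / c⌋₊ with hM
  set al : ℕ → ℝ := fun y => (c * y * (Real.cosh T / Real.sinh T) - Q.b * y / (2 * s)) / s
  set be : ℕ → ℝ := fun y => (√(n + (c * y) ^ 2) - Q.b * y / (2 * s)) / s
  have hba : ∀ y : ℕ, be y - al y = ff n T (c * y) / s := by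
    intro y
    simp only [al, be]
    unfold ff
    ring
  have hY0 : 0 < √n * Real.sinh T := mul_pos (Real.sqrt_pos.2 hn) hsT
  have hmem : ∀ v : V, v ∈ SS Q T n ↔ v ∈ (Finset.range (M + 1)).biUnion
      (fun y => (Finset.Ioc ⌊al y⌋ ⌊be y⌋).image (fun x : ℤ => ((x, (y : ℤ)) : V))) := by
    intro v
    rw [Finset.mem_biUnion]
    show (Sec Q T v ∧ (Q.q v : ℝ) ≤ n) ↔ _
    rw [sec_iff hQ hT]
    have hYv : hY Q v = c * v.2 := by
      rw [hQ.hY_eq, hc]; ring
    have hXv : hX Q v = s * v.1 + Q.b * v.2 / (2 * s) := rfl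
    have key : ∀ (x : ℤ) (y : ℕ), (⌊al y⌋ < x ↔
        c * y * Real.cosh T < (s * x + Q.b * y / (2 * s)) * Real.sinh T) ∧
        (x ≤ ⌊be y⌋ ↔ s * x + Q.b * y / (2 * s) ≤ √(n + (c * y) ^ 2)) := by
      intro x y
      rw [Int.floor_lt, Int.le_floor]
      simp only [al, be]
      rw [div_lt_iff₀ hsa, le_div_iff₀ hsa]
      constructor
      · rw [← mul_div_assoc, sub_lt_iff_lt_add, div_lt_iff₀ hsT]
        constructor <;> intro h <;> linarith
      · constructor <;> intro h <;> linarith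
    constructor
    · rintro ⟨h1, h2, h3⟩
      have hv2 : 0 ≤ v.2 := by
        rw [hYv] at h1
        have := nonneg_of_mul_nonneg_right h1 hc0
        exact_mod_cast this
      obtain ⟨y, hy⟩ := Int.eq_ofNat_of_zero_le hv2
      have hyr : (v.2 : ℝ) = y := by rw [hy]; push_cast; rfl
      rw [hXv, hYv, hyr] at h2 h3
      rw [hYv, hyr] at h1
      have hX0 : 0 < s * v.1 + Q.b * y / (2 * s) := by
        by_contra hcon
        push Not at hcon
        have : (s * v.1 + Q.b * y / (2 * s)) * Real.sinh T ≤ 0 :=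
          mul_nonpos_of_nonpos_of_nonneg hcon hsT.le
        nlinarith [mul_nonneg h1 hcT.le]
      refine ⟨y, ?_, ?_⟩
      · rw [Finset.mem_range, Nat.lt_succ_iff, hM]
        apply Nat.le_floor
        rw [le_div_iff₀ hc0]
        -- `Y ≤ √n sinh T`
        have h4 : (c * y) ^ 2 ≤ (√n * Real.sinh T) ^ 2 := by
          rw [mul_pow (√n), Real.sq_sqrt hn.le]
          have h5 : (c * y * Real.cosh T) ^ 2 ≤
              ((s * v.1 + Q.b * y / (2 * s)) * Real.sinh T) ^ 2 := by
            apply pow_le_pow_left₀ (by positivity) h2.le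
          have h6 := Real.cosh_sq T
          rw [mul_pow, h6, mul_pow (s * (v.1 : ℝ) + Q.b * y / (2 * s))] at h5
          nlinarith [mul_le_mul_of_nonneg_right h3 (sq_nonneg (Real.sinh T))]
        have := (abs_le_of_sq_le_sq' h4 hY0.le).2
        linarith
      · rw [Finset.mem_image]
        refine ⟨v.1, ?_, Prod.ext rfl hy.symm⟩
        rw [Finset.mem_Ioc, (key v.1 y).1, (key v.1 y).2]
        exact ⟨h2, Real.le_sqrt_of_sq_le h3⟩
    · rintro ⟨y, _, h2⟩
      rw [Finset.mem_image] at h2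
      obtain ⟨x, hx, rfl⟩ := h2
      rw [Finset.mem_Ioc, (key x y).1, (key x y).2] at hx
      rw [hXv, hYv]
      simp only [Int.cast_natCast]
      refine ⟨by positivity, hx.1, ?_⟩
      have hX0 : 0 < s * x + Q.b * y / (2 * s) := by
        by_contra hcon
        push Not at hcon
        have : (s * x + Q.b * y / (2 * s)) * Real.sinh T ≤ 0 :=
          mul_nonpos_of_nonpos_of_nonneg hcon hsT.le
        have h5 : 0 ≤ c * y * Real.cosh T := by positivity
        linarith [hx.1]
      have h6 := pow_le_pow_left₀ hX0.le hx.2 2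
      rwa [Real.sq_sqrt (by positivity)] at h6
  have hset : SS Q T n = ↑((Finset.range (M + 1)).biUnion
      (fun y => (Finset.Ioc ⌊al y⌋ ⌊be y⌋).image (fun x : ℤ => ((x, (y : ℤ)) : V)))) := by
    ext v
    rw [Finset.mem_coe]
    exact hmem v
  rw [hset]
  refine ⟨Finset.finite_toSet _, ?_⟩
  rw [Set.ncard_coe_finset, Finset.card_biUnion]
  · have hcard : ∀ y : ℕ, ((Finset.Ioc ⌊al y⌋ ⌊be y⌋).image
        (fun x : ℤ => ((x, (y : ℤ)) : V))).card = (⌊be y⌋ - ⌊al y⌋).toNat := by
      intro y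
      rw [Finset.card_image_of_injective _ (fun x x' h => (Prod.mk.inj h).1), Int.card_Ioc]
    simp only [hcard]
    have h1 : ∀ y ∈ Finset.range (M + 1), |(((⌊be y⌋ - ⌊al y⌋).toNat : ℕ) : ℝ) -
        ff n T (c * y) / s| ≤ 1 := by
      intro y hy
      rw [Finset.mem_range, Nat.lt_succ_iff] at hy
      have h2 : 0 ≤ ff n T (c * y) := by
        have h3 : c * y ≤ √n * Real.sinh T := by
          have h4 : (y : ℝ) ≤ √n * Real.sinh T / c := by
            have := Nat.floor_le (show 0 ≤ √n * Real.sinh T / c by positivity)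
            have h5 : (y : ℝ) ≤ M := by exact_mod_cast hy
            rw [hM] at h5
            linarith
          rw [le_div_iff₀ hc0] at h4
          linarith
        have h4 := ff_anti (n := n) hT (show 0 ≤ c * y by positivity) h3 hn
        rw [(FF_end hT hn).2] at h4
        exact h4
      rw [← hba y]
      have h3 : al y ≤ be y := by
        have : 0 ≤ ff n T (c * y) / s := by positivity
        linarith [hba y]
      have h4 : ⌊al y⌋ ≤ ⌊be y⌋ := Int.floor_le_floor h3
      have h5 : (((⌊be y⌋ - ⌊al y⌋).toNat : ℕ) : ℝ) = (⌊be y⌋ : ℝ) - ⌊al y⌋ := by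
        have : (((⌊be y⌋ - ⌊al y⌋).toNat : ℕ) : ℤ) = ⌊be y⌋ - ⌊al y⌋ :=
          Int.toNat_of_nonneg (by linarith)
        exact_mod_cast this
      rw [h5, abs_le]
      have a1 := Int.floor_le (al y)
      have a2 := Int.lt_floor_add_one (al y)
      have a3 := Int.floor_le (be y)
      have a4 := Int.lt_floor_add_one (be y)
      constructor <;> linarith
    have h2 := sum_ff hT hn hc0
    rw [← hM] at h2
    have h3 : |((∑ y ∈ Finset.range (M + 1), (⌊be y⌋ - ⌊al y⌋).toNat : ℕ) : ℝ) -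
        (∑ y ∈ Finset.range (M + 1), ff n T (c * y)) / s| ≤ M + 1 := by
      push_cast
      rw [Finset.sum_div, ← Finset.sum_sub_distrib]
      refine (Finset.abs_sum_le_sum_abs _ _).trans ((Finset.sum_le_sum h1).trans ?_)
      simp
    have h4 : |(∑ y ∈ Finset.range (M + 1), ff n T (c * y)) / s - T / e * n| ≤ √n / s := by
      have e1 : T / e * n = n * T / (2 * c) / s := by
        rw [hc]
        field_simp
      rw [e1, ← sub_div, abs_div, abs_of_pos hsa]
      exact div_le_div_of_nonneg_right h2 hsa.le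
    have h5 : (M : ℝ) ≤ √n * Real.sinh T / c := Nat.floor_le (by positivity)
    have h6 := abs_sub_le ((∑ y ∈ Finset.range (M + 1), (⌊be y⌋ - ⌊al y⌋).toNat : ℕ) : ℝ)
      ((∑ y ∈ Finset.range (M + 1), ff n T (c * y)) / s) (T / e * n)
    have h7 : 0 ≤ √n := Real.sqrt_nonneg n
    have h8 : (1 / s + Real.sinh T / c + 1) * (√n + 1) =
        √n / s + √n * Real.sinh T / c + 1 + (√n + 1 / s + Real.sinh T / c) := by ring
    rw [h8]
    have h9 : 0 ≤ √n + 1 / s + Real.sinh T / c := by positivity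
    linarith
  · intro y _ y' _ hne
    rw [Function.onFun, Finset.disjoint_left]
    intro v h1 h2
    rw [Finset.mem_image] at h1 h2
    obtain ⟨x, _, rfl⟩ := h1
    obtain ⟨x', _, h3⟩ := h2
    have := (Prod.mk.inj h3).2
    apply hne
    exact_mod_cast this.symm

end Pool.Agent.Lib.MP_a17b09_nt.MRH.CntH84
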