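import Pool.Agent.Lib.MP_a17b09_nt.MRH.Defs79
import Pool.Agent.Lib.MP_a17b09_nt.MRH.CntH84

/-!
Project MRH (Matomaki-Radziwill in thin sectors for every positive nonsquare discriminant):
statements.  The form of `MRSG/StmtsG29` for vectors of the cone modulo the automorph of the period.
Shells are taken over the sector `0 ≤ ψ < T`; a function of a vector may be moved by the automorph
`act (rp i) D.a` when it is invariant (`ch_act`).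
-/

set_option autoImplicit false

open Filter Topology Finset

namespace Pool.Agent.Lib.MP_a17b09_nt.MRH

open CH CH.PE HY HY.S68

section defs

variable {D : Dat}

/-- frequencies -/
abbrev Fq (D : Dat) : Type := Σ j : ℤ, Fin (mm D j)

/-- frequencies with `|j| ≤ J` -/
noncomputable def SJ (D : Dat) (J : ℕ) : Finset (Fq D) :=
  (Finset.Icc (-(J : ℤ)) J).sigma fun _ => Finset.univ

theorem mem_SJ {J : ℕ} {w : Fq D} : w ∈ SJ D J ↔ -(J : ℤ) ≤ w.1 ∧ w.1 ≤ J := by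
  unfold SJ
  rw [Finset.mem_sigma, Finset.mem_Icc]
  simp

/-- sums over frequencies -/
theorem sum_SJ (J : ℕ) (f : Fq D → ℝ) :
    ∑ w ∈ SJ D J, f w = ∑ j ∈ Finset.Icc (-(J : ℤ)) J, ∑ k : Fin (mm D j), f ⟨j, k⟩ := by
  unfold SJ
  rw [Finset.sum_sigma]

/-- the eigenfunction of the frequency `w` -/
noncomputable def ch (w : Fq D) (i : Cx D) (v : V) : ℂ :=
  (starRingEnd ℂ) ((bv D w.1 w.2 : Hs D) (i, cl D.K v)) * uu i v ^ w.1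

/-- the eigenvalue of the prime `P` -/
noncomputable def cw (P : ℕ × Bool) (w : Fq D) : ℂ := cv D P w.1 w.2

/-- the eigenvalue of the scalar `n` -/
noncomputable def sw (n : (ZMod D.K)ˣ) (w : Fq D) : ℂ := sv D n w.1 w.2

theorem norm_cw {P : ℕ × Bool} (h : Adm D P) (w : Fq D) : ‖cw P w‖ = 1 := (bv_spec h w.1 w.2).1

theorem norm_sw (n : (ZMod D.K)ˣ) (w : Fq D) : ‖sw n w‖ = 1 := (bv_spec_sc n w.1 w.2).1

theorem cw_conj {p : ℕ} {b : Bool} (h : Adm D (p, b)) (w : Fq D) :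
    cw (p, b) w * cw (p, !b) w = sw (ZMod.unitOfCoprime p h.cop) w := cv_conj h w.1 w.2

theorem bv_le (w : Fq D) (ia : Cx D × (ZMod D.K × ZMod D.K)) :
    ‖(bv D w.1 w.2 : Hs D) ia‖ ≤ 1 := by
  have h1 := norm_bv (D := D) w.1 w.2
  have h2 := EuclideanSpace.norm_sq_eq (bv D w.1 w.2 : Hs D)
  rw [h1] at h2
  have h3 : ‖(bv D w.1 w.2 : Hs D) ia‖ ^ 2 ≤
      ∑ x, ‖(bv D w.1 w.2 : Hs D) x‖ ^ 2 :=
    Finset.single_le_sum (f := fun x => ‖(bv D w.1 w.2 : Hs D) x‖ ^ 2)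
      (fun _ _ => by positivity) (Finset.mem_univ ia)
  have h4 := norm_nonneg ((bv D w.1 w.2 : Hs D) ia)
  nlinarith

theorem norm_ch_le (w : Fq D) (i : Cx D) (v : V) : ‖ch w i v‖ ≤ 1 := by
  unfold ch
  rw [norm_mul, norm_zpow, norm_uu, one_zpow, mul_one, RCLike.norm_conj]
  exact bv_le w _

/-- the eigenfunction equation -/
theorem ch_M {P : ℕ × Bool} (h : Adm D P) (w : Fq D) (i : Cx D) {v : V}
    (hv : Cn (rp (sg D P i)) v) :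
    ch w i ((Mg D P i).app v) = cw P w * ch w (sg D P i) v := by
  obtain ⟨h1, h2⟩ := bv_spec h w.1 w.2
  have h3 : Ug D P w.1 (bv D w.1 w.2 : Hs D) (i, cl D.K ((Mg D P i).app v)) =
      cw P w * (bv D w.1 w.2 : Hs D) (i, cl D.K ((Mg D P i).app v)) := by
    rw [h2]; rfl
  rw [Ug_apply, MRSG.cl_app', MRSG.ai_az (unit_M h i)] at h3
  unfold ch
  rw [uu_M h i hv, MRSG.cl_app', mul_zpow]
  set c := cw P w with hc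
  set p := uu i ((Mg D P i).app (1, 0)) ^ w.1 with hp
  have hcc : c * (starRingEnd ℂ) c = 1 := by
    rw [Complex.mul_conj, Complex.normSq_eq_norm_sq, norm_cw h w]; norm_num
  have hpp : p * (starRingEnd ℂ) p = 1 := by
    rw [Complex.mul_conj, Complex.normSq_eq_norm_sq, hp, norm_phase P i w.1]; norm_num
  have h4 := congrArg (starRingEnd ℂ) h3
  rw [map_mul, map_mul] at h4
  set A := (starRingEnd ℂ) ((bv D w.1 w.2 : Hs D) (i, az (Mg D P i) (cl D.K v))) with hA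
  set B := (starRingEnd ℂ) ((bv D w.1 w.2 : Hs D) (sg D P i, cl D.K v)) with hB
  have h5 : A * p = c * B := by
    calc A * p = (c * (starRingEnd ℂ) c) * A * p := by rw [hcc, one_mul]
      _ = c * p * ((starRingEnd ℂ) c * A) := by ring
      _ = c * p * ((starRingEnd ℂ) p * B) := by rw [← h4]
      _ = c * B * (p * (starRingEnd ℂ) p) := by ring
      _ = c * B := by rw [hpp, mul_one]
  calc A * (p * uu (sg D P i) v ^ w.1) = (A * p) * uu (sg D P i) v ^ w.1 := by ring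
    _ = c * (B * uu (sg D P i) v ^ w.1) := by rw [h5]; ring

/-- scalars prime to `K` -/
theorem ch_smul {n : ℕ} (hn : 0 < n) (hc : Nat.Coprime n D.K) (w : Fq D) (i : Cx D) (v : V) :
    ch w i ((n : ℤ) • v) = sw (ZMod.unitOfCoprime n hc) w * ch w i v := by
  obtain ⟨h1, h2⟩ := bv_spec_sc (D := D) (ZMod.unitOfCoprime n hc) w.1 w.2
  have h3 : Rn D (ZMod.unitOfCoprime n hc) (bv D w.1 w.2 : Hs D) (i, cl D.K ((n : ℤ) • v)) =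
      sw (ZMod.unitOfCoprime n hc) w * (bv D w.1 w.2 : Hs D) (i, cl D.K ((n : ℤ) • v)) := by
    rw [h2]; rfl
  have h6 : MRSG.sc (((ZMod.unitOfCoprime n hc)⁻¹ : (ZMod D.K)ˣ) : ZMod D.K)
      (cl D.K ((n : ℤ) • v)) = cl D.K v := by
    rw [MRSG.cl_smul', MRSG.sc_sc]
    have : (((ZMod.unitOfCoprime n hc)⁻¹ : (ZMod D.K)ˣ) : ZMod D.K) * ((n : ℤ) : ZMod D.K) = 1 := by
      have h7 := Units.inv_mul (ZMod.unitOfCoprime n hc)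
      rwa [ZMod.coe_unitOfCoprime, ← Int.cast_natCast] at h7
    rw [this, MRSG.sc_one]
  rw [Rn_apply, h6] at h3
  unfold ch
  rw [uu_smul _ (by exact_mod_cast hn)]
  set s := sw (ZMod.unitOfCoprime n hc) w with hs
  have hss : s * (starRingEnd ℂ) s = 1 := by
    rw [Complex.mul_conj, Complex.normSq_eq_norm_sq, hs, norm_sw]; norm_num
  have h4 := congrArg (starRingEnd ℂ) h3
  rw [map_mul] at h4
  rw [h4]
  linear_combination (-(starRingEnd ℂ) ((bv D w.1 w.2 : Hs D) (i, cl D.K ((n : ℤ) • v))) *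
    uu i v ^ w.1) * hss

/-- the eigenfunctions are invariant under the automorphs which preserve the cone -/
theorem ch_auto (w : Fq D) {i : Cx D} {γ : Mat} (h1 : γ.det = 1) (h : (rp i).comp γ = rp i)
    (hc : Cn (rp i) (γ.app (1, 0))) {v : V} (hv : Cn (rp i) v) :
    ch w i (γ.app v) = ch w i v := by
  have h3 : (bv D w.1 w.2 : Hs D) (i, az γ (cl D.K v)) =
      uu i (γ.app (1, 0)) ^ w.1 * (bv D w.1 w.2 : Hs D) (i, cl D.K v) :=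
    (bv D w.1 w.2).2 i γ h1 h hc _
  unfold ch
  rw [MRSG.cl_app', h3, uu_auto h1 h hc hv, mul_zpow, map_mul]
  have hpp : (starRingEnd ℂ) (uu i (γ.app (1, 0)) ^ w.1) * uu i (γ.app (1, 0)) ^ w.1 = 1 := by
    rw [mul_comm, Complex.mul_conj, Complex.normSq_eq_norm_sq, norm_zpow, norm_uu, one_zpow]
    norm_num
  linear_combination ((starRingEnd ℂ) ((bv D w.1 w.2 : Hs D) (i, cl D.K v)) * uu i v ^ w.1) * hpp

/-- the eigenfunctions are invariant under the automorph of the period -/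
theorem ch_act (w : Fq D) (i : Cx D) {v : V} (hv : Cn (rp i) v) :
    ch w i (act (rp i) D.a v) = ch w i v := by
  unfold ch
  rw [cl_act, uu_act i hv]

/-- the vector of the sums `∑ a_i(v) uu_i(v)^j` over the classes modulo `K` -/
noncomputable def vec (D : Dat) (S : Cx D → Finset V) (a : Cx D → V → ℂ) (j : ℤ) : Hs D :=
  WithLp.toLp 2 (fun ia => ∑ v ∈ (S ia.1).filter (fun v => cl D.K v = ia.2),
    a ia.1 v * uu ia.1 v ^ j)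

theorem vec_apply (S : Cx D → Finset V) (a : Cx D → V → ℂ) (j : ℤ) (i : Cx D)
    (α : ZMod D.K × ZMod D.K) : vec D S a j (i, α) =
    ∑ v ∈ (S i).filter (fun v => cl D.K v = α), a i v * uu i v ^ j := rfl

/-- the coordinate of `vec` -/
theorem co_vec (S : Cx D → Finset V) (a : Cx D → V → ℂ) (j : ℤ) (k : Fin (mm D j)) :
    co D j k (vec D S a j) = ∑ i, ∑ v ∈ S i, a i v * ch ⟨j, k⟩ i v := by
  rw [co_eq, Fintype.sum_prod_type]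
  refine Finset.sum_congr rfl fun i _ => ?_
  have h1 : ∀ α : ZMod D.K × ZMod D.K, (starRingEnd ℂ) ((bv D j k : Hs D) (i, α)) *
      vec D S a j (i, α) = ∑ v ∈ (S i).filter (fun v => cl D.K v = α), a i v * ch ⟨j, k⟩ i v := by
    intro α
    rw [vec_apply, Finset.mul_sum]
    refine Finset.sum_congr rfl fun v hv => ?_
    have h2 := (Finset.mem_filter.1 hv).2
    unfold ch
    rw [h2]
    ring
  rw [Finset.sum_congr rfl fun α _ => h1 α]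
  exact Finset.sum_fiberwise (S i) (fun v => cl D.K v) (fun v => a i v * ch ⟨j, k⟩ i v)

theorem shg_finite (i : Cx D) (a b : ℝ) :
    {v : V | Sec (rp i) D.T v ∧ a < (rp i).q v ∧ ((rp i).q v : ℝ) ≤ b}.Finite := by
  obtain ⟨C, -, h⟩ := CntH84.cnt (rp_hyp i) D.T_pos
  rcases lt_or_ge b 0 with hb | hb
  · refine (Set.finite_empty).subset ?_
    rintro v ⟨h1, h2, h3⟩
    have h4 : (0 : ℝ) < (rp i).q v := by exact_mod_cast h1.1.q_pos (rp_hyp i)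
    linarith
  · exact (h b hb).1.subset fun v hv => ⟨hv.1, hv.2.2⟩

/-- vectors of the sector of the class `i` with `a < Q_i(v) ≤ b` -/
noncomputable def Shg (i : Cx D) (a b : ℝ) : Finset V := (shg_finite i a b).toFinset

theorem mem_Shg {i : Cx D} {a b : ℝ} {v : V} :
    v ∈ Shg i a b ↔ Sec (rp i) D.T v ∧ a < (rp i).q v ∧ ((rp i).q v : ℝ) ≤ b := by
  unfold Shg
  rw [Set.Finite.mem_toFinset]
  rfl

/-- the vector of the shell sums over all vectors -/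
noncomputable def VAg (D : Dat) (z : ℂ) (r1 r2 N : ℝ) (j : ℤ) : Hs D :=
  vec D (fun i => Shg i (r1 * N) (r2 * N)) (fun i v => (1 / (N : ℂ)) * gz z (rp i) v) j

/-- the vector of the shell sums over the primitive vectors -/
noncomputable def VPg (D : Dat) (z : ℂ) (r1 r2 N : ℝ) (j : ℤ) : Hs D :=
  vec D (fun i => (Shg i (r1 * N) (r2 * N)).filter Prim)
    (fun i v => (1 / (N : ℂ)) * gz z (rp i) v) j

/-- all vectors of the shell -/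
noncomputable def Mag (z : ℂ) (r1 r2 N : ℝ) (w : Fq D) : ℂ :=
  (1 / (N : ℂ)) * ∑ i, ∑ v ∈ Shg i (r1 * N) (r2 * N), gz z (rp i) v * ch w i v

/-- primitive vectors of the shell -/
noncomputable def Mpg (z : ℂ) (r1 r2 N : ℝ) (w : Fq D) : ℂ :=
  (1 / (N : ℂ)) * ∑ i, ∑ v ∈ (Shg i (r1 * N) (r2 * N)).filter Prim, gz z (rp i) v * ch w i v

theorem co_VAg (z : ℂ) (r1 r2 N : ℝ) (j : ℤ) (k : Fin (mm D j)) :
    co D j k (VAg D z r1 r2 N j) = Mag z r1 r2 N ⟨j, k⟩ := by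
  unfold VAg Mag
  rw [co_vec, Finset.mul_sum]
  refine Finset.sum_congr rfl fun i _ => ?_
  rw [Finset.mul_sum]
  exact Finset.sum_congr rfl fun v _ => by ring

theorem co_VPg (z : ℂ) (r1 r2 N : ℝ) (j : ℤ) (k : Fin (mm D j)) :
    co D j k (VPg D z r1 r2 N j) = Mpg z r1 r2 N ⟨j, k⟩ := by
  unfold VPg Mpg
  rw [co_vec, Finset.mul_sum]
  refine Finset.sum_congr rfl fun i _ => ?_
  rw [Finset.mul_sum]
  exact Finset.sum_congr rfl fun v _ => by ring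

end defs

section primes

open Classical in
/-- the primes `P = (p, ±)` in use, `a ≤ p < b` -/
noncomputable def slg (D : Dat) (a b : ℝ) : Finset (ℕ × Bool) :=
  ((Finset.range ⌈b⌉₊) ×ˢ (Finset.univ : Finset Bool)).filter
    (fun P => Adm D P ∧ a ≤ (P.1 : ℝ) ∧ (P.1 : ℝ) < b)

theorem mem_slg {D : Dat} {a b : ℝ} {P : ℕ × Bool} :
    P ∈ slg D a b ↔ Adm D P ∧ a ≤ (P.1 : ℝ) ∧ (P.1 : ℝ) < b := by
  classical
  unfold slg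
  rw [Finset.mem_filter, Finset.mem_product, Finset.mem_range]
  refine ⟨fun h => h.2, fun h => ⟨⟨?_, Finset.mem_univ _⟩, h⟩⟩
  exact_mod_cast h.2.2.trans_le (Nat.le_ceil b)

/-- `∑ 1/p` -/
noncomputable def LLg (D : Dat) (a b : ℝ) : ℝ := ∑ P ∈ slg D a b, 1 / (P.1 : ℝ)

/-- the slice polynomials -/
noncomputable def Qsg {D : Dat} (z : ℂ) (h u : ℕ) (w : Fq D) : ℂ :=
  ∑ P ∈ slg D (Real.exp (u / h)) (Real.exp ((u + 1) / h)), z * cw P w / (P.1 : ℂ)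

end primes

section props

variable (D : Dat)

/-! ### Part 0: structure -/

/-- invariant families of functions -/
def FInv (f : Cx D → V → ℂ) : Prop :=
  ∀ i v, Cn (rp i) v → f i (act (rp i) D.a v) = f i v

/-- UNF: sums of invariant functions over the shell may be taken over any shifted sector -/
def StUnfG : Prop := ∀ f : Cx D → V → ℂ, FInv D f → ∀ (i : Cx D) (a b s : ℝ) (S : Finset V),
  (∀ v, v ∈ S ↔ Cn (rp i) v ∧ s ≤ ps (rp i) v ∧ ps (rp i) v < s + D.T ∧ a < (rp i).q v ∧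
    ((rp i).q v : ℝ) ≤ b) → ∑ v ∈ S, f i v = ∑ v ∈ Shg i a b, f i v

/-- RED: the representative in the sector -/
def StRedG : Prop := ∃ rd : Cx D → V → V, ∀ i v, Cn (rp i) v → Sec (rp i) D.T (rd i v) ∧
  (∃ n : ℤ, rd i v = act (rp i) (D.a ^ n) v) ∧ (rp i).q (rd i v) = (rp i).q v ∧
  uu i (rd i v) = uu i v ∧ cl D.K (rd i v) = cl D.K v ∧
  Int.gcd (rd i v).1 (rd i v).2 = Int.gcd v.1 v.2 ∧ rd i (act (rp i) D.a v) = rd i v ∧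
  (Sec (rp i) D.T v → rd i v = v) ∧ (∀ w : Fq D, ch w i (rd i v) = ch w i v)

/-- STRUCT: the shell vectors are in `E_j`; Parseval -/
def StParG : Prop := ∀ (z : ℂ) (r1 r2 N : ℝ) (j : ℤ),
  VAg D z r1 r2 N j ∈ Ej D j ∧ VPg D z r1 r2 N j ∈ Ej D j ∧
  ∑ k, ‖Mag z r1 r2 N (⟨j, k⟩ : Fq D)‖ ^ 2 = ∑ ia, ‖VAg D z r1 r2 N j ia‖ ^ 2 ∧
  ∑ k, ‖Mpg z r1 r2 N (⟨j, k⟩ : Fq D)‖ ^ 2 = ∑ ia, ‖VPg D z r1 r2 N j ia‖ ^ 2

open Classical in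
/-- IDENT: the exact identity for the vectors `M_P u`, for invariant functions -/
def StIdG : Prop := ∀ (z : ℂ) (a b : ℝ) (P : ℕ × Bool) (w : Fq D), Adm D P →
  (∀ f : Cx D → V → ℂ, FInv D f → ∀ i, ∑ v ∈ (Shg i a b).filter (fun v => Im (Mg D P i) v), f i v =
    ∑ u ∈ Shg (sg D P i) (a / P.1) (b / P.1), f i ((Mg D P i).app u)) ∧
  ∑ i, ∑ v ∈ (Shg i a b).filter (fun v => Im (Mg D P i) v), gz z (rp i) v * ch w i v =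
    z * cw P w * ∑ i, ∑ u ∈ Shg i (a / P.1) (b / P.1), gz z (rp i) u * ch w i u

/-! ### Part 1: levels (captain 38) -/

/-- LSP: large sieve for primitive vectors of the sector (22) -/
def StLspG : Prop := ∃ C : ℝ, 0 < C ∧ ∀ (X : ℝ) (J : ℕ), 1 ≤ X →
  ∀ S : Cx D → Finset V, (∀ i, ∀ v ∈ S i, Sec (rp i) D.T v ∧ Prim v ∧ ((rp i).q v : ℝ) ≤ X) →
  ∀ a : Cx D → V → ℂ, ∑ w ∈ SJ D J, ‖∑ i, ∑ v ∈ S i, a i v * ch w i v‖ ^ 2 ≤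
    C * (X + J) * ∑ i, ∑ v ∈ S i, ‖a i v‖ ^ 2

/-- LS: large sieve, all vectors of the sector (22) -/
def StLsG : Prop := ∃ C : ℝ, 0 < C ∧ ∀ (N B : ℝ) (J : ℕ), 1 ≤ N → 1 ≤ B →
  ∀ S : Cx D → Finset V, (∀ i, ∀ v ∈ S i, Sec (rp i) D.T v ∧ N ≤ (rp i).q v ∧
    ((rp i).q v : ℝ) ≤ B * N) →
  ∀ a : Cx D → V → ℂ, ∑ w ∈ SJ D J, ‖∑ i, ∑ v ∈ S i, a i v * ch w i v‖ ^ 2 ≤
    C * B ^ 2 * ∑ i, ∑ v ∈ S i, ‖a i v‖ ^ 2 * (N + (J + 1) * Int.gcd v.1 v.2)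

/-- MER (7) -/
def StMerG : Prop := ∃ κ C : ℝ, 0 < κ ∧ 0 < C ∧ ∀ a b : ℝ, 2 ≤ a → a ≤ b →
  κ * Real.log (Real.log b / Real.log a) - C ≤ LLg D a b

/-- CHEB, upper bound for short windows (7) -/
def StChebG : Prop := ∃ C : ℝ, 0 < C ∧ (∀ y : ℝ, 2 ≤ y → LLg D y (2 * y) ≤ C / Real.log y) ∧
  ∀ a b : ℝ, 2 ≤ a → a ≤ b → LLg D a b ≤ 2 * Real.log (Real.log b / Real.log a) + C

/-- DEC (21), hypothesis `hDec` of `LevAbs.lev_abs` -/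
def StDecG : Prop := ∀ z : ℂ, ‖z‖ = 1 → ∀ r1 r2 : ℝ, 0 < r1 → r1 < r2 →
  ∃ C N0 : ℝ, 0 < C ∧ 1 ≤ N0 ∧ ∀ (h u0 u1 : ℕ) (N : ℝ), 0 < h → 3 * h ≤ u0 → u0 < u1 →
  N0 ≤ N → (h : ℝ) ≤ N ^ (1 / 8 : ℝ) → Real.exp (u1 / h) ≤ N ^ (1 / 8 : ℝ) →
  1 ≤ LLg D (Real.exp (u0 / h)) (Real.exp (u1 / h)) → ∀ J : ℕ, (J : ℝ) ≤ N →
  ∑ w ∈ SJ D J, ‖Mpg z r1 r2 N w -
    (1 / (LLg D (Real.exp (u0 / h)) (Real.exp (u1 / h)) : ℂ)) *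
    ∑ u ∈ Finset.Ico u0 u1, Qsg z h u w * Mpg z r1 r2 (N * Real.exp (-(u / h))) w‖ ^ 2 ≤
  C * (1 / LLg D (Real.exp (u0 / h)) (Real.exp (u1 / h)) + 1 / h + h / u0)

/-- MOM (16), hypothesis `hMom` of `LevAbs.lev_abs`, `r = r1` -/
def StMomG : Prop := ∀ z : ℂ, ‖z‖ = 1 → ∀ r1 r2 : ℝ, 0 < r1 → r1 < r2 →
  ∃ C : ℝ, 1 ≤ C ∧ ∀ (h u l J : ℕ) (N : ℝ), 0 < h → 3 * h ≤ u → 1 ≤ r1 * N →
  (J : ℝ) ≤ Real.exp (l * (u / h)) * (r1 * N) →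
  ∑ w ∈ SJ D J, ‖Qsg z h u w ^ l * Mpg z r1 r2 N w‖ ^ 2 ≤ C ^ (l + 1) * (l.factorial : ℝ) ^ 2

/-- MOM1 (16), hypothesis `hMom1` of `LevAbs.lev_abs` -/
def StMom1G : Prop := ∀ z : ℂ, ‖z‖ = 1 → ∃ C : ℝ, 1 ≤ C ∧ ∀ (h u l J : ℕ), 0 < h → 3 * h ≤ u →
  (J : ℝ) ≤ Real.exp (l * (u / h)) →
  ∑ w ∈ SJ D J, ‖Qsg z h u w ^ l‖ ^ 2 ≤ C ^ (l + 1) * (l.factorial : ℝ) ^ 2

/-- LEV (38) -/
def StLevG : Prop := ∀ z : ℂ, ‖z‖ = 1 → ∀ r1 r2 : ℝ, 0 < r1 → r1 < r2 → ∀ ε c : ℝ, 0 < ε →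
  0 < c → ∃ H0 : ℝ, 1 ≤ H0 ∧ ∀ H : ℝ, H0 ≤ H → ∃ N0 : ℝ, ∀ N : ℝ, N0 ≤ N →
  ∃ U ⊆ SJ D ⌊N / H⌋₊, (U.card : ℝ) ≤ N ^ c ∧
    ∑ w ∈ SJ D ⌊N / H⌋₊ \ U, ‖Mpg z r1 r2 N w‖ ^ 2 ≤ ε

/-! ### Part 2: the set `U` (captain 86) -/

/-- EXP: exponential sums over the shells in classes modulo `q` (67), `Q` any form `Hyp`,
`T` any period; the main term for the frequency `0` -/
def StExpG : Prop := ∀ i : Cx D, ∀ κ : ℝ, 0 < κ → ∃ c C : ℝ, 0 < c ∧ 0 < C ∧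
  ∀ (X : ℝ) (j : ℤ), 1 ≤ X → |(j : ℝ)| ≤ X → ∀ (q : ℕ) (a : V), 0 < q → ∀ Y Y1 Y2 : ℝ,
  (q : ℝ) ^ 2 * X ^ κ ≤ Y → 0 ≤ Y1 → Y1 ≤ Y2 → Y2 ≤ Y → ∀ S : Finset V,
  (∀ v, v ∈ S ↔ v ∈ Shg i Y1 Y2 ∧ (q : ℤ) ∣ v.1 - a.1 ∧ (q : ℤ) ∣ v.2 - a.2) →
  ‖∑ v ∈ S, uu i v ^ j - (((if j = 0 then D.T * (Y2 - Y1) / (√(D.d : ℝ) * (q : ℝ) ^ 2) else 0) :
    ℝ) : ℂ)‖ ≤ C * (Y / q ^ 2) ^ (1 - c)

/-- TKH -/
def StTkhG : Prop := ∀ z : ℂ, ‖z‖ = 1 → ∀ r1 r2 : ℝ, 0 ≤ r1 → r1 < r2 → ∃ c C N0 : ℝ,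
  0 < c ∧ c ≤ 1 / 8 ∧ 0 < C ∧ 1 ≤ N0 ∧ ∀ N : ℝ, N0 ≤ N → ∀ U : Finset (Fq D),
  (U.card : ℝ) ≤ N ^ c → (∀ w ∈ U, |(w.1 : ℝ)| ≤ N ^ 2) →
  ∑ w ∈ U, ∑ P ∈ slg D 3 (N ^ c), (1 / (P.1 : ℝ)) *
    ‖Mag z r1 r2 N w - z * cw P w * Mag z r1 r2 (N / P.1) w‖ ^ 2 ≤ C

/-- HMU -/
def StHmuG : Prop := ∀ r1 r2 : ℝ, 0 ≤ r1 → r1 < r2 → ∃ c C N0 : ℝ, 0 < c ∧ 0 < C ∧ 1 ≤ N0 ∧
  ∀ N : ℝ, N0 ≤ N → ∀ U : Finset (Fq D), (U.card : ℝ) ≤ N ^ c →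
  (∀ w ∈ U, |(w.1 : ℝ)| ≤ N ^ 4) → ∀ a : Cx D → V → ℂ, (∀ i v, ‖a i v‖ ≤ 1) →
    ∑ w ∈ U, ‖(1 / (N : ℂ)) * ∑ i, ∑ v ∈ Shg i (r1 * N) (r2 * N), a i v * ch w i v‖ ^ 2 ≤ C

/-- DJ (40, 3): only `j ≠ 0`; the primes `1` modulo `4 d K` are enough -/
def StDjG : Prop := ∀ c B : ℝ, 0 < c → ∃ N0 : ℝ, 1 ≤ N0 ∧ ∀ N : ℝ, N0 ≤ N → ∀ w : Fq D,
  w.1 ≠ 0 → |(w.1 : ℝ)| ≤ N ^ 2 →
  B ≤ ∑ P ∈ slg D 3 (N ^ c), (1 / (P.1 : ℝ)) * ‖cw P w - cw (P.1, !P.2) w‖ ^ 2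

/-- UALL (39), from StTkhG, StDjG -/
def StUallG : Prop := ∀ z : ℂ, ‖z‖ = 1 → ∀ r1 r2 : ℝ, 0 ≤ r1 → r1 < r2 → ∃ c : ℝ, 0 < c ∧
  ∀ ε : ℝ, 0 < ε → ∃ N0 : ℝ, ∀ N : ℝ, N0 ≤ N → ∀ U : Finset (Fq D), (U.card : ℝ) ≤ N ^ c →
  (∀ w ∈ U, w.1 ≠ 0) → (∀ w ∈ U, |(w.1 : ℝ)| ≤ N ^ 2) → ∑ w ∈ U, ‖Mag z r1 r2 N w‖ ^ 2 ≤ ε

/-- UPRIM (70), from StUallG, StHmuG, StParG -/
def StUpG : Prop := ∀ z : ℂ, ‖z‖ = 1 → ∀ r1 r2 : ℝ, 0 ≤ r1 → r1 < r2 → ∃ c : ℝ, 0 < c ∧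
  ∀ ε : ℝ, 0 < ε → ∃ N0 : ℝ, ∀ N : ℝ, N0 ≤ N → ∀ U : Finset (Fq D), (U.card : ℝ) ≤ N ^ c →
  (∀ w ∈ U, w.1 ≠ 0) → (∀ w ∈ U, |(w.1 : ℝ)| ≤ N) → ∑ w ∈ U, ‖Mpg z r1 r2 N w‖ ^ 2 ≤ ε

/-! ### Part 3: frequency `0` (captain 91) -/

/-- PWT (84): all split primes, both roots -/
def StPwtG : Prop := ∀ z : ℂ, ‖z‖ = 1 → ∃ C : ℝ, 0 < C ∧ ∀ (w : Fq D) (x : ℝ), 1 ≤ x →
  ∀ R : Finset (ℕ × Bool), (∀ P ∈ R, Adm D P ∧ (P.1 : ℝ) ^ 2 ≤ x) →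
  ∑ P ∈ R, (1 / (P.1 : ℝ)) * ‖Mag z 0 1 x w - z * cw P w * Mag z 0 1 (x / P.1) w‖ ≤
    C * (1 + √(∑ P ∈ R, 1 / (P.1 : ℝ)))

/-- LIP (42) -/
def StLipG : Prop := ∀ z : ℂ, ‖z‖ = 1 → ∃ C : ℝ, 0 < C ∧ ∀ (w : Fq D) (x y : ℝ), 1 ≤ x →
  x ≤ y → ‖Mag z 0 1 x w - Mag z 0 1 y w‖ ≤ C * (Real.log (y / x) + 1 / √x)

/-- all vectors of the ball, frequency `0` (91) -/
def StPa0G : Prop := ∀ (z : ℂ) (k : ℕ), 0 < k → z ^ k = 1 → z ≠ 1 → ∀ w : Fq D, w.1 = 0 →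
  Tendsto (fun N : ℝ => Mag z 0 1 N w) atTop (𝓝 0)

/-- PW0 (from StPa0G, StParG and Moebius: 71) -/
def StPw0G : Prop := ∀ (z : ℂ) (k : ℕ), 0 < k → z ^ k = 1 → z ≠ 1 → ∀ r1 r2 : ℝ, 0 ≤ r1 →
  r1 < r2 → ∀ w : Fq D, w.1 = 0 → Tendsto (fun N : ℝ => Mpg z r1 r2 N w) atTop (𝓝 0)

/-! ### Part 4: assembly -/

/-- CORE (29), from StLevG, StUpG, StPw0G -/
def StCoreG : Prop := ∀ (z : ℂ) (k : ℕ), 0 < k → z ^ k = 1 → z ≠ 1 → ∀ r1 r2 : ℝ, 0 < r1 →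
  r1 < r2 → ∀ ε : ℝ, 0 < ε → ∃ H0 : ℝ, 1 ≤ H0 ∧ ∀ H : ℝ, H0 ≤ H → ∃ N0 : ℝ, ∀ N : ℝ, N0 ≤ N →
  ∑ w ∈ SJ D ⌊N / H⌋₊, ‖Mpg z r1 r2 N w‖ ^ 2 ≤ ε

end props

/-! ### Part 5: the end product -/

/-- the shell sum of a form `Hyp` over the sector of length `T` -/
noncomputable def MshH (Q : Form) (T : ℝ) (g : V → ℂ) (r1 r2 n : ℝ) (j : ℤ) : ℂ :=
  (1 / (n : ℂ)) * ∑ᶠ v ∈ {v : V | Sec Q T v ∧ r1 * n < Q.q v ∧ (Q.q v : ℝ) ≤ r2 * n},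
    g v * Complex.exp (((2 * Real.pi * ps Q v / T : ℝ) : ℂ) * Complex.I) ^ j

/-- the interface: mean square of the shell sums over the frequencies `|j| ≤ A n / L` -/
def HMrsQ (Q : Form) (T : ℝ) (z : ℂ) (K : ℕ) : Prop := ∀ α : ZMod K × ZMod K, ∀ r1 r2 : ℝ,
  0 < r1 → r1 < r2 → ∀ A : ℝ, 0 < A → ∀ ε : ℝ, 0 < ε → ∃ L0 : ℝ, 1 ≤ L0 ∧ ∀ L : ℝ, L0 ≤ L →
  ∃ n0 : ℕ, ∀ n : ℕ, n0 ≤ n →
  ∑ j ∈ Finset.Icc (-(⌊A * n / L⌋₊ : ℤ)) ⌊A * n / L⌋₊, ‖MshH Q T (gc z Q K α) r1 r2 n j‖ ^ 2 ≤ ε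

/-- every form `Hyp` of discriminant `d` (90), from `StCoreG D`, `StParG D` for all `D` with
`D.d = d`; `K` may be `1`, the period is that of any solution which is `1` modulo `K` -/
def StMrsH (d : ℕ) : Prop := ∀ Q : Form, Hyp d Q → ∀ (z : ℂ) (k : ℕ), 0 < k → z ^ k = 1 →
  z ≠ 1 → ∀ K : ℕ, 0 < K → ∀ a : Pell.Solution₁ (d : ℤ), PP a → PK K a → HMrsQ Q (per a) z K

/-- Theorem E of project HY for all pairs of roots of unity different from `(1, 1)` -/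
def HEsAll (d : ℕ) : Prop := ∀ (ι : Type) [Fintype ι] (S : HSystem ι), S.d = d →
  ∀ (z1 z2 : ℂ) (k : ℕ), 0 < k → z1 ^ k = 1 → z2 ^ k = 1 → (z1 ≠ 1 ∨ z2 ≠ 1) → HEsFor S z1 z2

/-- GLUE (90, 20), from `StMrsH d`, `StHRedS`, ... -/
def StHGlue (d : ℕ) : Prop := StMrsH d → HEsAll d

end Pool.Agent.Lib.MP_a17b09_nt.MRH
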