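import Pool.Agent.Lib.MP_a17b09_nt.MRH.StrC17
import Pool.Agent.Lib.MP_a17b09_nt.MRH.Stmts79
import Pool.Agent.Lib.MP_a17b09_nt.MRS.TkAbs84
import Pool.Agent.Lib.MP_a17b09_nt.MRSG.PwtG84

/-!
Project MRH (positive discriminant): the inequality of Turan and Kubilius for the primes `(p, ±)` of
a class of forms in the sector, and row PWT.
-/

set_option autoImplicit false

open Finset

namespace Pool.Agent.Lib.MP_a17b09_nt.MRH

open CH CH.PE HY HY.S68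

namespace PwtH84

/-! ### invariance -/

theorem eig_act {d : ℕ} {Q : Form} (hQ : Hyp d Q) (a : Pell.Solution₁ (d : ℤ)) (p r : ℤ) (v : V) :
    Eig p r Q (act Q a v) ↔ Eig p r Q v := by
  constructor
  · intro h w
    have h1 := h (act Q a w)
    rwa [B_act hQ, wd_act hQ] at h1
  · intro h w
    have h1 := h (act Q a⁻¹ w)
    have e : act Q a (act Q a⁻¹ w) = w := by
      rw [← act_mul hQ, mul_inv_cancel, act_one]
    have e1 := B_act hQ a (act Q a⁻¹ w) v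
    have e2 := wd_act hQ a (act Q a⁻¹ w) v
    rw [e] at e1 e2
    rw [e1, e2]
    exact h1

theorem eig_smul {p r n : ℤ} (hpn : IsCoprime p n) {Q : Form} {v : V}
    (h : Eig p r Q (n • v)) : Eig p r Q v := by
  intro w
  have h1 := h w
  rw [Form.B_smul_right, wd_smul_right] at h1
  have h2 : p ∣ n * (Q.B w v - r * wd w v) := by
    have e : n * (Q.B w v - r * wd w v) = n * Q.B w v - r * (n * wd w v) := by ring
    rw [e]; exact h1
  exact hpn.dvd_of_dvd_mul_left h2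

section one

variable {D : Dat}

/-- eigenvectors for another prime correspond -/
theorem eig_M {P P' : ℕ × Bool} (h : Adm D P) (h' : Adm D P') (hne : P.1 ≠ P'.1) (i : Cx D)
    (w : V) : Eig P'.1 (rg D P') (rp i) ((Mg D P i).app w) ↔
      Eig P'.1 (rg D P') (rp (sg D P i)) w := by
  have hco : IsCoprime (P.1 : ℤ) (P'.1 : ℤ) :=
    Nat.isCoprime_iff_coprime.mpr ((Nat.coprime_primes h.1 h'.1).mpr hne)
  obtain ⟨-, R⟩ := rel_g h i
  have hp : Prime (P.1 : ℤ) := Nat.prime_iff_prime_int.1 h.1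
  constructor
  · intro h1
    have h2 := MRSG.Rel.eig_app hco (R.inv hp.ne_zero) h1
    rw [Mat.adj_app, R.det] at h2
    exact eig_smul hco.symm h2
  · intro h1
    exact MRSG.Rel.eig_app hco R h1

/-! ### counting -/

variable (D) in
/-- the density -/
noncomputable def kp : ℝ := D.T / √(D.d : ℝ)

theorem kp_pos : 0 < kp D := by
  unfold kp
  have h1 := D.T_pos
  have h2 : 0 < √(D.d : ℝ) := Real.sqrt_pos.2 (by exact_mod_cast D.d_pos)
  positivity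

theorem card_shS (i : Cx D) (n : ℝ) :
    ((shS (rp i) D.T 0 n).card : ℝ) = ((CntH84.SS (rp i) D.T n).ncard : ℝ) := by
  have h1 : CntH84.SS (rp i) D.T n = ↑(shS (rp i) D.T 0 n) := by
    ext v
    rw [Finset.mem_coe, mem_shS (rp_hyp i)]
    constructor
    · rintro ⟨h1, h2⟩
      exact ⟨h1, by exact_mod_cast h1.1.q_pos (rp_hyp i), h2⟩
    · rintro ⟨h1, _, h2⟩
      exact ⟨h1, h2⟩
  rw [h1, Set.ncard_coe_finset]

variable (D) in
/-- the number of vectors of the sector, all classes -/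
theorem cnt_all : ∃ C : ℝ, 0 < C ∧ ∀ (i : Cx D) (n : ℝ), 0 ≤ n →
    |((shS (rp i) D.T 0 n).card : ℝ) - kp D * n| ≤ C * (√n + 1) := by
  have h := fun i : Cx D => CntH84.cnt (rp_hyp i) D.T_pos
  choose C hC hn using h
  refine ⟨∑ i, C i + 1, by
    have : 0 ≤ ∑ i, C i := Finset.sum_nonneg fun i _ => (hC i).le
    linarith, fun i n h0 => ?_⟩
  rw [card_shS]
  refine ((hn i n h0).2).trans ?_
  have h1 : C i ≤ ∑ i, C i := Finset.single_le_sum (f := C) (fun i _ => (hC i).le)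
    (Finset.mem_univ i)
  have h2 : 0 ≤ √n := Real.sqrt_nonneg n
  nlinarith

open Classical in
/-- the number of eigenvectors -/
theorem card_eig {P : ℕ × Bool} (h : Adm D P) (i : Cx D) (n : ℝ) :
    ((shS (rp i) D.T 0 n).filter (fun v => Eig P.1 (rg D P) (rp i) v)).card =
      (shS (rp (sg D P i)) D.T 0 (n / P.1)).card := by
  have h1 := sum_eig h i 0 n (f := fun _ => (1 : ℂ)) (fun _ _ => rfl)
  rw [Finset.sum_const, Finset.sum_const, nsmul_eq_mul, nsmul_eq_mul, mul_one, mul_one,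
    zero_div] at h1
  exact_mod_cast h1

open Classical in
/-- the number of common eigenvectors of two different primes -/
theorem card_eig2 {P P' : ℕ × Bool} (h : Adm D P) (h' : Adm D P') (hne : P.1 ≠ P'.1) (i : Cx D)
    (n : ℝ) : ((shS (rp i) D.T 0 n).filter (fun v => Eig P.1 (rg D P) (rp i) v ∧
      Eig P'.1 (rg D P') (rp i) v)).card =
      (shS (rp (sg D P' (sg D P i))) D.T 0 (n / P.1 / P'.1)).card := by
  have h1 := sum_eig h i 0 n
    (f := fun v => if Eig P'.1 (rg D P') (rp i) v then (1 : ℂ) else 0) (fun v _ => by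
      simp only [eig_act (rp_hyp i)])
  simp only [eig_M h h' hne] at h1
  rw [← Finset.sum_filter, ← Finset.sum_filter, Finset.filter_filter, zero_div,
    Finset.sum_const, Finset.sum_const, nsmul_eq_mul, nsmul_eq_mul, mul_one, mul_one,
    card_eig h'] at h1
  exact_mod_cast h1

open Classical in
/-- the number of multiples of a prime -/
theorem card_mul {p : ℕ} (hp : 0 < p) (i : Cx D) (n : ℝ) :
    ((shS (rp i) D.T 0 n).filter (fun v => (p : ℤ) ∣ v.1 ∧ (p : ℤ) ∣ v.2)).card =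
      (shS (rp i) D.T 0 (n / (p * p))).card := by
  have hpz : (0 : ℤ) < p := by exact_mod_cast hp
  have hpr : (0 : ℝ) < p := by exact_mod_cast hp
  symm
  refine Finset.card_nbij (fun u => (p : ℤ) • u) ?_ ?_ ?_
  · intro u hu
    rw [Finset.mem_coe, mem_shS (rp_hyp i)] at hu
    rw [Finset.mem_coe, Finset.mem_filter, mem_shS (rp_hyp i), sec_smul _ _ hpz, Form.q_smul]
    obtain ⟨h1, h2, h3⟩ := hu
    rw [le_div_iff₀ (by positivity)] at h3
    refine ⟨⟨h1, ?_, ?_⟩, ⟨u.1, by simp⟩, ⟨u.2, by simp⟩⟩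
    · push_cast
      positivity
    · push_cast
      nlinarith
  · intro u _ u' _ h
    exact smul_right_injective V hpz.ne' h
  · intro v hv
    rw [Finset.mem_coe, Finset.mem_filter, mem_shS (rp_hyp i)] at hv
    obtain ⟨⟨h1, h2, h3⟩, ⟨x, hx⟩, ⟨y, hy⟩⟩ := hv
    have e : v = (p : ℤ) • ((x, y) : V) := by
      apply Prod.ext
      · simp [hx]
      · simp [hy]
    refine ⟨(x, y), ?_, e.symm⟩
    rw [Finset.mem_coe, mem_shS (rp_hyp i)]
    rw [e, sec_smul _ _ hpz] at h1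
    rw [e, Form.q_smul] at h2 h3
    push_cast at h2 h3
    refine ⟨h1, ?_, ?_⟩
    · have : (0 : ℝ) < (p : ℝ) ^ 2 := by positivity
      exact (mul_pos_iff_of_pos_left this).1 h2
    · rw [le_div_iff₀ (by positivity)]
      nlinarith

/-- both roots of a prime -/
theorem eig_conj {P P' : ℕ × Bool} (h : Adm D P) (hne : P ≠ P')
    (hp : P.1 = P'.1) (i : Cx D) (v : V) : (Eig P.1 (rg D P) (rp i) v ∧
      Eig P'.1 (rg D P') (rp i) v) ↔ (P.1 : ℤ) ∣ v.1 ∧ (P.1 : ℤ) ∣ v.2 := by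
  have hb : P.2 ≠ P'.2 := fun hb => hne (Prod.ext hp hb)
  have hrr : rg D P' = -rg D P := by
    unfold rg
    rw [← hp]
    cases h1 : P.2 <;> cases h2 : P'.2 <;> simp_all
  rw [← hp, hrr]
  exact MRSG.eig_both (Nat.prime_iff_prime_int.1 h.1) (rel_g h i).1

variable (D) in
open Classical in
/-- **Turan and Kubilius for the primes of a class, positive discriminant** -/
theorem tkE : ∃ C : ℝ, 0 < C ∧ ∀ (i : Cx D) (X : ℝ), 1 ≤ X → ∀ PP : Finset (ℕ × Bool),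
    (∀ P ∈ PP, Adm D P ∧ (P.1 : ℝ) ^ 2 ≤ X) → ∀ c : ℕ × Bool → ℂ,
    ∑ v ∈ shS (rp i) D.T 0 X, ‖∑ P ∈ PP, c P *
      ((if Eig P.1 (rg D P) (rp i) v then 1 else 0) - 1 / (P.1 : ℂ))‖ ^ 2 ≤
      C * X * ∑ P ∈ PP, ‖c P‖ ^ 2 / (P.1 : ℝ) := by
  obtain ⟨C0, hC0, hcnt⟩ := cnt_all D
  have hk := kp_pos (D := D)
  set E : ℝ := C0 + 2 with hE
  have hcnt' : ∀ (i : Cx D) (n : ℝ), 0 ≤ n →
      |((shS (rp i) D.T 0 n).card : ℝ) - kp D * n| ≤ E * (√n + 1) := by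
    intro i n hn
    refine (hcnt i n hn).trans ?_
    have : 0 ≤ √n + 1 := by positivity
    exact mul_le_mul_of_nonneg_right (by linarith) this
  refine ⟨2 * kp D + 4 * E + 8 * E ^ 2, by positivity, fun i X hX PP hPP c => ?_⟩
  have hX0 : 0 ≤ X := by linarith
  have h := MRS.TkAbs84.tk_abs (shS (rp i) D.T 0 X) PP (fun P => P.1)
    (fun P v => Eig P.1 (rg D P) (rp i) v) (kp D) X E hk.le (by positivity) hX
    (hcnt' i X hX0) (fun P hP => ⟨(hPP P hP).1.1.one_lt.le, (hPP P hP).2⟩) ?_ ?_ ?_ c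
  · refine le_trans (le_of_eq ?_) h
    refine Finset.sum_congr rfl fun v _ => ?_
    congr 2
    refine Finset.sum_congr rfl fun P _ => ?_
    unfold MRS.TkAbs84.dva
    split_ifs <;> push_cast <;> rfl
  · intro P hP
    have h1 := hcnt' (sg D P i) (X / P.1) (by positivity)
    rw [← card_eig (hPP P hP).1 i X] at h1
    exact h1
  · intro P hP P' hP' hne
    by_cases hp : P.1 = P'.1
    · have h1 := hcnt' i (X / (P.1 * P.1)) (by positivity)
      rw [← card_mul (hPP P hP).1.1.pos i X] at h1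
      simp only [eig_conj (hPP P hP).1 hne hp i]
      rw [← hp]
      exact h1
    · have h1 := hcnt' (sg D P' (sg D P i)) (X / P.1 / P'.1) (by positivity)
      rw [← card_eig2 (hPP P hP).1 (hPP P' hP').1 hp i X, div_div] at h1
      exact h1
  · -- the number of primes
    have h1 : PP.card ≤ 2 * (PP.image (fun P => P.1)).card :=
      Finset.card_le_mul_card_image (f := fun P : ℕ × Bool => P.1) PP 2
        (fun n _ => MRSG.PwtG84.fib_le PP n)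
    have h2 : (PP.image (fun P => P.1)) ⊆ Finset.Icc 1 (Nat.sqrt ⌊X⌋₊) := by
      intro n hn
      rw [Finset.mem_image] at hn
      obtain ⟨P, hP, rfl⟩ := hn
      rw [Finset.mem_Icc]
      refine ⟨(hPP P hP).1.1.one_lt.le, ?_⟩
      rw [Nat.le_sqrt']
      exact Nat.le_floor (by push_cast; exact (hPP P hP).2)
    have h3 : (PP.image (fun P => P.1)).card ≤ Nat.sqrt ⌊X⌋₊ := by
      have := Finset.card_le_card h2
      rwa [Nat.card_Icc, Nat.add_sub_cancel] at this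
    have h4 : (Nat.sqrt ⌊X⌋₊ : ℝ) ≤ √X := by
      apply Real.le_sqrt_of_sq_le
      have h5 : ((Nat.sqrt ⌊X⌋₊ ^ 2 : ℕ) : ℝ) ≤ (⌊X⌋₊ : ℝ) := by exact_mod_cast Nat.sqrt_le' ⌊X⌋₊
      push_cast at h5
      exact h5.trans (Nat.floor_le hX0)
    have h5 : (PP.card : ℝ) ≤ 2 * (Nat.sqrt ⌊X⌋₊ : ℝ) := by
      have : PP.card ≤ 2 * Nat.sqrt ⌊X⌋₊ := h1.trans (Nat.mul_le_mul_left 2 h3)
      exact_mod_cast this
    have h6 : 0 ≤ √X := Real.sqrt_nonneg X
    nlinarith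

variable (D) in
open Classical in
/-- bounded functions on any set of vectors and the images of the primes -/
theorem pwt_set : ∃ C : ℝ, 0 < C ∧ ∀ (i : Cx D) (X : ℝ), 1 ≤ X → ∀ PP : Finset (ℕ × Bool),
    (∀ P ∈ PP, Adm D P ∧ (P.1 : ℝ) ^ 2 ≤ X) → ∀ S : Finset V, S ⊆ shS (rp i) D.T 0 X →
    ∀ G : V → ℂ, (∀ v ∈ S, ‖G v‖ ≤ 1) →
    ∑ P ∈ PP, ‖(1 / (P.1 : ℂ)) * ∑ v ∈ S, G v -
      ∑ v ∈ S.filter (fun v => Eig P.1 (rg D P) (rp i) v), G v‖ ≤
      C * X * √(∑ P ∈ PP, 1 / (P.1 : ℝ)) := by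
  obtain ⟨C0, hC0, hcnt⟩ := cnt_all D
  obtain ⟨C1, hC1, htk⟩ := tkE D
  have hk := kp_pos (D := D)
  refine ⟨(kp D + 2 * C0) + C1, by positivity, fun i X hX PP hPP S hS G hG => ?_⟩
  have hX0 : 0 ≤ X := by linarith
  choose w hw1 hw2 using MRSG.PwtG84.phase
  set DD : ℕ × Bool → ℂ := fun P => (1 / (P.1 : ℂ)) * ∑ v ∈ S, G v -
      ∑ v ∈ S.filter (fun v => Eig P.1 (rg D P) (rp i) v), G v with hD
  set c : ℕ × Bool → ℂ := fun P => w (DD P) with hc
  set T : V → ℂ := fun v => ∑ P ∈ PP, c P *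
      ((if Eig P.1 (rg D P) (rp i) v then 1 else 0) - 1 / (P.1 : ℂ)) with hT
  set L : ℝ := ∑ P ∈ PP, 1 / (P.1 : ℝ) with hL
  have hL0 : 0 ≤ L := Finset.sum_nonneg fun _ _ => by positivity
  have hid : ((∑ P ∈ PP, ‖DD P‖ : ℝ) : ℂ) = - ∑ v ∈ S, G v * T v := by
    have h1 : ∀ P ∈ PP, (‖DD P‖ : ℂ) = - ∑ v ∈ S, G v * (c P *
        ((if Eig P.1 (rg D P) (rp i) v then 1 else 0) - 1 / (P.1 : ℂ))) := by
      intro P _
      rw [← hw2 (DD P)]
      have h2 : DD P = - ∑ v ∈ S, G v *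
          ((if Eig P.1 (rg D P) (rp i) v then 1 else 0) - 1 / (P.1 : ℂ)) := by
        rw [hD]
        simp only
        rw [Finset.sum_filter, Finset.mul_sum, ← Finset.sum_neg_distrib, ← Finset.sum_sub_distrib]
        refine Finset.sum_congr rfl fun v _ => ?_
        split_ifs <;> ring
      rw [show w (DD P) * DD P = c P * DD P by rfl]
      conv_lhs => rw [h2]
      rw [mul_neg, Finset.mul_sum]
      congr 1
      refine Finset.sum_congr rfl fun v _ => ?_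
      ring
    push_cast
    rw [Finset.sum_congr rfl h1, Finset.sum_neg_distrib, Finset.sum_comm]
    congr 1
    refine Finset.sum_congr rfl fun v _ => ?_
    rw [hT]
    simp only
    rw [Finset.mul_sum]
  have hnn : 0 ≤ ∑ P ∈ PP, ‖DD P‖ := Finset.sum_nonneg fun _ _ => norm_nonneg _
  have h1 : ∑ P ∈ PP, ‖DD P‖ ≤ ∑ v ∈ shS (rp i) D.T 0 X, 1 * ‖T v‖ := by
    have h2 : ∑ P ∈ PP, ‖DD P‖ = ‖((∑ P ∈ PP, ‖DD P‖ : ℝ) : ℂ)‖ := by
      rw [Complex.norm_real, Real.norm_of_nonneg hnn]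
    rw [h2, hid, norm_neg]
    calc _ ≤ ∑ v ∈ S, ‖G v * T v‖ := norm_sum_le _ _
      _ ≤ ∑ v ∈ S, 1 * ‖T v‖ := by
          refine Finset.sum_le_sum fun v hv => ?_
          rw [norm_mul]
          exact mul_le_mul_of_nonneg_right (hG v hv) (norm_nonneg _)
      _ ≤ _ := Finset.sum_le_sum_of_subset_of_nonneg hS fun _ _ _ => by positivity
  have hcs := Finset.sum_mul_sq_le_sq_mul_sq (shS (rp i) D.T 0 X) (fun _ => (1 : ℝ))
    (fun v => ‖T v‖)
  have hcard : ∑ v ∈ shS (rp i) D.T 0 X, (1 : ℝ) ^ 2 ≤ (kp D + 2 * C0) * X := by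
    simp only [one_pow, Finset.sum_const, nsmul_eq_mul, mul_one]
    have h2 := hcnt i X hX0
    rw [abs_le] at h2
    have h3 : √X ≤ X := by
      rw [Real.sqrt_le_left hX0]
      nlinarith
    nlinarith [h2.2]
  have htk := htk i X hX PP hPP c
  have h3 : ∑ P ∈ PP, ‖c P‖ ^ 2 / (P.1 : ℝ) ≤ L := by
    refine Finset.sum_le_sum fun P _ => ?_
    have h4 : ‖c P‖ ^ 2 ≤ 1 := by
      have h5 := norm_nonneg (c P)
      have h6 : ‖c P‖ ≤ 1 := hw1 (DD P)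
      nlinarith
    gcongr
  have h5 : (∑ P ∈ PP, ‖DD P‖) ^ 2 ≤ (((kp D + 2 * C0) + C1) * X * √L) ^ 2 := by
    calc (∑ P ∈ PP, ‖DD P‖) ^ 2 ≤ (∑ v ∈ shS (rp i) D.T 0 X, 1 * ‖T v‖) ^ 2 :=
          pow_le_pow_left₀ hnn h1 2
      _ ≤ (∑ v ∈ shS (rp i) D.T 0 X, (1 : ℝ) ^ 2) * ∑ v ∈ shS (rp i) D.T 0 X, ‖T v‖ ^ 2 := hcs
      _ ≤ ((kp D + 2 * C0) * X) * (C1 * X * L) := by
          apply mul_le_mul hcard (htk.trans _) (Finset.sum_nonneg fun _ _ => by positivity)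
            (by positivity)
          gcongr
      _ = ((kp D + 2 * C0) * C1) * (X ^ 2 * L) := by ring
      _ ≤ (((kp D + 2 * C0) + C1) ^ 2) * (X ^ 2 * L) := by
          apply mul_le_mul_of_nonneg_right _ (by positivity)
          nlinarith [mul_pos (show 0 < kp D + 2 * C0 by positivity) hC1,
            sq_nonneg (kp D + 2 * C0), sq_nonneg C1]
      _ = _ := by
          rw [mul_pow, mul_pow, Real.sq_sqrt hL0]
          ring
  exact (abs_le_of_sq_le_sq' h5 (by positivity)).2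

theorem norm_gj {z : ℂ} (hz : ‖z‖ = 1) (j : ℤ) (i : Cx D) (v : V) : ‖gj z j i v‖ = 1 := by
  unfold gj
  rw [norm_mul, MRSG.PwtG84.norm_gz hz, norm_zpow, norm_uu, one_zpow, one_mul]

theorem norm_bv_entry (j : ℤ) (k : Fin (mm D j)) (ia : Cx D × (ZMod D.K × ZMod D.K)) :
    ‖(bv D j k : Hs D) ia‖ ≤ 1 := bv_le (⟨j, k⟩ : Fq D) ia

theorem norm_co_le (j : ℤ) (k : Fin (mm D j)) (x : Hs D) : ‖co D j k x‖ ≤ ∑ ia, ‖x ia‖ := by
  rw [co_eq]
  refine (norm_sum_le _ _).trans (Finset.sum_le_sum fun ia _ => ?_)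
  rw [norm_mul, Complex.norm_conj]
  have h1 := norm_bv_entry j k ia
  have h2 := norm_nonneg (x ia)
  nlinarith

variable (D) in
/-- **(PWTH), entries**, any frequency, any shell -/
theorem pwt_entry : ∃ C : ℝ, 0 < C ∧ ∀ z : ℂ, ‖z‖ = 1 → ∀ (j : ℤ) (X : ℝ), 1 ≤ X →
    ∀ PP : Finset (ℕ × Bool), (∀ P ∈ PP, Adm D P ∧ (P.1 : ℝ) ^ 2 ≤ X) →
    ∀ a b : ℝ, b ≤ X → ∀ (i : Cx D) (α : ZMod D.K × ZMod D.K),
    ∑ P ∈ PP, ‖(1 / (P.1 : ℂ)) * VS D z j a b (i, α) -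
      z * Ug D P j (VS D z j (a / P.1) (b / P.1)) (i, α)‖ ≤
      C * X * √(∑ P ∈ PP, 1 / (P.1 : ℝ)) := by
  classical
  obtain ⟨C, hC, h⟩ := pwt_set D
  refine ⟨C, hC, fun z hz j X hX PP hPP a b hb i α => ?_⟩
  have h1 := h i X hX PP hPP ((shS (rp i) D.T a b).filter (fun v => cl D.K v = α))
    (fun v hv => ?_) (gj z j i) (fun v _ => (norm_gj hz j i v).le)
  · refine le_trans (le_of_eq ?_) h1
    refine Finset.sum_congr rfl fun P hP => ?_
    rw [← VS_img (hPP P hP).1 z j a b i α, Finset.filter_filter]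
    rfl
  · rw [Finset.mem_filter, mem_shS (rp_hyp i)] at hv
    rw [mem_shS (rp_hyp i)]
    exact ⟨hv.1.1, by exact_mod_cast hv.1.1.1.q_pos (rp_hyp i), hv.1.2.2.trans hb⟩

variable (D) in
/-- **(PWTH), coordinates**, any frequency, any shell -/
theorem pwt_co : ∃ C : ℝ, 0 < C ∧ ∀ z : ℂ, ‖z‖ = 1 → ∀ (j : ℤ) (X : ℝ), 1 ≤ X →
    ∀ PP : Finset (ℕ × Bool), (∀ P ∈ PP, Adm D P ∧ (P.1 : ℝ) ^ 2 ≤ X) →
    ∀ a b : ℝ, b ≤ X → ∀ k : Fin (mm D j),
    ∑ P ∈ PP, ‖(1 / (P.1 : ℂ)) * co D j k (VS D z j a b) -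
      z * cv D P j k * co D j k (VS D z j (a / P.1) (b / P.1))‖ ≤
      C * X * √(∑ P ∈ PP, 1 / (P.1 : ℝ)) := by
  obtain ⟨C, hC, h⟩ := pwt_entry D
  refine ⟨(Fintype.card (Cx D) * (D.K * D.K) : ℕ) * C + 1, by positivity,
    fun z hz j X hX PP hPP a b hb k => ?_⟩
  have h1 : ∀ P ∈ PP, ‖(1 / (P.1 : ℂ)) * co D j k (VS D z j a b) -
      z * cv D P j k * co D j k (VS D z j (a / P.1) (b / P.1))‖ ≤
      ∑ ia : Cx D × (ZMod D.K × ZMod D.K), ‖(1 / (P.1 : ℂ)) * VS D z j a b ia -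
        z * Ug D P j (VS D z j (a / P.1) (b / P.1)) ia‖ := by
    intro P hP
    have h2 := norm_co_le j k ((1 / (P.1 : ℂ)) • VS D z j a b -
      z • Ug D P j (VS D z j (a / P.1) (b / P.1)))
    rw [co_sub, co_smul, co_smul, co_Ug (hPP P hP).1] at h2
    rw [mul_assoc]
    exact h2
  refine (Finset.sum_le_sum h1).trans ?_
  rw [Finset.sum_comm]
  have h3 : ∀ ia : Cx D × (ZMod D.K × ZMod D.K), ∑ P ∈ PP,
      ‖(1 / (P.1 : ℂ)) * VS D z j a b ia -
        z * Ug D P j (VS D z j (a / P.1) (b / P.1)) ia‖ ≤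
      C * X * √(∑ P ∈ PP, 1 / (P.1 : ℝ)) := fun ia =>
    h z hz j X hX PP hPP a b hb ia.1 ia.2
  refine (Finset.sum_le_sum fun ia _ => h3 ia).trans ?_
  rw [Finset.sum_const, Finset.card_univ, Fintype.card_prod, Fintype.card_prod, ZMod.card,
    nsmul_eq_mul]
  have h4 : 0 ≤ X * √(∑ P ∈ PP, 1 / (P.1 : ℝ)) := by
    have := Real.sqrt_nonneg (∑ P ∈ PP, 1 / (P.1 : ℝ))
    positivity
  nlinarith

end one

end PwtH84

variable {D : Dat}

theorem Shg_eq_84 (i : Cx D) (a b : ℝ) : Shg i a b = shS (rp i) D.T a b := by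
  ext v
  rw [mem_Shg, mem_shS (rp_hyp i)]

theorem Mag_eq_84 (z : ℂ) (r1 r2 N : ℝ) (j : ℤ) (k : Fin (mm D j)) :
    Mag z r1 r2 N (⟨j, k⟩ : Fq D) =
      (1 / (N : ℂ)) * co D j k (VS D z j (r1 * N) (r2 * N)) := by
  unfold Mag VS
  rw [co_VW]
  congr 1
  refine Finset.sum_congr rfl fun i _ => ?_
  rw [Shg_eq_84]
  refine Finset.sum_congr rfl fun v _ => ?_
  unfold ch gj
  ring

variable (D) in
/-- (PWTH) for every shell -/
theorem pwt_shell_84 : ∃ C : ℝ, 0 < C ∧ ∀ z : ℂ, ‖z‖ = 1 → ∀ (r1 r2 : ℝ) (w : Fq D) (x : ℝ),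
    1 ≤ x → ∀ R : Finset (ℕ × Bool), (∀ P ∈ R, Adm D P ∧ (P.1 : ℝ) ^ 2 ≤ x) →
    ∑ P ∈ R, (1 / (P.1 : ℝ)) * ‖Mag z r1 r2 x w - z * cw P w * Mag z r1 r2 (x / P.1) w‖ ≤
      C * max 1 r2 * √(∑ P ∈ R, 1 / (P.1 : ℝ)) := by
  obtain ⟨C, hC, h⟩ := PwtH84.pwt_co D
  refine ⟨C, hC, fun z hz r1 r2 w x hx R hR => ?_⟩
  obtain ⟨j, k⟩ := w
  have hx0 : 0 < x := by linarith
  have hm : (1 : ℝ) ≤ max 1 r2 := le_max_left _ _
  have hxm : x ≤ max 1 r2 * x := by nlinarith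
  have h1 := h z hz j (max 1 r2 * x) (by nlinarith) R
    (fun P hP => ⟨(hR P hP).1, (hR P hP).2.trans hxm⟩) (r1 * x) (r2 * x)
    (mul_le_mul_of_nonneg_right (le_max_right _ _) hx0.le) k
  have h2 : ∀ P ∈ R, (1 / (P.1 : ℝ)) * ‖Mag z r1 r2 x (⟨j, k⟩ : Fq D) -
      z * cw P (⟨j, k⟩ : Fq D) * Mag z r1 r2 (x / P.1) (⟨j, k⟩ : Fq D)‖ =
      (1 / x) * ‖(1 / (P.1 : ℂ)) * co D j k (VS D z j (r1 * x) (r2 * x)) -
        z * cv D P j k * co D j k (VS D z j (r1 * x / P.1) (r2 * x / P.1))‖ := by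
    intro P hP
    have hp0 : (0 : ℝ) < P.1 := by exact_mod_cast (hR P hP).1.1.pos
    have hpc : ((P.1 : ℕ) : ℂ) ≠ 0 := by exact_mod_cast (hR P hP).1.1.ne_zero
    have hxc : (x : ℂ) ≠ 0 := by exact_mod_cast hx0.ne'
    rw [Mag_eq_84, Mag_eq_84]
    have e1 : r1 * (x / P.1) = r1 * x / P.1 := by ring
    have e2 : r2 * (x / P.1) = r2 * x / P.1 := by ring
    rw [e1, e2]
    have e3 : (1 / (x : ℂ)) * co D j k (VS D z j (r1 * x) (r2 * x)) -
        z * cw P (⟨j, k⟩ : Fq D) * ((1 / ((x / P.1 : ℝ) : ℂ)) *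
          co D j k (VS D z j (r1 * x / P.1) (r2 * x / P.1))) =
        ((P.1 : ℂ) / x) * ((1 / (P.1 : ℂ)) * co D j k (VS D z j (r1 * x) (r2 * x)) -
        z * cv D P j k * co D j k (VS D z j (r1 * x / P.1) (r2 * x / P.1))) := by
      unfold cw
      push_cast
      field_simp
    rw [e3, norm_mul, norm_div, Complex.norm_natCast, Complex.norm_real,
      Real.norm_of_nonneg hx0.le]
    field_simp
  rw [Finset.sum_congr rfl h2, ← Finset.mul_sum]
  have h3 : (1 / x) * (C * (max 1 r2 * x) * √(∑ P ∈ R, 1 / (P.1 : ℝ))) =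
      C * max 1 r2 * √(∑ P ∈ R, 1 / (P.1 : ℝ)) := by
    field_simp
  rw [← h3]
  exact mul_le_mul_of_nonneg_left h1 (by positivity)

variable (D) in
/-- row PWT -/
theorem stPwtG_84 : StPwtG D := by
  obtain ⟨C, hC, h⟩ := pwt_shell_84 D
  intro z hz
  refine ⟨C, hC, fun w x hx R hR => ?_⟩
  refine (h z hz 0 1 w x hx R hR).trans ?_
  rw [max_self, mul_one]
  have h1 : 0 ≤ √(∑ P ∈ R, 1 / (P.1 : ℝ)) := Real.sqrt_nonneg _
  nlinarith

end Pool.Agent.Lib.MP_a17b09_nt.MRH
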