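import Pool.Agent.Lib.MP_a17b09_nt.MRH.Dir17
import Pool.Agent.Lib.MP_a17b09_nt.HY.Inv7

/-!
Project MRH (positive discriminant): the point of the orbit of `a` in the sector.
-/

set_option autoImplicit false

open Finset

namespace Pool.Agent.Lib.MP_a17b09_nt.MRH

open CH CH.PE HY

section rd

variable {d : ℕ} {Q Q' : Form}

/-- powers of the action -/
theorem actE_zpow (hQ : Hyp d Q) (a : Pell.Solution₁ (d : ℤ)) (k : ℤ) (v : V) :
    ((actE hQ a) ^ k) v = act Q (a ^ k) v := by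
  have hsub : ∀ b : Pell.Solution₁ (d : ℤ), (actE hQ b)⁻¹ = actE hQ b⁻¹ := by
    intro b
    ext v : 1
    show (actE hQ b).symm v = act Q b⁻¹ v
    rfl
  induction k using Int.induction_on generalizing v with
  | zero => rw [zpow_zero, zpow_zero, act_one]; rfl
  | succ i ih =>
    rw [zpow_add_one, zpow_add_one, Equiv.Perm.mul_apply, ih, act_mul hQ]
    rfl
  | pred i ih =>
    rw [zpow_sub_one, zpow_sub_one, Equiv.Perm.mul_apply, ih, act_mul hQ, hsub]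
    rfl

/-- the point of the orbit of `a` in the sector -/
noncomputable def rd (Q : Form) (a : Pell.Solution₁ (d : ℤ)) (v : V) : V :=
  act Q (a ^ (-⌊ps Q v / per a⌋)) v

theorem cn_zact (hQ : Hyp d Q) {a : Pell.Solution₁ (d : ℤ)} (ha : PP a) (k : ℤ) (v : V) :
    Cn Q (act Q (a ^ k) v) ↔ Cn Q v := by
  rw [← actE_zpow hQ]
  exact Dils1.zP (actE hQ a) (P := Cn Q) (fun v => cn_act hQ ha v) k v

theorem ps_zact (hQ : Hyp d Q) {a : Pell.Solution₁ (d : ℤ)} (ha : PP a) (k : ℤ) {v : V}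
    (hv : Cn Q v) : ps Q (act Q (a ^ k) v) = ps Q v + k * per a := by
  rw [← actE_zpow hQ]
  exact Dils1.zr (actE hQ a) (P := Cn Q) (fun v => cn_act hQ ha v)
    (fun v hv => ps_act hQ ha hv) k v hv

/-- functions invariant on the cone -/
theorem f_zact (hQ : Hyp d Q) {a : Pell.Solution₁ (d : ℤ)} (ha : PP a) {E : Type*} {f : V → E}
    (hf : ∀ v, Cn Q v → f (act Q a v) = f v) (k : ℤ) {v : V} (hv : Cn Q v) :
    f (act Q (a ^ k) v) = f v := by
  induction k using Int.induction_on generalizing v with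
  | zero => rw [zpow_zero, act_one]
  | succ i ih =>
    rw [zpow_add_one, act_mul hQ, ih ((cn_act hQ ha v).2 hv), hf v hv]
  | pred i ih =>
    have h1 : Cn Q (act Q a⁻¹ v) := by
      have := cn_zact hQ ha (-1) v
      rw [zpow_neg_one] at this
      exact this.2 hv
    have h2 := hf _ h1
    rw [← act_mul hQ, mul_inv_cancel, act_one] at h2
    rw [zpow_sub_one, act_mul hQ, ih h1, h2]

theorem cn_rd (hQ : Hyp d Q) {a : Pell.Solution₁ (d : ℤ)} (ha : PP a) (v : V) :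
    Cn Q (rd Q a v) ↔ Cn Q v := cn_zact hQ ha _ v

theorem sec_rd (hQ : Hyp d Q) {a : Pell.Solution₁ (d : ℤ)} (ha : PP a) {v : V} (hv : Cn Q v) :
    Sec Q (per a) (rd Q a v) := by
  have hT := per_pos ha
  have h1 := ps_zact hQ ha (-⌊ps Q v / per a⌋) hv
  have h2 := Int.floor_le (ps Q v / per a)
  have h3 := Int.lt_floor_add_one (ps Q v / per a)
  rw [le_div_iff₀ hT] at h2
  rw [div_lt_iff₀ hT] at h3
  refine ⟨(cn_rd hQ ha v).2 hv, ?_⟩
  unfold rd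
  rw [h1]
  push_cast
  constructor
  · linarith
  · linarith

theorem rd_of_sec {a : Pell.Solution₁ (d : ℤ)} (ha : PP a) {v : V}
    (hv : Sec Q (per a) v) : rd Q a v = v := by
  have hT := per_pos ha
  have h1 : ⌊ps Q v / per a⌋ = 0 := by
    rw [Int.floor_eq_zero_iff]
    exact ⟨div_nonneg hv.2.1 hT.le, (div_lt_one hT).2 hv.2.2⟩
  unfold rd
  rw [h1, neg_zero, zpow_zero, act_one]

theorem q_zact (hQ : Hyp d Q) (a : Pell.Solution₁ (d : ℤ)) (k : ℤ) (v : V) :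
    Q.q (act Q (a ^ k) v) = Q.q v := q_act hQ _ v

theorem q_rd (hQ : Hyp d Q) (a : Pell.Solution₁ (d : ℤ)) (v : V) :
    Q.q (rd Q a v) = Q.q v := q_act hQ _ v

/-- every invariant function is unchanged -/
theorem f_rd (hQ : Hyp d Q) {a : Pell.Solution₁ (d : ℤ)} (ha : PP a) {E : Type*} {f : V → E}
    (hf : ∀ v, Cn Q v → f (act Q a v) = f v) {v : V} (hv : Cn Q v) :
    f (rd Q a v) = f v := f_zact hQ ha hf _ hv

theorem eh_rd (hQ : Hyp d Q) {a : Pell.Solution₁ (d : ℤ)} (ha : PP a) {v : V} (hv : Cn Q v) :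
    eh (per a) Q (rd Q a v) = eh (per a) Q v :=
  f_rd hQ ha (fun _ hv => eh_act hQ ha hv) hv

theorem cl_rd (hQ : Hyp d Q) {K : ℕ} {a : Pell.Solution₁ (d : ℤ)} (ha : PP a) (hK : PK K a) {v : V}
    (hv : Cn Q v) : cl K (rd Q a v) = cl K v :=
  f_rd hQ ha (fun v _ => Inv7.cl_act hK v) hv

theorem prim_rd (hQ : Hyp d Q) (a : Pell.Solution₁ (d : ℤ)) (v : V) :
    Prim (rd Q a v) ↔ Prim v := Inv7.prim_act hQ _ v

/-- two vectors with the same orbit -/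
theorem rd_zact (hQ : Hyp d Q) {a : Pell.Solution₁ (d : ℤ)} (ha : PP a) (k : ℤ) {v : V}
    (hv : Cn Q v) : rd Q a (act Q (a ^ k) v) = rd Q a v := by
  have hT := per_pos ha
  have h1 := ps_zact hQ ha k hv
  unfold rd
  rw [h1, add_div, mul_div_assoc, div_self hT.ne', mul_one, Int.floor_add_intCast, ← act_mul hQ,
    ← zpow_add]
  congr 2
  ring

theorem rd_act (hQ : Hyp d Q) {a : Pell.Solution₁ (d : ℤ)} (ha : PP a) {v : V} (hv : Cn Q v) :
    rd Q a (act Q a v) = rd Q a v := by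
  have := rd_zact hQ ha 1 hv
  rwa [zpow_one] at this

/-- `rd` is `v` up to a power of `a` -/
theorem rd_eq (Q : Form) (a : Pell.Solution₁ (d : ℤ)) (v : V) :
    ∃ k : ℤ, rd Q a v = act Q (a ^ k) v := ⟨_, rfl⟩

theorem zact_inv (hQ : Hyp d Q) (a : Pell.Solution₁ (d : ℤ)) (k : ℤ) (v : V) :
    act Q (a ^ (-k)) (act Q (a ^ k) v) = v := by
  rw [← act_mul hQ, ← zpow_add, neg_add_cancel, zpow_zero, act_one]

variable {a : Pell.Solution₁ (d : ℤ)} {M : Mat} {n : ℕ}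

/-- similitudes commute with the powers -/
theorem sim_zact (hQ : Hyp d Q) (hQ' : Hyp d Q') (hn : 0 < n) (hdet : M.det = n)
    (hsim : ∀ u, Q.q (M.app u) = n * Q'.q u) (hc : ∀ u, Cn Q (M.app u) ↔ Cn Q' u) (k : ℤ) (u : V) :
    M.app (act Q' (a ^ k) u) = act Q (a ^ k) (M.app u) :=
  Dils1.sim_act hQ hQ' hn hdet hsim hc _ u

theorem rd_app_rd (hQ : Hyp d Q) (hQ' : Hyp d Q') (ha : PP a) (hn : 0 < n) (hdet : M.det = n)
    (hsim : ∀ u, Q.q (M.app u) = n * Q'.q u) (hc : ∀ u, Cn Q (M.app u) ↔ Cn Q' u) {w : V}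
    (hw : Cn Q' w) : rd Q a (M.app (rd Q' a w)) = rd Q a (M.app w) := by
  obtain ⟨k, hk⟩ := rd_eq Q' a w
  rw [hk, sim_zact hQ hQ' hn hdet hsim hc, rd_zact hQ ha k ((hc w).2 hw)]

/-- the map `w ↦ rd (M w)` is injective on the sector -/
theorem rd_app_inj (hQ : Hyp d Q) (hQ' : Hyp d Q') (ha : PP a) (hn : 0 < n) (hdet : M.det = n)
    (hsim : ∀ u, Q.q (M.app u) = n * Q'.q u) (hc : ∀ u, Cn Q (M.app u) ↔ Cn Q' u) {w w' : V}
    (hw : Sec Q' (per a) w) (hw' : Sec Q' (per a) w')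
    (h : rd Q a (M.app w) = rd Q a (M.app w')) : w = w' := by
  have hdn : M.det ≠ 0 := by rw [hdet]; exact_mod_cast hn.ne'
  obtain ⟨k, hk⟩ := rd_eq Q a (M.app w)
  obtain ⟨l, hl⟩ := rd_eq Q a (M.app w')
  rw [hk, hl, ← sim_zact hQ hQ' hn hdet hsim hc, ← sim_zact hQ hQ' hn hdet hsim hc] at h
  have h1 := MRSG.app_inj hdn h
  have h2 := congrArg (rd Q' a) h1
  rw [rd_zact hQ' ha _ hw.1, rd_zact hQ' ha _ hw'.1, rd_of_sec ha hw, rd_of_sec ha hw'] at h2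
  exact h2

/-- the image of a similitude is invariant -/
theorem im_zact (hQ : Hyp d Q) (hQ' : Hyp d Q') (hn : 0 < n) (hdet : M.det = n)
    (hsim : ∀ u, Q.q (M.app u) = n * Q'.q u) (hc : ∀ u, Cn Q (M.app u) ↔ Cn Q' u) (k : ℤ) (v : V) :
    (∃ w, M.app w = act Q (a ^ k) v) ↔ ∃ w, M.app w = v := by
  constructor
  · rintro ⟨w, hw⟩
    refine ⟨act Q' (a ^ (-k)) w, ?_⟩
    rw [sim_zact hQ hQ' hn hdet hsim hc, hw, zact_inv hQ]
  · rintro ⟨w, rfl⟩
    exact ⟨act Q' (a ^ k) w, sim_zact hQ hQ' hn hdet hsim hc k w⟩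

theorem im_rd (hQ : Hyp d Q) (hQ' : Hyp d Q') (hn : 0 < n) (hdet : M.det = n)
    (hsim : ∀ u, Q.q (M.app u) = n * Q'.q u) (hc : ∀ u, Cn Q (M.app u) ↔ Cn Q' u) (v : V) :
    (∃ w, M.app w = rd Q a v) ↔ ∃ w, M.app w = v := im_zact hQ hQ' hn hdet hsim hc _ v

/-- images in the sector are the `rd (M w)`, `w` in the sector -/
theorem im_sec (hQ : Hyp d Q) (hQ' : Hyp d Q') (ha : PP a) (hn : 0 < n) (hdet : M.det = n)
    (hsim : ∀ u, Q.q (M.app u) = n * Q'.q u) (hc : ∀ u, Cn Q (M.app u) ↔ Cn Q' u) {v : V}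
    (hv : Sec Q (per a) v) :
    (∃ w, M.app w = v) ↔ ∃ w, Sec Q' (per a) w ∧ rd Q a (M.app w) = v := by
  constructor
  · rintro ⟨w, rfl⟩
    have hw : Cn Q' w := (hc w).1 hv.1
    refine ⟨rd Q' a w, sec_rd hQ' ha hw, ?_⟩
    rw [rd_app_rd hQ hQ' ha hn hdet hsim hc hw, rd_of_sec ha hv]
  · rintro ⟨w, -, rfl⟩
    rw [im_rd hQ hQ' hn hdet hsim hc]
    exact ⟨w, rfl⟩

/-- the sum over the images, with `w ↦ rd (M w)` -/
theorem sum_image_rd (hQ : Hyp d Q) (hQ' : Hyp d Q') (ha : PP a) (hn : 0 < n) (hdet : M.det = n)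
    (hsim : ∀ u, Q.q (M.app u) = n * Q'.q u) (hc : ∀ u, Cn Q (M.app u) ↔ Cn Q' u) (x y : ℝ)
    (f : V → ℂ) [DecidablePred fun v => ∃ w, M.app w = v] :
    ∑ v ∈ (shS Q (per a) x y).filter (fun v => ∃ w, M.app w = v), f v =
      ∑ w ∈ shS Q' (per a) (x / n) (y / n), f (rd Q a (M.app w)) := by
  have hnr : (0 : ℝ) < n := by exact_mod_cast hn
  have hqr : ∀ w, ((Q.q (M.app w) : ℤ) : ℝ) = n * (Q'.q w : ℝ) := by
    intro w; rw [hsim]; push_cast; ring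
  symm
  apply Finset.sum_bij (fun w _ => rd Q a (M.app w))
  · intro w hw
    rw [mem_shS hQ'] at hw
    obtain ⟨h1, h2, h3⟩ := hw
    rw [div_lt_iff₀ hnr] at h2
    rw [le_div_iff₀ hnr] at h3
    rw [Finset.mem_filter, mem_shS hQ, im_rd hQ hQ' hn hdet hsim hc, q_rd hQ, hqr]
    exact ⟨⟨sec_rd hQ ha ((hc w).2 h1.1), by linarith, by linarith⟩, w, rfl⟩
  · intro w hw w' hw' h
    rw [mem_shS hQ'] at hw hw'
    exact rd_app_inj hQ hQ' ha hn hdet hsim hc hw.1 hw'.1 h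
  · intro v hv
    rw [Finset.mem_filter, mem_shS hQ] at hv
    obtain ⟨⟨h1, h2, h3⟩, h4⟩ := hv
    obtain ⟨w, hw, rfl⟩ := (im_sec hQ hQ' ha hn hdet hsim hc h1).1 h4
    rw [q_rd hQ, hqr] at h2 h3
    refine ⟨w, ?_, rfl⟩
    rw [mem_shS hQ', div_lt_iff₀ hnr, le_div_iff₀ hnr]
    exact ⟨hw, by linarith, by linarith⟩
  · intro w _
    rfl

end rd

end Pool.Agent.Lib.MP_a17b09_nt.MRH
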