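import Pool.Agent.Lib.MP_a17b09_nt.MRH.Defs79
import Pool.Agent.Lib.MP_a17b09_nt.MRH.Rd17

/-!
Project MRH (positive discriminant): images of the similitudes, shells of the sector, the vectors of
a shell.  Part C of the structure.
-/

set_option autoImplicit false

open Finset Module

namespace Pool.Agent.Lib.MP_a17b09_nt.MRH

open CH CH.PE HY HY.S68
open MRSG (sc ai az_mul az_sc az_ai ai_az az_inj cl_app' app_ne e1_ne eig_iff eig_both dvd_q_iff
  app_inj prim_auto)

section main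

variable {D : Dat}

theorem adm_eig_iff {P : ℕ × Bool} (h : Adm D P) (i : Cx D) {v : V} :
    Eig P.1 (rg D P) (rp i) v ↔ ∃ w, (Mg D P i).app w = v :=
  eig_iff (Nat.prime_iff_prime_int.1 h.1) (rel_g h i).1 (rel_g h i).2

theorem adm_dvd_iff {P : ℕ × Bool} (h : Adm D P) (i : Cx D) {v : V} :
    (P.1 : ℤ) ∣ (rp i).q v ↔ Eig P.1 (rg D P) (rp i) v ∨ Eig P.1 (-rg D P) (rp i) v :=
  dvd_q_iff (Nat.prime_iff_prime_int.1 h.1) (rel_g h i).1 (by rw [rp_D]; exact rg_sq h)

/-- the image of a primitive vector is primitive iff the vector is not in the conjugate image -/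
theorem prim_app_iff {P : ℕ × Bool} (h : Adm D P) (i : Cx D) {w : V} :
    Prim ((Mg D P i).app w) ↔ Prim w ∧ ¬ Eig P.1 (-rg D P) (rp (sg D P i)) w := by
  obtain ⟨hr, R⟩ := rel_g h i
  have hp : Prime (P.1 : ℤ) := Nat.prime_iff_prime_int.1 h.1
  have hdet := R.det
  have hRi := R.inv hp.ne_zero
  have hei : Eig P.1 (-rg D P) (rp (sg D P i)) w ↔
      (P.1 : ℤ) ∣ ((Mg D P i).app w).1 ∧ (P.1 : ℤ) ∣ ((Mg D P i).app w).2 := by
    rw [eig_iff hp (neg_nd hr) hRi]
    constructor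
    · rintro ⟨u, rfl⟩
      rw [Mat.app_adj, hdet]
      exact ⟨⟨u.1, by simp⟩, ⟨u.2, by simp⟩⟩
    · rintro ⟨⟨a, ha⟩, ⟨b, hb⟩⟩
      refine ⟨(a, b), ?_⟩
      apply app_inj (det_ne h i)
      rw [Mat.app_adj, hdet]
      apply Prod.ext
      · rw [ha]; simp
      · rw [hb]; simp
  rw [hei]
  unfold Prim
  set u := (Mg D P i).app w with hu
  have hadj : (Mg D P i).adj.app u = (P.1 : ℤ) • w := by rw [hu, Mat.adj_app, hdet]
  constructor
  · intro hpr
    constructor
    · -- a common divisor of `w` divides `u`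
      rw [← Int.isCoprime_iff_gcd_eq_one] at hpr ⊢
      obtain ⟨x, y, hxy⟩ := hpr
      have e1 : u.1 = (Mg D P i).a * w.1 + (Mg D P i).b * w.2 := rfl
      have e2 : u.2 = (Mg D P i).c * w.1 + (Mg D P i).d * w.2 := rfl
      rw [e1, e2] at hxy
      exact ⟨x * (Mg D P i).a + y * (Mg D P i).c, x * (Mg D P i).b + y * (Mg D P i).d, by
        linear_combination hxy⟩
    · rintro ⟨h1, h2⟩
      have h3 : (P.1 : ℤ) ∣ (Int.gcd u.1 u.2 : ℤ) := Int.dvd_coe_gcd h1 h2
      rw [hpr] at h3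
      exact hp.not_unit (isUnit_of_dvd_one (by exact_mod_cast h3))
  · rintro ⟨hpr, hnd⟩
    by_contra hg
    obtain ⟨q, hq, hqd⟩ := Nat.exists_prime_and_dvd hg
    have hqi : Prime (q : ℤ) := Nat.prime_iff_prime_int.1 hq
    have h1 : (q : ℤ) ∣ u.1 := (Int.natCast_dvd_natCast.mpr hqd).trans (Int.gcd_dvd_left _ _)
    have h2 : (q : ℤ) ∣ u.2 := (Int.natCast_dvd_natCast.mpr hqd).trans (Int.gcd_dvd_right _ _)
    have a1 : (P.1 : ℤ) * w.1 = (Mg D P i).d * u.1 + -(Mg D P i).b * u.2 := by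
      have := congrArg Prod.fst hadj
      simpa [Mat.app, Mat.adj] using this.symm
    have a2 : (P.1 : ℤ) * w.2 = -(Mg D P i).c * u.1 + (Mg D P i).a * u.2 := by
      have := congrArg Prod.snd hadj
      simpa [Mat.app, Mat.adj] using this.symm
    have h3 : (q : ℤ) ∣ (P.1 : ℤ) * w.1 := by
      rw [a1]; exact dvd_add (Dvd.dvd.mul_left h1 _) (Dvd.dvd.mul_left h2 _)
    have h4 : (q : ℤ) ∣ (P.1 : ℤ) * w.2 := by
      rw [a2]; exact dvd_add (Dvd.dvd.mul_left h1 _) (Dvd.dvd.mul_left h2 _)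
    rcases hqi.dvd_or_dvd h3 with h5 | h5
    · have h6 : q = P.1 := (Nat.prime_dvd_prime_iff_eq hq h.1).mp (by exact_mod_cast h5)
      rw [h6] at h1 h2
      exact hnd ⟨h1, h2⟩
    · rcases hqi.dvd_or_dvd h4 with h6 | h6
      · have h7 : q = P.1 := (Nat.prime_dvd_prime_iff_eq hq h.1).mp (by exact_mod_cast h6)
        rw [h7] at h1 h2
        exact hnd ⟨h1, h2⟩
      · have h7 : (q : ℤ) ∣ (Int.gcd w.1 w.2 : ℤ) := Int.dvd_coe_gcd h5 h6
        rw [hpr] at h7
        exact hqi.not_unit (isUnit_of_dvd_one (by exact_mod_cast h7))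

end main


/-! ### shells -/

section shells

variable {D : Dat}

open Classical in
/-- sums over the image of a similitude, for invariant functions -/
theorem sum_eig {P : ℕ × Bool} (h : Adm D P) (i : Cx D) (a b : ℝ) {f : V → ℂ}
    (hf : ∀ v, Cn (rp i) v → f (act (rp i) D.a v) = f v) :
    ∑ v ∈ (shS (rp i) D.T a b).filter (fun v => Eig P.1 (rg D P) (rp i) v), f v =
      ∑ w ∈ shS (rp (sg D P i)) D.T (a / P.1) (b / P.1), f ((Mg D P i).app w) := by
  obtain ⟨-, R⟩ := rel_g h i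
  have key := sum_image (rp_hyp i) (rp_hyp (sg D P i)) D.ha h.1.pos R.det R.sim (cn_M h i) a b hf
  refine Eq.trans ?_ key
  refine Finset.sum_congr ?_ fun _ _ => rfl
  ext v
  rw [Finset.mem_filter, Finset.mem_filter, adm_eig_iff h i]
  rfl

open Classical in
/-- sums over the image of a similitude, every function -/
theorem sum_eig_rd {P : ℕ × Bool} (h : Adm D P) (i : Cx D) (a b : ℝ) (f : V → ℂ) :
    ∑ v ∈ (shS (rp i) D.T a b).filter (fun v => Eig P.1 (rg D P) (rp i) v), f v =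
      ∑ w ∈ shS (rp (sg D P i)) D.T (a / P.1) (b / P.1),
        f (rd (rp i) D.a ((Mg D P i).app w)) := by
  obtain ⟨-, R⟩ := rel_g h i
  have key := sum_image_rd (rp_hyp i) (rp_hyp (sg D P i)) D.ha h.1.pos R.det R.sim (cn_M h i) a b f
  refine Eq.trans ?_ key
  refine Finset.sum_congr ?_ fun _ _ => rfl
  ext v
  rw [Finset.mem_filter, Finset.mem_filter, adm_eig_iff h i]
  rfl

open Classical in
/-- an automorphism which preserves the cone permutes the orbits of the shell -/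
theorem sum_auto {i : Cx D} {γ : Mat} (h1 : γ.det = 1) (h : (rp i).comp γ = rp i)
    (hc : Cn (rp i) (γ.app (1, 0))) (a b : ℝ) {f : V → ℂ}
    (hf : ∀ v, Cn (rp i) v → f (act (rp i) D.a v) = f v) :
    ∑ v ∈ shS (rp i) D.T a b, f v = ∑ v ∈ shS (rp i) D.T a b, f (γ.app v) := by
  have hq : ∀ v, (rp i).q (γ.app v) = ((1 : ℕ) : ℤ) * (rp i).q v := fun v => by
    rw [← Form.comp_q, h]; simp
  have key := sum_image (rp_hyp i) (rp_hyp i) D.ha (n := 1) one_pos (by rw [h1]; simp) hq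
    (cn_auto h hc) a b hf
  have e : (shS (rp i) (per D.a) a b).filter (fun v => ∃ w, γ.app w = v) =
      shS (rp i) (per D.a) a b := by
    apply Finset.filter_true_of_mem
    intro v _
    exact ⟨γ.adj.app v, by rw [Mat.app_adj, h1, one_smul]⟩
  rw [e, Nat.cast_one, div_one, div_one] at key
  exact key

theorem gz_app {P : ℕ × Bool} (h : Adm D P) (z : ℂ) (i : Cx D) {w : V}
    (hw : Cn (rp (sg D P i)) w) :
    gz z (rp i) ((Mg D P i).app w) = z * gz z (rp (sg D P i)) w := by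
  obtain ⟨-, R⟩ := rel_g h i
  unfold gz
  have hq : (rp (sg D P i)).q w ≠ 0 := (hw.q_pos (rp_hyp _)).ne'
  rw [R.sim, Int.natAbs_mul, Int.natAbs_natCast,
    ArithmeticFunction.cardFactors_mul h.1.ne_zero (Int.natAbs_ne_zero.mpr hq),
    ArithmeticFunction.cardFactors_apply_prime h.1, pow_add, pow_one]

theorem gz_act (z : ℂ) (i : Cx D) (v : V) : gz z (rp i) (act (rp i) D.a v) = gz z (rp i) v := by
  unfold gz
  rw [q_act (rp_hyp i)]

theorem prim_act (i : Cx D) (v : V) : Prim (act (rp i) D.a v) ↔ Prim v :=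
  Inv7.prim_act (rp_hyp i) D.a v

/-- the function `z ^ Ω(Q(v)) (direction)^j` -/
noncomputable def gj (z : ℂ) (j : ℤ) (i : Cx D) (v : V) : ℂ := gz z (rp i) v * uu i v ^ j

theorem gj_act (z : ℂ) (j : ℤ) (i : Cx D) {v : V} (hv : Cn (rp i) v) :
    gj z j i (act (rp i) D.a v) = gj z j i v := by
  unfold gj
  rw [gz_act, uu_act i hv]

theorem gj_app {P : ℕ × Bool} (h : Adm D P) (z : ℂ) (j : ℤ) (i : Cx D) {w : V}
    (hw : Cn (rp (sg D P i)) w) : gj z j i ((Mg D P i).app w) =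
      z * uu i ((Mg D P i).app (1, 0)) ^ j * gj z j (sg D P i) w := by
  unfold gj
  rw [gz_app h z i hw, uu_M h i hw, mul_zpow]
  ring

theorem gj_auto (z : ℂ) (j : ℤ) {i : Cx D} {γ : Mat} (h1 : γ.det = 1)
    (h : (rp i).comp γ = rp i) (hc : Cn (rp i) (γ.app (1, 0))) {v : V} (hv : Cn (rp i) v) :
    gj z j i (γ.app v) = uu i (γ.app (1, 0)) ^ j * gj z j i v := by
  unfold gj
  have h2 : (rp i).q (γ.app v) = (rp i).q v := by rw [← Form.comp_q, h]
  rw [uu_auto h1 h hc hv, mul_zpow]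
  unfold gz
  rw [h2]
  ring

end shells

section vectors

variable {D : Dat}

/-- the vector of the sums of a function over the shell in the classes modulo `K` -/
noncomputable def VW (D : Dat) (w : Cx D → V → ℂ) (a b : ℝ) : Hs D :=
  WithLp.toLp 2 (fun ia => ∑ v ∈ (shS (rp ia.1) D.T a b).filter (fun v => cl D.K v = ia.2),
    w ia.1 v)

theorem VW_apply (w : Cx D → V → ℂ) (a b : ℝ) (i : Cx D) (α : ZMod D.K × ZMod D.K) :
    VW D w a b (i, α) = ∑ v ∈ (shS (rp i) D.T a b).filter (fun v => cl D.K v = α), w i v := rfl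

/-- sums with the symmetry of the automorphisms belong to `E_j` -/
theorem VW_mem {j : ℤ} {w : Cx D → V → ℂ}
    (ha : ∀ i v, Cn (rp i) v → w i (act (rp i) D.a v) = w i v)
    (hw : ∀ (i : Cx D) (γ : Mat), γ.det = 1 → (rp i).comp γ = rp i → Cn (rp i) (γ.app (1, 0)) →
      ∀ v, Cn (rp i) v → w i (γ.app v) = uu i (γ.app (1, 0)) ^ j * w i v) (a b : ℝ) :
    VW D w a b ∈ Ej D j := by
  classical
  intro i γ h1 h2 h3 α
  rw [VW_apply, VW_apply, Finset.mul_sum, Finset.sum_filter, Finset.sum_filter]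
  have hu : IsUnit ((γ.det : ℤ) : ZMod D.K) := by rw [h1, Int.cast_one]; exact isUnit_one
  rw [sum_auto h1 h2 h3 a b (f := fun v => if cl D.K v = az γ α then w i v else 0)
    (fun v hv => by simp only [cl_act, ha i v hv])]
  refine Finset.sum_congr rfl fun v hv => ?_
  have hvc := ((mem_shS (rp_hyp i)).1 hv).1.1
  have hcl : cl D.K (γ.app v) = az γ α ↔ cl D.K v = α := by
    rw [cl_app']
    exact ⟨fun h => az_inj hu h, fun h => by rw [h]⟩
  by_cases h4 : cl D.K v = α
  · rw [if_pos (hcl.2 h4), if_pos h4, hw i γ h1 h2 h3 v hvc]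
  · rw [if_neg (fun h => h4 (hcl.1 h)), if_neg h4]

open Classical in
/-- the sum over the image of a similitude, for functions which are multiplied by a constant -/
theorem VW_img {P : ℕ × Bool} (h : Adm D P) {j : ℤ} {w : Cx D → V → ℂ} {z : ℂ}
    (ha : ∀ i v, Cn (rp i) v → w i (act (rp i) D.a v) = w i v)
    (hw : ∀ (i : Cx D) (v : V), Cn (rp (sg D P i)) v → w i ((Mg D P i).app v) =
      z * uu i ((Mg D P i).app (1, 0)) ^ j * w (sg D P i) v) (a b : ℝ) (i : Cx D)
    (α : ZMod D.K × ZMod D.K) :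
    ∑ v ∈ (shS (rp i) D.T a b).filter (fun v => cl D.K v = α ∧ Eig P.1 (rg D P) (rp i) v),
      w i v = z * Ug D P j (VW D w (a / P.1) (b / P.1)) (i, α) := by
  have h1 : ∑ v ∈ (shS (rp i) D.T a b).filter
      (fun v => cl D.K v = α ∧ Eig P.1 (rg D P) (rp i) v), w i v =
      ∑ v ∈ (shS (rp i) D.T a b).filter (fun v => Eig P.1 (rg D P) (rp i) v),
        if cl D.K v = α then w i v else 0 := by
    rw [← Finset.sum_filter, Finset.filter_filter]
    refine Finset.sum_congr ?_ fun _ _ => rfl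
    ext v
    simp only [Finset.mem_filter]
    tauto
  rw [h1, sum_eig h i a b (fun v hv => by simp only [cl_act, ha i v hv]), Ug_apply, VW_apply,
    Finset.sum_filter, Finset.mul_sum, Finset.mul_sum]
  refine Finset.sum_congr rfl fun v hv => ?_
  have hvc := ((mem_shS (rp_hyp _)).1 hv).1.1
  have hcl : cl D.K ((Mg D P i).app v) = α ↔ cl D.K v = ai (Mg D P i) α := by
    rw [cl_app']
    constructor
    · intro h2
      rw [← h2, ai_az (unit_M h i)]
    · intro h2
      rw [h2, az_ai (unit_M h i)]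
  by_cases h2 : cl D.K v = ai (Mg D P i) α
  · rw [if_pos (hcl.mpr h2), if_pos h2, hw i v hvc]
    ring
  · rw [if_neg (fun h3 => h2 (hcl.mp h3)), if_neg h2]
    ring

/-- all vectors of the shell -/
noncomputable def VS (D : Dat) (z : ℂ) (j : ℤ) (a b : ℝ) : Hs D := VW D (gj z j) a b

open Classical in
/-- the primitive vectors of the shell -/
noncomputable def VP (D : Dat) (z : ℂ) (j : ℤ) (a b : ℝ) : Hs D :=
  VW D (fun i v => if Prim v then gj z j i v else 0) a b

theorem VS_mem (z : ℂ) (j : ℤ) (a b : ℝ) : VS D z j a b ∈ Ej D j :=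
  VW_mem (fun i v hv => gj_act z j i hv) (fun _ _ h1 h2 h3 _ hv => gj_auto z j h1 h2 h3 hv) a b

theorem VP_mem (z : ℂ) (j : ℤ) (a b : ℝ) : VP D z j a b ∈ Ej D j := by
  refine VW_mem (fun i v hv => ?_) (fun i γ h1 h2 h3 v hv => ?_) a b
  · simp only [prim_act i v, gj_act z j i hv]
  · simp only [prim_auto h1 v]
    split_ifs
    · exact gj_auto z j h1 h2 h3 hv
    · rw [mul_zero]

open Classical in
/-- the exact identity for all vectors -/
theorem VS_img {P : ℕ × Bool} (h : Adm D P) (z : ℂ) (j : ℤ) (a b : ℝ) (i : Cx D)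
    (α : ZMod D.K × ZMod D.K) :
    ∑ v ∈ (shS (rp i) D.T a b).filter (fun v => cl D.K v = α ∧ Eig P.1 (rg D P) (rp i) v),
      gj z j i v = z * Ug D P j (VS D z j (a / P.1) (b / P.1)) (i, α) :=
  VW_img h (fun i v hv => gj_act z j i hv) (fun i _ hv => gj_app h z j i hv) a b i α

/-- a coordinate of a vector of sums is a sum -/
theorem co_VW (j : ℤ) (k : Fin (mm D j)) (w : Cx D → V → ℂ) (a b : ℝ) :
    co D j k (VW D w a b) = ∑ i : Cx D, ∑ v ∈ shS (rp i) D.T a b,
      (starRingEnd ℂ) ((bv D j k : Hs D) (i, cl D.K v)) * w i v := by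
  rw [co_eq, Fintype.sum_prod_type]
  refine Finset.sum_congr rfl fun i _ => ?_
  have h1 : ∀ α : ZMod D.K × ZMod D.K, (starRingEnd ℂ) ((bv D j k : Hs D) (i, α)) *
      VW D w a b (i, α) = ∑ v ∈ shS (rp i) D.T a b, if cl D.K v = α then
        (starRingEnd ℂ) ((bv D j k : Hs D) (i, cl D.K v)) * w i v else 0 := by
    intro α
    rw [VW_apply, Finset.mul_sum, ← Finset.sum_filter]
    refine Finset.sum_congr rfl fun v hv => ?_
    rw [(Finset.mem_filter.mp hv).2]
  rw [Finset.sum_congr rfl fun α _ => h1 α, Finset.sum_comm]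
  refine Finset.sum_congr rfl fun v _ => ?_
  rw [Finset.sum_ite_eq Finset.univ (cl D.K v), if_pos (Finset.mem_univ _)]

end vectors

end Pool.Agent.Lib.MP_a17b09_nt.MRH
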