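import Pool.Agent.Lib.MP_a17b09_nt.MRH.Stmts79
import Pool.Agent.Lib.MP_a17b09_nt.MRH.StrC17

/-!
Project MRH (positive discriminant): the structure statements `StUnfG`, `StRedG`, `StParG`, `StIdG`.
-/

set_option autoImplicit false

open Filter Topology Finset

namespace Pool.Agent.Lib.MP_a17b09_nt.MRH

open CH CH.PE HY HY.S68

variable {D : Dat}

theorem Shg_eq (i : Cx D) (a b : ℝ) : Shg i a b = shS (rp i) D.T a b := by
  ext v
  rw [mem_Shg, mem_shS (rp_hyp i)]

theorem im_iff {P : ℕ × Bool} (h : Adm D P) (i : Cx D) (v : V) :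
    Im (Mg D P i) v ↔ Eig P.1 (rg D P) (rp i) v := (adm_eig_iff h i).symm

theorem stUnfG_17 (D : Dat) : StUnfG D := by
  intro f hf i a b s S hS
  rw [Shg_eq]
  symm
  apply sum_unfold (rp_hyp i) D.ha a b (s := fun v => ps (rp i) v - s)
  · intro v hv
    rw [ps_act (rp_hyp i) D.ha hv]
    ring
  · exact hf i
  · intro v
    rw [hS]
    have hT : D.T = per D.a := rfl
    constructor
    · rintro ⟨h1, h2, h3, h4, h5⟩
      exact ⟨h1, ⟨by linarith, by linarith⟩, h4, h5⟩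
    · rintro ⟨h1, ⟨h2, h3⟩, h4, h5⟩
      exact ⟨h1, by linarith, by linarith, h4, h5⟩

/-- the content is invariant -/
theorem gcd_act {d : ℕ} {Q : Form} (hQ : Hyp d Q) (a : Pell.Solution₁ (d : ℤ)) (v : V) :
    Int.gcd (act Q a v).1 (act Q a v).2 = Int.gcd v.1 v.2 := by
  apply Nat.dvd_antisymm
  · exact Inv7.gcd_app (det_au hQ a) v
  · have h1 : act Q a⁻¹ (act Q a v) = v := by
      rw [← act_mul hQ, inv_mul_cancel, act_one]
    have h2 := Inv7.gcd_app (det_au hQ a⁻¹) (act Q a v)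
    have h3 : (au Q (a⁻¹).x (a⁻¹).y).app (act Q a v) = act Q a⁻¹ (act Q a v) := rfl
    rw [h3, h1] at h2
    exact h2

theorem stRedG_17 (D : Dat) : StRedG D := by
  refine ⟨fun i v => rd (rp i) D.a v, fun i v hv => ⟨sec_rd (rp_hyp i) D.ha hv, rd_eq (rp i) D.a v,
    q_rd (rp_hyp i) D.a v, ?_, ?_, ?_, rd_act (rp_hyp i) D.ha hv, fun h => rd_of_sec D.ha h, ?_⟩⟩
  · exact f_rd (rp_hyp i) D.ha (fun v hv => uu_act i hv) hv
  · exact f_rd (rp_hyp i) D.ha (fun v _ => cl_act i v) hv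
  · exact gcd_act (rp_hyp i) _ v
  · intro w
    exact f_rd (rp_hyp i) D.ha (fun v hv => ch_act w i hv) hv

theorem VAg_eq (z : ℂ) (r1 r2 N : ℝ) (j : ℤ) :
    VAg D z r1 r2 N j = (1 / (N : ℂ)) • VS D z j (r1 * N) (r2 * N) := by
  ext ia
  obtain ⟨i, α⟩ := ia
  rw [PiLp.smul_apply]
  unfold VAg VS
  rw [vec_apply, VW_apply, Shg_eq, smul_eq_mul, Finset.mul_sum]
  refine Finset.sum_congr rfl fun v _ => ?_
  unfold gj
  ring

theorem VPg_eq (z : ℂ) (r1 r2 N : ℝ) (j : ℤ) :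
    VPg D z r1 r2 N j = (1 / (N : ℂ)) • VP D z j (r1 * N) (r2 * N) := by
  classical
  ext ia
  obtain ⟨i, α⟩ := ia
  rw [PiLp.smul_apply]
  unfold VPg VP
  rw [vec_apply, VW_apply, Shg_eq, smul_eq_mul, Finset.mul_sum, Finset.filter_filter,
    Finset.sum_filter, Finset.sum_filter]
  refine Finset.sum_congr rfl fun v _ => ?_
  unfold gj
  by_cases h1 : Prim v
  · by_cases h2 : cl D.K v = α
    · simp only [h1, h2, and_self, if_true]; ring
    · simp only [h1, h2, and_false, if_false]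
  · simp [h1]

theorem VAg_mem (z : ℂ) (r1 r2 N : ℝ) (j : ℤ) : VAg D z r1 r2 N j ∈ Ej D j := by
  rw [VAg_eq]
  exact Submodule.smul_mem _ _ (VS_mem z j _ _)

theorem VPg_mem (z : ℂ) (r1 r2 N : ℝ) (j : ℤ) : VPg D z r1 r2 N j ∈ Ej D j := by
  rw [VPg_eq]
  exact Submodule.smul_mem _ _ (VP_mem z j _ _)

theorem stParG_17 (D : Dat) : StParG D := by
  intro z r1 r2 N j
  refine ⟨VAg_mem z r1 r2 N j, VPg_mem z r1 r2 N j, ?_, ?_⟩
  · rw [← co_parseval j (VAg_mem z r1 r2 N j)]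
    exact Finset.sum_congr rfl fun k _ => by rw [co_VAg]
  · rw [← co_parseval j (VPg_mem z r1 r2 N j)]
    exact Finset.sum_congr rfl fun k _ => by rw [co_VPg]

open Classical in
/-- sums over the vectors of the shell in the image of `M_P`, invariant functions -/
theorem sum_im {P : ℕ × Bool} (h : Adm D P) (i : Cx D) (a b : ℝ) {f : V → ℂ}
    (hf : ∀ v, Cn (rp i) v → f (act (rp i) D.a v) = f v) :
    ∑ v ∈ (Shg i a b).filter (fun v => Im (Mg D P i) v), f v =
      ∑ u ∈ Shg (sg D P i) (a / P.1) (b / P.1), f ((Mg D P i).app u) := by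
  rw [Shg_eq, Shg_eq, ← sum_eig h i a b hf]
  refine Finset.sum_congr ?_ fun _ _ => rfl
  ext v
  simp only [Finset.mem_filter, im_iff h i v]

open Classical in
/-- sums over the vectors of the shell in the image of `M_P`, every function -/
theorem sum_im_rd {P : ℕ × Bool} (h : Adm D P) (i : Cx D) (a b : ℝ) (f : V → ℂ) :
    ∑ v ∈ (Shg i a b).filter (fun v => Im (Mg D P i) v), f v =
      ∑ u ∈ Shg (sg D P i) (a / P.1) (b / P.1), f (rd (rp i) D.a ((Mg D P i).app u)) := by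
  rw [Shg_eq, Shg_eq, ← sum_eig_rd h i a b f]
  refine Finset.sum_congr ?_ fun _ _ => rfl
  ext v
  simp only [Finset.mem_filter, im_iff h i v]

theorem stIdG_17 (D : Dat) : StIdG D := by
  classical
  intro z a b P w h
  refine ⟨fun f hf i => sum_im h i a b (hf i), ?_⟩
  rw [Finset.sum_congr rfl fun i _ => sum_im h i a b (f := fun v => gz z (rp i) v * ch w i v)
    (fun v hv => by simp only [gz_act, ch_act w i hv])]
  rw [← Equiv.sum_comp (sg D P) (fun i => ∑ u ∈ Shg i (a / P.1) (b / P.1),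
    gz z (rp i) u * ch w i u), Finset.mul_sum]
  refine Finset.sum_congr rfl fun i _ => ?_
  rw [Finset.mul_sum]
  refine Finset.sum_congr rfl fun u hu => ?_
  have hu0 := (mem_Shg.1 hu).1.1
  rw [gz_app h z i hu0, ch_M h w i hu0]
  ring

end Pool.Agent.Lib.MP_a17b09_nt.MRH
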