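import Pool.Agent.Lib.MP_a17b09_nt.MRH.HmuH96
import Pool.Agent.Lib.MP_a17b09_nt.MRH.StrD17
import Pool.Agent.Lib.MP_a17b09_nt.MRH.PwtH84

/-!
Project MRH (positive discriminant): row TKH, the inequality of Turan and Kubilius together with
Halasz and Montgomery on the set `U`.
-/

set_option autoImplicit false

open Filter Topology Finset

namespace Pool.Agent.Lib.MP_a17b09_nt.MRH

open CH CH.PE HY HY.S68

namespace Tkh79

open PwtH84 (eig_act eig_M eig_conj)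
open HmuH96 (cl_iff96 card_Shg96 ch_conj96 card_fib96)

variable {D : Dat}

theorem app_inj79 {P : ℕ × Bool} (h : Adm D P) (i : Cx D) {u v : V}
    (he : (Mg D P i).app u = (Mg D P i).app v) : u = v := by
  have h1 := congrArg (Mg D P i).adj.app he
  rw [Mat.adj_app, Mat.adj_app, (rel_g h i).2.det] at h1
  have hp : ((P.1 : ℕ) : ℤ) ≠ 0 := by exact_mod_cast h.1.ne_zero
  exact smul_right_injective V hp h1

/-- images of two different primes -/
theorem im_M {P P' : ℕ × Bool} (h : Adm D P) (h' : Adm D P') (hne : P ≠ P') (i : Cx D) (u : V) :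
    Im (Mg D P' i) ((Mg D P i).app u) ↔ Im (Mg D P' (sg D P i)) u := by
  by_cases hp : P.1 = P'.1
  · obtain ⟨p, b⟩ := P
    obtain ⟨p', b'⟩ := P'
    simp only at hp
    subst hp
    have hb : b' = !b := by
      have : b ≠ b' := fun hb => hne (by rw [hb])
      cases b <;> cases b' <;> simp_all
    subst hb
    constructor
    · intro h1
      have h2 : Eig p (rg D (p, b)) (rp i) ((Mg D (p, b) i).app u) :=
        (im_iff h i _).1 ⟨u, rfl⟩
      have h3 : Eig p (rg D (p, !b)) (rp i) ((Mg D (p, b) i).app u) := (im_iff h' i _).1 h1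
      obtain ⟨⟨x, hx⟩, ⟨y, hy⟩⟩ := (eig_conj h hne rfl i _).1 ⟨h2, h3⟩
      have h4 : (Mg D (p, b) i).app u = (p : ℤ) • ((x, y) : V) := by
        apply Prod.ext
        · simpa using hx
        · simpa using hy
      rw [← (Mg_conj h i (x, y)).2] at h4
      exact ⟨_, (app_inj79 h i h4).symm⟩
    · rintro ⟨v, hv⟩
      rw [← hv, (Mg_conj h i v).2]
      have h5 := (Mg_conj h' i v).2
      rw [Bool.not_not] at h5
      exact ⟨_, h5⟩
  · rw [im_iff h' i, im_iff h' (sg D P i)]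
    exact eig_M h h' hp i u

theorem im_act {P : ℕ × Bool} (h : Adm D P) (i : Cx D) (v : V) :
    Im (Mg D P i) (act (rp i) D.a v) ↔ Im (Mg D P i) v := by
  rw [im_iff h i, im_iff h i]
  exact eig_act (rp_hyp i) _ _ _ _

/-! ### multiplicative systems -/

/-- an invariant system of functions with multipliers -/
structure Sys (f : Cx D → V → ℂ) (c : ℕ × Bool → ℂ) : Prop where
  inv : ∀ i v, Cn (rp i) v → f i (act (rp i) D.a v) = f i v
  mul : ∀ P, Adm D P → ∀ i u, Cn (rp (sg D P i)) u →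
    f i ((Mg D P i).app u) = c P * f (sg D P i) u
  nrm : ∀ P, Adm D P → ‖c P‖ = 1

/-- sums over the shell -/
noncomputable def SS (f : Cx D → V → ℂ) (i : Cx D) (a b : ℝ) : ℂ := ∑ v ∈ Shg i a b, f i v

open Classical in
/-- one prime -/
theorem one_p {f : Cx D → V → ℂ} {c : ℕ × Bool → ℂ} (hf : Sys f c) {P : ℕ × Bool} (h : Adm D P)
    (i : Cx D) (a b : ℝ) :
    ∑ v ∈ Shg i a b, (if Im (Mg D P i) v then f i v else 0) =
      c P * SS f (sg D P i) (a / P.1) (b / P.1) := by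
  rw [← Finset.sum_filter, sum_im h i a b (hf.inv i), SS, Finset.mul_sum]
  refine Finset.sum_congr rfl fun u hu => ?_
  exact hf.mul P h i u (mem_Shg.1 hu).1.1

open Classical in
/-- two primes -/
theorem two_p {f : Cx D → V → ℂ} {c : ℕ × Bool → ℂ} (hf : Sys f c) {P P' : ℕ × Bool}
    (h : Adm D P) (h' : Adm D P') (hne : P ≠ P') (i : Cx D) (a b : ℝ) :
    ∑ v ∈ Shg i a b, (if Im (Mg D P i) v ∧ Im (Mg D P' i) v then f i v else 0) =
      c P * (c P' * SS f (sg D P' (sg D P i)) (a / P.1 / P'.1) (b / P.1 / P'.1)) := by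
  have e1 : ∀ v ∈ Shg i a b, (if Im (Mg D P i) v ∧ Im (Mg D P' i) v then f i v else 0) =
      (if Im (Mg D P i) v then (if Im (Mg D P' i) v then f i v else 0) else 0) := by
    intro v _
    by_cases h1 : Im (Mg D P i) v <;> by_cases h2 : Im (Mg D P' i) v <;> simp [h1, h2]
  rw [Finset.sum_congr rfl e1, ← Finset.sum_filter,
    sum_im h i a b (f := fun v => if Im (Mg D P' i) v then f i v else 0) (fun v hv => by
      simp only [im_act h' i v, hf.inv i v hv]), ← one_p hf h', Finset.mul_sum]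
  refine Finset.sum_congr rfl fun u hu => ?_
  simp only [im_M h h' hne i u, hf.mul P h i u (mem_Shg.1 hu).1.1]
  split_ifs
  · rfl
  · rw [mul_zero]

open Classical in
/-- the centred indicator -/
noncomputable def dv (P : ℕ × Bool) (i : Cx D) (v : V) : ℝ :=
  (if Im (Mg D P i) v then 1 else 0) - 1 / (P.1 : ℝ)

theorem dv_mul_dv {P P' : ℕ × Bool} (f : Cx D → V → ℂ) (i : Cx D) (v : V) :
    ((dv P i v * dv P' i v : ℝ) : ℂ) * f i v =
      (open Classical in if Im (Mg D P i) v ∧ Im (Mg D P' i) v then f i v else 0) -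
      (1 / (P'.1 : ℂ)) * (open Classical in if Im (Mg D P i) v then f i v else 0) -
      (1 / (P.1 : ℂ)) * (open Classical in if Im (Mg D P' i) v then f i v else 0) +
      (1 / (P.1 : ℂ)) * (1 / (P'.1 : ℂ)) * f i v := by
  unfold dv
  by_cases h1 : Im (Mg D P i) v <;> by_cases h2 : Im (Mg D P' i) v <;> simp [h1, h2] <;> ring

/-- two different primes -/
theorem corr {f : Cx D → V → ℂ} {c : ℕ × Bool → ℂ} (hf : Sys f c) (M : Cx D → ℂ)
    (hM : ∀ P, Adm D P → ∀ i, c P * M (sg D P i) = M i) (Y E : ℝ)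
    (hE : ∀ i x y, 0 ≤ x → x ≤ y → y ≤ Y → ‖SS f i x y - M i * ((y - x : ℝ) : ℂ)‖ ≤ E)
    {P P' : ℕ × Bool} (h : Adm D P) (h' : Adm D P') (hne : P ≠ P') (i : Cx D) (a b : ℝ)
    (ha : 0 ≤ a) (hab : a ≤ b) (hb : b ≤ Y) :
    ‖∑ v ∈ Shg i a b, ((dv P i v * dv P' i v : ℝ) : ℂ) * f i v‖ ≤ 4 * E := by
  classical
  have hp1 : (1 : ℝ) ≤ P.1 := by exact_mod_cast h.1.one_lt.le
  have hp1' : (1 : ℝ) ≤ P'.1 := by exact_mod_cast h'.1.one_lt.le
  have hp0 : (P.1 : ℂ) ≠ 0 := by exact_mod_cast h.1.ne_zero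
  have hp0' : (P'.1 : ℂ) ≠ 0 := by exact_mod_cast h'.1.ne_zero
  have hb0 : 0 ≤ b := ha.trans hab
  have hY0 : 0 ≤ Y := hb0.trans hb
  have key : ∀ (q : ℝ), 1 ≤ q → ∀ x y : ℝ, 0 ≤ x → x ≤ y → y ≤ Y →
      0 ≤ x / q ∧ x / q ≤ y / q ∧ y / q ≤ Y := by
    intro q hq x y hx hxy hy
    have hq0 : 0 < q := by linarith
    refine ⟨by positivity, by gcongr, ?_⟩
    exact (div_le_self (hx.trans hxy) hq).trans hy
  obtain ⟨a1, a2, a3⟩ := key P.1 hp1 a b ha hab hb
  obtain ⟨b1, b2, b3⟩ := key P'.1 hp1' a b ha hab hb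
  obtain ⟨d1, d2, d3⟩ := key P'.1 hp1' _ _ a1 a2 a3
  have E0 := hE i a b ha hab hb
  have E1 := hE (sg D P i) _ _ a1 a2 a3
  have E2 := hE (sg D P' i) _ _ b1 b2 b3
  have E3 := hE (sg D P' (sg D P i)) _ _ d1 d2 d3
  have hid : ∑ v ∈ Shg i a b, ((dv P i v * dv P' i v : ℝ) : ℂ) * f i v =
      c P * (c P' * SS f (sg D P' (sg D P i)) (a / P.1 / P'.1) (b / P.1 / P'.1)) -
      (1 / (P'.1 : ℂ)) * (c P * SS f (sg D P i) (a / P.1) (b / P.1)) -
      (1 / (P.1 : ℂ)) * (c P' * SS f (sg D P' i) (a / P'.1) (b / P'.1)) +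
      (1 / (P.1 : ℂ)) * (1 / (P'.1 : ℂ)) * SS f i a b := by
    rw [Finset.sum_congr rfl fun v _ => dv_mul_dv f i v, Finset.sum_add_distrib,
      Finset.sum_sub_distrib, Finset.sum_sub_distrib, ← Finset.mul_sum, ← Finset.mul_sum,
      ← Finset.mul_sum, two_p hf h h' hne, one_p hf h, one_p hf h', SS, SS, SS, SS]
  have hm1 := hM P h i
  have hm2 := hM P' h' i
  have hm3 := hM P' h' (sg D P i)
  have hmain : c P * (c P' * (M (sg D P' (sg D P i)) * ((b / P.1 / P'.1 - a / P.1 / P'.1 : ℝ) : ℂ)))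
      - (1 / (P'.1 : ℂ)) * (c P * (M (sg D P i) * ((b / P.1 - a / P.1 : ℝ) : ℂ))) -
      (1 / (P.1 : ℂ)) * (c P' * (M (sg D P' i) * ((b / P'.1 - a / P'.1 : ℝ) : ℂ))) +
      (1 / (P.1 : ℂ)) * (1 / (P'.1 : ℂ)) * (M i * ((b - a : ℝ) : ℂ)) = 0 := by
    have e1 : c P * (c P' * (M (sg D P' (sg D P i)) *
        ((b / P.1 / P'.1 - a / P.1 / P'.1 : ℝ) : ℂ))) =
        M i * ((b / P.1 / P'.1 - a / P.1 / P'.1 : ℝ) : ℂ) := by
      rw [← mul_assoc (c P'), hm3, ← mul_assoc, hm1]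
    have e2 : c P * (M (sg D P i) * ((b / P.1 - a / P.1 : ℝ) : ℂ)) =
        M i * ((b / P.1 - a / P.1 : ℝ) : ℂ) := by rw [← mul_assoc, hm1]
    have e3 : c P' * (M (sg D P' i) * ((b / P'.1 - a / P'.1 : ℝ) : ℂ)) =
        M i * ((b / P'.1 - a / P'.1 : ℝ) : ℂ) := by rw [← mul_assoc, hm2]
    rw [e1, e2, e3]
    push_cast
    field_simp
    ring
  have n1 : ‖c P‖ = 1 := hf.nrm P h
  have n2 : ‖c P'‖ = 1 := hf.nrm P' h'
  have n3 : ‖(1 / (P.1 : ℂ))‖ ≤ 1 := by
    rw [norm_div, norm_one, Complex.norm_natCast]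
    exact (div_le_one (by linarith)).2 hp1
  have n4 : ‖(1 / (P'.1 : ℂ))‖ ≤ 1 := by
    rw [norm_div, norm_one, Complex.norm_natCast]
    exact (div_le_one (by linarith)).2 hp1'
  have hE0 : 0 ≤ E := (norm_nonneg _).trans E0
  rw [hid, ← sub_zero (_ + _), ← hmain]
  have e4 : ∀ A B C' D' A2 B2 C2 D2 x y X Y' : ℂ,
      (x * (y * A) - Y' * (x * B) - X * (y * C') + X * Y' * D') -
        (x * (y * A2) - Y' * (x * B2) - X * (y * C2) + X * Y' * D2) =
      x * (y * (A - A2)) - Y' * (x * (B - B2)) - X * (y * (C' - C2)) + X * Y' * (D' - D2) := by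
    intros; ring
  rw [e4]
  have m : ∀ x y : ℂ, ‖x‖ ≤ 1 → ‖y‖ ≤ 1 → ∀ z : ℂ, ‖z‖ ≤ E → ‖x * (y * z)‖ ≤ E := by
    intro x y hx hy z hz
    rw [norm_mul, norm_mul]
    calc ‖x‖ * (‖y‖ * ‖z‖) ≤ 1 * (1 * E) :=
          mul_le_mul hx (mul_le_mul hy hz (norm_nonneg _) zero_le_one) (by positivity) zero_le_one
      _ = E := by ring
  refine (norm_add_le _ _).trans ?_
  refine (add_le_add (norm_sub_le _ _) le_rfl).trans ?_
  refine (add_le_add (add_le_add (norm_sub_le _ _) le_rfl) le_rfl).trans ?_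
  have t1 := m _ _ n1.le n2.le _ E3
  have t2 := m _ _ n4 n1.le _ E1
  have t3 := m _ _ n3 n2.le _ E2
  have t4 := m _ _ n3 n4 _ E0
  rw [← mul_assoc] at t4
  linarith

/-- one prime, no main term -/
theorem diag_off {f : Cx D → V → ℂ} {c : ℕ × Bool → ℂ} (hf : Sys f c) (Y E : ℝ)
    (hE : ∀ i x y, 0 ≤ x → x ≤ y → y ≤ Y → ‖SS f i x y‖ ≤ E)
    {P : ℕ × Bool} (h : Adm D P) (i : Cx D) (a b : ℝ)
    (ha : 0 ≤ a) (hab : a ≤ b) (hb : b ≤ Y) :
    ‖∑ v ∈ Shg i a b, ((dv P i v * dv P i v : ℝ) : ℂ) * f i v‖ ≤ 4 * E := by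
  classical
  have hp1 : (1 : ℝ) ≤ P.1 := by exact_mod_cast h.1.one_lt.le
  have hpp : (0 : ℝ) < P.1 := by linarith
  have E0 := hE i a b ha hab hb
  have E1 := hE (sg D P i) (a / P.1) (b / P.1) (by positivity) (by gcongr)
    ((div_le_self (ha.trans hab) hp1).trans hb)
  have hid : ∑ v ∈ Shg i a b, ((dv P i v * dv P i v : ℝ) : ℂ) * f i v =
      (1 - 2 * (1 / (P.1 : ℂ))) * (c P * SS f (sg D P i) (a / P.1) (b / P.1)) +
      (1 / (P.1 : ℂ)) * (1 / (P.1 : ℂ)) * SS f i a b := by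
    rw [← one_p hf h, SS, Finset.mul_sum, Finset.mul_sum, ← Finset.sum_add_distrib]
    refine Finset.sum_congr rfl fun v _ => ?_
    unfold dv
    by_cases h1 : Im (Mg D P i) v
    · simp only [h1, if_true]
      push_cast
      ring
    · simp only [h1, if_false]
      push_cast
      ring
  have n1 : ‖c P‖ = 1 := hf.nrm P h
  have n3 : ‖(1 / (P.1 : ℂ))‖ ≤ 1 := by
    rw [norm_div, norm_one, Complex.norm_natCast]
    exact (div_le_one (by linarith)).2 hp1
  have n5 : ‖1 - 2 * (1 / (P.1 : ℂ))‖ ≤ 3 := by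
    refine (norm_sub_le _ _).trans ?_
    rw [norm_one, norm_mul]
    have : ‖(2 : ℂ)‖ = 2 := by simp
    rw [this]
    linarith
  have hE0 : 0 ≤ E := (norm_nonneg _).trans E0
  rw [hid]
  refine (norm_add_le _ _).trans ?_
  rw [norm_mul, norm_mul, norm_mul, norm_mul, n1, one_mul]
  have t1 : ‖1 - 2 * (1 / (P.1 : ℂ))‖ * ‖SS f (sg D P i) (a / P.1) (b / P.1)‖ ≤ 3 * E :=
    mul_le_mul n5 E1 (norm_nonneg _) (by norm_num)
  have t2 : ‖(1 / (P.1 : ℂ))‖ * ‖(1 / (P.1 : ℂ))‖ * ‖SS f i a b‖ ≤ 1 * 1 * E :=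
    mul_le_mul (mul_le_mul n3 n3 (norm_nonneg _) zero_le_one) E0 (norm_nonneg _) (by norm_num)
  linarith

/-- one prime, trivial bound -/
theorem diag_triv {C0 : ℝ} (hC0 : 0 < C0)
    (HC : ∀ (i : Cx D) (a b X : ℝ), b ≤ X → 1 ≤ X → ((Shg i a b).card : ℝ) ≤ C0 * X)
    {f : Cx D → V → ℂ} (hf1 : ∀ i v, ‖f i v‖ ≤ 1)
    {P : ℕ × Bool} (h : Adm D P) (i : Cx D) (a b X : ℝ) (hb : b ≤ X) (hX : (P.1 : ℝ) ≤ X) :
    (P.1 : ℝ) * ‖∑ v ∈ Shg i a b, ((dv P i v * dv P i v : ℝ) : ℂ) * f i v‖ ≤ 2 * C0 * X := by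
  classical
  have hp1 : (1 : ℝ) ≤ P.1 := by exact_mod_cast h.1.one_lt.le
  have hpp : (0 : ℝ) < P.1 := by linarith
  have h1 : ‖∑ v ∈ Shg i a b, ((dv P i v * dv P i v : ℝ) : ℂ) * f i v‖ ≤
      ∑ v ∈ Shg i a b, ((if Im (Mg D P i) v then (1 : ℝ) else 0) + 1 / (P.1 : ℝ) ^ 2) := by
    refine (norm_sum_le _ _).trans (Finset.sum_le_sum fun v _ => ?_)
    rw [norm_mul, Complex.norm_real, Real.norm_of_nonneg (mul_self_nonneg _)]
    refine (mul_le_of_le_one_right (mul_self_nonneg _) (hf1 i v)).trans ?_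
    unfold dv
    have e1 : (0 : ℝ) < 1 / P.1 := by positivity
    have e2 : 1 / (P.1 : ℝ) ≤ 1 := (div_le_one hpp).2 hp1
    split_ifs
    · have : 1 / (P.1 : ℝ) ^ 2 = (1 / P.1) * (1 / P.1) := by ring
      rw [this]
      nlinarith
    · have : 1 / (P.1 : ℝ) ^ 2 = (1 / P.1) * (1 / P.1) := by ring
      rw [this]
      nlinarith
  have h2 : ∑ v ∈ Shg i a b, (if Im (Mg D P i) v then (1 : ℝ) else 0) =
      ((Shg (sg D P i) (a / P.1) (b / P.1)).card : ℝ) := by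
    have h3 := sum_im h i a b (f := fun _ => (1 : ℂ)) (fun _ _ => rfl)
    rw [Finset.sum_filter, Finset.sum_const, nsmul_eq_mul, mul_one] at h3
    have h4 : ((∑ v ∈ Shg i a b, (if Im (Mg D P i) v then (1 : ℝ) else 0) : ℝ) : ℂ) =
        (((Shg (sg D P i) (a / P.1) (b / P.1)).card : ℝ) : ℂ) := by
      rw [Complex.ofReal_natCast, ← h3, Complex.ofReal_sum]
      refine Finset.sum_congr rfl fun v _ => ?_
      split_ifs <;> simp
    exact_mod_cast h4
  have h5 := HC (sg D P i) (a / P.1) (b / P.1) (X / P.1) (by gcongr) ((one_le_div hpp).2 hX)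
  have h6 := HC i a b X hb (hp1.trans hX)
  rw [Finset.sum_add_distrib, h2, Finset.sum_const, nsmul_eq_mul] at h1
  have hX0 : 0 ≤ X := by linarith
  calc (P.1 : ℝ) * ‖∑ v ∈ Shg i a b, ((dv P i v * dv P i v : ℝ) : ℂ) * f i v‖
      ≤ P.1 * (C0 * (X / P.1) + C0 * X * (1 / (P.1 : ℝ) ^ 2)) := by
        refine mul_le_mul_of_nonneg_left (h1.trans (add_le_add h5 ?_)) hpp.le
        exact mul_le_mul_of_nonneg_right h6 (by positivity)
    _ = C0 * X + C0 * X * (1 / P.1) := by field_simp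
    _ ≤ C0 * X + C0 * X * 1 := by
        have : 1 / (P.1 : ℝ) ≤ 1 := (div_le_one hpp).2 hp1
        have h7 : 0 ≤ C0 * X := by positivity
        nlinarith
    _ = 2 * C0 * X := by ring

/-! ### the products of two eigenfunctions -/

/-- product of two eigenfunctions -/
noncomputable def ff (w w' : Fq D) (i : Cx D) (v : V) : ℂ := ch w i v * (starRingEnd ℂ) (ch w' i v)

theorem ff_sys (w w' : Fq D) :
    Sys (ff w w') (fun P => cw P w * (starRingEnd ℂ) (cw P w')) where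
  inv i v hv := by
    unfold ff
    rw [ch_act w i hv, ch_act w' i hv]
  mul P h i u hu := by
    unfold ff
    rw [ch_M h w i hu, ch_M h w' i hu, map_mul]
    ring
  nrm P h := by
    rw [norm_mul, RCLike.norm_conj, norm_cw h, norm_cw h, one_mul]

theorem ff_le (w w' : Fq D) (i : Cx D) (v : V) : ‖ff w w' i v‖ ≤ 1 := by
  unfold ff
  rw [norm_mul, RCLike.norm_conj]
  exact mul_le_one₀ (norm_ch_le w i v) (norm_nonneg _) (norm_ch_le w' i v)

/-- the permutation of the classes modulo `K` -/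
noncomputable def aiE {P : ℕ × Bool} (h : Adm D P) (i : Cx D) :
    (ZMod D.K × ZMod D.K) ≃ (ZMod D.K × ZMod D.K) where
  toFun := MRSG.ai (Mg D P i)
  invFun := az (Mg D P i)
  left_inv := MRSG.az_ai (unit_M h i)
  right_inv := MRSG.ai_az (unit_M h i)

/-- the density -/
noncomputable def MM (w w' : Fq D) (i : Cx D) : ℂ :=
  if w.1 = w'.1 then ((D.T / (√(D.d : ℝ) * (D.K : ℝ) ^ 2) : ℝ) : ℂ) *
    ∑ α, (starRingEnd ℂ) ((bv D w.1 w.2 : Hs D) (i, α)) * (bv D w'.1 w'.2 : Hs D) (i, α) else 0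

theorem MM_mul (w w' : Fq D) {P : ℕ × Bool} (h : Adm D P) (i : Cx D) :
    cw P w * (starRingEnd ℂ) (cw P w') * MM w w' (sg D P i) = MM w w' i := by
  unfold MM
  by_cases hw : w.1 = w'.1
  · rw [if_pos hw, if_pos hw, mul_left_comm]
    congr 1
    rw [← Equiv.sum_comp (aiE h i), Finset.mul_sum]
    refine Finset.sum_congr rfl fun α _ => ?_
    have key : ∀ w : Fq D, uu i ((Mg D P i).app (1, 0)) ^ w.1 *
        (bv D w.1 w.2 : Hs D) (sg D P i, MRSG.ai (Mg D P i) α) =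
        cw P w * (bv D w.1 w.2 : Hs D) (i, α) := by
      intro w
      have h1 := (bv_spec h w.1 w.2).2
      have h2 : Ug D P w.1 (bv D w.1 w.2 : Hs D) (i, α) =
          cw P w * (bv D w.1 w.2 : Hs D) (i, α) := by
        rw [h1]; rfl
      rw [Ug_apply] at h2
      exact h2
    have k1 := congrArg (starRingEnd ℂ) (key w)
    have k2 := key w'
    rw [map_mul, map_mul] at k1
    show cw P w * (starRingEnd ℂ) (cw P w') *
      ((starRingEnd ℂ) ((bv D w.1 w.2 : Hs D) (sg D P i, MRSG.ai (Mg D P i) α)) *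
      (bv D w'.1 w'.2 : Hs D) (sg D P i, MRSG.ai (Mg D P i) α)) = _
    have hpow : uu i ((Mg D P i).app (1, 0)) ^ w'.1 = uu i ((Mg D P i).app (1, 0)) ^ w.1 := by
      rw [hw]
    rw [hpow] at k2
    set φ := uu i ((Mg D P i).app (1, 0)) ^ w.1 with hφ
    have hφ1 : (starRingEnd ℂ) φ * φ = 1 := by
      rw [mul_comm, Complex.mul_conj, Complex.normSq_eq_norm_sq, hφ, norm_phase P i w.1]; norm_num
    have hc1 : cw P w * (starRingEnd ℂ) (cw P w) = 1 := by
      rw [Complex.mul_conj, Complex.normSq_eq_norm_sq, norm_cw h w]; norm_num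
    have hc2 : (starRingEnd ℂ) (cw P w') * cw P w' = 1 := by
      rw [mul_comm, Complex.mul_conj, Complex.normSq_eq_norm_sq, norm_cw h w']; norm_num
    set A := (starRingEnd ℂ) ((bv D w.1 w.2 : Hs D) (sg D P i, MRSG.ai (Mg D P i) α)) with hA
    set B := (bv D w'.1 w'.2 : Hs D) (sg D P i, MRSG.ai (Mg D P i) α) with hB
    set A' := (starRingEnd ℂ) ((bv D w.1 w.2 : Hs D) (i, α)) with hA'
    set B' := (bv D w'.1 w'.2 : Hs D) (i, α) with hB'
    calc cw P w * (starRingEnd ℂ) (cw P w') * (A * B)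
        = cw P w * (starRingEnd ℂ) (cw P w') * (((starRingEnd ℂ) φ * φ) * (A * B)) := by
          rw [hφ1, one_mul]
      _ = cw P w * (starRingEnd ℂ) (cw P w') * (((starRingEnd ℂ) φ * A) * (φ * B)) := by ring
      _ = cw P w * (starRingEnd ℂ) (cw P w') * (((starRingEnd ℂ) (cw P w) * A') *
          (cw P w' * B')) := by rw [k1, k2]
      _ = (cw P w * (starRingEnd ℂ) (cw P w)) * ((starRingEnd ℂ) (cw P w') * cw P w') *
          (A' * B') := by ring
      _ = A' * B' := by rw [hc1, hc2]; ring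
  · rw [if_neg hw, if_neg hw, mul_zero]

/-- the sums over the shells -/
theorem SS_bd {B T x y : ℝ}
    (H : ∀ i : Cx D, ∀ h : ℤ, |(h : ℝ)| ≤ T → ∀ α : V,
      ∀ S : Finset V, (∀ v : V, v ∈ S ↔ ((D.K : ℤ) ∣ v.1 - α.1 ∧ (D.K : ℤ) ∣ v.2 - α.2 ∧
        Sec (rp i) D.T v ∧ x < ((rp i).q v : ℝ) ∧ ((rp i).q v : ℝ) ≤ y)) →
      ‖∑ v ∈ S, uu i v ^ h -
        (if h = 0 then (((y - x) * D.T / (√(D.d : ℝ) * (D.K : ℝ) ^ 2) : ℝ) : ℂ) else 0)‖ ≤ B)
    (w w' : Fq D) (hT : |((w.1 - w'.1 : ℤ) : ℝ)| ≤ T) (i : Cx D) :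
    ‖SS (ff w w') i x y - MM w w' i * ((y - x : ℝ) : ℂ)‖ ≤ ((D.K : ℝ) * D.K) * B := by
  classical
  have h1 : SS (ff w w') i x y - MM w w' i * ((y - x : ℝ) : ℂ) =
      ∑ α : ZMod D.K × ZMod D.K, ((starRingEnd ℂ) ((bv D w.1 w.2 : Hs D) (i, α)) *
            (bv D w'.1 w'.2 : Hs D) (i, α)) *
      (∑ v ∈ (Shg i x y).filter (fun v => cl D.K v = α), uu i v ^ (w.1 - w'.1) -
        (if w.1 - w'.1 = 0 then (((y - x) * D.T / (√(D.d : ℝ) * (D.K : ℝ) ^ 2) : ℝ) : ℂ)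
          else 0)) := by
    simp only [mul_sub]
    rw [Finset.sum_sub_distrib]
    congr 1
    · rw [SS, ← Finset.sum_fiberwise (Shg i x y) (fun v => cl D.K v)]
      refine Finset.sum_congr rfl fun α _ => ?_
      rw [Finset.mul_sum]
      refine Finset.sum_congr rfl fun v hv => ?_
      rw [Finset.mem_filter] at hv
      unfold ff
      rw [ch_conj96 w w' i v, hv.2]
    · unfold MM
      by_cases hw : w.1 = w'.1
      · rw [if_pos hw]
        have hw' : w.1 - w'.1 = 0 := sub_eq_zero.2 hw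
        simp only [hw', if_true]
        rw [← Finset.sum_mul]
        push_cast
        ring
      · rw [if_neg hw]
        have hw' : w.1 - w'.1 ≠ 0 := sub_ne_zero.2 hw
        simp only [hw', if_false, mul_zero, zero_mul, Finset.sum_const_zero]
  rw [h1]
  have h2 : ∀ α : ZMod D.K × ZMod D.K, ‖((starRingEnd ℂ) ((bv D w.1 w.2 : Hs D) (i, α)) *
            (bv D w'.1 w'.2 : Hs D) (i, α)) *
      (∑ v ∈ (Shg i x y).filter (fun v => cl D.K v = α), uu i v ^ (w.1 - w'.1) -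
        (if w.1 - w'.1 = 0 then (((y - x) * D.T / (√(D.d : ℝ) * (D.K : ℝ) ^ 2) : ℝ) : ℂ)
          else 0))‖ ≤ B := by
    intro α
    rw [norm_mul, norm_mul, RCLike.norm_conj]
    have h3 := H i (w.1 - w'.1) hT (rz α) ((Shg i x y).filter (fun v => cl D.K v = α))
      (fun v => by
        rw [Finset.mem_filter, mem_Shg, cl_iff96]
        constructor
        · rintro ⟨⟨h4, h5, h6⟩, h7, h8⟩
          exact ⟨h7, h8, h4, h5, h6⟩
        · rintro ⟨h4, h5, h6, h7, h8⟩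
          exact ⟨⟨h6, h7, h8⟩, h4, h5⟩)
    have h4 := bv_le w (i, α)
    have h5 := bv_le w' (i, α)
    calc _ ≤ 1 * 1 * B := by
          refine mul_le_mul (mul_le_mul h4 h5 (norm_nonneg _) zero_le_one) h3
            (norm_nonneg _) (by norm_num)
      _ = _ := by ring
  refine (norm_sum_le _ _).trans ((Finset.sum_le_sum fun α _ => h2 α).trans ?_)
  rw [Finset.sum_const, Finset.card_univ, Fintype.card_prod, ZMod.card, nsmul_eq_mul]
  push_cast
  exact le_rfl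

/-- the basic identity -/
theorem mag_id (z : ℂ) (r1 r2 N : ℝ) (hN : 0 < N) (w : Fq D) {P : ℕ × Bool} (h : Adm D P) :
    Mag z r1 r2 N w - z * cw P w * Mag z r1 r2 (N / P.1) w =
      -((P.1 : ℂ) / (N : ℂ)) * ∑ i, ∑ v ∈ Shg i (r1 * N) (r2 * N), (dv P i v : ℂ) *
        (gz z (rp i) v * ch w i v) := by
  classical
  have hn : (0 : ℝ) < P.1 := by exact_mod_cast h.1.pos
  have hnC : (P.1 : ℂ) ≠ 0 := by exact_mod_cast h.1.ne_zero
  have hNC : (N : ℂ) ≠ 0 := by exact_mod_cast hN.ne'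
  have h1 := (stIdG_17 D z (r1 * N) (r2 * N) P w h).2
  have h3 : ∑ i, ∑ v ∈ Shg i (r1 * N) (r2 * N), (dv P i v : ℂ) * (gz z (rp i) v * ch w i v) =
      (∑ i, ∑ v ∈ (Shg i (r1 * N) (r2 * N)).filter (fun v => Im (Mg D P i) v),
        gz z (rp i) v * ch w i v) -
        (1 / (P.1 : ℂ)) * ∑ i, ∑ v ∈ Shg i (r1 * N) (r2 * N), gz z (rp i) v * ch w i v := by
    rw [Finset.mul_sum, ← Finset.sum_sub_distrib]
    refine Finset.sum_congr rfl fun i _ => ?_
    rw [Finset.mul_sum, Finset.sum_filter, ← Finset.sum_sub_distrib]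
    refine Finset.sum_congr rfl fun v _ => ?_
    unfold dv
    by_cases h4 : Im (Mg D P i) v
    · simp only [h4, if_true]
      push_cast
      ring
    · simp only [h4, if_false]
      push_cast
      ring
  rw [h3, h1]
  unfold Mag
  have e1 : r1 * (N / P.1) = r1 * N / P.1 := by ring
  have e2 : r2 * (N / P.1) = r2 * N / P.1 := by ring
  rw [e1, e2]
  push_cast
  field_simp
  ring

theorem card_slg (D : Dat) (b : ℝ) (hb : 1 ≤ b) : ((slg D 3 b).card : ℝ) ≤ 4 * b := by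
  classical
  have h1 : (slg D 3 b).card ≤ ((Finset.range ⌈b⌉₊) ×ˢ (Finset.univ : Finset Bool)).card := by
    unfold slg
    exact Finset.card_filter_le _ _
  rw [Finset.card_product, Finset.card_range, Finset.card_univ, Fintype.card_bool] at h1
  have h2 : ((slg D 3 b).card : ℝ) ≤ (⌈b⌉₊ : ℝ) * 2 := by exact_mod_cast h1
  have h3 : (⌈b⌉₊ : ℝ) < b + 1 := Nat.ceil_lt_add_one (by linarith)
  linarith

end Tkh79

open Tkh79
open HmuH96 (card_Shg96 card_fib96)

/-- **Row TKH** -/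
theorem stTkhG_79 (D : Dat) : StTkhG D := by
  classical
  intro z hz r1 r2 hr1 hr12
  obtain ⟨c0, C, hc0, hc02, hC, H⟩ := expS67 D (1 / 16) (by norm_num)
  obtain ⟨C0, hC0, HC⟩ := card_Shg96 D
  set R : ℝ := max r2 1 with hR
  have hR1 : 1 ≤ R := le_max_right _ _
  have hR2 : r2 ≤ R := le_max_left _ _
  set n0 : ℝ := ((Fintype.card (Cx D) : ℕ) : ℝ) with hn0
  have hn00 : 0 ≤ n0 := Nat.cast_nonneg _
  set kk : ℝ := (D.K : ℝ) * D.K with hkk
  have hkk0 : 0 ≤ kk := by positivity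
  have hKK : (1 : ℝ) ≤ (D.K : ℝ) ^ 2 := by
    have : 1 ≤ D.K := D.Kpos
    exact one_le_pow₀ (by exact_mod_cast this)
  have hKK0 : (0 : ℝ) < (D.K : ℝ) ^ 2 := by linarith
  set c : ℝ := min (1 / 16) (c0 / 4) with hc
  have hcp : 0 < c := lt_min (by norm_num) (by positivity)
  have hc1 : c ≤ 1 / 16 := min_le_left _ _
  have hc2 : c ≤ c0 / 4 := min_le_right _ _
  set G' : ℝ := n0 * kk * (n0 * (2 * C0 * R)) + 16 * (n0 * (kk * (C * (2 + R)))) with hG'
  have hG'0 : 0 ≤ G' := by positivity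
  set M0 : ℝ := n0 * (C0 * R) with hM0
  have hM00 : 0 ≤ M0 := by positivity
  refine ⟨c, M0 * G' + 1, 1, hcp, by linarith, by positivity, le_rfl, ?_⟩
  intro N hN U hU hUs
  have hN0 : (0 : ℝ) < N := by linarith
  have hRN : 1 ≤ R * N := one_le_mul_of_one_le_of_one_le hR1 hN
  have hNRN : N ≤ R * N := le_mul_of_one_le_left hN0.le hR1
  have hb : r2 * N ≤ R * N := by gcongr
  have ha0 : 0 ≤ r1 * N := by positivity
  have hab : r1 * N ≤ r2 * N := by gcongr
  have hNc : 1 ≤ N ^ c := Real.one_le_rpow hN hcp.le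
  have hNcN : N ^ c ≤ N := by
    calc N ^ c ≤ N ^ (1 : ℝ) := Real.rpow_le_rpow_of_exponent_le hN (by linarith)
      _ = N := Real.rpow_one N
  set P : Finset (ℕ × Bool) := slg D 3 (N ^ c) with hP
  have hPa : ∀ p ∈ P, Adm D p := fun p hp => (mem_slg.1 hp).1
  have hPb : ∀ p ∈ P, (p.1 : ℝ) ≤ N ^ c := fun p hp => (mem_slg.1 hp).2.2.le
  have hPc : (P.card : ℝ) ≤ 4 * N ^ c := card_slg D _ hNc
  -- exponential sums
  set E : ℝ := kk * (C * ((2 + R) * N ^ (1 - c0))) with hE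
  have hE0 : 0 ≤ E := by positivity
  have hT1 : (1 : ℝ) ≤ 2 * N ^ 2 := by
    have : (1 : ℝ) ≤ N ^ 2 := one_le_pow₀ hN
    linarith
  have hY1 : (D.K : ℝ) ^ 2 * (2 * N ^ 2) ^ (1 / 16 : ℝ) ≤ (D.K : ℝ) ^ 2 * ((2 + R) * N) := by
    refine mul_le_mul_of_nonneg_left ?_ hKK0.le
    rw [Real.mul_rpow (by norm_num) (by positivity)]
    have h5 : (2 : ℝ) ^ (1 / 16 : ℝ) ≤ 2 + R := by
      calc (2 : ℝ) ^ (1 / 16 : ℝ) ≤ 2 ^ (1 : ℝ) :=
            Real.rpow_le_rpow_of_exponent_le (by norm_num) (by norm_num)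
        _ = 2 := Real.rpow_one 2
        _ ≤ 2 + R := by linarith
    have h6 : (N ^ 2) ^ (1 / 16 : ℝ) ≤ N := by
      rw [← Real.rpow_natCast, ← Real.rpow_mul hN0.le]
      calc N ^ (((2 : ℕ) : ℝ) * (1 / 16 : ℝ)) ≤ N ^ (1 : ℝ) :=
            Real.rpow_le_rpow_of_exponent_le hN (by norm_num)
        _ = N := Real.rpow_one N
    exact mul_le_mul h5 h6 (by positivity) (by linarith)
  have hSS : ∀ w ∈ U, ∀ w' ∈ U, ∀ i x y, 0 ≤ x → x ≤ y → y ≤ R * N →
      ‖SS (ff w w') i x y - MM w w' i * ((y - x : ℝ) : ℂ)‖ ≤ E := by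
    intro w hw w' hw' i x y hx hxy hy
    refine SS_bd (B := C * ((2 + R) * N ^ (1 - c0))) (T := 2 * N ^ 2) ?_ w w' ?_ i
    · intro i h hh α S hS
      have hy2 : y ≤ (D.K : ℝ) ^ 2 * ((2 + R) * N) := by
        have h5 : (2 + R) * N ≤ (D.K : ℝ) ^ 2 * ((2 + R) * N) :=
          le_mul_of_one_le_left (by positivity) hKK
        exact hy.trans ((mul_le_mul_of_nonneg_right (show R ≤ 2 + R by linarith) hN0.le).trans h5)
      have h4 := H i (2 * N ^ 2) h D.K α ((D.K : ℝ) ^ 2 * ((2 + R) * N)) x y S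
        hT1 hh D.Kpos hY1 hx hxy hy2 hS
      refine h4.trans (mul_le_mul_of_nonneg_left ?_ hC.le)
      rw [mul_div_cancel_left₀ _ hKK0.ne', Real.mul_rpow (by linarith) hN0.le]
      refine mul_le_mul_of_nonneg_right ?_ (by positivity)
      calc (2 + R) ^ (1 - c0) ≤ (2 + R) ^ (1 : ℝ) :=
            Real.rpow_le_rpow_of_exponent_le (by linarith) (by linarith)
        _ = 2 + R := Real.rpow_one _
    · push_cast
      have h5 := (abs_sub (w.1 : ℝ) w'.1).trans (add_le_add (hUs w hw) (hUs w' hw'))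
      linarith
  -- the set
  set Sg : Finset (Σ _ : Cx D, V) := Finset.univ.sigma (fun i => Shg i (r1 * N) (r2 * N)) with hSg
  have hcard : (Sg.card : ℝ) ≤ M0 * N := by
    rw [hSg, Finset.card_sigma]
    push_cast
    refine (Finset.sum_le_sum fun i _ => HC i _ _ (R * N) hb hRN).trans ?_
    rw [Finset.sum_const, Finset.card_univ, nsmul_eq_mul, hM0]
    exact le_of_eq (by ring)
  let φ : Fq D × (ℕ × Bool) → (Σ _ : Cx D, V) → ℂ := fun k x =>
    ((√(k.2.1 : ℝ) * dv k.2 x.1 x.2 : ℝ) : ℂ) * ch k.1 x.1 x.2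
  set G1 : ℝ := n0 * (2 * C0 * (R * N)) with hG1
  have hG10 : 0 ≤ G1 := by positivity
  set G2 : ℝ := N ^ c * (n0 * (4 * E)) with hG2
  have hG20 : 0 ≤ G2 := by positivity
  have hrow : ∀ k ∈ U ×ˢ P, ∑ l ∈ U ×ˢ P, ‖∑ x ∈ Sg,
      (((fun _ => (1 : ℝ)) x : ℝ) : ℂ) * (φ k x * (starRingEnd ℂ) (φ l x))‖ ≤ G' * N := by
    rintro ⟨w, p⟩ hwp
    rw [Finset.mem_product] at hwp
    obtain ⟨hw, hp⟩ := hwp
    simp only at hw hp
    have hterm : ∀ w' ∈ U, ∀ p' ∈ P, ‖∑ x ∈ Sg,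
        (((fun _ => (1 : ℝ)) x : ℝ) : ℂ) * (φ (w, p) x * (starRingEnd ℂ) (φ (w', p') x))‖ ≤
        (if p' = p then (if w'.1 = w.1 then G1 else 0) else 0) + G2 := by
      intro w' hw' p' hp'
      have e1 : ∑ x ∈ Sg,
          (((fun _ => (1 : ℝ)) x : ℝ) : ℂ) * (φ (w, p) x * (starRingEnd ℂ) (φ (w', p') x)) =
          ((√(p.1 : ℝ) * √(p'.1 : ℝ) : ℝ) : ℂ) *
            ∑ i, ∑ v ∈ Shg i (r1 * N) (r2 * N), ((dv p i v * dv p' i v : ℝ) : ℂ) *
              ff w w' i v := by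
        rw [hSg, Finset.sum_sigma, Finset.mul_sum]
        refine Finset.sum_congr rfl fun i _ => ?_
        rw [Finset.mul_sum]
        refine Finset.sum_congr rfl fun v _ => ?_
        simp only [φ, ff]
        rw [map_mul, Complex.conj_ofReal]
        push_cast
        ring
      rw [e1, norm_mul, Complex.norm_real, Real.norm_of_nonneg (by positivity)]
      have h6 : √(p.1 : ℝ) * √(p'.1 : ℝ) ≤ N ^ c := by
        rw [← Real.sqrt_mul (by positivity)]
        apply Real.sqrt_le_iff.2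
        refine ⟨by linarith, ?_⟩
        rw [sq]
        exact mul_le_mul (hPb p hp) (hPb p' hp') (Nat.cast_nonneg _) (by linarith)
      by_cases hpp : p' = p
      · subst hpp
        rw [if_pos rfl]
        by_cases hww : w'.1 = w.1
        · rw [if_pos hww]
          have h7 : √(p'.1 : ℝ) * √(p'.1 : ℝ) = p'.1 := Real.mul_self_sqrt (by positivity)
          rw [h7]
          have h8 : (p'.1 : ℝ) * ‖∑ i, ∑ v ∈ Shg i (r1 * N) (r2 * N),
              ((dv p' i v * dv p' i v : ℝ) : ℂ) * ff w w' i v‖ ≤ G1 := by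
            calc (p'.1 : ℝ) * ‖∑ i, ∑ v ∈ Shg i (r1 * N) (r2 * N),
              ((dv p' i v * dv p' i v : ℝ) : ℂ) * ff w w' i v‖
                ≤ (p'.1 : ℝ) * ∑ i, ‖∑ v ∈ Shg i (r1 * N) (r2 * N),
                    ((dv p' i v * dv p' i v : ℝ) : ℂ) * ff w w' i v‖ :=
                  mul_le_mul_of_nonneg_left (norm_sum_le _ _) (by positivity)
              _ = ∑ i, (p'.1 : ℝ) * ‖∑ v ∈ Shg i (r1 * N) (r2 * N),
                    ((dv p' i v * dv p' i v : ℝ) : ℂ) * ff w w' i v‖ := Finset.mul_sum _ _ _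
              _ ≤ ∑ _i : Cx D, 2 * C0 * (R * N) := Finset.sum_le_sum fun i _ =>
                  diag_triv hC0 HC (ff_le w w') (hPa p' hp) i _ _ (R * N) hb
                    ((hPb p' hp).trans (hNcN.trans hNRN))
              _ = G1 := by rw [Finset.sum_const, Finset.card_univ, nsmul_eq_mul]
          linarith
        · rw [if_neg hww, zero_add]
          have h7 : ∀ i x y, 0 ≤ x → x ≤ y → y ≤ R * N → ‖SS (ff w w') i x y‖ ≤ E := by
            intro i x y hx hxy hy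
            have h8 := hSS w hw w' hw' i x y hx hxy hy
            have h9 : MM w w' i = 0 := by
              unfold MM
              rw [if_neg (fun h => hww h.symm)]
            rwa [h9, zero_mul, sub_zero] at h8
          refine mul_le_mul h6 ?_ (norm_nonneg _) (by linarith)
          refine (norm_sum_le _ _).trans ?_
          refine (Finset.sum_le_sum fun i _ => diag_off (ff_sys w w') (R * N) E h7 (hPa p' hp) i
            _ _ ha0 hab hb).trans ?_
          rw [Finset.sum_const, Finset.card_univ, nsmul_eq_mul]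
      · rw [if_neg hpp, zero_add]
        refine mul_le_mul h6 ?_ (norm_nonneg _) (by linarith)
        refine (norm_sum_le _ _).trans ?_
        refine (Finset.sum_le_sum fun i _ => corr (ff_sys w w') (MM w w')
          (fun p hp i => MM_mul w w' hp i) (R * N) E (hSS w hw w' hw') (hPa p hp) (hPa p' hp')
          (Ne.symm hpp) i _ _ ha0 hab hb).trans ?_
        rw [Finset.sum_const, Finset.card_univ, nsmul_eq_mul]
    rw [Finset.sum_product]
    refine (Finset.sum_le_sum fun w' hw' => Finset.sum_le_sum fun p' hp' =>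
      hterm w' hw' p' hp').trans ?_
    have e3 : ∀ w' ∈ U, ∑ p' ∈ P, ((if p' = p then (if w'.1 = w.1 then G1 else 0) else 0) + G2) =
        (if w'.1 = w.1 then G1 else 0) + P.card * G2 := by
      intro w' _
      rw [Finset.sum_add_distrib, Finset.sum_const, nsmul_eq_mul, Finset.sum_ite_eq' P p,
        if_pos hp]
    rw [Finset.sum_congr rfl e3, Finset.sum_add_distrib, Finset.sum_const, nsmul_eq_mul,
      ← Finset.sum_filter, Finset.sum_const, nsmul_eq_mul]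
    have h2 := card_fib96 U w.1
    have h3 : ((U.filter (fun w' => w'.1 = w.1)).card : ℝ) * G1 ≤ n0 * kk * G1 :=
      mul_le_mul_of_nonneg_right h2 hG10
    have h4 : (U.card : ℝ) * (P.card * G2) ≤ 16 * (n0 * (kk * (C * (2 + R)))) * N := by
      have e5 : N ^ c * N ^ c * N ^ c * N ^ (1 - c0) ≤ N := by
        rw [← Real.rpow_add hN0, ← Real.rpow_add hN0, ← Real.rpow_add hN0]
        calc N ^ (c + c + c + (1 - c0)) ≤ N ^ (1 : ℝ) :=
              Real.rpow_le_rpow_of_exponent_le hN (by linarith)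
          _ = N := Real.rpow_one _
      calc (U.card : ℝ) * (P.card * G2) ≤ N ^ c * ((4 * N ^ c) * G2) :=
            mul_le_mul hU (mul_le_mul_of_nonneg_right hPc hG20) (by positivity) (by linarith)
        _ = 16 * (n0 * (kk * (C * (2 + R)))) * (N ^ c * N ^ c * N ^ c * N ^ (1 - c0)) := by
            rw [hG2, hE]
            ring
        _ ≤ 16 * (n0 * (kk * (C * (2 + R)))) * N :=
            mul_le_mul_of_nonneg_left e5 (by positivity)
    calc _ ≤ n0 * kk * G1 + 16 * (n0 * (kk * (C * (2 + R)))) * N := add_le_add h3 h4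
      _ = G' * N := by
          rw [hG1, hG']
          ring
  have hmain := MRS.hm_96 Sg (U ×ˢ P) (fun _ => (1 : ℝ)) (fun _ _ => zero_le_one)
    φ (fun x => gz z (rp x.1) x.2) (G' * N) (by positivity) hrow
  rw [Finset.sum_product] at hmain
  have hS : ∑ x ∈ Sg, ((fun _ => (1 : ℝ)) x : ℝ) * ‖gz z (rp x.1) x.2‖ ^ 2 ≤ M0 * N := by
    calc ∑ x ∈ Sg, ((fun _ => (1 : ℝ)) x : ℝ) * ‖gz z (rp x.1) x.2‖ ^ 2 ≤ ∑ x ∈ Sg, (1 : ℝ) := by
          refine Finset.sum_le_sum fun x _ => ?_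
          have h1 : ‖gz z (rp x.1) x.2‖ = 1 := by
            unfold gz
            rw [norm_pow, hz, one_pow]
          rw [h1]
          norm_num
      _ = (Sg.card : ℝ) := by simp
      _ ≤ M0 * N := hcard
  have hterm : ∀ w ∈ U, ∀ p ∈ P, (1 / (p.1 : ℝ)) *
      ‖Mag z r1 r2 N w - z * cw p w * Mag z r1 r2 (N / p.1) w‖ ^ 2 =
      (1 / N ^ 2) * ‖∑ x ∈ Sg, (((fun _ => (1 : ℝ)) x : ℝ) : ℂ) * gz z (rp x.1) x.2 *
        φ (w, p) x‖ ^ 2 := by
    intro w _ p hp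
    have hpa := hPa p hp
    have hn : (0 : ℝ) < p.1 := by exact_mod_cast hpa.1.pos
    have e4 : ∑ x ∈ Sg, (((fun _ => (1 : ℝ)) x : ℝ) : ℂ) * gz z (rp x.1) x.2 * φ (w, p) x =
        ((√(p.1 : ℝ) : ℝ) : ℂ) * ∑ i, ∑ v ∈ Shg i (r1 * N) (r2 * N), (dv p i v : ℂ) *
          (gz z (rp i) v * ch w i v) := by
      rw [hSg, Finset.sum_sigma, Finset.mul_sum]
      refine Finset.sum_congr rfl fun i _ => ?_
      rw [Finset.mul_sum]
      refine Finset.sum_congr rfl fun v _ => ?_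
      simp only [φ]
      push_cast
      ring
    rw [e4, mag_id z r1 r2 N hN0 w hpa, norm_mul, norm_mul, norm_neg, norm_div,
      Complex.norm_natCast, Complex.norm_real, Complex.norm_real, Real.norm_of_nonneg hN0.le,
      Real.norm_of_nonneg (Real.sqrt_nonneg _), mul_pow, mul_pow, Real.sq_sqrt (by positivity)]
    field_simp
  rw [Finset.sum_congr rfl (fun w hw => Finset.sum_congr rfl (fun p hp => hterm w hw p hp))]
  have hpull : ∑ w ∈ U, ∑ p ∈ P, (1 / N ^ 2) * ‖∑ x ∈ Sg, (((fun _ => (1 : ℝ)) x : ℝ) : ℂ) *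
      gz z (rp x.1) x.2 * φ (w, p) x‖ ^ 2 =
      (1 / N ^ 2) * ∑ w ∈ U, ∑ p ∈ P, ‖∑ x ∈ Sg, (((fun _ => (1 : ℝ)) x : ℝ) : ℂ) *
      gz z (rp x.1) x.2 * φ (w, p) x‖ ^ 2 := by
    rw [Finset.mul_sum]
    exact Finset.sum_congr rfl (fun w _ => (Finset.mul_sum _ _ _).symm)
  rw [hpull]
  calc (1 / N ^ 2) * ∑ w ∈ U, ∑ p ∈ P, ‖∑ x ∈ Sg, (((fun _ => (1 : ℝ)) x : ℝ) : ℂ) *
      gz z (rp x.1) x.2 * φ (w, p) x‖ ^ 2
      ≤ (1 / N ^ 2) * ((M0 * N) * (G' * N)) :=
        mul_le_mul_of_nonneg_left (hmain.trans (mul_le_mul_of_nonneg_right hS (by positivity)))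
          (by positivity)
    _ = M0 * G' := by field_simp
    _ ≤ M0 * G' + 1 := by linarith

end Pool.Agent.Lib.MP_a17b09_nt.MRH
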