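import Pool.Agent.Lib.MP_a17b09_nt.MRH.All90
import Pool.Agent.Lib.MP_a17b09_nt.MRH.Tkh79

/-!
Project MRH: the interface for every indefinite form, no hypotheses.
-/

set_option autoImplicit false

namespace Pool.Agent.Lib.MP_a17b09_nt.MRH

/-- the interface for every indefinite form of discriminant `d` -/
theorem stMrsH_top90 (d : ℕ) : StMrsH d := stMrsH_all90 fun D _ => stTkhG_79 D

end Pool.Agent.Lib.MP_a17b09_nt.MRH
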