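import Pool.Agent.Lib.MP_a17b09_nt.MRH.Stmts79
import Pool.Agent.Lib.MP_a17b09_nt.MRSG.LSG22

/-!
MRH: the large sieve for the directions of the vectors of a hyperbolic sector, and the rows StLspG
and StLsG (helper22).
-/

set_option autoImplicit false

open Finset

namespace Pool.Agent.Lib.MP_a17b09_nt.MRH

open CH CH.PE HY HY.S68

namespace LspH22

/-- direction of a vector of the cone, period `T` -/
noncomputable def uh (Q : Form) (T : ℝ) (v : V) : ℂ :=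
  Complex.exp (((2 * Real.pi * ps Q v / T : ℝ) : ℂ) * Complex.I)

theorem norm_uh (Q : Form) (T : ℝ) (v : V) : ‖uh Q T v‖ = 1 := Complex.norm_exp_ofReal_mul_I _

/-- the distance of the directions, angles of distance at most `T / 2` -/
theorem chord {Q : Form} {T : ℝ} (hT : 0 < T) {v w : V} (h : |ps Q v - ps Q w| ≤ T / 2) :
    4 / T * |ps Q v - ps Q w| ≤ ‖uh Q T v - uh Q T w‖ := by
  have hpi := Real.pi_pos
  set x : ℝ := 2 * Real.pi * (ps Q v - ps Q w) / T with hx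
  have h1 : uh Q T v - uh Q T w = uh Q T w * (Complex.exp (Complex.I * (x : ℝ)) - 1) := by
    unfold uh
    rw [mul_sub, ← Complex.exp_add, mul_one]
    congr 2
    rw [hx]
    push_cast
    ring
  rw [h1, norm_mul, norm_uh, one_mul, Complex.norm_exp_I_mul_ofReal_sub_one, norm_mul,
    Real.norm_of_nonneg (by norm_num : (0 : ℝ) ≤ 2), Real.norm_eq_abs]
  have h2 : |x / 2| = Real.pi / T * |ps Q v - ps Q w| := by
    have : x / 2 = Real.pi / T * (ps Q v - ps Q w) := by rw [hx]; ring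
    rw [this, abs_mul, abs_of_pos (div_pos hpi hT)]
  have h3 : |x / 2| ≤ Real.pi / 2 := by
    rw [h2]
    calc Real.pi / T * |ps Q v - ps Q w| ≤ Real.pi / T * (T / 2) := by gcongr
      _ = Real.pi / 2 := by field_simp
  have h4 := Real.mul_abs_le_abs_sin h3
  rw [h2] at h4
  have h5 : 2 / Real.pi * (Real.pi / T * |ps Q v - ps Q w|) = 2 / T * |ps Q v - ps Q w| := by
    field_simp
  rw [h5] at h4
  have h6 : 4 / T * |ps Q v - ps Q w| = 2 * (2 / T * |ps Q v - ps Q w|) := by ring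
  rw [h6]
  exact mul_le_mul_of_nonneg_left h4 (by norm_num)

theorem abs_sinh_le {T x : ℝ} (hx : |x| ≤ T) : |Real.sinh x| ≤ Real.cosh T * |x| := by
  rw [Real.abs_sinh]
  rcases (abs_nonneg x).eq_or_lt with h | h
  · rw [← h]; simp
  · obtain ⟨ξ, hξ, hξ'⟩ := exists_hasDerivAt_eq_slope Real.sinh Real.cosh h
      Real.continuous_sinh.continuousOn (fun y _ => Real.hasDerivAt_sinh y)
    rw [Real.sinh_zero, sub_zero, sub_zero, eq_div_iff h.ne'] at hξ'
    rw [← hξ']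
    apply mul_le_mul_of_nonneg_right _ h.le
    rw [Real.cosh_le_cosh]
    rw [abs_of_pos hξ.1]
    exact (hξ.2.le.trans hx).trans (le_abs_self T)

/-- the wedge of two vectors and the distance of their directions -/
theorem wd_le {d : ℕ} {Q : Form} (hQ : Hyp d Q) {T : ℝ} (hT : 0 < T) {v w : V} (hv : Cn Q v)
    (hw : Cn Q w) (h : |ps Q v - ps Q w| ≤ T / 2) :
    √(d : ℝ) / 2 * |(wd v w : ℝ)| ≤
      T * Real.cosh T / 4 * (√(Q.q v : ℝ) * √(Q.q w : ℝ)) * ‖uh Q T v - uh Q T w‖ := by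
  have h1 := sinh_ps hQ hv hw
  have h2 := chord hT h
  have hcT := Real.cosh_pos T
  have hd := hQ.sd
  have h3 : |ps Q w - ps Q v| ≤ T := by
    rw [abs_sub_comm]
    linarith
  have h4 := abs_sinh_le h3
  have h5 : √(d : ℝ) / 2 * |(wd v w : ℝ)| = |√(d : ℝ) / 2 * wd v w| := by
    rw [abs_mul, abs_of_nonneg (by positivity : (0 : ℝ) ≤ √(d : ℝ) / 2)]
  rw [h5, ← h1, abs_mul, abs_of_nonneg (by positivity : 0 ≤ √(Q.q v : ℝ) * √(Q.q w : ℝ))]
  rw [abs_sub_comm (ps Q w)] at h4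
  calc √(Q.q v : ℝ) * √(Q.q w : ℝ) * |Real.sinh (ps Q w - ps Q v)|
      ≤ √(Q.q v : ℝ) * √(Q.q w : ℝ) * (Real.cosh T * |ps Q v - ps Q w|) := by gcongr
    _ = T * Real.cosh T / 4 * (√(Q.q v : ℝ) * √(Q.q w : ℝ)) * (4 / T * |ps Q v - ps Q w|) := by
        field_simp
    _ ≤ _ := by gcongr

theorem hX_pos {Q : Form} {v : V} (hv : Cn Q v) : 0 < hX Q v :=
  lt_of_le_of_lt (abs_nonneg _) hv

theorem hX_neg (Q : Form) (v : V) : hX Q (-v) = -hX Q v := by
  unfold hX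
  simp only [Prod.fst_neg, Prod.snd_neg]
  push_cast
  ring

theorem hX_smul (Q : Form) (t : ℤ) (v : V) : hX Q (t * v.1, t * v.2) = t * hX Q v := by
  unfold hX
  push_cast
  ring

theorem hX_sub (Q : Form) (v w : V) : hX Q (v - w) = hX Q v - hX Q w := by
  unfold hX
  simp only [Prod.fst_sub, Prod.snd_sub]
  push_cast
  ring

/-- separation of the directions of primitive vectors -/
theorem uh_sep {d : ℕ} {Q : Form} (hQ : Hyp d Q) {T : ℝ} (hT : 0 < T) {X : ℝ} (hX1 : 1 ≤ X)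
    {v w : V} (hv : Cn Q v) (hw : Cn Q w) (hpv : Prim v) (hpw : Prim w) (hvX : (Q.q v : ℝ) ≤ X)
    (hwX : (Q.q w : ℝ) ≤ X) (hne : v ≠ w) (h : |ps Q v - ps Q w| ≤ T / 2) :
    2 * √(d : ℝ) / (T * Real.cosh T * X) ≤ ‖uh Q T v - uh Q T w‖ := by
  have hcT := Real.cosh_pos T
  have hd := hQ.sd
  have hX0 : 0 < X := by linarith
  have hwd : wd v w ≠ 0 := by
    intro h0
    rcases MRSG.LSG22.collinear hpv hpw h0 with h1 | h1
    · exact hne h1.symm
    · have h2 := hX_pos hw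
      have h3 := hX_pos hv
      rw [h1, hX_neg] at h2
      linarith
  have h1 : (1:ℝ) ≤ |(wd v w : ℝ)| := by
    rw [← Int.cast_abs]
    exact_mod_cast Int.one_le_abs hwd
  have h2 := wd_le hQ hT hv hw h
  have h3 : √(Q.q v : ℝ) * √(Q.q w : ℝ) ≤ X := by
    have e1 := Real.sqrt_le_sqrt hvX
    have e2 := Real.sqrt_le_sqrt hwX
    calc √(Q.q v : ℝ) * √(Q.q w : ℝ) ≤ √X * √X := by gcongr
      _ = X := Real.mul_self_sqrt hX0.le
  rw [div_le_iff₀ (by positivity)]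
  have hn := norm_nonneg (uh Q T v - uh Q T w)
  calc 2 * √(d : ℝ) = 4 * (√(d : ℝ) / 2 * 1) := by ring
    _ ≤ 4 * (√(d : ℝ) / 2 * |(wd v w : ℝ)|) := by gcongr
    _ ≤ 4 * (T * Real.cosh T / 4 * (√(Q.q v : ℝ) * √(Q.q w : ℝ)) * ‖uh Q T v - uh Q T w‖) := by
        linarith
    _ ≤ 4 * (T * Real.cosh T / 4 * X * ‖uh Q T v - uh Q T w‖) := by gcongr
    _ = ‖uh Q T v - uh Q T w‖ * (T * Real.cosh T * X) := by ring

/-- the sector is cut into two halves -/
theorem halves {Q : Form} {T : ℝ} (S : Finset V) (hS : ∀ v ∈ S, Sec Q T v) (z : V → ℂ)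
    (a : V → ℂ) (J : ℕ) (W : V → ℝ) (Cc : ℝ)
    (h : ∀ S' ⊆ S, (∀ v ∈ S', ∀ w ∈ S', |ps Q v - ps Q w| ≤ T / 2) →
      ∑ j ∈ Finset.Icc (-(J : ℤ)) J, ‖∑ v ∈ S', a v * z v ^ j‖ ^ 2 ≤ Cc * ∑ v ∈ S', W v) :
    ∑ j ∈ Finset.Icc (-(J : ℤ)) J, ‖∑ v ∈ S, a v * z v ^ j‖ ^ 2 ≤ 2 * Cc * ∑ v ∈ S, W v := by
  classical
  have h1 := h (S.filter (fun v => ps Q v < T / 2)) (Finset.filter_subset _ _) (by
    intro v hv w hw
    rw [mem_filter] at hv hw
    have a1 := (hS v hv.1).2.1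
    have a2 := (hS w hw.1).2.1
    rw [abs_le]
    constructor <;> linarith [hv.2, hw.2])
  have h2 := h (S.filter (fun v => ¬ ps Q v < T / 2)) (Finset.filter_subset _ _) (by
    intro v hv w hw
    rw [mem_filter] at hv hw
    have a1 := (hS v hv.1).2.2
    have a2 := (hS w hw.1).2.2
    have a3 := not_lt.1 hv.2
    have a4 := not_lt.1 hw.2
    rw [abs_le]
    constructor <;> linarith)
  have h3 : ∀ j : ℤ, ‖∑ v ∈ S, a v * z v ^ j‖ ^ 2 ≤
      2 * ‖∑ v ∈ S.filter (fun v => ps Q v < T / 2), a v * z v ^ j‖ ^ 2 +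
      2 * ‖∑ v ∈ S.filter (fun v => ¬ ps Q v < T / 2), a v * z v ^ j‖ ^ 2 := by
    intro j
    rw [← Finset.sum_filter_add_sum_filter_not S (fun v => ps Q v < T / 2)]
    set A := ∑ v ∈ S.filter (fun v => ps Q v < T / 2), a v * z v ^ j
    set B := ∑ v ∈ S.filter (fun v => ¬ ps Q v < T / 2), a v * z v ^ j
    have h4 := norm_add_le A B
    have h5 := norm_nonneg (A + B)
    nlinarith [sq_nonneg (‖A‖ - ‖B‖)]
  calc ∑ j ∈ Finset.Icc (-(J : ℤ)) J, ‖∑ v ∈ S, a v * z v ^ j‖ ^ 2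
      ≤ ∑ j ∈ Finset.Icc (-(J : ℤ)) J,
        (2 * ‖∑ v ∈ S.filter (fun v => ps Q v < T / 2), a v * z v ^ j‖ ^ 2 +
        2 * ‖∑ v ∈ S.filter (fun v => ¬ ps Q v < T / 2), a v * z v ^ j‖ ^ 2) :=
        Finset.sum_le_sum fun j _ => h3 j
    _ ≤ 2 * (Cc * ∑ v ∈ S.filter (fun v => ps Q v < T / 2), W v) +
        2 * (Cc * ∑ v ∈ S.filter (fun v => ¬ ps Q v < T / 2), W v) := by
        rw [Finset.sum_add_distrib, ← Finset.mul_sum, ← Finset.mul_sum]
        linarith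
    _ = 2 * Cc * ∑ v ∈ S, W v := by
        rw [← Finset.sum_filter_add_sum_filter_not S (fun v => ps Q v < T / 2) W]
        ring

/-- **Large sieve for primitive vectors of the sector.** -/
theorem lsp {d : ℕ} {Q : Form} (hQ : Hyp d Q) {T : ℝ} (hT : 0 < T) : ∃ C : ℝ, 0 < C ∧
    ∀ (X : ℝ) (J : ℕ), 1 ≤ X →
    ∀ S : Finset V, (∀ v ∈ S, Sec Q T v ∧ Prim v ∧ (Q.q v : ℝ) ≤ X) → ∀ a : V → ℂ,
    ∑ j ∈ Finset.Icc (-(J:ℤ)) J, ‖∑ v ∈ S, a v * uh Q T v ^ j‖ ^ 2 ≤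
      C * (X + J) * ∑ v ∈ S, ‖a v‖ ^ 2 := by
  have hcT := Real.cosh_pos T
  have hd := hQ.sd
  set E : ℝ := T * Real.cosh T / (2 * √(d : ℝ)) with hE
  have hE0 : 0 < E := by positivity
  refine ⟨2 * (800 * (E + 1)), by positivity, ?_⟩
  intro X J hX S hS a
  have hX0 : 0 < X := by linarith
  have h0 := halves (Q := Q) (T := T) S (fun v hv => (hS v hv).1) (uh Q T) a J
    (fun v => ‖a v‖ ^ 2) (800 * (E + 1) * (X + J)) ?_
  · refine h0.trans (le_of_eq ?_)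
    ring
  intro S' hS' hcl
  have h := MRS19.ls_sep S' (uh Q T) (fun v _ => norm_uh Q T v)
    (2 * √(d : ℝ) / (T * Real.cosh T * X)) (by positivity)
    (fun v hv w hw hne => uh_sep hQ hT hX (hS v (hS' hv)).1.1 (hS w (hS' hw)).1.1
      (hS v (hS' hv)).2.1 (hS w (hS' hw)).2.1 (hS v (hS' hv)).2.2 (hS w (hS' hw)).2.2 hne
      (hcl v hv w hw)) J a
  refine h.trans ?_
  apply mul_le_mul_of_nonneg_right _ (Finset.sum_nonneg fun _ _ => by positivity)
  have hJ : (0 : ℝ) ≤ J := Nat.cast_nonneg J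
  have h1 : 1 / (2 * √(d : ℝ) / (T * Real.cosh T * X)) = E * X := by
    rw [hE]
    field_simp
  rw [h1]
  have h2 : 0 ≤ E * (J : ℝ) := by positivity
  nlinarith

/-- vectors with the same wedge with a primitive vector, close to each other -/
theorem line_card {Q : Form} {u : V} (hu : Prim u) (hun : 0 < hX Q u) (R : ℝ) (hR : 0 ≤ R)
    (W : Finset V) (m : ℤ) (hW : ∀ w ∈ W, wd u w = m ∧ |hX Q w| ≤ R) :
    (W.card : ℝ) ≤ 4 * R / hX Q u + 1 := by
  rcases W.eq_empty_or_nonempty with he | ⟨w0, hw0⟩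
  · rw [he]
    simp only [card_empty, Nat.cast_zero]
    positivity
  obtain ⟨x, y, hxy⟩ := Int.isCoprime_iff_gcd_eq_one.2 hu
  set t : V → ℤ := fun w => x * (w.1 - w0.1) + y * (w.2 - w0.2) with ht
  have hline : ∀ w ∈ W, w - w0 = (t w * u.1, t w * u.2) := by
    intro w hw
    have h0 : wd u w - wd u w0 = 0 := by rw [(hW w hw).1, (hW w0 hw0).1, sub_self]
    unfold wd at h0
    have e1 : w.1 - w0.1 = t w * u.1 := by
      rw [ht]; linear_combination (-(w.1 - w0.1)) * hxy - y * h0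
    have e2 : w.2 - w0.2 = t w * u.2 := by
      rw [ht]; linear_combination (-(w.2 - w0.2)) * hxy + x * h0
    exact Prod.ext e1 e2
  have hT : ∀ w ∈ W, (|t w| : ℝ) ≤ 2 * R / hX Q u := by
    intro w hw
    rw [le_div_iff₀ hun]
    have h1 : |hX Q (w - w0)| = |(t w : ℝ)| * hX Q u := by
      rw [hline w hw, hX_smul, abs_mul, abs_of_pos hun]
    rw [← h1, hX_sub]
    have := abs_sub (hX Q w) (hX Q w0)
    have h2 := (hW w hw).2
    have h3 := (hW w0 hw0).2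
    linarith
  set T : ℤ := ⌊2 * R / hX Q u⌋ with hTd
  have hT0 : 0 ≤ T := by rw [hTd]; exact Int.floor_nonneg.2 (by positivity)
  have hmaps : ∀ w ∈ W, t w ∈ Finset.Icc (-T) T := by
    intro w hw
    have h1 : |t w| ≤ T := by
      rw [hTd, Int.le_floor]
      push_cast
      exact hT w hw
    rw [Finset.mem_Icc]
    exact abs_le.1 h1
  have hinj : Set.InjOn t W := by
    intro w hw w' hw' h
    have h1 := hline w hw
    have h2 := hline w' hw'
    have h3 : w - w0 = w' - w0 := by rw [h1, h2, h]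
    exact sub_left_injective h3
  have hcard := Finset.card_le_card_of_injOn t hmaps hinj
  rw [Int.card_Icc] at hcard
  have h5 : ((T + 1 - -T).toNat : ℝ) = 2 * T + 1 := by
    have h6 : ((T + 1 - -T).toNat : ℤ) = 2 * T + 1 := by
      rw [Int.toNat_of_nonneg (by omega)]; ring
    exact_mod_cast h6
  have h7 : (T : ℝ) ≤ 2 * R / hX Q u := Int.floor_le _
  calc (W.card : ℝ) ≤ ((T + 1 - -T).toNat : ℝ) := by exact_mod_cast hcard
    _ = 2 * T + 1 := h5
    _ ≤ 2 * (2 * R / hX Q u) + 1 := by linarith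
    _ = 4 * R / hX Q u + 1 := by ring

theorem hX_pr (Q : Form) (v : V) : hX Q v = (Int.gcd v.1 v.2 : ℝ) * hX Q (MRS19.pr v) := by
  obtain ⟨e1, e2⟩ := MRS19.eq_gcd_mul v
  have h := hX_smul Q (Int.gcd v.1 v.2 : ℤ) (MRS19.pr v)
  have h2 : ((Int.gcd v.1 v.2 : ℤ) * (MRS19.pr v).1, (Int.gcd v.1 v.2 : ℤ) * (MRS19.pr v).2) = v :=
    (Prod.ext e1 e2).symm
  rw [h2] at h
  rw [h]
  push_cast
  rfl

/-- the coordinates of the vectors of the sector -/
theorem hX_bd {d : ℕ} {Q : Form} (hQ : Hyp d Q) {T : ℝ} {v : V} (hv : Sec Q T v) :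
    √(Q.q v : ℝ) ≤ hX Q v ∧ hX Q v ≤ √(Q.q v : ℝ) * Real.cosh T := by
  obtain ⟨h1, -⟩ := polar hQ hv.1
  rw [h1]
  have h2 := Real.one_le_cosh (ps Q v)
  have h3 := Real.sqrt_nonneg (Q.q v : ℝ)
  constructor
  · nlinarith
  · apply mul_le_mul_of_nonneg_left _ h3
    rw [Real.cosh_le_cosh, abs_of_nonneg hv.2.1]
    exact hv.2.2.le.trans (le_abs_self T)

/-- **Large sieve, weighted by the gcd.** -/
theorem ls {d : ℕ} {Q : Form} (hQ : Hyp d Q) {T : ℝ} (hT : 0 < T) : ∃ C : ℝ, 0 < C ∧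
    ∀ (N B : ℝ) (J : ℕ), 1 ≤ N → 1 ≤ B →
    ∀ S : Finset V, (∀ v ∈ S, Sec Q T v ∧ N ≤ Q.q v ∧ (Q.q v : ℝ) ≤ B * N) → ∀ a : V → ℂ,
    ∑ j ∈ Finset.Icc (-(J:ℤ)) J, ‖∑ v ∈ S, a v * uh Q T v ^ j‖ ^ 2 ≤
      C * B ^ 2 * ∑ v ∈ S, ‖a v‖ ^ 2 * (N + (J + 1) * Int.gcd v.1 v.2) := by
  classical
  have hcT := Real.cosh_pos T
  have hcT1 := Real.one_le_cosh T
  have hd := hQ.sd
  set F : ℝ := T * Real.cosh T / (2 * √(d : ℝ)) with hF
  have hF0 : 0 < F := by positivity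
  set E : ℝ := 5 * Real.cosh T * (1 + 2 * F) with hE
  have hE0 : 0 < E := by positivity
  refine ⟨2 * (200 * E), by positivity, ?_⟩
  intro N B J hN hB S0 hS0 a
  have h0 := halves (Q := Q) (T := T) S0 (fun v hv => (hS0 v hv).1) (uh Q T) a J
    (fun v => ‖a v‖ ^ 2 * (N + (J + 1) * Int.gcd v.1 v.2)) (200 * E * B ^ 2) ?_
  · refine h0.trans (le_of_eq ?_)
    ring
  intro S hSS hcl
  have hS : ∀ v ∈ S, Sec Q T v ∧ N ≤ Q.q v ∧ (Q.q v : ℝ) ≤ B * N := fun v hv => hS0 v (hSS hv)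
  have hN0 : 0 < N := by linarith
  have hB0 : 0 < B := by linarith
  have hBN : 0 < B * N := by positivity
  have hne : ∀ v ∈ S, v ≠ 0 := by
    intro v hv h0
    have h1 := (hS v hv).2.1
    rw [h0] at h1
    have : Q.q 0 = 0 := by unfold Form.q; simp
    rw [this] at h1
    push_cast at h1
    linarith
  have hsB : √B ≤ B := by
    rw [Real.sqrt_le_left (by linarith)]
    nlinarith
  have hsB1 : 1 ≤ √B := Real.one_le_sqrt.2 hB
  have hsBN : √(B * N) = √B * √N := Real.sqrt_mul hB0.le N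
  have hsN : 0 < √N := Real.sqrt_pos.2 hN0
  have h := MRS19.ls_abs S (uh Q T) (fun v _ => norm_uh Q T v) (E * B ^ 2) N
    (fun v => (Int.gcd v.1 v.2 : ℝ)) (by positivity) hN0.le (fun v _ => by positivity) ?_ J a
  · refine h.trans (le_of_eq ?_)
    ring
  intro v hv φ hφ
  set g : ℝ := (Int.gcd v.1 v.2 : ℝ) with hg
  have hg1 : 1 ≤ g := by rw [hg]; exact_mod_cast MRS19.gcd_pos (hne v hv)
  have hg0 : 0 < g := by linarith
  set u := MRS19.pr v with hu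
  have hup : Prim u := MRSG.LSG22.pr_prim (hne v hv)
  have hvu : hX Q v = g * hX Q u := hX_pr Q v
  have hvp : 0 < hX Q v := hX_pos (hS v hv).1.1
  have hun : 0 < hX Q u := by
    rw [hvu] at hvp
    exact pos_of_mul_pos_right hvp hg0.le
  set W := S.filter (fun k => ‖uh Q T v - uh Q T k‖ ≤ φ) with hW
  set M : ℝ := F * (B * N) * φ / g with hM
  have hM0 : 0 ≤ M := by positivity
  have hwd : ∀ w ∈ W, (|wd u w| : ℝ) ≤ M := by
    intro w hw
    rw [hW, mem_filter] at hw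
    have h1 := wd_le hQ hT (hS v hv).1.1 (hS w hw.1).1.1 (hcl v hv w hw.1)
    have h2 : (wd v w : ℝ) = g * wd u w := by
      rw [MRSG.LSG22.wd_pr v w]; push_cast; rfl
    rw [h2, abs_mul, abs_of_nonneg (by linarith : 0 ≤ g)] at h1
    have h4 : √(Q.q v : ℝ) * √(Q.q w : ℝ) ≤ B * N := by
      calc √(Q.q v : ℝ) * √(Q.q w : ℝ) ≤ √(B * N) * √(B * N) := by
            gcongr
            · exact (hS v hv).2.2
            · exact (hS w hw.1).2.2
        _ = B * N := Real.mul_self_sqrt hBN.le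
    have h5 : √(d : ℝ) / 2 * (g * |(wd u w : ℝ)|) ≤
        T * Real.cosh T / 4 * (B * N) * φ := by
      refine h1.trans ?_
      gcongr
      exact hw.2
    rw [hM, le_div_iff₀ hg0]
    have h6 : |(wd u w : ℝ)| * g = 2 / √(d : ℝ) * (√(d : ℝ) / 2 * (g * |(wd u w : ℝ)|)) := by
      field_simp
    have h7 : F * (B * N) * φ = 2 / √(d : ℝ) * (T * Real.cosh T / 4 * (B * N) * φ) := by
      rw [hF]; field_simp; norm_num
    rw [h6, h7]
    gcongr
  set m0 : ℤ := ⌊M⌋ with hm0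
  have hm00 : 0 ≤ m0 := Int.floor_nonneg.2 hM0
  have hmaps : ∀ w ∈ W, wd u w ∈ Finset.Icc (-m0) m0 := by
    intro w hw
    have h1 : |wd u w| ≤ m0 := by
      rw [hm0, Int.le_floor]
      push_cast
      exact hwd w hw
    rw [Finset.mem_Icc]
    exact abs_le.1 h1
  have hfib : ∀ b ∈ Finset.Icc (-m0) m0, (W.filter (fun w => wd u w = b)).card ≤
      ⌊5 * (√B * Real.cosh T) * g⌋₊ := by
    intro b _
    apply Nat.le_floor
    have h1 := line_card hup hun (√(B * N) * Real.cosh T) (by positivity)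
      (W.filter (fun w => wd u w = b)) b
      (by
        intro w hw
        rw [mem_filter, hW, mem_filter] at hw
        refine ⟨hw.2, ?_⟩
        rw [abs_of_pos (hX_pos (hS w hw.1.1).1.1)]
        refine (hX_bd hQ (hS w hw.1.1).1).2.trans ?_
        gcongr
        exact (hS w hw.1.1).2.2)
    refine h1.trans ?_
    have h2 : √N ≤ g * hX Q u := by
      rw [← hvu]
      exact (Real.sqrt_le_sqrt (hS v hv).2.1).trans (hX_bd hQ (hS v hv).1).1
    have h3 : 4 * (√(B * N) * Real.cosh T) / hX Q u ≤ 4 * (√B * Real.cosh T) * g := by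
      rw [div_le_iff₀ hun, hsBN]
      calc 4 * (√B * √N * Real.cosh T) = 4 * (√B * Real.cosh T) * √N := by ring
        _ ≤ 4 * (√B * Real.cosh T) * (g * hX Q u) := by gcongr
        _ = 4 * (√B * Real.cosh T) * g * hX Q u := by ring
    have h4 : 1 ≤ √B * Real.cosh T := by nlinarith
    nlinarith
  have hcard := Finset.card_le_mul_card_image_of_maps_to hmaps ⌊5 * (√B * Real.cosh T) * g⌋₊ hfib
  rw [Int.card_Icc] at hcard
  have h5 : ((m0 + 1 - -m0).toNat : ℝ) = 2 * m0 + 1 := by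
    have h6 : ((m0 + 1 - -m0).toNat : ℤ) = 2 * m0 + 1 := by
      rw [Int.toNat_of_nonneg (by omega)]; ring
    exact_mod_cast h6
  have h7 : (m0 : ℝ) ≤ M := Int.floor_le _
  have h8 : (⌊5 * (√B * Real.cosh T) * g⌋₊ : ℝ) ≤ 5 * (√B * Real.cosh T) * g :=
    Nat.floor_le (by positivity)
  calc (W.card : ℝ) ≤ (⌊5 * (√B * Real.cosh T) * g⌋₊ : ℝ) * ((m0 + 1 - -m0).toNat : ℝ) := by
        exact_mod_cast hcard
    _ = (⌊5 * (√B * Real.cosh T) * g⌋₊ : ℝ) * (2 * m0 + 1) := by rw [h5]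
    _ ≤ (5 * (√B * Real.cosh T) * g) * (2 * M + 1) := by
        have : (0 : ℝ) ≤ m0 := by exact_mod_cast hm00
        gcongr
    _ = 5 * Real.cosh T * √B * (g + 2 * F * B * N * φ) := by
        rw [hM]
        field_simp
        ring
    _ ≤ 5 * Real.cosh T * B * (g * B * (1 + 2 * F) + (1 + 2 * F) * B * (N * φ)) := by
        have e1 : 0 ≤ 2 * F := by positivity
        have e2 : g ≤ g * B * (1 + 2 * F) := by
          have e3 : 1 ≤ B * (1 + 2 * F) := by nlinarith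
          nlinarith
        have e4 : 2 * F * B * N * φ ≤ (1 + 2 * F) * B * (N * φ) := by
          have e5 : 0 ≤ B * (N * φ) := by positivity
          nlinarith
        have e6 : g + 2 * F * B * N * φ ≤ g * B * (1 + 2 * F) + (1 + 2 * F) * B * (N * φ) :=
          add_le_add e2 e4
        have e7 : 0 ≤ g + 2 * F * B * N * φ := by positivity
        calc 5 * Real.cosh T * √B * (g + 2 * F * B * N * φ)
            ≤ 5 * Real.cosh T * B * (g + 2 * F * B * N * φ) := by gcongr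
          _ ≤ _ := by gcongr
    _ = E * B ^ 2 * (g + N * φ) := by rw [hE]; ring

variable {D : Dat}

/-- reduction to the large sieve for one class -/
theorem core (J : ℕ) (S : Cx D → Finset V) (a : Cx D → V → ℂ) (W : Cx D → V → ℝ) (Cc : ℝ)
    (h : ∀ i, ∀ S' : Finset V, S' ⊆ S i →
      ∑ j ∈ Finset.Icc (-(J : ℤ)) J, ‖∑ v ∈ S', a i v * uu i v ^ j‖ ^ 2 ≤
        Cc * ∑ v ∈ S', W i v) :
    ∑ w ∈ SJ D J, ‖∑ i, ∑ v ∈ S i, a i v * ch w i v‖ ^ 2 ≤ Cc * ∑ i, ∑ v ∈ S i, W i v := by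
  rw [sum_SJ]
  have h1 : ∑ j ∈ Finset.Icc (-(J : ℤ)) J, ∑ k : Fin (mm D j),
      ‖∑ i, ∑ v ∈ S i, a i v * ch (⟨j, k⟩ : Fq D) i v‖ ^ 2 ≤
      ∑ j ∈ Finset.Icc (-(J : ℤ)) J, ∑ ia, ‖vec D S a j ia‖ ^ 2 := by
    apply Finset.sum_le_sum
    intro j _
    refine le_trans (le_of_eq ?_) (co_bessel j (vec D S a j))
    apply Finset.sum_congr rfl
    intro k _
    rw [co_vec]
  refine h1.trans ?_
  rw [Finset.sum_comm, Fintype.sum_prod_type, Finset.mul_sum]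
  apply Finset.sum_le_sum
  intro i _
  have h2 : ∑ v ∈ S i, W i v = ∑ α, ∑ v ∈ (S i).filter (fun v => cl D.K v = α), W i v :=
    (Finset.sum_fiberwise (S i) (fun v => cl D.K v) (fun v => W i v)).symm
  rw [h2, Finset.mul_sum]
  apply Finset.sum_le_sum
  intro α _
  exact h i _ (Finset.filter_subset _ _)

/-- one constant for all classes -/
theorem unif {p : Cx D → ℝ → Prop} (hm : ∀ i C C', p i C → C ≤ C' → p i C')
    (h : ∀ i, ∃ C, 0 < C ∧ p i C) : ∃ C, 0 < C ∧ ∀ i, p i C := by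
  choose f hf hp using h
  refine ⟨1 + ∑ i, f i, ?_, fun i => ?_⟩
  · have := Finset.sum_nonneg (fun i (_ : i ∈ Finset.univ) => (hf i).le)
    linarith
  · apply hm i _ _ (hp i)
    have := Finset.single_le_sum (f := f) (fun i _ => (hf i).le) (Finset.mem_univ i)
    linarith

end LspH22

open LspH22

variable (D : Dat)

theorem stLspG_22 : StLspG D := by
  obtain ⟨C, hC, hall⟩ := unif (D := D) (p := fun i C => ∀ (X : ℝ) (J : ℕ), 1 ≤ X →
      ∀ S : Finset V, (∀ v ∈ S, Sec (rp i) D.T v ∧ Prim v ∧ ((rp i).q v : ℝ) ≤ X) → ∀ a : V → ℂ,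
      ∑ j ∈ Finset.Icc (-(J:ℤ)) J, ‖∑ v ∈ S, a v * uh (rp i) D.T v ^ j‖ ^ 2 ≤
        C * (X + J) * ∑ v ∈ S, ‖a v‖ ^ 2) (by
    intro i C C' h1 hCC X J hX S hS a
    refine (h1 X J hX S hS a).trans ?_
    have : (0 : ℝ) ≤ J := Nat.cast_nonneg J
    gcongr) (fun i => lsp (rp_hyp i) D.T_pos)
  refine ⟨C, hC, ?_⟩
  intro X J hX S hS a
  refine core J S a (fun i v => ‖a i v‖ ^ 2) (C * (X + J)) ?_
  intro i S' hS'
  exact hall i X J hX S' (fun v hv => hS i v (hS' hv)) (a i)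

theorem stLsG_22 : StLsG D := by
  obtain ⟨C, hC, hall⟩ := unif (D := D) (p := fun i C => ∀ (N B : ℝ) (J : ℕ), 1 ≤ N → 1 ≤ B →
      ∀ S : Finset V, (∀ v ∈ S, Sec (rp i) D.T v ∧ N ≤ (rp i).q v ∧
        ((rp i).q v : ℝ) ≤ B * N) → ∀ a : V → ℂ,
      ∑ j ∈ Finset.Icc (-(J:ℤ)) J, ‖∑ v ∈ S, a v * uh (rp i) D.T v ^ j‖ ^ 2 ≤
        C * B ^ 2 * ∑ v ∈ S, ‖a v‖ ^ 2 * (N + (J + 1) * Int.gcd v.1 v.2)) (by
    intro i C C' h1 hCC N B J hN hB S hS a
    refine (h1 N B J hN hB S hS a).trans ?_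
    have h2 : 0 ≤ ∑ v ∈ S, ‖a v‖ ^ 2 * (N + (J + 1) * Int.gcd v.1 v.2) := by
      apply Finset.sum_nonneg
      intro v _
      have hN0 : 0 ≤ N := by linarith
      positivity
    gcongr) (fun i => ls (rp_hyp i) D.T_pos)
  refine ⟨C, hC, ?_⟩
  intro N B J hN hB S hS a
  refine core J S a (fun i v => ‖a i v‖ ^ 2 * (N + (J + 1) * Int.gcd v.1 v.2)) (C * B ^ 2) ?_
  intro i S' hS'
  exact hall i N B J hN hB S' (fun v hv => hS i v (hS' hv)) (a i)

end Pool.Agent.Lib.MP_a17b09_nt.MRH
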