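import Pool.Agent.Lib.MP_a17b09_nt.MRH.DecHC42
import Pool.Agent.Lib.MP_a17b09_nt.MRH.LspH22

/-!
MRH, decomposition by slices: `stDecG_42`.
-/

set_option autoImplicit false

namespace Pool.Agent.Lib.MP_a17b09_nt.MRH

open CH CH.PE HY HY.S68

theorem ls1_42 (D : Dat) : Dec42.Ls1 D := fun i => LspH22.lsp (rp_hyp i) D.T_pos

/-- **DECG**, positive discriminant -/
theorem stDecG_42 (D : Dat) : StDecG D := Dec42.decH (ls1_42 D)

end Pool.Agent.Lib.MP_a17b09_nt.MRH
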