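import Pool.Agent.Lib.MP_a17b09_nt.HY.Sys68
import Pool.Agent.Lib.MP_a17b09_nt.MRSG.StructB17

/-!
Project MRH (Matomaki-Radziwill in thin sectors for positive discriminant): definitions.
The classes of forms of discriminant `d > 0`, the similitudes of the split primes `(p, ±)`
(which map the cone to the cone), the directions `exp (2 π i ψ / T)`, `T` the period of a solution
of Pell's equation which is `1` modulo `K`.
-/

set_option autoImplicit false

open Finset Module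

namespace Pool.Agent.Lib.MP_a17b09_nt.MRH

open CH CH.PE HY HY.S68
open CHI (ClI clI_finite Split rtI rtI_spec sI)
open MRSG (comm_rel comm_rel_conj sc ai az_mul az_sc sc_sc sc_one az_adj' adj_az' az_ai ai_az
  spec_17 parseval_17 ai_of_det_one az_inj cl_app' cl_smul' adj_adj adj_mul_rev comp_adj_of app_ne e1_ne ai_sc)

/-- the data: the discriminant `d`, the modulus `K`, a solution of `x² - d y² = 1` with positive
coordinates, `1` modulo `K` -/
structure Dat where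
  d : ℕ
  K : ℕ
  ns : ¬ IsSquare d
  Kpos : 0 < K
  a : Pell.Solution₁ (d : ℤ)
  ha : PP a
  hK : PK K a

/-- the period -/
noncomputable def Dat.T (D : Dat) : ℝ := per D.a

theorem Dat.T_pos (D : Dat) : 0 < D.T := per_pos D.ha

theorem Dat.d_pos (D : Dat) : 0 < D.d := by
  rcases Nat.eq_zero_or_pos D.d with h0 | h0
  · exact absurd (h0 ▸ (⟨0, rfl⟩ : IsSquare (0 : ℕ))) D.ns
  · exact h0

instance (D : Dat) : NeZero D.K := ⟨D.Kpos.ne'⟩

/-- the classes of forms -/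
def Cx (D : Dat) : Type := ClI D.d

noncomputable instance (D : Dat) : Fintype (Cx D) :=
  @Fintype.ofFinite (ClI D.d) (clI_finite D.ns)

noncomputable instance (D : Dat) : DecidableEq (Cx D) := Classical.decEq _

/-- the representative, `a > 0 > c` -/
noncomputable def rp {D : Dat} (i : Cx D) : Form := hr D.ns i

theorem rp_hyp {D : Dat} (i : Cx D) : Hyp D.d (rp i) := hr_hyp D.ns i

theorem rp_D {D : Dat} (i : Cx D) : (rp i).D = -(D.d : ℤ) := (rp_hyp i).disc

theorem rp_inj {D : Dat} {i j : Cx D} (h : Eqv (rp i) (rp j)) : i = j := by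
  have h1 := (hr_eqv D.ns i).trans (h.trans (hr_eqv D.ns j).symm)
  exact CHI.repI_inj h1

/-! ### the primes `(p, ±)` -/

/-- admissible primes: all split primes prime to `2 d K`, with a sign -/
def Adm (D : Dat) (P : ℕ × Bool) : Prop :=
  P.1.Prime ∧ ¬ P.1 ∣ 2 * D.d * D.K ∧ ∃ r : ℤ, (P.1 : ℤ) ∣ r ^ 2 - D.d

section adm

variable {D : Dat}

theorem Adm.prime {P : ℕ × Bool} (h : Adm D P) : P.1.Prime := h.1

theorem Adm.nd {P : ℕ × Bool} (h : Adm D P) : ¬ P.1 ∣ 2 * D.d :=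
  fun h1 => h.2.1 (Dvd.dvd.mul_right h1 D.K)

theorem Adm.cop {P : ℕ × Bool} (h : Adm D P) : Nat.Coprime P.1 D.K :=
  (Nat.Prime.coprime_iff_not_dvd h.1).mpr fun h1 => h.2.1 (Dvd.dvd.mul_left h1 (2 * D.d))

theorem Adm.split {P : ℕ × Bool} (h : Adm D P) : Split D.d P.1 := by
  obtain ⟨r, hr⟩ := h.2.2
  exact Split.of_not_dvd h.1 h.nd hr

theorem Adm.pos {P : ℕ × Bool} (h : Adm D P) : (0 : ℤ) < P.1 := by exact_mod_cast h.1.pos

/-- the primes `1 mod 4 d` and `1 mod K` -/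
theorem adm_of_one {p : ℕ} (b : Bool) (hp : p.Prime) (h4 : p ≡ 1 [MOD 4 * D.d])
    (h1 : p ≡ 1 [MOD D.K]) : Adm D (p, b) := by
  have hs := split_of_mod D.d_pos hp h4
  obtain ⟨r, -, hr⟩ := hs.2
  have key : ∀ m : ℕ, p ≡ 1 [MOD m] → Nat.Coprime p m := by
    intro m hm
    have := Nat.ModEq.gcd_eq hm
    rw [Nat.gcd_one_left] at this
    exact this
  have c1 := key (4 * D.d) h4
  have c2 := key D.K h1
  have c3 : Nat.Coprime p (2 * D.d) := Nat.Coprime.coprime_dvd_right ⟨2, by ring⟩ c1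
  refine ⟨hp, ?_, r, hr⟩
  exact (Nat.Prime.coprime_iff_not_dvd hp).mp (Nat.Coprime.mul_right c3 c2)

/-- permutation of the classes -/
noncomputable def sg (D : Dat) (P : ℕ × Bool) : Equiv.Perm (Cx D) :=
  if P.2 then sI D.d P.1 else (sI D.d P.1).symm

/-- matrices -/
noncomputable def Mg (D : Dat) (P : ℕ × Bool) (i : Cx D) : Mat :=
  if P.2 then hm D.ns P.1 i else (hm D.ns P.1 ((sI D.d P.1).symm i)).adj

/-- the signed root -/
noncomputable def rg (D : Dat) (P : ℕ × Bool) : ℤ := if P.2 then rtI D.d P.1 else -rtI D.d P.1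

theorem rg_sq {P : ℕ × Bool} (h : Adm D P) : (P.1 : ℤ) ∣ rg D P ^ 2 - D.d := by
  have := (rtI_spec h.split).2
  unfold rg
  split_ifs
  · exact this
  · rw [neg_sq]; exact this

theorem cn_smul {Q : Form} {n : ℤ} (hn : 0 < n) (v : V) : Cn Q (n • v) ↔ Cn Q v := by
  have e1 : hX Q (n • v) = n * hX Q v := by unfold hX; simp; ring
  have e2 : hY Q (n • v) = n * hY Q v := by unfold hY; simp; ring
  have hpr : (0 : ℝ) < n := by exact_mod_cast hn
  unfold Cn
  rw [e1, e2, abs_mul, abs_of_pos hpr, mul_lt_mul_iff_right₀ hpr]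

theorem rel_all {P : ℕ × Bool} (h : Adm D P) (i : Cx D) :
    (¬ (P.1 : ℤ) ∣ 2 * rg D P ∧ Rel P.1 (rg D P) (rp i) (rp (sg D P i)) (Mg D P i)) ∧
      ∀ u, Cn (rp i) ((Mg D P i).app u) ↔ Cn (rp (sg D P i)) u := by
  have h1 := h.split
  have h2 := (rtI_spec h1).1
  obtain ⟨p, b⟩ := P
  cases b with
  | true => exact ⟨⟨h2, (hm_spec D.ns h1 i).1⟩, (hm_spec D.ns h1 i).2⟩
  | false =>
    have hp0 : (0 : ℤ) < p := h.pos
    obtain ⟨h3, h4⟩ := hm_spec D.ns h1 ((sI D.d p).symm i)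
    have h5 := h3.inv (by exact_mod_cast h.1.ne_zero)
    have e1 : sI D.d p ((sI D.d p).symm i) = i := Equiv.apply_symm_apply _ _
    rw [e1] at h5 h4 h3
    refine ⟨⟨CHI.neg_nd' h2, h5⟩, fun u => ?_⟩
    have h6 := h4 ((hm D.ns p ((sI D.d p).symm i)).adj.app u)
    rw [Mat.app_adj, h3.det, cn_smul hp0] at h6
    exact h6.symm

theorem rel_g {P : ℕ × Bool} (h : Adm D P) (i : Cx D) :
    ¬ (P.1 : ℤ) ∣ 2 * rg D P ∧ Rel P.1 (rg D P) (rp i) (rp (sg D P i)) (Mg D P i) :=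
  (rel_all h i).1

/-- the matrices map the cone to the cone -/
theorem cn_M {P : ℕ × Bool} (h : Adm D P) (i : Cx D) (u : V) :
    Cn (rp i) ((Mg D P i).app u) ↔ Cn (rp (sg D P i)) u := (rel_all h i).2 u

/-- the product of the matrices of a prime and its conjugate -/
theorem Mg_conj {p : ℕ} {b : Bool} (h : Adm D (p, b)) (i : Cx D) (v : V) :
    sg D (p, !b) (sg D (p, b) i) = i ∧
      (Mg D (p, b) i).app ((Mg D (p, !b) (sg D (p, b) i)).app v) = (p : ℤ) • v := by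
  cases b with
  | true =>
    refine ⟨Equiv.symm_apply_apply _ _, ?_⟩
    have h1 := (hm_spec D.ns h.split i).1.det
    show (hm D.ns p i).app ((hm D.ns p ((sI D.d p).symm (sI D.d p i))).adj.app v) = (p : ℤ) • v
    rw [Equiv.symm_apply_apply, Mat.app_adj, h1]
  | false =>
    refine ⟨Equiv.apply_symm_apply _ _, ?_⟩
    have h1 := (hm_spec D.ns h.split ((sI D.d p).symm i)).1.det
    show (hm D.ns p ((sI D.d p).symm i)).adj.app ((hm D.ns p ((sI D.d p).symm i)).app v) =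
      (p : ℤ) • v
    rw [Mat.adj_app, h1]

theorem unit_p {P : ℕ × Bool} (h : Adm D P) : IsUnit ((P.1 : ℕ) : ZMod D.K) :=
  (ZMod.isUnit_iff_coprime P.1 D.K).mpr h.cop

theorem unit_M {P : ℕ × Bool} (h : Adm D P) (i : Cx D) :
    IsUnit (((Mg D P i).det : ℤ) : ZMod D.K) := by
  rw [(rel_g h i).2.det]
  have := unit_p h
  simpa using this

theorem det_ne {P : ℕ × Bool} (h : Adm D P) (i : Cx D) : (Mg D P i).det ≠ 0 := by
  rw [(rel_g h i).2.det]
  exact_mod_cast h.1.ne_zero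

/-- all pairs of primes commute up to automorphisms which preserve the cone -/
theorem comm_all {P P' : ℕ × Bool} (h : Adm D P) (h' : Adm D P') (i : Cx D) :
    ∃ N : Mat, N.det = 1 ∧ (Mg D P' i).mul (Mg D P (sg D P' i)) =
      ((Mg D P i).mul (Mg D P' (sg D P i))).mul N ∧
      rp (sg D P (sg D P' i)) = (rp (sg D P' (sg D P i))).comp N ∧
      Cn (rp (sg D P' (sg D P i))) (N.app (1, 0)) := by
  have hcone : ∀ N : Mat, (Mg D P' i).mul (Mg D P (sg D P' i)) =
      ((Mg D P i).mul (Mg D P' (sg D P i))).mul N →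
      Cn (rp (sg D P' (sg D P i))) (N.app (1, 0)) := by
    intro N hN
    rw [← cn_M h' (sg D P i), ← cn_M h i, ← Mat.app_mul, ← Mat.app_mul,
      ← hN, Mat.app_mul, cn_M h' i, cn_M h]
    exact cn_e1 (rp_hyp _)
  by_cases hPP : P = P'
  · subst hPP
    refine ⟨Mat.one, Mat.det_one, ?_, ?_, ?_⟩
    · rw [Mat.mul_one']
    · rw [Form.comp_one]
    · apply hcone
      rw [Mat.mul_one']
  have hp : Prime (P.1 : ℤ) := Nat.prime_iff_prime_int.1 h.1
  have hp' : Prime (P'.1 : ℤ) := Nat.prime_iff_prime_int.1 h'.1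
  obtain ⟨hr, R1⟩ := rel_g h i
  obtain ⟨hr', R1'⟩ := rel_g h' i
  have R2 := (rel_g h' (sg D P i)).2
  have R2' := (rel_g h (sg D P' i)).2
  by_cases hpp : P.1 = P'.1
  · have hb : P.2 ≠ P'.2 := fun hb => hPP (Prod.ext hpp hb)
    have hrr : rg D P' = -rg D P := by
      unfold rg
      rw [← hpp]
      cases h1 : P.2 <;> cases h2 : P'.2 <;> simp_all
    rw [← hpp, hrr] at R2 R1'
    obtain ⟨N, h1, h2, h3⟩ := comm_rel_conj hp hr R1 R2 R1' R2'
    exact ⟨N, h1, h2, h3, hcone N h2⟩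
  · have hco : IsCoprime (P.1 : ℤ) (P'.1 : ℤ) :=
      Nat.isCoprime_iff_coprime.mpr ((Nat.coprime_primes h.1 h'.1).mpr hpp)
    obtain ⟨N, h1, h2, h3⟩ := comm_rel hp hp' hr hr' hco R1 R2 R1' R2'
    exact ⟨N, h1, h2, h3, hcone N h2⟩

theorem sg_comm {P P' : ℕ × Bool} (h : Adm D P) (h' : Adm D P') (i : Cx D) :
    sg D P (sg D P' i) = sg D P' (sg D P i) := by
  obtain ⟨N, h1, -, h2, -⟩ := comm_all h h' i
  exact (rp_inj ⟨N, h1, h2⟩).symm

end adm

/-! ### directions -/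

/-- the hyperbolic angle between two vectors of the cone -/
theorem sinh_ps {d : ℕ} {Q : Form} (hQ : Hyp d Q) {v w : V} (hv : Cn Q v) (hw : Cn Q w) :
    √(Q.q v : ℝ) * √(Q.q w : ℝ) * Real.sinh (ps Q w - ps Q v) = √(d : ℝ) / 2 * wd v w := by
  obtain ⟨h1, h2⟩ := polar hQ hv
  obtain ⟨h3, h4⟩ := polar hQ hw
  rw [← hQ.wd_eq, h1, h2, h3, h4, Real.sinh_sub]
  ring

/-- a direct similitude which maps the cone to the cone adds a constant to the angle -/
theorem ps_app {d : ℕ} {Q Q' : Form} (hQ : Hyp d Q) (hQ' : Hyp d Q') {M : Mat} {n : ℤ}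
    (hn : 0 < n) (hdet : M.det = n) (hsim : ∀ u, Q.q (M.app u) = n * Q'.q u)
    (hc : ∀ u, Cn Q (M.app u) ↔ Cn Q' u) {v : V} (hv : Cn Q' v) :
    ps Q (M.app v) = ps Q (M.app (1, 0)) + ps Q' v := by
  have he := cn_e1 hQ'
  have hnr : (0 : ℝ) < n := by exact_mod_cast hn
  have hq1 : (0 : ℝ) < Q'.q (1, 0) := by exact_mod_cast he.q_pos hQ'
  have hq2 : (0 : ℝ) < Q'.q v := by exact_mod_cast hv.q_pos hQ'
  have h1 := sinh_ps hQ ((hc (1, 0)).2 he) ((hc v).2 hv)
  have h2 := sinh_ps hQ' he hv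
  rw [hsim, hsim, Mat.wd_app, hdet] at h1
  push_cast at h1
  rw [Real.sqrt_mul hnr.le, Real.sqrt_mul hnr.le] at h1
  have h3 : √(n : ℝ) * √(n : ℝ) = n := Real.mul_self_sqrt hnr.le
  have h4 : (n : ℝ) * (√(Q'.q (1, 0) : ℝ) * √(Q'.q v : ℝ) *
      Real.sinh (ps Q (M.app v) - ps Q (M.app (1, 0)))) =
      n * (√(Q'.q (1, 0) : ℝ) * √(Q'.q v : ℝ) * Real.sinh (ps Q' v - ps Q' (1, 0))) := by
    rw [h2]
    linear_combination h1 - (√(Q'.q (1, 0) : ℝ) * √(Q'.q v : ℝ) *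
      Real.sinh (ps Q (M.app v) - ps Q (M.app (1, 0)))) * h3
  have h5 := mul_left_cancel₀ hnr.ne' h4
  have h6 := mul_left_cancel₀ (mul_pos (Real.sqrt_pos.2 hq1) (Real.sqrt_pos.2 hq2)).ne' h5
  have h7 := Real.sinh_injective h6
  rw [ps_e1, sub_zero] at h7
  linarith

theorem ps_smul {Q : Form} {n : ℤ} (hn : 0 < n) (v : V) : ps Q (n • v) = ps Q v := by
  have e1 : hX Q (n • v) = n * hX Q v := by unfold hX; simp; ring
  have e2 : hY Q (n • v) = n * hY Q v := by unfold hY; simp; ring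
  have hpr : (n : ℝ) ≠ 0 := by exact_mod_cast hn.ne'
  unfold ps
  rw [e1, e2, ← mul_add, ← mul_sub, mul_div_mul_left _ _ hpr]

/-- the direction of the vector `v` of the class `i` -/
noncomputable def uu {D : Dat} (i : Cx D) (v : V) : ℂ :=
  Complex.exp (((2 * Real.pi * ps (rp i) v / D.T : ℝ) : ℂ) * Complex.I)

section dir

variable {D : Dat}

theorem norm_uu (i : Cx D) (v : V) : ‖uu i v‖ = 1 := Complex.norm_exp_ofReal_mul_I _

theorem uu_ne (i : Cx D) (v : V) : uu i v ≠ 0 := Complex.exp_ne_zero _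

theorem uu_e1 (i : Cx D) : uu i (1, 0) = 1 := by
  unfold uu
  rw [ps_e1]
  simp

/-- the same angle up to a constant and multiples of the period -/
theorem uu_of_ps {i j : Cx D} {v w w' : V} (h : ps (rp i) v = ps (rp i) w + ps (rp j) w') :
    uu i v = uu i w * uu j w' := by
  unfold uu
  rw [← Complex.exp_add, h]
  congr 1
  push_cast
  ring

theorem uu_M {P : ℕ × Bool} (h : Adm D P) (i : Cx D) {v : V} (hv : Cn (rp (sg D P i)) v) :
    uu i ((Mg D P i).app v) = uu i ((Mg D P i).app (1, 0)) * uu (sg D P i) v := by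
  have hr := (rel_g h i).2
  exact uu_of_ps (ps_app (rp_hyp i) (rp_hyp _) h.pos hr.det hr.sim (cn_M h i) hv)

theorem uu_auto {i : Cx D} {γ : Mat} (h1 : γ.det = 1) (h : (rp i).comp γ = rp i)
    (hc : Cn (rp i) (γ.app (1, 0))) {v : V} (hv : Cn (rp i) v) :
    uu i (γ.app v) = uu i (γ.app (1, 0)) * uu i v := by
  have hsim : ∀ u, (rp i).q (γ.app u) = 1 * (rp i).q u := fun u => by
    rw [← Form.comp_q, h, one_mul]
  exact uu_of_ps (ps_app (rp_hyp i) (rp_hyp i) one_pos h1 hsim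
    (cone_iff (rp_hyp i) (rp_hyp i) one_pos hsim hc) hv)

/-- an automorphism which maps `e₁` into the cone preserves the cone -/
theorem cn_auto {i : Cx D} {γ : Mat} (h : (rp i).comp γ = rp i)
    (hc : Cn (rp i) (γ.app (1, 0))) (u : V) : Cn (rp i) (γ.app u) ↔ Cn (rp i) u :=
  cone_iff (rp_hyp i) (rp_hyp i) one_pos (fun u => by rw [← Form.comp_q, h, one_mul]) hc u

/-- a positive multiple has the same direction -/
theorem uu_smul (i : Cx D) {n : ℤ} (hn : 0 < n) (v : V) : uu i (n • v) = uu i v := by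
  unfold uu
  rw [ps_smul hn]

/-- the direction is invariant under the automorph of the period -/
theorem uu_act (i : Cx D) {v : V} (hv : Cn (rp i) v) : uu i (act (rp i) D.a v) = uu i v := by
  have hT := D.T_pos
  unfold uu
  rw [ps_act (rp_hyp i) D.ha hv, Complex.exp_eq_exp_iff_exists_int]
  refine ⟨1, ?_⟩
  have h1 : (2 * Real.pi * (ps (rp i) v + per D.a) / D.T : ℝ) =
      2 * Real.pi * ps (rp i) v / D.T + 2 * Real.pi := by
    have : per D.a = D.T := rfl
    rw [this]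
    field_simp
  rw [h1]
  push_cast
  ring

/-- the class modulo `K` is invariant under the automorph of the period -/
theorem cl_act (i : Cx D) (v : V) : cl D.K (act (rp i) D.a v) = cl D.K v := by
  obtain ⟨h1, h2⟩ := D.hK
  unfold cl act au Mat.app
  have e1 : ((D.a.x : ℤ) : ZMod D.K) = 1 := by
    have := (ZMod.intCast_zmod_eq_zero_iff_dvd (D.a.x - 1) D.K).2 h1
    push_cast at this
    exact sub_eq_zero.1 this
  have e2 : ((D.a.y : ℤ) : ZMod D.K) = 0 := (ZMod.intCast_zmod_eq_zero_iff_dvd _ D.K).2 h2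
  push_cast
  rw [e1, e2]
  simp

end dir

/-! ### the unitary maps -/

/-- functions on the pairs (class of forms, class modulo `K`) -/
abbrev Hs (D : Dat) : Type := EuclideanSpace ℂ (Cx D × (ZMod D.K × ZMod D.K))

section unitary

variable {D : Dat}

/-- the permutation of the pairs (class of forms, class modulo `K`) -/
noncomputable def jE {P : ℕ × Bool} (h : Adm D P) :
    (Cx D × (ZMod D.K × ZMod D.K)) ≃ (Cx D × (ZMod D.K × ZMod D.K)) where
  toFun ia := (sg D P ia.1, ai (Mg D P ia.1) ia.2)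
  invFun kb := ((sg D P).symm kb.1, az (Mg D P ((sg D P).symm kb.1)) kb.2)
  left_inv ia := by
    apply Prod.ext
    · exact Equiv.symm_apply_apply _ _
    · simp only [Equiv.symm_apply_apply]
      exact az_ai (unit_M h ia.1) ia.2
  right_inv kb := by
    apply Prod.ext
    · exact Equiv.apply_symm_apply _ _
    · exact ai_az (unit_M h _) kb.2

/-- the unitary map of the prime `P` for the frequency `j` -/
noncomputable def Ug (D : Dat) (P : ℕ × Bool) (j : ℤ) : Hs D →ₗ[ℂ] Hs D where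
  toFun x := WithLp.toLp 2 (fun ia => uu ia.1 ((Mg D P ia.1).app (1, 0)) ^ j *
    x (sg D P ia.1, ai (Mg D P ia.1) ia.2))
  map_add' x y := by
    ext ia
    simp only [PiLp.add_apply]
    ring
  map_smul' c x := by
    ext ia
    simp only [PiLp.smul_apply, smul_eq_mul, RingHom.id_apply]
    ring

theorem Ug_apply (P : ℕ × Bool) (j : ℤ) (x : Hs D) (i : Cx D) (α : ZMod D.K × ZMod D.K) :
    Ug D P j x (i, α) = uu i ((Mg D P i).app (1, 0)) ^ j *
      x (sg D P i, ai (Mg D P i) α) := rfl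

/-- the unitary map of a scalar -/
noncomputable def Rn (D : Dat) (n : (ZMod D.K)ˣ) : Hs D →ₗ[ℂ] Hs D where
  toFun x := WithLp.toLp 2 (fun ia => x (ia.1, sc ((n⁻¹ : (ZMod D.K)ˣ) : ZMod D.K) ia.2))
  map_add' x y := by
    ext ia
    simp only [PiLp.add_apply]
  map_smul' c x := by
    ext ia
    simp only [PiLp.smul_apply, smul_eq_mul, RingHom.id_apply]

theorem Rn_apply (n : (ZMod D.K)ˣ) (x : Hs D) (i : Cx D) (α : ZMod D.K × ZMod D.K) :
    Rn D n x (i, α) = x (i, sc ((n⁻¹ : (ZMod D.K)ˣ) : ZMod D.K) α) := rfl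

theorem norm_phase (P : ℕ × Bool) (i : Cx D) (j : ℤ) :
    ‖uu i ((Mg D P i).app (1, 0)) ^ j‖ = 1 := by
  rw [norm_zpow, norm_uu, one_zpow]

theorem Ug_inner {P : ℕ × Bool} (h : Adm D P) (j : ℤ) (x y : Hs D) :
    inner ℂ (Ug D P j x) (Ug D P j y) = inner ℂ x y := by
  rw [PiLp.inner_apply, PiLp.inner_apply]
  rw [← Equiv.sum_comp (jE h) (fun ia => inner ℂ (x ia) (y ia))]
  refine Finset.sum_congr rfl fun ia _ => ?_
  obtain ⟨i, α⟩ := ia
  rw [Ug_apply, Ug_apply, ← smul_eq_mul, ← smul_eq_mul, inner_smul_left, inner_smul_right,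
    ← mul_assoc]
  have h1 : (starRingEnd ℂ) (uu i ((Mg D P i).app (1, 0)) ^ j) *
      uu i ((Mg D P i).app (1, 0)) ^ j = 1 := by
    rw [mul_comm, Complex.mul_conj, Complex.normSq_eq_norm_sq, norm_phase P i j]
    norm_num
  rw [h1, one_mul]
  rfl

theorem Rn_inner (n : (ZMod D.K)ˣ) (x y : Hs D) :
    inner ℂ (Rn D n x) (Rn D n y) = inner ℂ x y := by
  have hsc : ∀ (m : (ZMod D.K)ˣ) (α : ZMod D.K × ZMod D.K),
      sc (m : ZMod D.K) (sc ((m⁻¹ : (ZMod D.K)ˣ) : ZMod D.K) α) = α := by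
    intro m α
    rw [sc_sc, Units.mul_inv, sc_one]
  have hsc' : ∀ (m : (ZMod D.K)ˣ) (α : ZMod D.K × ZMod D.K),
      sc ((m⁻¹ : (ZMod D.K)ˣ) : ZMod D.K) (sc (m : ZMod D.K) α) = α := by
    intro m α
    rw [sc_sc, Units.inv_mul, sc_one]
  let e : (Cx D × (ZMod D.K × ZMod D.K)) ≃ (Cx D × (ZMod D.K × ZMod D.K)) :=
    { toFun := fun ia => (ia.1, sc ((n⁻¹ : (ZMod D.K)ˣ) : ZMod D.K) ia.2)
      invFun := fun ia => (ia.1, sc (n : ZMod D.K) ia.2)
      left_inv := fun ia => by simp only [hsc]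
      right_inv := fun ia => by simp only [hsc'] }
  rw [PiLp.inner_apply, PiLp.inner_apply]
  exact Equiv.sum_comp e (fun ia => inner ℂ (x ia) (y ia))

/-- the vectors with the symmetry of the automorphisms which preserve the cone -/
noncomputable def Ej (D : Dat) (j : ℤ) : Submodule ℂ (Hs D) where
  carrier := {x | ∀ (i : Cx D) (γ : Mat), γ.det = 1 → (rp i).comp γ = rp i →
    Cn (rp i) (γ.app (1, 0)) → ∀ α, x (i, az γ α) = uu i (γ.app (1, 0)) ^ j * x (i, α)}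
  add_mem' := by
    intro x y hx hy i γ h1 h2 h3 α
    simp only [PiLp.add_apply]
    rw [hx i γ h1 h2 h3 α, hy i γ h1 h2 h3 α]
    ring
  zero_mem' := by
    intro i γ _ _ _ α
    simp
  smul_mem' := by
    intro c x hx i γ h1 h2 h3 α
    simp only [PiLp.smul_apply, smul_eq_mul]
    rw [hx i γ h1 h2 h3 α]
    ring

theorem mem_Ej {j : ℤ} {x : Hs D} : x ∈ Ej D j ↔ ∀ (i : Cx D) (γ : Mat), γ.det = 1 →
    (rp i).comp γ = rp i → Cn (rp i) (γ.app (1, 0)) →
    ∀ α, x (i, az γ α) = uu i (γ.app (1, 0)) ^ j * x (i, α) :=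
  Iff.rfl

theorem Ug_mem {P : ℕ × Bool} (h : Adm D P) (j : ℤ) {x : Hs D}
    (hx : x ∈ Ej D j) : Ug D P j x ∈ Ej D j := by
  intro i γ h1 h2 h3 α
  have hp : Prime (P.1 : ℤ) := Nat.prime_iff_prime_int.1 h.1
  obtain ⟨hr, R⟩ := rel_g h i
  have hadj : γ.adj.det = 1 := by rw [Mat.det_adj, h1]
  have hcomp : (rp i).comp γ.adj = rp i := comp_adj_of h1 h2
  have R' := R.left hadj
  rw [hcomp, adj_adj] at R'
  obtain ⟨N, hN, hN', hQ⟩ := R.uniq hp hr R'
  have hdet := unit_M h i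
  have haz : ai (Mg D P i) (az γ α) = az N (ai (Mg D P i) α) := by
    apply az_inj hdet
    rw [az_ai hdet, ← az_mul, ← hN', az_mul, az_ai hdet]
  have hNc : Cn (rp (sg D P i)) (N.app (1, 0)) := by
    rw [← cn_M h i, ← Mat.app_mul, ← hN', Mat.app_mul, cn_auto h2 h3, cn_M h i]
    exact cn_e1 (rp_hyp _)
  rw [Ug_apply, Ug_apply, haz, hx _ N hN hQ.symm hNc]
  have p1 := uu_M h i hNc
  have hMe : Cn (rp i) ((Mg D P i).app (1, 0)) := (cn_M h i _).2 (cn_e1 (rp_hyp _))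
  rw [← Mat.app_mul, ← hN', Mat.app_mul, uu_auto h1 h2 h3 hMe] at p1
  have p2 : uu i ((Mg D P i).app (1, 0)) ^ j * uu (sg D P i) (N.app (1, 0)) ^ j =
      uu i (γ.app (1, 0)) ^ j * uu i ((Mg D P i).app (1, 0)) ^ j := by
    rw [← mul_zpow, ← mul_zpow, ← p1]
  rw [← mul_assoc, ← mul_assoc, p2]

theorem Rn_mem (n : (ZMod D.K)ˣ) (j : ℤ) {x : Hs D} (hx : x ∈ Ej D j) :
    Rn D n x ∈ Ej D j := by
  intro i γ h1 h2 h3 α
  rw [Rn_apply, Rn_apply, ← az_sc, hx i γ h1 h2 h3]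

theorem Ug_comm {P P' : ℕ × Bool} (h : Adm D P) (h' : Adm D P') (j : ℤ)
    {x : Hs D} (hx : x ∈ Ej D j) :
    Ug D P j (Ug D P' j x) = Ug D P' j (Ug D P j x) := by
  ext ia
  obtain ⟨i, α⟩ := ia
  obtain ⟨N, hN, hA, hQ, hNc⟩ := comm_all h h' i
  have hl := sg_comm h h' i
  rw [hl] at hQ
  rw [Ug_apply, Ug_apply, Ug_apply, Ug_apply, hl]
  -- the first product
  set l := sg D P' (sg D P i) with hldef
  have hNa : N.adj.det = 1 := by rw [Mat.det_adj, hN]
  have hQ' : (rp l).comp N.adj = rp l := comp_adj_of hN hQ.symm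
  have hNac : Cn (rp l) (N.adj.app (1, 0)) := by
    rw [← cn_auto hQ.symm hNc, Mat.app_adj, hN, one_smul]
    exact cn_e1 (rp_hyp _)
  have hNu : IsUnit ((N.det : ℤ) : ZMod D.K) := by rw [hN, Int.cast_one]; exact isUnit_one
  have f1 : ai (Mg D P (sg D P' i)) (ai (Mg D P' i) α) =
      az N.adj (ai (Mg D P' (sg D P i)) (ai (Mg D P i) α)) := by
    apply az_inj (unit_M h (sg D P' i))
    apply az_inj (unit_M h' i)
    rw [az_ai (unit_M h _), az_ai (unit_M h' _), ← az_mul, hA, az_mul, az_mul, az_adj', hN,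
      Int.cast_one, sc_one, az_ai (unit_M h' _), az_ai (unit_M h _)]
  rw [f1, hx l N.adj hNa hQ' hNac]
  -- phases
  have g2 : uu i ((Mg D P' i).app ((Mg D P (sg D P' i)).app (1, 0))) =
      uu i ((Mg D P' i).app (1, 0)) * uu (sg D P' i) ((Mg D P (sg D P' i)).app (1, 0)) :=
    uu_M h' i ((cn_M h _ _).2 (cn_e1 (rp_hyp _)))
  have g3 : uu i ((Mg D P' i).app ((Mg D P (sg D P' i)).app (1, 0))) =
      uu i ((Mg D P i).app (1, 0)) * uu (sg D P i) ((Mg D P' (sg D P i)).app (1, 0)) *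
        uu l (N.app (1, 0)) := by
    rw [← Mat.app_mul, hA, Mat.app_mul, Mat.app_mul,
      uu_M h i ((cn_M h' _ _).2 hNc), uu_M h' _ hNc, mul_assoc]
  have g4 : uu l (N.app (1, 0)) * uu l (N.adj.app (1, 0)) = 1 := by
    rw [← uu_auto hN hQ.symm hNc hNac, Mat.app_adj, hN, one_smul, uu_e1]
  rw [g2] at g3
  have g5 : uu i ((Mg D P' i).app (1, 0)) ^ j *
      uu (sg D P' i) ((Mg D P (sg D P' i)).app (1, 0)) ^ j *
      uu l (N.adj.app (1, 0)) ^ j = uu i ((Mg D P i).app (1, 0)) ^ j *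
      uu (sg D P i) ((Mg D P' (sg D P i)).app (1, 0)) ^ j := by
    rw [← mul_zpow, ← mul_zpow, ← mul_zpow, g3, mul_assoc, g4, mul_one]
  rw [← mul_assoc, ← mul_assoc, ← mul_assoc, g5]

theorem Rn_Ug (n : (ZMod D.K)ˣ) (P : ℕ × Bool) (j : ℤ) (x : Hs D) :
    Rn D n (Ug D P j x) = Ug D P j (Rn D n x) := by
  ext ia
  obtain ⟨i, α⟩ := ia
  rw [Rn_apply, Ug_apply, Ug_apply, Rn_apply, ai_sc]

theorem Rn_comm (n m : (ZMod D.K)ˣ) (x : Hs D) :
    Rn D n (Rn D m x) = Rn D m (Rn D n x) := by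
  ext ia
  obtain ⟨i, α⟩ := ia
  rw [Rn_apply, Rn_apply, Rn_apply, Rn_apply, sc_sc, sc_sc, mul_comm]

/-- the product of the maps of a prime and its conjugate is a scalar map -/
theorem Ug_conj {p : ℕ} {b : Bool} (h : Adm D (p, b)) (j : ℤ) (x : Hs D) :
    Ug D (p, b) j (Ug D (p, !b) j x) = Rn D (ZMod.unitOfCoprime p h.cop) x := by
  have h' : Adm D (p, !b) := h
  ext ia
  obtain ⟨i, α⟩ := ia
  have h1 := (Mg_conj h i (0 : V)).1
  have h2 := fun v => (Mg_conj h i v).2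
  have hMc : Cn (rp (sg D (p, b) i)) ((Mg D (p, !b) (sg D (p, b) i)).app (1, 0)) :=
    (cn_M h' _ _).2 (cn_e1 (rp_hyp _))
  rw [Ug_apply, Ug_apply, Rn_apply, h1, ← mul_assoc, ← mul_zpow,
    ← uu_M h i hMc, h2, uu_smul _ h.pos,
    uu_e1, one_zpow, one_mul]
  -- classes
  have hext : ∀ A : Mat, (∀ v, A.app v = (p : ℤ) • v) → A = ⟨p, 0, 0, p⟩ := by
    intro A hA
    have a1 := hA (1, 0)
    have a2 := hA (0, 1)
    simp only [Mat.app, mul_one, mul_zero, add_zero, zero_add, Prod.smul_mk, smul_eq_mul,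
      Prod.mk.injEq] at a1 a2
    exact Mat.ext a1.1 a2.1 a1.2 a2.2
  have hA := hext ((Mg D (p, b) i).mul (Mg D (p, !b) (sg D (p, b) i)))
    (fun v => by rw [Mat.app_mul]; exact h2 v)
  refine congrArg (fun t => x (i, t)) ?_
  apply az_inj (unit_M h' (sg D (p, b) i))
  apply az_inj (unit_M h i)
  rw [az_ai (unit_M h' _), az_ai (unit_M h _), ← az_mul, hA]
  have hpu : (p : ZMod D.K) * (((ZMod.unitOfCoprime p h.cop)⁻¹ : (ZMod D.K)ˣ) : ZMod D.K) = 1 := by
    have := Units.mul_inv (ZMod.unitOfCoprime p h.cop)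
    rwa [ZMod.coe_unitOfCoprime] at this
  unfold az sc
  apply Prod.ext
  · push_cast
    linear_combination (-α.1) * hpu
  · push_cast
    linear_combination (-α.2) * hpu

/-! ### the joint eigenbasis -/

theorem exists_basis (D : Dat) (j : ℤ) :
    ∃ (b : OrthonormalBasis (Fin (finrank ℂ (Ej D j))) ℂ (Ej D j))
      (c : ℕ × Bool → Fin (finrank ℂ (Ej D j)) → ℂ)
      (s : (ZMod D.K)ˣ → Fin (finrank ℂ (Ej D j)) → ℂ),
      (∀ P, Adm D P → ∀ k, ‖c P k‖ = 1 ∧
        Ug D P j (b k : Hs D) = c P k • (b k : Hs D)) ∧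
      ∀ n k, ‖s n k‖ = 1 ∧ Rn D n (b k : Hs D) = s n k • (b k : Hs D) := by
  classical
  obtain ⟨b, c, hbc⟩ := spec_17 (P := {P : ℕ × Bool // Adm D P} ⊕ (ZMod D.K)ˣ) (E := Ej D j)
    (fun t => Sum.elim (fun P => (Ug D P.1 j).restrict (fun x hx => Ug_mem P.2 j hx))
      (fun n => (Rn D n).restrict (fun x hx => Rn_mem n j hx)) t)
    (by
      rintro (P | n) x y
      · exact Ug_inner P.2 j (x : Hs D) (y : Hs D)
      · exact Rn_inner n (x : Hs D) (y : Hs D))
    (by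
      rintro (P | n) (P' | n') x
      · exact Subtype.ext (Ug_comm P.2 P'.2 j x.2)
      · exact Subtype.ext (Rn_Ug n' P.1 j (x : Hs D)).symm
      · exact Subtype.ext (Rn_Ug n P'.1 j (x : Hs D))
      · exact Subtype.ext (Rn_comm n n' (x : Hs D)))
  refine ⟨b, fun P k => if h : Adm D P then c (Sum.inl ⟨P, h⟩) k else 1,
    fun n k => c (Sum.inr n) k, fun P hP k => ?_, fun n k => ?_⟩
  · obtain ⟨h1, h2⟩ := hbc (Sum.inl ⟨P, hP⟩) k
    simp only [dif_pos hP]
    refine ⟨h1, ?_⟩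
    have := congrArg Subtype.val h2
    exact this
  · obtain ⟨h1, h2⟩ := hbc (Sum.inr n) k
    refine ⟨h1, ?_⟩
    have := congrArg Subtype.val h2
    exact this

/-- number of eigenvectors -/
noncomputable def mm (D : Dat) (j : ℤ) : ℕ := finrank ℂ (Ej D j)

/-- the basis of `E_j` -/
noncomputable def bv (D : Dat) (j : ℤ) :
    OrthonormalBasis (Fin (mm D j)) ℂ (Ej D j) := (exists_basis D j).choose

/-- the eigenvalues of the primes -/
noncomputable def cv (D : Dat) (P : ℕ × Bool) (j : ℤ) (k : Fin (mm D j)) : ℂ :=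
  (exists_basis D j).choose_spec.choose P k

/-- the eigenvalues of the scalars -/
noncomputable def sv (D : Dat) (n : (ZMod D.K)ˣ) (j : ℤ) (k : Fin (mm D j)) : ℂ :=
  (exists_basis D j).choose_spec.choose_spec.choose n k

theorem bv_spec {P : ℕ × Bool} (h : Adm D P) (j : ℤ) (k : Fin (mm D j)) :
    ‖cv D P j k‖ = 1 ∧
      Ug D P j (bv D j k : Hs D) = cv D P j k • (bv D j k : Hs D) :=
  (exists_basis D j).choose_spec.choose_spec.choose_spec.1 P h k

theorem bv_spec_sc (n : (ZMod D.K)ˣ) (j : ℤ) (k : Fin (mm D j)) :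
    ‖sv D n j k‖ = 1 ∧
      Rn D n (bv D j k : Hs D) = sv D n j k • (bv D j k : Hs D) :=
  (exists_basis D j).choose_spec.choose_spec.choose_spec.2 n k

theorem mm_le (j : ℤ) : mm D j ≤ Fintype.card (Cx D) * (D.K * D.K) := by
  have h1 := Submodule.finrank_le (Ej D j)
  rw [finrank_euclideanSpace, Fintype.card_prod, Fintype.card_prod, ZMod.card] at h1
  exact h1

theorem norm_bv (j : ℤ) (k : Fin (mm D j)) : ‖(bv D j k : Hs D)‖ = 1 :=
  (bv D j).orthonormal.1 k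

theorem cv_conj {p : ℕ} {b : Bool} (h : Adm D (p, b)) (j : ℤ) (k : Fin (mm D j)) :
    cv D (p, b) j k * cv D (p, !b) j k = sv D (ZMod.unitOfCoprime p h.cop) j k := by
  have h' : Adm D (p, !b) := h
  have h1 := Ug_conj h j (bv D j k : Hs D)
  rw [(bv_spec h' j k).2, map_smul, (bv_spec h j k).2, (bv_spec_sc _ j k).2, smul_smul] at h1
  have h2 : (bv D j k : Hs D) ≠ 0 := by
    intro h3
    have := norm_bv (D := D) j k
    rw [h3, norm_zero] at this
    exact zero_ne_one this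
  rw [mul_comm]
  exact smul_left_injective ℂ h2 h1

/-- coordinates in the joint eigenbasis -/
noncomputable def co (D : Dat) (j : ℤ) (k : Fin (mm D j)) (x : Hs D) : ℂ :=
  inner ℂ (bv D j k : Hs D) x

theorem co_add (j : ℤ) (k : Fin (mm D j)) (x y : Hs D) :
    co D j k (x + y) = co D j k x + co D j k y := inner_add_right _ _ _

theorem co_sub (j : ℤ) (k : Fin (mm D j)) (x y : Hs D) :
    co D j k (x - y) = co D j k x - co D j k y := inner_sub_right _ _ _

theorem co_smul (j : ℤ) (k : Fin (mm D j)) (c : ℂ) (x : Hs D) :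
    co D j k (c • x) = c * co D j k x := inner_smul_right _ _ _

theorem co_sum {ι : Type*} (s : Finset ι) (j : ℤ) (k : Fin (mm D j)) (x : ι → Hs D) :
    co D j k (∑ i ∈ s, x i) = ∑ i ∈ s, co D j k (x i) := inner_sum _ _ _

/-- the coordinate as a sum over the pairs -/
theorem co_eq (j : ℤ) (k : Fin (mm D j)) (x : Hs D) :
    co D j k x = ∑ ia, (starRingEnd ℂ) ((bv D j k : Hs D) ia) * x ia := by
  unfold co
  rw [PiLp.inner_apply]
  refine Finset.sum_congr rfl fun ia _ => ?_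
  rw [RCLike.inner_apply, mul_comm]

/-- Parseval -/
theorem co_parseval (j : ℤ) {x : Hs D} (hx : x ∈ Ej D j) :
    ∑ k, ‖co D j k x‖ ^ 2 = ∑ ia, ‖x ia‖ ^ 2 := by
  have h1 := parseval_17 (bv D j) ⟨x, hx⟩
  have h2 : ‖(⟨x, hx⟩ : Ej D j)‖ ^ 2 = ∑ ia, ‖x ia‖ ^ 2 := by
    rw [Submodule.coe_norm, EuclideanSpace.norm_sq_eq]
  rw [← h2, ← h1]
  rfl

/-- Bessel, for every vector -/
theorem co_bessel (j : ℤ) (x : Hs D) :
    ∑ k, ‖co D j k x‖ ^ 2 ≤ ∑ ia, ‖x ia‖ ^ 2 := by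
  have hon : Orthonormal ℂ (fun k => (bv D j k : Hs D)) := by
    refine ⟨fun k => (bv D j).orthonormal.1 k, fun k l hkl => ?_⟩
    exact (bv D j).orthonormal.2 hkl
  have h1 := hon.sum_inner_products_le x (s := Finset.univ)
  rw [← EuclideanSpace.norm_sq_eq]
  exact h1

/-- the eigenvalue equation for coordinates -/
theorem co_Ug {P : ℕ × Bool} (h : Adm D P) (j : ℤ) (k : Fin (mm D j)) (x : Hs D) :
    co D j k (Ug D P j x) = cv D P j k * co D j k x := by
  obtain ⟨h1, h2⟩ := bv_spec h j k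
  have h3 := Ug_inner h j (bv D j k : Hs D) x
  rw [h2, inner_smul_left] at h3
  have h4 : cv D P j k * (starRingEnd ℂ) (cv D P j k) = 1 := by
    rw [Complex.mul_conj, Complex.normSq_eq_norm_sq, h1]
    norm_num
  unfold co
  rw [← h3, ← mul_assoc, h4, one_mul]

theorem co_Rn (n : (ZMod D.K)ˣ) (j : ℤ) (k : Fin (mm D j)) (x : Hs D) :
    co D j k (Rn D n x) = sv D n j k * co D j k x := by
  obtain ⟨h1, h2⟩ := bv_spec_sc (D := D) n j k
  have h3 := Rn_inner n (bv D j k : Hs D) x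
  rw [h2, inner_smul_left] at h3
  have h4 : sv D n j k * (starRingEnd ℂ) (sv D n j k) = 1 := by
    rw [Complex.mul_conj, Complex.normSq_eq_norm_sq, h1]
    norm_num
  unfold co
  rw [← h3, ← mul_assoc, h4, one_mul]

end unitary

end Pool.Agent.Lib.MP_a17b09_nt.MRH
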