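import Pool.Agent.Lib.MP_a17b09_nt.MRS.HBall67
import Pool.Agent.Lib.MP_a17b09_nt.MRH.Defs79

/-!
Project MRH: the exponential sums in the letters of `Defs79`.
-/

set_option autoImplicit false

namespace Pool.Agent.Lib.MP_a17b09_nt.MRH

open Finset Complex
open CH HY
open Pool.Agent.XH67 (IsB ball_bd crd_bd)

/-- all shells inside a ball, frequencies up to `A * T` -/
theorem vhA67 {d : ℕ} {Q : Form} (hQ : Hyp d Q) (A B κ : ℝ) (hA : 1 ≤ A) (hB : 0 < B)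
    (hκ : 0 < κ) : ∃ c C : ℝ, 0 < c ∧ c ≤ 1 / 2 ∧ 0 < C ∧
    ∀ (T τ : ℝ) (q : ℕ) (a : V) (Y r1 r2 t0 t1 : ℝ) (S : Finset V),
      1 ≤ T → |τ| ≤ A * T → 0 < q → (q : ℝ) ^ 2 * T ^ κ ≤ Y → 0 ≤ r1 → r1 ≤ r2 → r2 ≤ Y →
      -B ≤ t0 → t0 ≤ t1 → t1 ≤ B → IsB Q q a t0 t1 r1 r2 S →
      ‖∑ v ∈ S, exp (I * ((τ * ps Q v : ℝ) : ℂ)) -
        (((r2 - r1) / (√(d : ℝ) * (q : ℝ) ^ 2) : ℝ) : ℂ) *
          ∫ u in t0..t1, exp (I * ((τ * u : ℝ) : ℂ))‖ ≤ C * (Y / (q : ℝ) ^ 2) ^ (1 - c) := by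
  classical
  obtain ⟨c, C, hc, hc2, hC, H⟩ := ball_bd hQ B (κ / 2) hB (by linarith)
  have hAp : 0 < A ^ (κ / 2) := Real.rpow_pos_of_pos (by linarith) _
  refine ⟨c, 2 * C + 2 * (C * A ^ (κ / 2)), hc, hc2, by positivity, ?_⟩
  intro T τ q a Y r1 r2 t0 t1 S hT hτ hq hY hr1 hr12 hr2 ht0 ht01 ht1 hS
  have hAT : 1 ≤ A * T := by nlinarith
  have hqr : (0 : ℝ) < q := by exact_mod_cast hq
  have hq2 : (0 : ℝ) < (q : ℝ) ^ 2 := by positivity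
  have hTκ : 1 ≤ T ^ κ := Real.one_le_rpow hT hκ.le
  have hYq : T ^ κ ≤ Y / (q : ℝ) ^ 2 := by
    rw [le_div_iff₀ hq2]
    linarith
  have hYq1 : 1 ≤ Y / (q : ℝ) ^ 2 := by linarith
  have hTh : (A * T) ^ (κ / 2) ≤ A ^ (κ / 2) * (Y / (q : ℝ) ^ 2) ^ (1 - c) := by
    rw [Real.mul_rpow (by linarith) (by linarith)]
    refine mul_le_mul_of_nonneg_left ?_ hAp.le
    have e1 : T ^ (κ / 2) = (T ^ κ) ^ (1 / 2 : ℝ) := by
      rw [← Real.rpow_mul (by linarith)]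
      congr 1
      ring
    rw [e1]
    exact (Real.rpow_le_rpow (by positivity) hYq (by norm_num)).trans
      (Real.rpow_le_rpow_of_exponent_le hYq1 (by linarith))
  -- the ball of radius `r2` in the class
  obtain ⟨R, hR, HR⟩ := crd_bd hQ (B := B)
  have hfin : Set.Finite {v : V | (q : ℤ) ∣ v.1 - a.1 ∧ (q : ℤ) ∣ v.2 - a.2 ∧ Cn Q v ∧
      t0 ≤ ps Q v ∧ ps Q v < t1 ∧ (0 : ℝ) < (Q.q v : ℝ) ∧ (Q.q v : ℝ) ≤ r2} := by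
    set M : ℤ := ⌈R * √r2⌉ with hM
    refine Set.Finite.subset ((Set.finite_Icc (-M) M).prod (Set.finite_Icc (-M) M)) ?_
    rintro v ⟨_, _, g3, g4, g5, _, g7⟩
    obtain ⟨b1, b2⟩ := HR v r2 g3 (abs_le.2 ⟨by linarith, by linarith⟩) g7
    rw [abs_le] at b1 b2
    have hM' : R * √r2 ≤ M := Int.le_ceil _
    refine ⟨⟨?_, ?_⟩, ⟨?_, ?_⟩⟩
    · have : (-(M : ℝ)) ≤ v.1 := by linarith
      exact_mod_cast this
    · have : (v.1 : ℝ) ≤ M := by linarith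
      exact_mod_cast this
    · have : (-(M : ℝ)) ≤ v.2 := by linarith
      exact_mod_cast this
    · have : (v.2 : ℝ) ≤ M := by linarith
      exact_mod_cast this
  set S2 : Finset V := hfin.toFinset with hS2
  have i2 : IsB Q q a t0 t1 0 r2 S2 := by
    intro v
    rw [hS2, Set.Finite.mem_toFinset]
    rfl
  set S1 := S2.filter (fun v => (Q.q v : ℝ) ≤ r1) with hS1
  have i1 : IsB Q q a t0 t1 0 r1 S1 := by
    intro v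
    rw [hS1, Finset.mem_filter, i2 v]
    constructor
    · rintro ⟨⟨g1, g2, g3, g4, g5, g6, g7⟩, g8⟩
      exact ⟨g1, g2, g3, g4, g5, g6, g8⟩
    · rintro ⟨g1, g2, g3, g4, g5, g6, g7⟩
      exact ⟨⟨g1, g2, g3, g4, g5, g6, by linarith⟩, g7⟩
  have iS : S = S2.filter (fun v => ¬ (Q.q v : ℝ) ≤ r1) := by
    ext v
    rw [Finset.mem_filter, hS v, i2 v]
    constructor
    · rintro ⟨g1, g2, g3, g4, g5, g6, g7⟩
      exact ⟨⟨g1, g2, g3, g4, g5, by linarith, g7⟩, not_le.2 g6⟩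
    · rintro ⟨⟨g1, g2, g3, g4, g5, g6, g7⟩, g8⟩
      exact ⟨g1, g2, g3, g4, g5, not_le.1 g8, g7⟩
  have hr20 : 0 ≤ r2 := hr1.trans hr12
  obtain ⟨n, hn⟩ := pow_unbounded_of_one_lt r2 (by norm_num : (1 : ℝ) < 2)
  have j2 := H (A * T) τ q a t0 t1 hAT hτ hq ht0 ht01 ht1 n r2 S2 hr20 hn.le i2
  have j1 := H (A * T) τ q a t0 t1 hAT hτ hq ht0 ht01 ht1 n r1 S1 hr1 (hr12.trans hn.le) i1
  set J : ℂ := ∫ u in t0..t1, exp (I * ((τ * u : ℝ) : ℂ)) with hJ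
  have e0 : ∑ v ∈ S2, exp (I * ((τ * ps Q v : ℝ) : ℂ)) =
      ∑ v ∈ S1, exp (I * ((τ * ps Q v : ℝ) : ℂ)) + ∑ v ∈ S, exp (I * ((τ * ps Q v : ℝ) : ℂ)) := by
    rw [iS]
    exact (Finset.sum_filter_add_sum_filter_not S2 _ _).symm
  have e1 : ∑ v ∈ S, exp (I * ((τ * ps Q v : ℝ) : ℂ)) -
      (((r2 - r1) / (√(d : ℝ) * (q : ℝ) ^ 2) : ℝ) : ℂ) * J =
      (∑ v ∈ S2, exp (I * ((τ * ps Q v : ℝ) : ℂ)) -
        ((r2 / (√(d : ℝ) * (q : ℝ) ^ 2) : ℝ) : ℂ) * J) -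
      (∑ v ∈ S1, exp (I * ((τ * ps Q v : ℝ) : ℂ)) -
        ((r1 / (√(d : ℝ) * (q : ℝ) ^ 2) : ℝ) : ℂ) * J) := by
    rw [e0]
    push_cast
    ring
  rw [e1]
  refine (norm_sub_le _ _).trans ?_
  have m2 : (r2 / (q : ℝ) ^ 2) ^ (1 - c) ≤ (Y / (q : ℝ) ^ 2) ^ (1 - c) :=
    Real.rpow_le_rpow (by positivity) (by gcongr) (by linarith)
  have m1 : (r1 / (q : ℝ) ^ 2) ^ (1 - c) ≤ (Y / (q : ℝ) ^ 2) ^ (1 - c) :=
    Real.rpow_le_rpow (by positivity) (by gcongr; linarith) (by linarith)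
  have n2 := mul_le_mul_of_nonneg_left m2 hC.le
  have n1 := mul_le_mul_of_nonneg_left m1 hC.le
  have n3 := mul_le_mul_of_nonneg_left hTh hC.le
  linarith

/-- the frequencies of the period -/
theorem int_per67 (T0 : ℝ) (hT0 : 0 < T0) (j : ℤ) (t0 : ℝ) :
    ∫ u in t0..(t0 + T0), exp (I * ((2 * Real.pi * j / T0 * u : ℝ) : ℂ)) =
      if j = 0 then (T0 : ℂ) else 0 := by
  split_ifs with hj
  · subst hj
    simp
  · set c : ℂ := ((2 * Real.pi * j / T0 : ℝ) : ℂ) * I with hc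
    have hc0 : c ≠ 0 := by
      rw [hc]
      refine mul_ne_zero ?_ I_ne_zero
      have : (2 * Real.pi * j / T0 : ℝ) ≠ 0 := by
        have hj' : (j : ℝ) ≠ 0 := by exact_mod_cast hj
        have := Real.pi_pos
        positivity
      exact_mod_cast this
    have e1 : (fun u : ℝ => exp (I * ((2 * Real.pi * j / T0 * u : ℝ) : ℂ))) =
        fun u : ℝ => exp (c * u) := by
      funext u
      rw [hc]
      congr 1
      push_cast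
      ring
    rw [e1, integral_exp_mul_complex hc0]
    have e2 : exp (c * ((t0 + T0 : ℝ) : ℂ)) = exp (c * (t0 : ℂ)) := by
      rw [Complex.exp_eq_exp_iff_exists_int]
      refine ⟨j, ?_⟩
      rw [hc]
      have hT : (T0 : ℂ) ≠ 0 := by exact_mod_cast hT0.ne'
      push_cast
      field_simp
    rw [e2, sub_self, zero_div]

/-- **Exponential sums over shells of a sector of length the period**, any class modulo `q` -/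
theorem exp67 {d : ℕ} {Q : Form} (hQ : Hyp d Q) (T0 B κ : ℝ) (hT0 : 0 < T0) (hB : 0 ≤ B)
    (hκ : 0 < κ) : ∃ c C : ℝ, 0 < c ∧ c ≤ 1 / 2 ∧ 0 < C ∧
    ∀ (T : ℝ) (j : ℤ) (q : ℕ) (a : V) (Y r1 r2 t0 : ℝ) (S : Finset V),
      1 ≤ T → |(j : ℝ)| ≤ T → 0 < q → (q : ℝ) ^ 2 * T ^ κ ≤ Y → 0 ≤ r1 → r1 ≤ r2 → r2 ≤ Y →
      |t0| ≤ B → (∀ v : V, v ∈ S ↔ ((q : ℤ) ∣ v.1 - a.1 ∧ (q : ℤ) ∣ v.2 - a.2 ∧ Cn Q v ∧
        t0 ≤ ps Q v ∧ ps Q v < t0 + T0 ∧ r1 < (Q.q v : ℝ) ∧ (Q.q v : ℝ) ≤ r2)) →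
      ‖∑ v ∈ S, exp (((2 * Real.pi * ps Q v / T0 : ℝ) : ℂ) * I) ^ j -
        (if j = 0 then (((r2 - r1) * T0 / (√(d : ℝ) * (q : ℝ) ^ 2) : ℝ) : ℂ) else 0)‖ ≤
        C * (Y / (q : ℝ) ^ 2) ^ (1 - c) := by
  have hpi := Real.pi_pos
  obtain ⟨c, C, hc, hc2, hC, H⟩ := vhA67 hQ (1 + 2 * Real.pi / T0) (B + T0) κ
    (by have : 0 ≤ 2 * Real.pi / T0 := by positivity
        linarith) (by linarith) hκ
  refine ⟨c, C, hc, hc2, hC, ?_⟩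
  intro T j q a Y r1 r2 t0 S hT hj hq hY hr1 hr12 hr2 ht0 hS
  rw [abs_le] at ht0
  have hτ : |2 * Real.pi * j / T0| ≤ (1 + 2 * Real.pi / T0) * T := by
    rw [abs_div, abs_mul, abs_mul, abs_of_pos hT0, abs_of_pos hpi,
      abs_of_pos (by norm_num : (0 : ℝ) < 2)]
    have e1 : 2 * Real.pi * |(j : ℝ)| / T0 ≤ 2 * Real.pi * T / T0 := by gcongr
    have e2 : (1 + 2 * Real.pi / T0) * T = T + 2 * Real.pi * T / T0 := by ring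
    rw [e2]
    linarith
  have := H T (2 * Real.pi * j / T0) q a Y r1 r2 t0 (t0 + T0) S hT hτ hq hY hr1 hr12 hr2
    (by linarith) (by linarith) (by linarith) hS
  rw [int_per67 T0 hT0 j t0] at this
  refine le_trans (le_of_eq ?_) this
  congr 2
  · refine Finset.sum_congr rfl fun v _ => ?_
    rw [← Complex.exp_int_mul]
    congr 1
    push_cast
    ring
  · split_ifs with hj0
    · push_cast
      ring
    · rw [mul_zero]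

/-- in the letters of `Defs79`, uniform in the class of forms -/
theorem expU67 (D : Dat) (B κ : ℝ) (hB : 0 ≤ B) (hκ : 0 < κ) :
    ∃ c C : ℝ, 0 < c ∧ c ≤ 1 / 2 ∧ 0 < C ∧
    ∀ (i : Cx D) (T : ℝ) (j : ℤ) (q : ℕ) (a : V) (Y r1 r2 t0 : ℝ) (S : Finset V),
      1 ≤ T → |(j : ℝ)| ≤ T → 0 < q → (q : ℝ) ^ 2 * T ^ κ ≤ Y → 0 ≤ r1 → r1 ≤ r2 → r2 ≤ Y →
      |t0| ≤ B → (∀ v : V, v ∈ S ↔ ((q : ℤ) ∣ v.1 - a.1 ∧ (q : ℤ) ∣ v.2 - a.2 ∧ Cn (rp i) v ∧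
        t0 ≤ ps (rp i) v ∧ ps (rp i) v < t0 + D.T ∧ r1 < ((rp i).q v : ℝ) ∧
          ((rp i).q v : ℝ) ≤ r2)) →
      ‖∑ v ∈ S, uu i v ^ j -
        (if j = 0 then (((r2 - r1) * D.T / (√(D.d : ℝ) * (q : ℝ) ^ 2) : ℝ) : ℂ) else 0)‖ ≤
        C * (Y / (q : ℝ) ^ 2) ^ (1 - c) := by
  classical
  have key := fun i : Cx D => exp67 (rp_hyp i) D.T B κ D.T_pos hB hκ
  choose c C hc hc2 hC H using key
  rcases isEmpty_or_nonempty (Cx D) with he | hne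
  · exact ⟨1 / 2, 1, by norm_num, le_rfl, by norm_num, fun i => (he.false i).elim⟩
  obtain ⟨i0, -, hi0⟩ := Finset.exists_min_image (Finset.univ : Finset (Cx D)) c
    Finset.univ_nonempty
  refine ⟨c i0, ∑ i, C i, hc i0, hc2 i0, Finset.sum_pos (fun i _ => hC i) Finset.univ_nonempty, ?_⟩
  intro i T j q a Y r1 r2 t0 S hT hj hq hY hr1 hr12 hr2 ht0 hS
  have hqr : (0 : ℝ) < q := by exact_mod_cast hq
  have hq2 : (0 : ℝ) < (q : ℝ) ^ 2 := by positivity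
  have hTκ : 1 ≤ T ^ κ := Real.one_le_rpow hT hκ.le
  have hYq : 1 ≤ Y / (q : ℝ) ^ 2 := by
    rw [le_div_iff₀ hq2]
    nlinarith
  have h1 := H i T j q a Y r1 r2 t0 S hT hj hq hY hr1 hr12 hr2 ht0 hS
  refine h1.trans ?_
  have h2 : (Y / (q : ℝ) ^ 2) ^ (1 - c i) ≤ (Y / (q : ℝ) ^ 2) ^ (1 - c i0) :=
    Real.rpow_le_rpow_of_exponent_le hYq (by linarith [hi0 i (Finset.mem_univ i)])
  have h3 : C i ≤ ∑ i, C i :=
    Finset.single_le_sum (fun i _ => (hC i).le) (Finset.mem_univ i)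
  have h4 : 0 ≤ (Y / (q : ℝ) ^ 2) ^ (1 - c i) := by positivity
  exact mul_le_mul h3 h2 h4 (Finset.sum_nonneg fun i _ => (hC i).le)

/-- the sector `Sec` -/
theorem expS67 (D : Dat) (κ : ℝ) (hκ : 0 < κ) :
    ∃ c C : ℝ, 0 < c ∧ c ≤ 1 / 2 ∧ 0 < C ∧
    ∀ (i : Cx D) (T : ℝ) (j : ℤ) (q : ℕ) (a : V) (Y r1 r2 : ℝ) (S : Finset V),
      1 ≤ T → |(j : ℝ)| ≤ T → 0 < q → (q : ℝ) ^ 2 * T ^ κ ≤ Y → 0 ≤ r1 → r1 ≤ r2 → r2 ≤ Y →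
      (∀ v : V, v ∈ S ↔ ((q : ℤ) ∣ v.1 - a.1 ∧ (q : ℤ) ∣ v.2 - a.2 ∧ Sec (rp i) D.T v ∧
        r1 < ((rp i).q v : ℝ) ∧ ((rp i).q v : ℝ) ≤ r2)) →
      ‖∑ v ∈ S, uu i v ^ j -
        (if j = 0 then (((r2 - r1) * D.T / (√(D.d : ℝ) * (q : ℝ) ^ 2) : ℝ) : ℂ) else 0)‖ ≤
        C * (Y / (q : ℝ) ^ 2) ^ (1 - c) := by
  obtain ⟨c, C, hc, hc2, hC, H⟩ := expU67 D 0 κ le_rfl hκ
  refine ⟨c, C, hc, hc2, hC, ?_⟩
  intro i T j q a Y r1 r2 S hT hj hq hY hr1 hr12 hr2 hS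
  refine H i T j q a Y r1 r2 0 S hT hj hq hY hr1 hr12 hr2 (by simp) ?_
  intro v
  rw [hS v, zero_add]
  unfold Sec
  constructor
  · rintro ⟨g1, g2, ⟨g3, g4, g5⟩, g6, g7⟩
    exact ⟨g1, g2, g3, g4, g5, g6, g7⟩
  · rintro ⟨g1, g2, g3, g4, g5, g6, g7⟩
    exact ⟨g1, g2, ⟨g3, g4, g5⟩, g6, g7⟩

end Pool.Agent.Lib.MP_a17b09_nt.MRH
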