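import Pool.Agent.Lib.MP_a17b09_nt.MRH.Stmts79
import Pool.Agent.Lib.MP_a17b09_nt.MRH.ExpH67
import Pool.Agent.Lib.MP_a17b09_nt.MRS.HM96

/-!
Project MRH: Halasz-Montgomery on the set `U` (StHmuG).
-/

set_option autoImplicit false

open Filter Topology Finset

namespace Pool.Agent.Lib.MP_a17b09_nt.MRH

open CH CH.PE HY HY.S68

namespace HmuH96

theorem cl_iff96 {K : ℕ} [NeZero K] (v : V) (α : ZMod K × ZMod K) :
    cl K v = α ↔ (K : ℤ) ∣ v.1 - (rz α).1 ∧ (K : ℤ) ∣ v.2 - (rz α).2 := by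
  have key : ∀ (x : ℤ) (t : ZMod K), (x : ZMod K) = t ↔ (K : ℤ) ∣ x - (t.val : ℤ) := by
    intro x t
    rw [← ZMod.intCast_zmod_eq_zero_iff_dvd, ← sub_eq_zero]
    push_cast
    rw [ZMod.natCast_zmod_val]
  unfold cl rz
  rw [Prod.ext_iff]
  exact and_congr (key v.1 α.1) (key v.2 α.2)

variable {D : Dat}

/-- the number of vectors of a shell -/
theorem card_Shg96 (D : Dat) : ∃ C0 : ℝ, 0 < C0 ∧ ∀ (i : Cx D) (a b X : ℝ), b ≤ X → 1 ≤ X →
    ((Shg i a b).card : ℝ) ≤ C0 * X := by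
  have h1 := fun i : Cx D => CntH84.cnt (rp_hyp i) D.T_pos
  choose Ci hCi H using h1
  have hT := D.T_pos
  have hd : 0 < √(D.d : ℝ) := Real.sqrt_pos.2 (by exact_mod_cast D.d_pos)
  have hS : 0 ≤ ∑ i, Ci i := Finset.sum_nonneg fun i _ => (hCi i).le
  refine ⟨D.T / √(D.d : ℝ) + 2 * ∑ i, Ci i, by positivity, ?_⟩
  intro i a b X hb hX
  obtain ⟨h2, h3⟩ := H i X (by linarith)
  have h4 : ((Shg i a b).card : ℝ) ≤ ((CntH84.SS (rp i) D.T X).ncard : ℝ) := by
    rw [← Set.ncard_coe_finset]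
    refine Nat.cast_le.2 (Set.ncard_le_ncard ?_ h2)
    intro v hv
    rw [Finset.mem_coe, mem_Shg] at hv
    exact ⟨hv.1, hv.2.2.trans hb⟩
  have h5 := (abs_le.1 h3).2
  have h6 : √X ≤ X := by
    rw [Real.sqrt_le_left (by linarith)]
    nlinarith
  have h7 : Ci i ≤ ∑ j, Ci j :=
    Finset.single_le_sum (f := Ci) (fun j _ => (hCi j).le) (Finset.mem_univ i)
  have h8 : Ci i * (√X + 1) ≤ (∑ j, Ci j) * (2 * X) :=
    mul_le_mul h7 (by linarith) (by positivity) hS
  have h9 : (D.T / √(D.d : ℝ) + 2 * ∑ i, Ci i) * X =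
      D.T / √(D.d : ℝ) * X + (∑ j, Ci j) * (2 * X) := by ring
  rw [h9]
  linarith

/-- product of two eigenfunctions -/
theorem ch_conj96 (w w' : Fq D) (i : Cx D) (v : V) :
    ch w i v * (starRingEnd ℂ) (ch w' i v) =
      ((starRingEnd ℂ) ((bv D w.1 w.2 : Hs D) (i, cl D.K v)) *
        (bv D w'.1 w'.2 : Hs D) (i, cl D.K v)) * uu i v ^ (w.1 - w'.1) := by
  have hu := uu_ne i v
  have h1 : (starRingEnd ℂ) (uu i v) = (uu i v)⁻¹ := by
    have h2 : uu i v * (starRingEnd ℂ) (uu i v) = 1 := by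
      rw [Complex.mul_conj, Complex.normSq_eq_norm_sq, norm_uu i v]
      simp
    exact eq_inv_of_mul_eq_one_right h2
  unfold ch
  rw [map_mul, Complex.conj_conj, map_zpow₀, h1, inv_zpow, zpow_sub₀ hu]
  ring

/-- two different frequencies -/
theorem off96 {B T a b : ℝ}
    (H : ∀ i : Cx D, ∀ h : ℤ, h ≠ 0 → |(h : ℝ)| ≤ T → ∀ α : V,
      ∀ S : Finset V, (∀ v : V, v ∈ S ↔ ((D.K : ℤ) ∣ v.1 - α.1 ∧ (D.K : ℤ) ∣ v.2 - α.2 ∧
        Sec (rp i) D.T v ∧ a < ((rp i).q v : ℝ) ∧ ((rp i).q v : ℝ) ≤ b)) →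
      ‖∑ v ∈ S, uu i v ^ h‖ ≤ B)
    (w w' : Fq D) (hne : w.1 ≠ w'.1) (hT : |((w.1 - w'.1 : ℤ) : ℝ)| ≤ T) :
    ‖∑ i, ∑ v ∈ Shg i a b, ch w i v * (starRingEnd ℂ) (ch w' i v)‖ ≤
      Fintype.card (Cx D) * ((D.K : ℝ) * D.K) * B := by
  classical
  have hterm : ∀ i : Cx D, ‖∑ v ∈ Shg i a b, ch w i v * (starRingEnd ℂ) (ch w' i v)‖ ≤
      ((D.K : ℝ) * D.K) * B := by
    intro i
    rw [← Finset.sum_fiberwise (Shg i a b) (fun v => cl D.K v)
      (fun v => ch w i v * (starRingEnd ℂ) (ch w' i v))]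
    have h1 : ∀ α : ZMod D.K × ZMod D.K, ‖∑ v ∈ (Shg i a b).filter (fun v => cl D.K v = α),
        ch w i v * (starRingEnd ℂ) (ch w' i v)‖ ≤ B := by
      intro α
      have h2 : ∑ v ∈ (Shg i a b).filter (fun v => cl D.K v = α),
          ch w i v * (starRingEnd ℂ) (ch w' i v) =
          ((starRingEnd ℂ) ((bv D w.1 w.2 : Hs D) (i, α)) *
            (bv D w'.1 w'.2 : Hs D) (i, α)) *
          ∑ v ∈ (Shg i a b).filter (fun v => cl D.K v = α), uu i v ^ (w.1 - w'.1) := by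
        rw [Finset.mul_sum]
        refine Finset.sum_congr rfl fun v hv => ?_
        rw [Finset.mem_filter, mem_Shg] at hv
        rw [ch_conj96 w w' i v, hv.2]
      rw [h2, norm_mul, norm_mul, RCLike.norm_conj]
      have h3 := H i (w.1 - w'.1) (sub_ne_zero.2 hne) hT (rz α)
        ((Shg i a b).filter (fun v => cl D.K v = α)) (fun v => by
          rw [Finset.mem_filter, mem_Shg, cl_iff96]
          constructor
          · rintro ⟨⟨h4, h5, h6⟩, h7, h8⟩
            exact ⟨h7, h8, h4, h5, h6⟩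
          · rintro ⟨h4, h5, h6, h7, h8⟩
            exact ⟨⟨h6, h7, h8⟩, h4, h5⟩)
      have h4 := bv_le w (i, α)
      have h5 := bv_le w' (i, α)
      calc _ ≤ 1 * 1 * B := by
            refine mul_le_mul (mul_le_mul h4 h5 (norm_nonneg _) zero_le_one) h3
              (norm_nonneg _) (by norm_num)
        _ = _ := by ring
    refine (norm_sum_le _ _).trans ((Finset.sum_le_sum fun α _ => h1 α).trans ?_)
    rw [Finset.sum_const, Finset.card_univ, Fintype.card_prod, ZMod.card, nsmul_eq_mul]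
    push_cast
    exact le_rfl
  refine (norm_sum_le _ _).trans ((Finset.sum_le_sum fun i _ => hterm i).trans ?_)
  rw [Finset.sum_const, Finset.card_univ, nsmul_eq_mul]
  exact le_of_eq (by ring)

/-- the frequencies with a given first coordinate -/
theorem card_fib96 (U : Finset (Fq D)) (j : ℤ) :
    ((U.filter (fun w => w.1 = j)).card : ℝ) ≤ Fintype.card (Cx D) * ((D.K : ℝ) * D.K) := by
  classical
  have h1 : U.filter (fun w => w.1 = j) ⊆
      ({j} : Finset ℤ).sigma (fun j => (Finset.univ : Finset (Fin (mm D j)))) := by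
    intro w hw
    rw [Finset.mem_filter] at hw
    rw [Finset.mem_sigma, Finset.mem_singleton]
    exact ⟨hw.2, Finset.mem_univ _⟩
  have h2 := Finset.card_le_card h1
  rw [Finset.card_sigma, Finset.sum_singleton, Finset.card_univ, Fintype.card_fin] at h2
  have h3 := h2.trans (mm_le (D := D) j)
  exact_mod_cast h3

end HmuH96

open HmuH96

theorem stHmuG_96 (D : Dat) : StHmuG D := by
  classical
  intro r1 r2 hr1 hr12
  obtain ⟨c, C, hc, hc2, hC, H⟩ := expS67 D (1 / 16) (by norm_num)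
  obtain ⟨C0, hC0, HC⟩ := card_Shg96 D
  set R : ℝ := max r2 1 with hR
  have hR1 : 1 ≤ R := le_max_right _ _
  have hR2 : r2 ≤ R := le_max_left _ _
  set n0 : ℝ := ((Fintype.card (Cx D) : ℕ) : ℝ) with hn0
  have hn00 : 0 ≤ n0 := Nat.cast_nonneg _
  set kk : ℝ := (D.K : ℝ) * D.K with hkk
  have hkk0 : 0 ≤ kk := by positivity
  set M0 : ℝ := n0 * (C0 * R) with hM0
  have hM00 : 0 ≤ M0 := by positivity
  set C' : ℝ := n0 * kk * (C * (2 + R)) with hC'
  have hC'0 : 0 ≤ C' := by positivity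
  have hKK : (1 : ℝ) ≤ (D.K : ℝ) ^ 2 := by
    have : 1 ≤ D.K := D.Kpos
    exact one_le_pow₀ (by exact_mod_cast this)
  have hKK0 : (0 : ℝ) < (D.K : ℝ) ^ 2 := by linarith
  refine ⟨c, M0 * (n0 * kk * M0 + C') + 1, 1, hc, by positivity, le_rfl, ?_⟩
  intro N hN U hU hUs a ha
  have hN0 : (0 : ℝ) < N := by linarith
  have hRN : 1 ≤ R * N := one_le_mul_of_one_le_of_one_le hR1 hN
  have hb : r2 * N ≤ R * N := by gcongr
  set Sg : Finset (Σ _ : Cx D, V) := Finset.univ.sigma (fun i => Shg i (r1 * N) (r2 * N)) with hSg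
  have hcard : (Sg.card : ℝ) ≤ M0 * N := by
    rw [hSg, Finset.card_sigma]
    push_cast
    refine (Finset.sum_le_sum fun i _ => HC i _ _ (R * N) hb hRN).trans ?_
    rw [Finset.sum_const, Finset.card_univ, nsmul_eq_mul, hM0]
    exact le_of_eq (by ring)
  have hNc : (0 : ℝ) ≤ N ^ (1 - c) := by positivity
  have hG : ∀ w ∈ U, ∑ w' ∈ U, ‖∑ x ∈ Sg, (((fun _ => 1) x : ℝ) : ℂ) *
      (ch w x.1 x.2 * (starRingEnd ℂ) (ch w' x.1 x.2))‖ ≤ (n0 * kk * M0 + C') * N := by
    intro w hw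
    have h1 : ∀ w' ∈ U, ‖∑ x ∈ Sg, (((fun _ => 1) x : ℝ) : ℂ) *
        (ch w x.1 x.2 * (starRingEnd ℂ) (ch w' x.1 x.2))‖ ≤
        (if w'.1 = w.1 then M0 * N else 0) + C' * N ^ (1 - c) := by
      intro w' hw'
      have h2 : ∑ x ∈ Sg, (((fun _ => 1) x : ℝ) : ℂ) *
          (ch w x.1 x.2 * (starRingEnd ℂ) (ch w' x.1 x.2)) =
          ∑ i, ∑ v ∈ Shg i (r1 * N) (r2 * N), ch w i v * (starRingEnd ℂ) (ch w' i v) := by
        rw [hSg, Finset.sum_sigma]
        refine Finset.sum_congr rfl fun i _ => Finset.sum_congr rfl fun v _ => ?_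
        simp
      by_cases hj : w'.1 = w.1
      · rw [if_pos hj]
        have h3 : ‖∑ x ∈ Sg, (((fun _ => 1) x : ℝ) : ℂ) *
            (ch w x.1 x.2 * (starRingEnd ℂ) (ch w' x.1 x.2))‖ ≤ M0 * N := by
          refine (norm_sum_le _ _).trans ?_
          have h4 : ∀ x ∈ Sg, ‖(((fun _ => 1) x : ℝ) : ℂ) *
              (ch w x.1 x.2 * (starRingEnd ℂ) (ch w' x.1 x.2))‖ ≤ 1 := by
            intro x hx
            have h5 := norm_ch_le w x.1 x.2
            have h6 := norm_ch_le w' x.1 x.2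
            rw [norm_mul, norm_mul, RCLike.norm_conj]
            have h7 : ‖(((fun _ => 1) x : ℝ) : ℂ)‖ = 1 := by simp
            rw [h7, one_mul]
            exact mul_le_one₀ h5 (norm_nonneg _) h6
          refine (Finset.sum_le_sum h4).trans ?_
          rw [Finset.sum_const, nsmul_eq_mul, mul_one]
          exact hcard
        have h4 : 0 ≤ C' * N ^ (1 - c) := by positivity
        linarith
      · rw [if_neg hj, zero_add, h2]
        have hT1 : (1 : ℝ) ≤ 2 * N ^ 4 := by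
          have : (1 : ℝ) ≤ N ^ 4 := one_le_pow₀ hN
          linarith
        have hr2N : 0 ≤ r2 * N := mul_nonneg (hr1.trans hr12.le) hN0.le
        have hY1 : (D.K : ℝ) ^ 2 * (2 * N ^ 4) ^ (1 / 16 : ℝ) ≤
            (D.K : ℝ) ^ 2 * ((2 + R) * N) := by
          refine mul_le_mul_of_nonneg_left ?_ hKK0.le
          rw [Real.mul_rpow (by norm_num) (by positivity)]
          have h5 : (2 : ℝ) ^ (1 / 16 : ℝ) ≤ 2 + R := by
            calc (2 : ℝ) ^ (1 / 16 : ℝ) ≤ 2 ^ (1 : ℝ) :=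
                  Real.rpow_le_rpow_of_exponent_le (by norm_num) (by norm_num)
              _ = 2 := Real.rpow_one 2
              _ ≤ 2 + R := by linarith
          have h6 : (N ^ 4) ^ (1 / 16 : ℝ) ≤ N := by
            rw [← Real.rpow_natCast, ← Real.rpow_mul hN0.le]
            calc N ^ (((4 : ℕ) : ℝ) * (1 / 16 : ℝ)) ≤ N ^ (1 : ℝ) :=
                  Real.rpow_le_rpow_of_exponent_le hN (by norm_num)
              _ = N := Real.rpow_one N
          exact mul_le_mul h5 h6 (by positivity) (by linarith)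
        have hY2 : r2 * N ≤ (D.K : ℝ) ^ 2 * ((2 + R) * N) := by
          have h5 : (2 + R) * N ≤ (D.K : ℝ) ^ 2 * ((2 + R) * N) :=
            le_mul_of_one_le_left (by positivity) hKK
          exact hb.trans ((mul_le_mul_of_nonneg_right (show R ≤ 2 + R by linarith) hN0.le).trans h5)
        have h3 := off96 (B := C * ((2 + R) * N ^ (1 - c))) (T := 2 * N ^ 4) (a := r1 * N)
          (b := r2 * N) (fun i h hh hhT α S hS => by
            have h4 := H i (2 * N ^ 4) h D.K α ((D.K : ℝ) ^ 2 * ((2 + R) * N)) (r1 * N) (r2 * N) S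
              hT1 hhT D.Kpos hY1 (by positivity) (by gcongr) hY2 hS
            rw [if_neg hh, sub_zero] at h4
            refine h4.trans (mul_le_mul_of_nonneg_left ?_ hC.le)
            rw [mul_div_cancel_left₀ _ hKK0.ne', Real.mul_rpow (by linarith) hN0.le]
            refine mul_le_mul_of_nonneg_right ?_ hNc
            calc (2 + R) ^ (1 - c) ≤ (2 + R) ^ (1 : ℝ) :=
                  Real.rpow_le_rpow_of_exponent_le (by linarith) (by linarith)
              _ = 2 + R := Real.rpow_one _)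
          w w' (Ne.symm hj) (by
            push_cast
            have h5 := (abs_sub (w.1 : ℝ) w'.1).trans (add_le_add (hUs w hw) (hUs w' hw'))
            linarith)
        refine h3.trans (le_of_eq ?_)
        rw [hC']
        ring
    refine (Finset.sum_le_sum h1).trans ?_
    rw [Finset.sum_add_distrib, Finset.sum_const, nsmul_eq_mul, ← Finset.sum_filter,
      Finset.sum_const, nsmul_eq_mul]
    have h2 := card_fib96 U w.1
    have h3 : ((U.filter (fun w' => w'.1 = w.1)).card : ℝ) * (M0 * N) ≤ n0 * kk * (M0 * N) :=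
      mul_le_mul_of_nonneg_right h2 (by positivity)
    have h4 : (U.card : ℝ) * (C' * N ^ (1 - c)) ≤ C' * N := by
      calc (U.card : ℝ) * (C' * N ^ (1 - c)) ≤ N ^ c * (C' * N ^ (1 - c)) :=
            mul_le_mul_of_nonneg_right hU (by positivity)
        _ = C' * (N ^ c * N ^ (1 - c)) := by ring
        _ = C' * N := by
            rw [← Real.rpow_add hN0]
            norm_num
    calc _ ≤ n0 * kk * (M0 * N) + C' * N := add_le_add h3 h4
      _ = _ := by ring
  have h := MRS.hm_96 Sg U (fun _ => 1) (fun _ _ => zero_le_one)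
    (fun w x => ch w x.1 x.2) (fun x => a x.1 x.2) ((n0 * kk * M0 + C') * N) (by positivity) hG
  have h1 : ∀ w ∈ U, ‖(1 / (N : ℂ)) * ∑ i, ∑ v ∈ Shg i (r1 * N) (r2 * N), a i v * ch w i v‖ ^ 2 =
      (1 / N) ^ 2 * ‖∑ x ∈ Sg, (((fun _ => 1) x : ℝ) : ℂ) * a x.1 x.2 * ch w x.1 x.2‖ ^ 2 := by
    intro w _
    rw [norm_mul, mul_pow]
    congr 1
    · rw [norm_div, norm_one, Complex.norm_real, Real.norm_of_nonneg hN0.le]
    · congr 2
      rw [hSg, Finset.sum_sigma]
      refine Finset.sum_congr rfl fun i _ => Finset.sum_congr rfl fun v _ => ?_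
      simp
  rw [Finset.sum_congr rfl h1, ← Finset.mul_sum]
  have h2 : ∑ x ∈ Sg, ((fun _ => 1) x : ℝ) * ‖a x.1 x.2‖ ^ 2 ≤ M0 * N := by
    calc ∑ x ∈ Sg, ((fun _ => 1) x : ℝ) * ‖a x.1 x.2‖ ^ 2 ≤ ∑ x ∈ Sg, (1 : ℝ) := by
          refine Finset.sum_le_sum fun x _ => ?_
          have h3 : ‖a x.1 x.2‖ ^ 2 ≤ 1 := pow_le_one₀ (norm_nonneg _) (ha x.1 x.2)
          simpa using h3
      _ = (Sg.card : ℝ) := by simp
      _ ≤ M0 * N := hcard
  calc (1 / N) ^ 2 * ∑ w ∈ U, ‖∑ x ∈ Sg, (((fun _ => 1) x : ℝ) : ℂ) * a x.1 x.2 *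
        ch w x.1 x.2‖ ^ 2
      ≤ (1 / N) ^ 2 * ((M0 * N) * ((n0 * kk * M0 + C') * N)) := by
        refine mul_le_mul_of_nonneg_left (h.trans ?_) (by positivity)
        exact mul_le_mul_of_nonneg_right h2 (by positivity)
    _ = M0 * (n0 * kk * M0 + C') := by field_simp
    _ ≤ M0 * (n0 * kk * M0 + C') + 1 := by linarith

end Pool.Agent.Lib.MP_a17b09_nt.MRH
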