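import Pool.Agent.Lib.MP_a17b09_nt.MRH.Stmts79
import Pool.Agent.Lib.MP_a17b09_nt.MRS.LevAbs38

/-!
MRH, levels (helper38): `StLevG` from `StDecG`, `StMomG`, `StMom1G`, `StMerG` and the schedule.
-/

set_option autoImplicit false

open Filter Topology Finset

namespace Pool.Agent.Lib.MP_a17b09_nt.MRH

open Pool.Agent.Lib.MP_a17b09_nt.CH

theorem stLevG_38 (hSch : MRS.StSch) (D : Dat) (hDec : StDecG D) (hMom : StMomG D)
    (hMom1 : StMom1G D) (hMer : StMerG D) : StLevG D := by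
  intro z hz r1 r2 h1 h2
  obtain ⟨κ, C, hκ, hC, hM⟩ := hMer
  intro ε c hε hc
  obtain ⟨H0, hH0, hh⟩ := MRS.LevAbs.lev_abs hSch (SJ D) (fun N w => Mpg z r1 r2 N w)
    (fun h u w => Qsg z h u w) (LLg D) r1 κ h1 hκ (hDec z hz r1 r2 h1 h2)
    (hMom z hz r1 r2 h1 h2) (hMom1 z hz) ⟨C, hC, hM⟩ ε c hε hc
  refine ⟨H0, hH0, fun H hH => ?_⟩
  obtain ⟨N0, h2⟩ := hh H hH
  refine ⟨N0, fun N hN => ?_⟩
  obtain ⟨U, hU1, hU2, hU3⟩ := h2 N hN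
  refine ⟨U, hU1, hU2, le_trans (le_of_eq ?_) hU3⟩
  refine Finset.sum_congr ?_ fun _ _ => rfl
  ext w
  simp only [Finset.mem_sdiff]

end Pool.Agent.Lib.MP_a17b09_nt.MRH
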