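import Pool.Agent.Lib.MP_a17b09_nt.MRH.Stmts79

/-!
MRH, LIP: the normalized sums over the balls of the sector vary slowly, uniformly in the frequency.
-/

set_option autoImplicit false

open Finset

namespace Pool.Agent.Lib.MP_a17b09_nt.MRH

open CH CH.PE HY HY.S68

namespace Lip42

/-- the weight has absolute value one -/
theorem norm_gz42 {z : ℂ} (hz : ‖z‖ = 1) (Q : Form) (v : V) : ‖gz z Q v‖ = 1 := by
  unfold gz
  rw [norm_pow, hz, one_pow]

variable {D : Dat}

/-- the number of vectors of the sector with `a < Q v ≤ b` -/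
theorem card_sec (D : Dat) : ∃ (A : ℝ) (C : Cx D → ℝ), 0 < A ∧ (∀ i, 0 < C i) ∧
    (∀ (i : Cx D) (b : ℝ), 0 ≤ b → ((Shg i 0 b).card : ℝ) ≤ A * b + C i * (√b + 1)) ∧
    (∀ (i : Cx D) (a b : ℝ), 0 ≤ a → a ≤ b →
      ((Shg i a b).card : ℝ) ≤ A * (b - a) + 2 * C i * (√b + 1)) := by
  classical
  have h := fun i : Cx D => CntH84.cnt (rp_hyp i) D.T_pos
  choose C hC hc using h
  have hd : (0 : ℝ) < D.d := by exact_mod_cast D.d_pos
  have key : ∀ (i : Cx D) (a b : ℝ), 0 ≤ a → a ≤ b →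
      ((Shg i a b).card : ℝ) ≤ ((CntH84.SS (rp i) D.T b).ncard : ℝ) -
        (CntH84.SS (rp i) D.T a).ncard := by
    intro i a b ha hab
    obtain ⟨hfb, -⟩ := hc i b (ha.trans hab)
    obtain ⟨hfa, -⟩ := hc i a ha
    have hsub : CntH84.SS (rp i) D.T a ⊆ CntH84.SS (rp i) D.T b := by
      rintro v ⟨h1, h2⟩
      exact ⟨h1, h2.trans hab⟩
    have h1 : ((Shg i a b : Finset V) : Set V) ⊆
        CntH84.SS (rp i) D.T b \ CntH84.SS (rp i) D.T a := by
      intro v hv
      obtain ⟨h1, h2, h3⟩ := mem_Shg.1 (Finset.mem_coe.1 hv)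
      exact ⟨⟨h1, h3⟩, fun h4 => not_lt.2 h4.2 h2⟩
    have h2 := Set.ncard_le_ncard h1 (hfb.subset Set.diff_subset)
    rw [Set.ncard_coe_finset] at h2
    have h3 := Set.ncard_sdiff_add_ncard_of_subset hsub hfb
    have h4 : ((CntH84.SS (rp i) D.T b \ CntH84.SS (rp i) D.T a).ncard : ℝ) +
        (CntH84.SS (rp i) D.T a).ncard = (CntH84.SS (rp i) D.T b).ncard := by
      exact_mod_cast h3
    have h5 : ((Shg i a b).card : ℝ) ≤
        (CntH84.SS (rp i) D.T b \ CntH84.SS (rp i) D.T a).ncard := by exact_mod_cast h2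
    linarith
  refine ⟨D.T / √(D.d : ℝ), C, div_pos D.T_pos (Real.sqrt_pos.2 hd), hC, ?_, ?_⟩
  · intro i b hb
    have h1 := key i 0 b le_rfl hb
    obtain ⟨-, h2⟩ := hc i b hb
    have h3 := (abs_le.1 h2).2
    have h4 : (0 : ℝ) ≤ (CntH84.SS (rp i) D.T 0).ncard := Nat.cast_nonneg _
    linarith
  · intro i a b ha hab
    have h1 := key i a b ha hab
    have h2 := (abs_le.1 (hc i b (ha.trans hab)).2).2
    have h3 := (abs_le.1 (hc i a ha).2).1
    have h4 : √a ≤ √b := Real.sqrt_le_sqrt hab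
    have h5 := mul_le_mul_of_nonneg_left h4 (hC i).le
    nlinarith

/-- the unnormalized sum over the ball -/
noncomputable def TT (z : ℂ) (x : ℝ) (w : Fq D) : ℂ :=
  ∑ i, ∑ v ∈ Shg i 0 x, gz z (rp i) v * ch w i v

theorem Mag_eq (z : ℂ) (x : ℝ) (w : Fq D) : Mag z 0 1 x w = (1 / (x : ℂ)) * TT z x w := by
  unfold Mag TT
  rw [zero_mul, one_mul]

theorem term_le {z : ℂ} (hz : ‖z‖ = 1) (w : Fq D) (i : Cx D) (v : V) :
    ‖gz z (rp i) v * ch w i v‖ ≤ 1 := by
  rw [norm_mul, norm_gz42 hz, one_mul]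
  exact norm_ch_le w i v

theorem sum_le {z : ℂ} (hz : ‖z‖ = 1) (w : Fq D) (i : Cx D) (S : Finset V) :
    ‖∑ v ∈ S, gz z (rp i) v * ch w i v‖ ≤ S.card := by
  refine (norm_sum_le _ _).trans ?_
  refine le_trans (Finset.sum_le_sum fun v _ => term_le hz w i v) ?_
  rw [Finset.sum_const, nsmul_eq_mul, mul_one]

theorem TT_sub (z : ℂ) (w : Fq D) {x y : ℝ} (hxy : x ≤ y) :
    TT z y w - TT z x w = ∑ i, ∑ v ∈ Shg i 0 y \ Shg i 0 x, gz z (rp i) v * ch w i v := by
  classical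
  unfold TT
  rw [← Finset.sum_sub_distrib]
  refine Finset.sum_congr rfl fun i _ => ?_
  have hsub : Shg i 0 x ⊆ Shg i 0 y := by
    intro v hv
    obtain ⟨h1, h2, h3⟩ := mem_Shg.1 hv
    exact mem_Shg.2 ⟨h1, h2, h3.trans hxy⟩
  rw [← Finset.sum_sdiff hsub, add_sub_cancel_right]

end Lip42

open Lip42 in
theorem stLipG_42 (D : Dat) : StLipG D := by
  classical
  intro z hz
  obtain ⟨A, C, hA, hC, hb1, hb2⟩ := card_sec D
  obtain ⟨H, hH⟩ : ∃ H : ℝ, H = ((Fintype.card (Cx D) : ℕ) : ℝ) := ⟨_, rfl⟩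
  have hH0 : 0 ≤ H := by rw [hH]; exact Nat.cast_nonneg _
  obtain ⟨B, hB⟩ : ∃ B : ℝ, B = ∑ i, C i := ⟨_, rfl⟩
  have hB0 : 0 ≤ B := by rw [hB]; exact Finset.sum_nonneg fun i _ => (hC i).le
  refine ⟨2 * H * A + 4 * B + 1, by positivity, ?_⟩
  intro w x y hx hxy
  have hx0 : 0 < x := by linarith
  have hy0 : 0 < y := by linarith
  have hy1 : 1 ≤ y := by linarith
  have h1 : ‖TT z x w‖ ≤ H * (A * x) + B * (√x + 1) := by
    unfold TT
    refine (norm_sum_le _ _).trans ?_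
    calc ∑ i : Cx D, ‖∑ v ∈ Shg i 0 x, gz z (rp i) v * ch w i v‖
        ≤ ∑ i : Cx D, (A * x + C i * (√x + 1)) :=
          Finset.sum_le_sum fun i _ => (sum_le hz w i _).trans (hb1 i x hx0.le)
      _ = _ := by
          rw [Finset.sum_add_distrib, Finset.sum_const, Finset.card_univ, nsmul_eq_mul, ← hH,
            ← Finset.sum_mul, ← hB]
  have h2 : ‖TT z y w - TT z x w‖ ≤ H * (A * (y - x)) + 2 * B * (√y + 1) := by
    rw [TT_sub z w hxy]
    refine (norm_sum_le _ _).trans ?_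
    calc ∑ i : Cx D, ‖∑ v ∈ Shg i 0 y \ Shg i 0 x, gz z (rp i) v * ch w i v‖
        ≤ ∑ i : Cx D, (A * (y - x) + 2 * C i * (√y + 1)) := by
          refine Finset.sum_le_sum fun i _ => (sum_le hz w i _).trans ?_
          have h3 : Shg i 0 y \ Shg i 0 x ⊆ Shg i x y := by
            intro v hv
            obtain ⟨h1, h2⟩ := Finset.mem_sdiff.1 hv
            obtain ⟨h3, h4, h5⟩ := mem_Shg.1 h1
            refine mem_Shg.2 ⟨h3, ?_, h5⟩
            by_contra hcon
            exact h2 (mem_Shg.2 ⟨h3, h4, not_lt.1 hcon⟩)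
          have h4 : ((Shg i 0 y \ Shg i 0 x).card : ℝ) ≤ (Shg i x y).card := by
            exact_mod_cast Finset.card_le_card h3
          exact h4.trans (hb2 i x y hx0.le hxy)
      _ = _ := by
          rw [Finset.sum_add_distrib, Finset.sum_const, Finset.card_univ, nsmul_eq_mul, ← hH,
            ← Finset.sum_mul, ← Finset.mul_sum, ← hB]
  rw [Mag_eq, Mag_eq]
  have e : (1 / (x : ℂ)) * TT z x w - (1 / (y : ℂ)) * TT z y w =
      (((1 / x - 1 / y : ℝ)) : ℂ) * TT z x w - ((1 / y : ℝ) : ℂ) * (TT z y w - TT z x w) := by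
    push_cast
    ring
  have hxy' : 1 / y ≤ 1 / x := one_div_le_one_div_of_le hx0 hxy
  have hlog : 1 - x / y ≤ Real.log (y / x) := by
    have h3 := Real.one_sub_inv_le_log_of_pos (div_pos hy0 hx0)
    rwa [inv_div] at h3
  have hl1 : 0 ≤ 1 - x / y := by
    rw [sub_nonneg, div_le_one hy0]
    exact hxy
  have hsq : √x * √x = x := Real.mul_self_sqrt hx0.le
  have hsy : √y * √y = y := Real.mul_self_sqrt hy0.le
  have hsx1 : 1 ≤ √x := Real.one_le_sqrt.2 hx
  have hsy1 : 1 ≤ √y := Real.one_le_sqrt.2 hy1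
  have hsxy : √x ≤ √y := Real.sqrt_le_sqrt hxy
  have hsx2 : √x + 1 ≤ 2 * x := by nlinarith
  have ha : √y / y ≤ 1 / √x := by
    rw [div_le_div_iff₀ hy0 (by linarith)]
    nlinarith
  have hb : 1 / y ≤ 1 / √x := by
    apply one_div_le_one_div_of_le (by linarith)
    nlinarith
  have h1' : ‖TT z x w‖ ≤ (H * A + 2 * B) * x := by
    have := mul_le_mul_of_nonneg_left hsx2 hB0
    linarith
  rw [e]
  calc ‖(((1 / x - 1 / y : ℝ)) : ℂ) * TT z x w - ((1 / y : ℝ) : ℂ) * (TT z y w - TT z x w)‖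
      ≤ (1 / x - 1 / y) * ((H * A + 2 * B) * x) +
          (1 / y) * (H * (A * (y - x)) + 2 * B * (√y + 1)) := by
        refine (norm_sub_le _ _).trans ?_
        rw [norm_mul, norm_mul, Complex.norm_real, Complex.norm_real,
          Real.norm_of_nonneg (by linarith), Real.norm_of_nonneg (by positivity)]
        exact add_le_add (mul_le_mul_of_nonneg_left h1' (by linarith))
          (mul_le_mul_of_nonneg_left h2 (by positivity))
    _ = (2 * H * A + 2 * B) * (1 - x / y) + 2 * B * (√y / y) + 2 * B * (1 / y) := by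
        field_simp
        ring
    _ ≤ (2 * H * A + 2 * B) * Real.log (y / x) + 2 * B * (1 / √x) + 2 * B * (1 / √x) := by
        refine add_le_add (add_le_add ?_ ?_) ?_
        · exact mul_le_mul_of_nonneg_left hlog (by positivity)
        · exact mul_le_mul_of_nonneg_left ha (by positivity)
        · exact mul_le_mul_of_nonneg_left hb (by positivity)
    _ ≤ (2 * H * A + 4 * B + 1) * (Real.log (y / x) + 1 / √x) := by
        have hl0 : 0 ≤ Real.log (y / x) := hl1.trans hlog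
        have hp : 0 ≤ 1 / √x := by positivity
        have hHA : 0 ≤ H * A := mul_nonneg hH0 hA.le
        nlinarith [mul_nonneg hB0 hl0, mul_nonneg hB0 hp, mul_nonneg hHA hl0, mul_nonneg hHA hp]

end Pool.Agent.Lib.MP_a17b09_nt.MRH
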