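import Pool.Agent.Lib.MP_a17b09_nt.MRH.Stmts79
import Pool.Agent.Lib.MP_a17b09_nt.MRSG.SplG7

/-!
Project MRH, modules MER and CHEB: the sum of `1/p` over the primes `P = (p, ±)` is
`log (log b / log a) + O(1)`, positive discriminant.
-/

set_option autoImplicit false

open Filter Topology Finset

namespace Pool.Agent.Lib.MP_a17b09_nt.MRH

open MRSG.Spl7

namespace MerH7

/-- `p` is split -/
def Sp7 (D : Dat) (p : ℕ) : Prop := Adm D (p, true)

theorem adm_iff (D : Dat) (P : ℕ × Bool) : Adm D P ↔ Sp7 D P.1 := Iff.rfl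

open Classical in
/-- the sum over the primes `P` as a sum over the primes `p` -/
theorem LLg_eq (D : Dat) {a b : ℝ} (ha : 2 ≤ a) (hab : a ≤ b) :
    LLg D a b = ∑ p ∈ PR7 a b, if Sp7 D p then (2 : ℝ) / p else 0 := by
  have h1 : slg D a b = ((PR7 a b).filter (fun p => Sp7 D p)) ×ˢ (Finset.univ : Finset Bool) := by
    ext P
    rw [mem_slg, Finset.mem_product, Finset.mem_filter, mem_PR7 ha hab]
    constructor
    · rintro ⟨h2, h3, h4⟩
      exact ⟨⟨⟨h2.prime, h3, h4⟩, h2⟩, Finset.mem_univ _⟩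
    · rintro ⟨⟨⟨-, h3, h4⟩, h2⟩, -⟩
      exact ⟨h2, h3, h4⟩
  unfold LLg
  rw [h1, Finset.sum_product, ← Finset.sum_filter]
  refine Finset.sum_congr rfl fun p _ => ?_
  rw [Fintype.sum_bool]
  ring

theorem nsZ (D : Dat) : ¬ IsSquare (D.d : ℤ) := by
  rintro ⟨r, hr⟩
  apply D.ns
  refine ⟨r.natAbs, ?_⟩
  have : ((r.natAbs * r.natAbs : ℕ) : ℤ) = r * r := Int.natAbs_mul_self
  have h2 : (D.d : ℤ) = ((r.natAbs * r.natAbs : ℕ) : ℤ) := by rw [this]; exact hr
  exact_mod_cast h2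

/-- two sided: the sum over `P` is `log (log b / log a) + O(1)` -/
theorem LLg_two (D : Dat) : ∃ C : ℝ, 0 < C ∧ ∀ a b : ℝ, 2 ≤ a → a ≤ b →
    |LLg D a b - Real.log (Real.log b / Real.log a)| ≤ C := by
  classical
  have hm0 : 2 * D.d * D.K ≠ 0 := by
    have := D.d_pos
    have := D.Kpos
    positivity
  obtain ⟨C, hC, h⟩ := two_gen (D.d : ℤ) (nsZ D) (2 * D.d * D.K) hm0
    (by
      intro p _ h2
      rw [Int.natAbs_natCast] at h2
      exact Dvd.dvd.mul_right h2 _) (Sp7 D)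
    (by
      intro p hp hn
      have h1 : ¬ (p : ℤ) ∣ (D.d : ℤ) := by
        intro h2
        apply hn
        have h3 : p ∣ D.d := by exact_mod_cast h2
        exact Dvd.dvd.mul_right (Dvd.dvd.mul_left h3 2) _
      rw [← root_iff (D.d : ℤ) p hp h1]
      exact ⟨fun h2 => h2.2.2, fun h2 => ⟨hp, hn, h2⟩⟩)
    (fun p _ h2 => h2.2.1)
  refine ⟨C, hC, fun a b ha hab => ?_⟩
  rw [LLg_eq D ha hab]
  exact h a b ha hab

end MerH7

open MerH7

/-- MER -/
theorem stMerG_7 (D : Dat) : StMerG D := by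
  obtain ⟨C, hC, h⟩ := LLg_two D
  refine ⟨1, C, one_pos, hC, fun a b ha hab => ?_⟩
  have := (abs_le.1 (h a b ha hab)).1
  linarith

/-- CHEB -/
theorem stChebG_7 (D : Dat) : StChebG D := by
  classical
  obtain ⟨C, hC, h⟩ := LLg_two D
  have hl4 : 0 < Real.log 4 := Real.log_pos (by norm_num)
  refine ⟨C + 4 * Real.log 4, by positivity, ?_, fun a b ha hab => ?_⟩
  · intro y hy
    have hl : 0 < Real.log y := Real.log_pos (by linarith)
    have hyy : y ≤ 2 * y := by linarith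
    have h1 := cheb_gen (Sp7 D) y hy
    rw [LLg_eq D hy hyy]
    have h3 : 4 * Real.log 4 / Real.log y ≤ (C + 4 * Real.log 4) / Real.log y :=
      div_le_div_of_nonneg_right (by linarith) hl.le
    exact le_trans (le_of_eq (Finset.sum_congr rfl fun p _ => by congr)) (h1.trans h3)
  · have h1 := (abs_le.1 (h a b ha hab)).2
    have hla : 0 < Real.log a := Real.log_pos (by linarith)
    have h2 : 0 ≤ Real.log (Real.log b / Real.log a) := by
      apply Real.log_nonneg
      rw [le_div_iff₀ hla, one_mul]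
      exact Real.log_le_log (by linarith) hab
    linarith

end Pool.Agent.Lib.MP_a17b09_nt.MRH
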