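import Pool.Agent.Lib.MP_a17b09_nt.MRH.StrD17
import Pool.Agent.Lib.MP_a17b09_nt.MRSG.MomG16

/-!
MRH (positive discriminant), moments (MOM, MOM1), helper16: the instance of `MRS/MomAbs16` for the
classes of forms, vectors of the sector.
-/

set_option autoImplicit false

open Finset

namespace Pool.Agent.Lib.MP_a17b09_nt.MRH

open CH CH.PE HY HY.S68
open MRSG (eig_iff eig_both app_inj app_ne eig_smul)

section inst

variable {D : Dat}

/-- the count in the sector -/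
theorem cnt16 (i : Cx D) : ∃ C : ℝ, 0 ≤ C ∧ ∀ (U : Finset V) (T : ℝ), 0 ≤ T →
    (∀ u ∈ U, Sec (rp i) D.T u ∧ ((rp i).q u : ℝ) ≤ T) → (U.card : ℝ) ≤ C * T := by
  classical
  obtain ⟨C, hC, h⟩ := CntH84.cnt (rp_hyp i) D.T_pos
  have hT := D.T_pos
  refine ⟨D.T / √(D.d : ℝ) + 2 * C, by positivity, ?_⟩
  intro U n hn hU
  rcases lt_or_ge n 1 with h1 | h1
  · have hE : U = ∅ := by
      apply Finset.eq_empty_of_forall_notMem
      intro u hu
      obtain ⟨h2, h3⟩ := hU u hu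
      have h4 : (1 : ℤ) ≤ (rp i).q u := h2.1.q_pos (rp_hyp i)
      have h5 : (1 : ℝ) ≤ (rp i).q u := by exact_mod_cast h4
      linarith
    rw [hE, Finset.card_empty]
    have : 0 ≤ (D.T / √(D.d : ℝ) + 2 * C) * n := by positivity
    simpa using this
  · obtain ⟨h2, h3⟩ := h n hn
    have h4 : (U.card : ℝ) ≤ ((CntH84.SS (rp i) D.T n).ncard : ℝ) := by
      have h5 : (U : Set V) ⊆ CntH84.SS (rp i) D.T n := fun u hu => hU u hu
      have h6 := Set.ncard_le_ncard h5 h2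
      rw [Set.ncard_coe_finset] at h6
      exact_mod_cast h6
    have h5 := (abs_le.1 h3).2
    have h6 : √n ≤ n := by
      rw [Real.sqrt_le_left hn]
      nlinarith
    have h7 : C * (√n + 1) ≤ 2 * C * n := by nlinarith
    linarith

/-- the constant of the count -/
noncomputable def cC16 (i : Cx D) : ℝ := (cnt16 i).choose

theorem cC16_nonneg (i : Cx D) : 0 ≤ cC16 i := (cnt16 i).choose_spec.1

theorem cC16_spec (i : Cx D) (U : Finset V) (T : ℝ) (hT : 0 ≤ T)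
    (hU : ∀ u ∈ U, Sec (rp i) D.T u ∧ ((rp i).q u : ℝ) ≤ T) : (U.card : ℝ) ≤ cC16 i * T :=
  (cnt16 i).choose_spec.2 U T hT hU

/-- the system of the classes of forms -/
noncomputable def MH (D : Dat) : MRS16a.MSys (Cx D × V) (ℕ × Bool) where
  Val x := Sec (rp x.1) D.T x.2
  p P := P.1
  m P x := ((sg D P).symm x.1, rd (rp ((sg D P).symm x.1)) D.a
    ((Mg D P ((sg D P).symm x.1)).app x.2))
  q x := ((rp x.1).q x.2 : ℝ)
  g x := Int.gcd x.2.1 x.2.2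
  pr x := (x.1, MRS19.pr x.2)
  C0 := ∑ i : Cx D, cC16 i

theorem relm {P : ℕ × Bool} (h : Adm D P) (i' : Cx D) :
    Rel P.1 (rg D P) (rp ((sg D P).symm i')) (rp i') (Mg D P ((sg D P).symm i')) := by
  have := (rel_g h ((sg D P).symm i')).2
  rwa [Equiv.apply_symm_apply] at this

theorem cnm {P : ℕ × Bool} (h : Adm D P) (i' : Cx D) (u : V) :
    Cn (rp ((sg D P).symm i')) ((Mg D P ((sg D P).symm i')).app u) ↔ Cn (rp i') u := by
  have := cn_M h ((sg D P).symm i') u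
  rwa [Equiv.apply_symm_apply] at this

/-- eigenvectors are invariant under the automorphs of the period -/
theorem eig_rd16 {P : ℕ × Bool} (h : Adm D P) (i : Cx D) (v : V) :
    Eig P.1 (rg D P) (rp i) (rd (rp i) D.a v) ↔ Eig P.1 (rg D P) (rp i) v := by
  obtain ⟨-, R⟩ := rel_g h i
  rw [adm_eig_iff h i, adm_eig_iff h i]
  exact im_rd (rp_hyp i) (rp_hyp (sg D P i)) h.1.pos R.det R.sim (cn_M h i) v

/-- divisibility is the eigenvector condition -/
theorem D_iff16 {P : ℕ × Bool} (h : Adm D P) (x : Cx D × V) (hx : Sec (rp x.1) D.T x.2) :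
    (MH D).D P x ↔ Eig P.1 (rg D P) (rp x.1) x.2 := by
  obtain ⟨-, R⟩ := rel_g h x.1
  rw [adm_eig_iff h x.1,
    im_sec (rp_hyp x.1) (rp_hyp (sg D P x.1)) D.ha h.1.pos R.det R.sim (cn_M h x.1) hx]
  constructor
  · rintro ⟨y, hy, hxy⟩
    have h1 : x = ((sg D P).symm y.1, rd (rp ((sg D P).symm y.1)) D.a
      ((Mg D P ((sg D P).symm y.1)).app y.2)) := hxy
    refine ⟨y.2, ?_, ?_⟩
    · have h2 : sg D P x.1 = y.1 := by rw [h1]; exact Equiv.apply_symm_apply _ _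
      rw [h2]; exact hy
    · rw [h1]
  · rintro ⟨w, hw, hxw⟩
    refine ⟨(sg D P x.1, w), hw, ?_⟩
    show x = ((sg D P).symm (sg D P x.1), rd (rp ((sg D P).symm (sg D P x.1))) D.a
      ((Mg D P ((sg D P).symm (sg D P x.1))).app w))
    rw [Equiv.symm_apply_apply, hxw]

theorem app_dvd_iff16 {P : ℕ × Bool} (h : Adm D P) (i' : Cx D) {w : V} :
    Eig P.1 (-rg D P) (rp i') w ↔
      (P.1 : ℤ) ∣ ((Mg D P ((sg D P).symm i')).app w).1 ∧
      (P.1 : ℤ) ∣ ((Mg D P ((sg D P).symm i')).app w).2 := by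
  have R := relm h i'
  have hp : Prime (P.1 : ℤ) := Nat.prime_iff_prime_int.1 h.1
  have hr := (rel_g h i').1
  have hdet := R.det
  have hRi := R.inv hp.ne_zero
  rw [eig_iff hp (neg_nd hr) hRi]
  constructor
  · rintro ⟨u, rfl⟩
    rw [Mat.app_adj, hdet]
    exact ⟨⟨u.1, by simp⟩, ⟨u.2, by simp⟩⟩
  · rintro ⟨⟨a, ha⟩, ⟨b, hb⟩⟩
    refine ⟨(a, b), ?_⟩
    apply app_inj (det_ne h ((sg D P).symm i'))
    rw [Mat.app_adj, hdet]
    apply Prod.ext
    · rw [ha]; simp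
    · rw [hb]; simp

theorem same_prime16 {P P' : ℕ × Bool} (hpp : P.1 = P'.1) (hne : P ≠ P') :
    rg D P' = -rg D P := by
  have hb : P.2 ≠ P'.2 := fun hb => hne (Prod.ext hpp hb)
  unfold rg
  rw [← hpp]
  cases h1 : P.2 <;> cases h2 : P'.2 <;> simp_all

theorem ne_of_sec16 {i : Cx D} {v : V} (h : Sec (rp i) D.T v) : v ≠ 0 := by
  rintro rfl
  have h1 := h.1.q_pos (rp_hyp i)
  have h2 : (rp i).q 0 = 0 := by unfold Form.q; simp
  omega

theorem sec_pr16 {i : Cx D} {v : V} (h : Sec (rp i) D.T v) : Sec (rp i) D.T (MRS19.pr v) := by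
  have h1 : v = (Int.gcd v.1 v.2 : ℤ) • MRS19.pr v := by
    obtain ⟨e1, e2⟩ := MRS19.eq_gcd_mul v
    exact Prod.ext e1 e2
  have h2 : (0 : ℤ) < (Int.gcd v.1 v.2 : ℤ) := by
    exact_mod_cast MRS19.gcd_pos (ne_of_sec16 h)
  rw [h1] at h
  exact (sec_smul (rp i) D.T h2 _).1 h

theorem gcd_rd16 (i : Cx D) (v : V) :
    Int.gcd (rd (rp i) D.a v).1 (rd (rp i) D.a v).2 = Int.gcd v.1 v.2 := gcd_act (rp_hyp i) _ v

theorem ax16 (Pi : Finset (ℕ × Bool)) (hPi : ∀ P ∈ Pi, Adm D P) : (MH D).Ax Pi where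
  qpos := by
    intro x hx
    have := hx.1.q_pos (rp_hyp x.1)
    show (0 : ℝ) < ((rp x.1).q x.2 : ℝ)
    exact_mod_cast this
  gpos := by
    intro x hx
    exact (MRS19.gcd_pos (ne_of_sec16 hx)).ne'
  prime := fun P hP => (hPi P hP).1
  two := by
    intro t _ r ht
    have h1 : t.card ≤ (Finset.univ : Finset Bool).card := by
      apply Finset.card_le_card_of_injOn (fun P => P.2) (fun _ _ => by simp)
      intro P hP P' hP' hE
      exact Prod.ext ((ht P hP).trans (ht P' hP').symm) hE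
    simpa using h1
  mval := by
    intro P hP x hx
    exact sec_rd (rp_hyp _) D.ha ((cnm (hPi P hP) x.1 _).2 hx.1)
  mq := by
    intro P hP x _
    have h1 := (relm (hPi P hP) x.1).sim x.2
    show ((rp ((sg D P).symm x.1)).q (rd (rp ((sg D P).symm x.1)) D.a
      ((Mg D P ((sg D P).symm x.1)).app x.2)) : ℝ) = (P.1 : ℝ) * ((rp x.1).q x.2 : ℝ)
    rw [q_rd (rp_hyp _), h1]; push_cast; rfl
  minj := by
    intro P hP x y hx hy hE
    have h1 : (sg D P).symm x.1 = (sg D P).symm y.1 := congrArg Prod.fst hE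
    have h2 : rd (rp ((sg D P).symm x.1)) D.a ((Mg D P ((sg D P).symm x.1)).app x.2) =
      rd (rp ((sg D P).symm y.1)) D.a ((Mg D P ((sg D P).symm y.1)).app y.2) :=
      congrArg Prod.snd hE
    have h3 : x.1 = y.1 := (sg D P).symm.injective h1
    rw [← h1] at h2
    have R := relm (hPi P hP) x.1
    have hy' : Sec (rp x.1) (per D.a) y.2 := by
      have : Sec (rp y.1) D.T y.2 := hy
      rw [← h3] at this
      exact this
    exact Prod.ext h3 (rd_app_inj (rp_hyp _) (rp_hyp x.1) D.ha (hPi P hP).1.pos R.det R.sim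
      (cnm (hPi P hP) x.1) hx hy' h2)
  dup := by
    intro P hP P' hP' x hx hD
    have hv : Sec (rp ((MH D).m P x).1) D.T ((MH D).m P x).2 :=
      sec_rd (rp_hyp _) D.ha ((cnm (hPi P hP) x.1 _).2 hx.1)
    rw [D_iff16 (hPi P' hP') _ hv]
    rw [D_iff16 (hPi P' hP') x hx] at hD
    show Eig P'.1 (rg D P') (rp ((sg D P).symm x.1)) (rd (rp ((sg D P).symm x.1)) D.a
      ((Mg D P ((sg D P).symm x.1)).app x.2))
    rw [eig_rd16 (hPi P' hP')]
    have R := relm (hPi P hP) x.1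
    by_cases hne : P = P'
    · rw [← hne]
      exact R.eig x.2
    · by_cases hpp : P.1 = P'.1
      · rw [same_prime16 hpp hne, ← hpp] at hD ⊢
        obtain ⟨h1, h2⟩ := (app_dvd_iff16 (hPi P hP) x.1).1 hD
        exact eig_smul h1 h2
      · have hco : IsCoprime (P.1 : ℤ) (P'.1 : ℤ) :=
          Nat.isCoprime_iff_coprime.mpr
            ((Nat.coprime_primes (hPi P hP).1 (hPi P' hP').1).mpr hpp)
        exact MRSG.Rel.eig_app hco R hD
  ddn := by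
    intro P hP P' hP' hne x hx hD
    have hv : Sec (rp ((MH D).m P x).1) D.T ((MH D).m P x).2 :=
      sec_rd (rp_hyp _) D.ha ((cnm (hPi P hP) x.1 _).2 hx.1)
    rw [D_iff16 (hPi P' hP') _ hv] at hD
    rw [D_iff16 (hPi P' hP') x hx]
    have hD1 : Eig P'.1 (rg D P') (rp ((sg D P).symm x.1)) (rd (rp ((sg D P).symm x.1)) D.a
      ((Mg D P ((sg D P).symm x.1)).app x.2)) := hD
    have hD' : Eig P'.1 (rg D P') (rp ((sg D P).symm x.1))
      ((Mg D P ((sg D P).symm x.1)).app x.2) := (eig_rd16 (hPi P' hP') _ _).1 hD1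
    have R := relm (hPi P hP) x.1
    by_cases hpp : P.1 = P'.1
    · rw [same_prime16 hpp hne, ← hpp] at hD' ⊢
      rw [app_dvd_iff16 (hPi P hP) x.1]
      have hp : Prime (P.1 : ℤ) := Nat.prime_iff_prime_int.1 (hPi P hP).1
      exact (eig_both hp (rel_g (hPi P hP) x.1).1).1 ⟨R.eig x.2, hD'⟩
    · have hco : IsCoprime (P.1 : ℤ) (P'.1 : ℤ) :=
        Nat.isCoprime_iff_coprime.mpr
          ((Nat.coprime_primes (hPi P hP).1 (hPi P' hP').1).mpr hpp)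
      intro w
      have h1 := hD' ((Mg D P ((sg D P).symm x.1)).app w)
      rw [R.polar, Mat.wd_app, R.det] at h1
      have h2 : (P.1 : ℤ) * (rp x.1).B w x.2 - rg D P' * ((P.1 : ℤ) * wd w x.2) =
          (P.1 : ℤ) * ((rp x.1).B w x.2 - rg D P' * wd w x.2) := by ring
      rw [h2] at h1
      exact hco.symm.dvd_of_dvd_mul_left h1
  c0 := Finset.sum_nonneg fun i _ => cC16_nonneg i
  cnt := by
    classical
    intro U T hT hU
    show (U.card : ℝ) ≤ (∑ i : Cx D, cC16 i) * T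
    have h1 : U.card = ∑ i : Cx D, (U.filter (fun x => x.1 = i)).card :=
      Finset.card_eq_sum_card_fiberwise (fun x _ => Finset.mem_univ _)
    have h2 : ∀ i : Cx D, ((U.filter (fun x => x.1 = i)).card : ℝ) ≤ cC16 i * T := by
      intro i
      have h3 : (U.filter (fun x => x.1 = i)).card =
          ((U.filter (fun x => x.1 = i)).image Prod.snd).card := by
        rw [Finset.card_image_of_injOn]
        intro x hx y hy hE
        exact Prod.ext ((Finset.mem_filter.1 hx).2.trans (Finset.mem_filter.1 hy).2.symm) hE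
      rw [h3]
      apply cC16_spec i _ T hT
      intro u hu
      obtain ⟨x, hx, rfl⟩ := Finset.mem_image.1 hu
      obtain ⟨hx1, hx2⟩ := Finset.mem_filter.1 hx
      have := hU x hx1
      rw [← hx2]
      exact this
    rw [h1]
    push_cast
    rw [Finset.sum_mul]
    exact Finset.sum_le_sum (fun i _ => h2 i)
  prval := by
    intro x hx
    exact sec_pr16 hx
  prq := by
    intro x _
    have h1 : x.2 = (Int.gcd x.2.1 x.2.2 : ℤ) • MRS19.pr x.2 := by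
      obtain ⟨e1, e2⟩ := MRS19.eq_gcd_mul x.2
      exact Prod.ext e1 e2
    have h2 := Form.q_smul (rp x.1) (Int.gcd x.2.1 x.2.2 : ℤ) (MRS19.pr x.2)
    rw [← h1] at h2
    show ((rp x.1).q x.2 : ℝ) = ((Int.gcd x.2.1 x.2.2 : ℕ) : ℝ) ^ 2 *
      ((rp x.1).q (MRS19.pr x.2) : ℝ)
    rw [h2]; push_cast; rfl
  prinj := by
    intro x y _ _ hg hpr
    have hpr' : ((x.1, MRS19.pr x.2) : Cx D × V) = (y.1, MRS19.pr y.2) := hpr
    obtain ⟨h1, h2⟩ := Prod.mk.inj hpr'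
    have h3 : Int.gcd x.2.1 x.2.2 = Int.gcd y.2.1 y.2.2 := hg
    obtain ⟨e1, e2⟩ := MRS19.eq_gcd_mul x.2
    obtain ⟨f1, f2⟩ := MRS19.eq_gcd_mul y.2
    rw [h2, h3] at e1 e2
    exact Prod.ext h1 (Prod.ext (e1.trans f1.symm) (e2.trans f2.symm))
  prd := by
    intro P hP x hx hD
    rw [D_iff16 (hPi P hP) x hx] at hD
    have hp : Prime (P.1 : ℤ) := Nat.prime_iff_prime_int.1 (hPi P hP).1
    have h1 : x.2 = (Int.gcd x.2.1 x.2.2 : ℤ) • MRS19.pr x.2 := by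
      obtain ⟨e1, e2⟩ := MRS19.eq_gcd_mul x.2
      exact Prod.ext e1 e2
    by_cases hpg : P.1 ∣ Int.gcd x.2.1 x.2.2
    · exact Or.inl hpg
    · right
      have hx' : Sec (rp ((MH D).pr x).1) D.T ((MH D).pr x).2 := sec_pr16 hx
      rw [D_iff16 (hPi P hP) _ hx']
      show Eig P.1 (rg D P) (rp x.1) (MRS19.pr x.2)
      intro w
      have h2 := hD w
      rw [h1, Form.B_smul_right, wd_smul_right] at h2
      have h3 : (Int.gcd x.2.1 x.2.2 : ℤ) * (rp x.1).B w (MRS19.pr x.2) -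
          rg D P * ((Int.gcd x.2.1 x.2.2 : ℤ) * wd w (MRS19.pr x.2)) =
          (Int.gcd x.2.1 x.2.2 : ℤ) * ((rp x.1).B w (MRS19.pr x.2) -
            rg D P * wd w (MRS19.pr x.2)) := by ring
      rw [h3] at h2
      rcases hp.dvd_or_dvd h2 with h4 | h4
      · exact absurd (Int.natCast_dvd_natCast.1 h4) hpg
      · exact h4
  gm := by
    intro P hP x _ r hr hrg
    have R := relm (hPi P hP) x.1
    set A := Mg D P ((sg D P).symm x.1) with hA
    have hadj : A.adj.app (A.app x.2) = (P.1 : ℤ) • x.2 := by rw [Mat.adj_app, R.det]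
    have hrg1 : r ∣ Int.gcd (rd (rp ((sg D P).symm x.1)) D.a (A.app x.2)).1
      (rd (rp ((sg D P).symm x.1)) D.a (A.app x.2)).2 := hrg
    have hrg' : r ∣ Int.gcd (A.app x.2).1 (A.app x.2).2 := by
      rwa [gcd_rd16] at hrg1
    have hri : Prime (r : ℤ) := Nat.prime_iff_prime_int.1 hr
    have h1 : (r : ℤ) ∣ (A.app x.2).1 :=
      (Int.natCast_dvd_natCast.mpr hrg').trans (Int.gcd_dvd_left _ _)
    have h2 : (r : ℤ) ∣ (A.app x.2).2 :=
      (Int.natCast_dvd_natCast.mpr hrg').trans (Int.gcd_dvd_right _ _)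
    have h3 := MRSG.Dec21.dvd_app A.adj (A.app x.2) r h1 h2
    rw [hadj] at h3
    have h4 : (r : ℤ) ∣ (P.1 : ℤ) * x.2.1 := h3.1
    have h5 : (r : ℤ) ∣ (P.1 : ℤ) * x.2.2 := h3.2
    by_cases h6 : (r : ℤ) ∣ (P.1 : ℤ)
    · left
      have h7 : r ∣ P.1 := Int.natCast_dvd_natCast.1 h6
      exact (Nat.prime_dvd_prime_iff_eq hr (hPi P hP).1).1 h7
    · right
      have h7 := (hri.dvd_or_dvd h4).resolve_left h6
      have h8 := (hri.dvd_or_dvd h5).resolve_left h6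
      exact Int.natCast_dvd_natCast.1 (Int.dvd_coe_gcd h7 h8)

end inst

/-! ### characters, large sieve -/

section chars

variable {D : Dat}

/-- the characters -/
noncomputable def chi16 (w : Fq D) (x : Cx D × V) : ℂ := ch w x.1 x.2

theorem chi_m16 {P : ℕ × Bool} (h : Adm D P) (w : Fq D) (x : Cx D × V)
    (hx : Sec (rp x.1) D.T x.2) :
    chi16 w ((MH D).m P x) = cw P w * chi16 w x := by
  show ch w ((sg D P).symm x.1) (rd (rp ((sg D P).symm x.1)) D.a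
    ((Mg D P ((sg D P).symm x.1)).app x.2)) = cw P w * ch w x.1 x.2
  rw [f_rd (rp_hyp _) D.ha (fun v hv => ch_act w _ hv) ((cnm h x.1 _).2 hx.1), ch_M h w _
    (by rw [Equiv.apply_symm_apply]; exact hx.1), Equiv.apply_symm_apply]

open Classical in
/-- sums over a finite set of pairs -/
theorem sum_pairs16 {E : Type*} [AddCommMonoid E] (S : Finset (Cx D × V)) (f : Cx D × V → E) :
    ∑ x ∈ S, f x = ∑ i, ∑ v ∈ ((S.filter (fun x => x.1 = i)).image Prod.snd), f (i, v) := by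
  classical
  rw [← Finset.sum_fiberwise S (fun x => x.1) f]
  refine Finset.sum_congr rfl fun i _ => ?_
  rw [Finset.sum_image]
  · refine Finset.sum_congr rfl fun x hx => ?_
    rw [← (Finset.mem_filter.1 hx).2]
  · intro x hx y hy hE
    exact Prod.ext ((Finset.mem_filter.1 hx).2.trans (Finset.mem_filter.1 hy).2.symm) hE

theorem lsa16 {C : ℝ} (hLS : ∀ (N B : ℝ) (J : ℕ), 1 ≤ N → 1 ≤ B →
    ∀ S : Cx D → Finset V, (∀ i, ∀ v ∈ S i, Sec (rp i) D.T v ∧ N ≤ (rp i).q v ∧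
      ((rp i).q v : ℝ) ≤ B * N) →
    ∀ a : Cx D → V → ℂ, ∑ w ∈ SJ D J, ‖∑ i, ∑ v ∈ S i, a i v * ch w i v‖ ^ 2 ≤
      C * B ^ 2 * ∑ i, ∑ v ∈ S i, ‖a i v‖ ^ 2 * (N + (J + 1) * Int.gcd v.1 v.2)) (J : ℕ) :
    MRS16a.LSA (MH D) (chi16 (D := D)) (SJ D J) (J : ℝ) C := by
  classical
  intro S N B a hN hB hS
  have h1 := hLS N B J hN hB (fun i => (S.filter (fun x => x.1 = i)).image Prod.snd) (by
    intro i v hv
    obtain ⟨x, hx, rfl⟩ := Finset.mem_image.1 hv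
    obtain ⟨hx1, hx2⟩ := Finset.mem_filter.1 hx
    have h2 := hS x hx1
    rw [← hx2]
    exact h2) (fun i v => a (i, v))
  have h2 : ∀ w : Fq D, ∑ x ∈ S, a x * chi16 w x =
      ∑ i, ∑ v ∈ ((S.filter (fun x => x.1 = i)).image Prod.snd), a (i, v) * ch w i v :=
    fun w => sum_pairs16 S (fun x => a x * chi16 w x)
  have h3 : ∑ x ∈ S, ‖a x‖ ^ 2 * (N + ((J : ℝ) + 1) * ((MH D).g x : ℝ)) =
      ∑ i, ∑ v ∈ ((S.filter (fun x => x.1 = i)).image Prod.snd),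
        ‖a (i, v)‖ ^ 2 * (N + ((J : ℝ) + 1) * Int.gcd v.1 v.2) :=
    sum_pairs16 S (fun x => ‖a x‖ ^ 2 * (N + ((J : ℝ) + 1) * ((MH D).g x : ℝ)))
  rw [h3]
  refine le_trans (le_of_eq ?_) h1
  refine Finset.sum_congr rfl fun w _ => ?_
  rw [h2 w]

end chars

/-! ### the two statements -/

section fin

variable {D : Dat}

theorem slice16 {h u : ℕ} (hh : 0 < h) (_hu : 3 * h ≤ u) :
    1 ≤ Real.exp ((u : ℝ) / h) ∧ 1 ≤ Real.exp (1 / (h : ℝ)) ∧
    Real.exp (1 / (h : ℝ)) ≤ Real.exp 1 ∧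
    (∀ P ∈ slg D (Real.exp ((u : ℝ) / h)) (Real.exp (((u : ℝ) + 1) / h)),
      Real.exp ((u : ℝ) / h) ≤ (P.1 : ℝ) ∧
        (P.1 : ℝ) ≤ Real.exp (1 / (h : ℝ)) * Real.exp ((u : ℝ) / h)) ∧
    ∑ P ∈ slg D (Real.exp ((u : ℝ) / h)) (Real.exp (((u : ℝ) + 1) / h)), 1 / (P.1 : ℝ) ≤ 8 := by
  classical
  have hhR : (0 : ℝ) < h := by exact_mod_cast hh
  have hh1 : (1 : ℝ) ≤ h := by exact_mod_cast hh
  have hu0 : (0 : ℝ) ≤ (u : ℝ) / h := by positivity
  have hZ1 := Real.one_le_exp hu0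
  set Z : ℝ := Real.exp ((u : ℝ) / h) with hZ
  have hB1 : 1 ≤ Real.exp (1 / (h : ℝ)) := Real.one_le_exp (by positivity)
  have hB1e : Real.exp (1 / (h : ℝ)) ≤ Real.exp 1 := by
    apply Real.exp_le_exp.2
    rw [div_le_iff₀ hhR, one_mul]
    exact hh1
  set B1 : ℝ := Real.exp (1 / (h : ℝ)) with hB1d
  have hPB : Real.exp (((u : ℝ) + 1) / h) = B1 * Z := by
    rw [hB1d, hZ, ← Real.exp_add]; congr 1; field_simp; ring
  rw [hPB]
  have hmem : ∀ P ∈ slg D Z (B1 * Z), Z ≤ (P.1 : ℝ) ∧ (P.1 : ℝ) ≤ B1 * Z := by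
    intro P hP
    have := mem_slg.1 hP
    exact ⟨this.2.1, this.2.2.le⟩
  refine ⟨hZ1, hB1, hB1e, hmem, ?_⟩
  have hZ0 : 0 < Z := by linarith
  have h1 : ∀ P ∈ slg D Z (B1 * Z), 1 / (P.1 : ℝ) ≤ 1 / Z := fun P hP =>
    one_div_le_one_div_of_le hZ0 (hmem P hP).1
  have h2 : ((slg D Z (B1 * Z)).card : ℝ) ≤ 2 * (B1 * Z + 1) := by
    have h3 : (slg D Z (B1 * Z)).card ≤
        ((Finset.range ⌈B1 * Z⌉₊) ×ˢ (Finset.univ : Finset Bool)).card := by
      apply Finset.card_le_card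
      unfold slg
      exact Finset.filter_subset _ _
    rw [Finset.card_product, Finset.card_range] at h3
    have h4 : (Finset.univ : Finset Bool).card = 2 := by simp
    rw [h4] at h3
    have h5 : (⌈B1 * Z⌉₊ : ℝ) ≤ B1 * Z + 1 := (Nat.ceil_lt_add_one (by positivity)).le
    have h6 : ((slg D Z (B1 * Z)).card : ℝ) ≤ (⌈B1 * Z⌉₊ : ℝ) * 2 := by exact_mod_cast h3
    linarith
  have h3 := Real.exp_one_lt_d9
  calc ∑ P ∈ slg D Z (B1 * Z), 1 / (P.1 : ℝ) ≤ ∑ _P ∈ slg D Z (B1 * Z), 1 / Z :=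
        Finset.sum_le_sum h1
    _ = (slg D Z (B1 * Z)).card * (1 / Z) := by rw [Finset.sum_const, nsmul_eq_mul]
    _ ≤ (2 * (B1 * Z + 1)) * (1 / Z) := mul_le_mul_of_nonneg_right h2 (by positivity)
    _ = 2 * B1 + 2 * (1 / Z) := by field_simp
    _ ≤ 8 := by
        have h7 : 1 / Z ≤ 1 := by rw [div_le_one hZ0]; exact hZ1
        nlinarith

/-- the common form of the two statements -/
theorem momG16 (hLS : StLsG D) : ∃ C : ℝ, 0 ≤ C ∧ ∀ (z : ℂ), ‖z‖ = 1 → ∀ (h u l J : ℕ)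
    (Y B2 : ℝ) (q1 : Finset ℕ) (S : Finset (Cx D × V)) (a : Cx D × V → ℂ), 0 < h → 3 * h ≤ u →
    1 ≤ Y → 1 ≤ B2 → (∀ r ∈ q1, r.Prime) →
    (∀ x ∈ S, Sec (rp x.1) D.T x.2 ∧ (∀ r : ℕ, r.Prime → r ∣ Int.gcd x.2.1 x.2.2 → r ∈ q1) ∧
      Y ≤ ((rp x.1).q x.2 : ℝ) ∧ ((rp x.1).q x.2 : ℝ) ≤ B2 * Y) → (∀ x ∈ S, ‖a x‖ ≤ 1) →
    (J : ℝ) ≤ Real.exp (l * (u / h)) * Y →
    ∑ w ∈ SJ D J, ‖Qsg z h u w ^ l * ((1 / (Y : ℂ)) * ∑ x ∈ S, a x * ch w x.1 x.2)‖ ^ 2 ≤
      (C * B2 ^ 3 * Real.exp (40 + 4 * q1.card) + Real.exp 3 * 484) ^ (l + 1) *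
        (l.factorial : ℝ) ^ 2 := by
  classical
  obtain ⟨C, hC, hLS⟩ := hLS
  have hc0 : 0 ≤ ∑ i : Cx D, cC16 i := Finset.sum_nonneg fun i _ => cC16_nonneg i
  refine ⟨4 * (∑ i : Cx D, cC16 i) * C, by positivity, ?_⟩
  intro z hz h u l J Y B2 q1 S a hh hu hY hB2 hq1 hS ha hJ
  obtain ⟨s1, s2, s3, s4, s5⟩ := slice16 (D := D) hh hu
  set Z : ℝ := Real.exp ((u : ℝ) / h) with hZ
  set B1 : ℝ := Real.exp (1 / (h : ℝ)) with hB1
  set Pi := slg D Z (Real.exp (((u : ℝ) + 1) / h)) with hPi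
  have hadm : ∀ P ∈ Pi, Adm D P := fun P hP => (mem_slg.1 hP).1
  set q : Finset ℕ := Pi.image Prod.fst ∪ q1 with hq
  have hqp : ∀ r ∈ q, r.Prime := by
    intro r hr
    rw [hq, Finset.mem_union] at hr
    rcases hr with hr | hr
    · obtain ⟨P, hP, rfl⟩ := Finset.mem_image.1 hr
      exact (hadm P hP).1
    · exact hq1 r hr
  have key := MRS16a.mom_abs (ax16 Pi hadm) (chi16 (D := D)) (fun w P => cw P w)
    (fun w P hP x hx => chi_m16 (hadm P hP) w x hx) (SJ D J) (J := (J : ℝ)) (C := C)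
    (Nat.cast_nonneg J) hC.le (lsa16 hLS J) q hqp
    (fun P hP => Finset.mem_union_left _ (Finset.mem_image_of_mem _ hP)) Z B1 Y B2 s1 hY s2 hB2 s4
    (fun _ => z) (fun _ _ => hz.le) S
    (by
      intro x hx
      obtain ⟨h1, h2, h3, h4⟩ := hS x hx
      exact ⟨h1, fun r hr hrg => Finset.mem_union_right _ (h2 r hr hrg), h3, h4⟩) a ha l
  have hQ : ∀ w : Fq D, ∑ P ∈ Pi, z / ((MH D).p P : ℂ) * cw P w = Qsg z h u w := by
    intro w
    unfold Qsg
    refine Finset.sum_congr rfl fun P _ => ?_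
    show z / (P.1 : ℂ) * cw P w = z * cw P w / (P.1 : ℂ)
    ring
  have hlhs : ∑ w ∈ SJ D J, ‖Qsg z h u w ^ l *
      ((1 / (Y : ℂ)) * ∑ x ∈ S, a x * ch w x.1 x.2)‖ ^ 2 =
      ∑ w ∈ SJ D J, ‖(∑ P ∈ Pi, z / ((MH D).p P : ℂ) * cw P w) ^ l *
        ((1 / (Y : ℂ)) * ∑ x ∈ S, a x * chi16 w x)‖ ^ 2 := by
    refine Finset.sum_congr rfl fun w _ => ?_
    rw [hQ w]
    rfl
  rw [hlhs]
  refine le_trans key ?_
  have hW : (0 : ℝ) < Z ^ l * Y := by positivity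
  have hJW : 1 + (J : ℝ) / (Z ^ l * Y) ≤ 2 := by
    have h1 : Real.exp (l * (u / h)) = Z ^ l := by rw [hZ, ← Real.exp_nat_mul]
    rw [h1] at hJ
    have h2 : (J : ℝ) / (Z ^ l * Y) ≤ 1 := by
      rw [div_le_one hW]; exact hJ
    linarith
  have hJ0 : 0 ≤ 1 + (J : ℝ) / (Z ^ l * Y) := by positivity
  have hE : Real.exp (∑ P ∈ Pi, 1 / ((MH D).p P : ℝ) + 4 * ∑ r ∈ q, 1 / (r : ℝ)) ≤
      Real.exp (40 + 4 * q1.card) := by
    apply Real.exp_le_exp.2
    have e1 : ∑ P ∈ Pi, 1 / ((MH D).p P : ℝ) ≤ 8 := s5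
    have e2 : ∑ r ∈ q, 1 / (r : ℝ) ≤ ∑ r ∈ Pi.image Prod.fst, 1 / (r : ℝ) +
        ∑ r ∈ q1, 1 / (r : ℝ) := by
      have h1 := Finset.sum_union_inter (s₁ := Pi.image Prod.fst) (s₂ := q1)
        (f := fun r : ℕ => 1 / (r : ℝ))
      have h2 : 0 ≤ ∑ r ∈ Pi.image Prod.fst ∩ q1, 1 / (r : ℝ) :=
        Finset.sum_nonneg (fun _ _ => by positivity)
      rw [hq]
      linarith
    have e3 : ∑ r ∈ Pi.image Prod.fst, 1 / (r : ℝ) ≤ ∑ P ∈ Pi, 1 / (P.1 : ℝ) :=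
      Finset.sum_image_le_of_nonneg (fun P _ => by positivity)
    have e4 : ∑ r ∈ q1, 1 / (r : ℝ) ≤ q1.card := by
      have h1 : ∀ r ∈ q1, 1 / (r : ℝ) ≤ 1 := by
        intro r hr
        have h2 : (1 : ℝ) ≤ r := by exact_mod_cast (hq1 r hr).one_lt.le
        rw [div_le_one (by linarith)]; exact h2
      calc ∑ r ∈ q1, 1 / (r : ℝ) ≤ ∑ _r ∈ q1, (1 : ℝ) := Finset.sum_le_sum h1
        _ = q1.card := by rw [Finset.sum_const, nsmul_eq_mul, mul_one]
    linarith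
  have hnum := MRSG.num16 (C0 := (MH D).C0) (C := C) (B1 := B1) (B2 := B2)
    (F := Real.exp (40 + 4 * q1.card)) (R := 1 + (J : ℝ) / (Z ^ l * Y)) l
    hc0 hC.le (by positivity) s3
    (by linarith) hJ0 hJW hE
  refine le_trans hnum (le_of_eq ?_)
  rfl

/-- MOM -/
theorem stMomG_16 (D : Dat) (hLS : StLsG D) : StMomG D := by
  classical
  obtain ⟨C, hC, hmom⟩ := momG16 hLS
  intro z hz r1 r2 hr1 hr12
  have hr2 : 0 < r2 := hr1.trans hr12
  set E : ℝ := C * (r2 / r1) ^ 3 * Real.exp (40 + 4 * (∅ : Finset ℕ).card) + Real.exp 3 * 484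
    with hE
  have hE1 : 1 ≤ E := by
    have h1 : 0 ≤ C * (r2 / r1) ^ 3 * Real.exp (40 + 4 * (∅ : Finset ℕ).card) := by positivity
    have h2 : (1 : ℝ) ≤ Real.exp 3 := Real.one_le_exp (by norm_num)
    rw [hE]
    linarith
  refine ⟨E * (1 + r1 ^ 2), by nlinarith [sq_nonneg r1], ?_⟩
  intro h u l J N hh hu hY hJ
  have hN0 : 0 < N := by
    by_contra hcon
    push Not at hcon
    nlinarith
  have hB2 : 1 ≤ r2 / r1 := by rw [le_div_iff₀ hr1]; linarith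
  -- the set of pairs
  set S : Finset (Cx D × V) := Finset.univ.biUnion (fun i : Cx D =>
    ((Shg i (r1 * N) (r2 * N)).filter Prim).image (fun v => (i, v))) with hS
  have hmemS : ∀ x, x ∈ S ↔ x.2 ∈ (Shg x.1 (r1 * N) (r2 * N)).filter Prim := by
    intro x
    rw [hS, Finset.mem_biUnion]
    constructor
    · rintro ⟨i, _, hx⟩
      obtain ⟨v, hv, rfl⟩ := Finset.mem_image.1 hx
      exact hv
    · intro hx
      exact ⟨x.1, Finset.mem_univ _, Finset.mem_image.2 ⟨x.2, hx, rfl⟩⟩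
  have hsum : ∀ f : Cx D × V → ℂ, ∑ x ∈ S, f x =
      ∑ i, ∑ v ∈ (Shg i (r1 * N) (r2 * N)).filter Prim, f (i, v) := by
    intro f
    rw [hS, Finset.sum_biUnion]
    · refine Finset.sum_congr rfl fun i _ => ?_
      rw [Finset.sum_image]
      intro v _ v' _ hE
      exact congrArg Prod.snd hE
    · intro i _ i' _ hne
      rw [Function.onFun, Finset.disjoint_left]
      intro x hx hx'
      obtain ⟨v, _, rfl⟩ := Finset.mem_image.1 hx
      obtain ⟨v', _, hE⟩ := Finset.mem_image.1 hx'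
      exact hne (congrArg Prod.fst hE).symm
  have key := hmom z hz h u l J (r1 * N) (r2 / r1) ∅ S (fun x => gz z (rp x.1) x.2) hh hu hY hB2
    (by simp)
    (by
      intro x hx
      rw [hmemS, Finset.mem_filter, mem_Shg] at hx
      obtain ⟨⟨h1, h2, h3⟩, h4⟩ := hx
      refine ⟨h1, ?_, h2.le, ?_⟩
      · intro r hr hrg
        rw [show Int.gcd x.2.1 x.2.2 = 1 from h4] at hrg
        exact absurd (Nat.dvd_one.1 hrg) hr.one_lt.ne'
      · have : r2 / r1 * (r1 * N) = r2 * N := by field_simp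
        rw [this]; exact h3)
    (by
      intro x _
      show ‖z ^ (ArithmeticFunction.cardFactors ((rp x.1).q x.2).natAbs)‖ ≤ 1
      rw [norm_pow, hz, one_pow]) hJ
  have hR : ∀ w : Fq D, Mpg z r1 r2 N w = (r1 : ℂ) *
      ((1 / ((r1 * N : ℝ) : ℂ)) * ∑ x ∈ S, gz z (rp x.1) x.2 * ch w x.1 x.2) := by
    intro w
    rw [hsum (fun x => gz z (rp x.1) x.2 * ch w x.1 x.2)]
    unfold Mpg
    rw [← mul_assoc]
    congr 1
    push_cast
    have h1 : (r1 : ℂ) ≠ 0 := by exact_mod_cast hr1.ne'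
    have h2 : (N : ℂ) ≠ 0 := by exact_mod_cast hN0.ne'
    field_simp
  calc ∑ w ∈ SJ D J, ‖Qsg z h u w ^ l * Mpg z r1 r2 N w‖ ^ 2
      = r1 ^ 2 * ∑ w ∈ SJ D J, ‖Qsg z h u w ^ l *
        ((1 / ((r1 * N : ℝ) : ℂ)) * ∑ x ∈ S, gz z (rp x.1) x.2 * ch w x.1 x.2)‖ ^ 2 := by
        rw [Finset.mul_sum]
        refine Finset.sum_congr rfl fun w _ => ?_
        rw [hR w, mul_left_comm, norm_mul (r1 : ℂ), mul_pow, Complex.norm_real,
          Real.norm_of_nonneg hr1.le]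
    _ ≤ r1 ^ 2 * (E ^ (l + 1) * (l.factorial : ℝ) ^ 2) :=
        mul_le_mul_of_nonneg_left key (by positivity)
    _ ≤ (1 + r1 ^ 2) ^ (l + 1) * (E ^ (l + 1) * (l.factorial : ℝ) ^ 2) := by
        apply mul_le_mul_of_nonneg_right _ (by positivity)
        calc r1 ^ 2 ≤ 1 + r1 ^ 2 := by linarith
          _ = (1 + r1 ^ 2) ^ 1 := by ring
          _ ≤ (1 + r1 ^ 2) ^ (l + 1) :=
            pow_le_pow_right₀ (by linarith [sq_nonneg r1]) (by omega)
    _ = (E * (1 + r1 ^ 2)) ^ (l + 1) * (l.factorial : ℝ) ^ 2 := by rw [mul_pow]; ring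

/-- a vector of the sector in every class modulo `K` -/
theorem exists_v016 (ia : Cx D × (ZMod D.K × ZMod D.K)) :
    ∃ v : V, Sec (rp ia.1) D.T v ∧ cl D.K v = ia.2 := by
  obtain ⟨i, α⟩ := ia
  have hsa := (rp_hyp i).sa
  have hK : (0 : ℝ) < D.K := by exact_mod_cast D.Kpos
  -- a vector of the cone
  set y : ℝ := (α.2.val : ℝ) with hy
  set s : ℝ := √((rp i).a : ℝ) with hs
  obtain ⟨n, hn⟩ := exists_nat_gt
    ((|√(-((rp i).D : ℝ)) * y / (2 * s)| - (rp i).b * y / (2 * s)) / (s * D.K))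
  set v : V := ((α.1.val : ℤ) + D.K * n, (α.2.val : ℤ)) with hv
  have h1 : ((v.1 : ℤ) : ℝ) = (α.1.val : ℝ) + D.K * n := by
    rw [hv]; push_cast; rfl
  have h2 : ((v.2 : ℤ) : ℝ) = y := by
    rw [hv, hy]; push_cast; rfl
  have hc : Cn (rp i) v := by
    unfold Cn hX hY
    rw [h1, h2, ← hs]
    rw [div_lt_iff₀ (by positivity)] at hn
    have h3 : 0 ≤ s * (α.1.val : ℝ) := by positivity
    nlinarith
  have hcl : cl D.K v = α := by
    unfold cl
    rw [hv]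
    apply Prod.ext
    · show (((α.1.val : ℤ) + D.K * n : ℤ) : ZMod D.K) = α.1
      push_cast
      rw [ZMod.natCast_zmod_val, ZMod.natCast_self, zero_mul, add_zero]
    · show (((α.2.val : ℤ) : ℤ) : ZMod D.K) = α.2
      push_cast
      rw [ZMod.natCast_zmod_val]
  refine ⟨rd (rp i) D.a v, sec_rd (rp_hyp i) D.ha hc, ?_⟩
  show cl D.K (rd (rp i) D.a v) = α
  rw [f_rd (rp_hyp i) D.ha (fun v _ => cl_act i v) hc, hcl]

/-- a vector of the sector in the class `α` -/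
noncomputable def v016 (ia : Cx D × (ZMod D.K × ZMod D.K)) : V := (exists_v016 ia).choose

theorem sec_v016 (ia : Cx D × (ZMod D.K × ZMod D.K)) : Sec (rp ia.1) D.T (v016 ia) :=
  (exists_v016 ia).choose_spec.1

theorem cl_v016 (ia : Cx D × (ZMod D.K × ZMod D.K)) : cl D.K (v016 ia) = ia.2 :=
  (exists_v016 ia).choose_spec.2

theorem sum_bv16 (w : Fq D) : ∑ ia, ‖(bv D w.1 w.2 : Hs D) ia‖ ^ 2 = 1 := by
  have h1 := norm_bv (D := D) w.1 w.2
  have h2 := EuclideanSpace.norm_sq_eq (bv D w.1 w.2 : Hs D)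
  rw [h1] at h2
  rw [← h2]; norm_num

/-- MOM1 -/
theorem stMom1G_16 (D : Dat) (hLS : StLsG D) : StMom1G D := by
  classical
  obtain ⟨C, hC, hmom⟩ := momG16 hLS
  intro z hz
  -- the size and the primes of the content of the chosen vectors
  set Y : Cx D × (ZMod D.K × ZMod D.K) → ℝ := fun ia => ((rp ia.1).q (v016 ia) : ℝ) with hY
  have hY1 : ∀ ia, 1 ≤ Y ia := by
    intro ia
    have := (sec_v016 ia).1.q_pos (rp_hyp ia.1)
    have h2 : (1 : ℤ) ≤ (rp ia.1).q (v016 ia) := by omega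
    simp only [hY]
    exact_mod_cast h2
  set q1 : Cx D × (ZMod D.K × ZMod D.K) → Finset ℕ :=
    fun ia => (Int.gcd (v016 ia).1 (v016 ia).2).primeFactors with hq1
  set G : Cx D × (ZMod D.K × ZMod D.K) → ℝ := fun ia =>
    C * (1 : ℝ) ^ 3 * Real.exp (40 + 4 * (q1 ia).card) + Real.exp 3 * 484 with hG
  have hG1 : ∀ ia, 1 ≤ G ia := by
    intro ia
    have h1 : 0 ≤ C * (1 : ℝ) ^ 3 * Real.exp (40 + 4 * (q1 ia).card) := by positivity
    have h2 : (1 : ℝ) ≤ Real.exp 3 := Real.one_le_exp (by norm_num)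
    simp only [hG]
    linarith
  set E : ℝ := ∑ ia, (Y ia ^ 2 * G ia) with hE
  have hYG : ∀ ia, 1 ≤ Y ia ^ 2 * G ia := by
    intro ia
    have h1 := hY1 ia
    have h2 := hG1 ia
    nlinarith [sq_nonneg (Y ia - 1)]
  refine ⟨1 + E, by
    have : 0 ≤ E := Finset.sum_nonneg fun ia _ => by linarith [hYG ia]
    linarith, ?_⟩
  intro h u l J hh hu hJ
  have hone : ∀ ia : Cx D × (ZMod D.K × ZMod D.K),
      ∑ w ∈ SJ D J, ‖Qsg z h u w ^ l‖ ^ 2 * ‖(bv D w.1 w.2 : Hs D) ia‖ ^ 2 ≤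
        Y ia ^ 2 * (G ia ^ (l + 1) * (l.factorial : ℝ) ^ 2) := by
    intro ia
    have hY0 : 0 < Y ia := by linarith [hY1 ia]
    have key := hmom z hz h u l J (Y ia) 1 (q1 ia) {(ia.1, v016 ia)} (fun _ => 1) hh hu
      (hY1 ia) le_rfl (fun r hr => Nat.prime_of_mem_primeFactors hr)
      (by
        intro x hx
        rw [Finset.mem_singleton] at hx
        rw [hx]
        refine ⟨sec_v016 ia, ?_, le_rfl, by rw [one_mul]⟩
        intro r hr hrg
        rw [hq1]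
        exact Nat.mem_primeFactors.2 ⟨hr, hrg, (MRS19.gcd_pos (ne_of_sec16 (sec_v016 ia))).ne'⟩)
      (by intro x _; simp)
      (by
        have h1 : Real.exp (l * (u / h)) * 1 ≤ Real.exp (l * (u / h)) * Y ia :=
          mul_le_mul_of_nonneg_left (hY1 ia) (Real.exp_pos _).le
        linarith)
    have hch : ∀ w : Fq D, ‖ch w ia.1 (v016 ia)‖ = ‖(bv D w.1 w.2 : Hs D) ia‖ := by
      intro w
      unfold ch
      rw [norm_mul, norm_zpow, norm_uu, one_zpow, mul_one,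
        RCLike.norm_conj, cl_v016]
    have hlhs : ∑ w ∈ SJ D J, ‖Qsg z h u w ^ l * ((1 / (Y ia : ℂ)) *
        ∑ x ∈ ({(ia.1, v016 ia)} : Finset (Cx D × V)), 1 * ch w x.1 x.2)‖ ^ 2 =
        (1 / Y ia ^ 2) * ∑ w ∈ SJ D J, ‖Qsg z h u w ^ l‖ ^ 2 *
          ‖(bv D w.1 w.2 : Hs D) ia‖ ^ 2 := by
      rw [Finset.mul_sum]
      refine Finset.sum_congr rfl fun w _ => ?_
      rw [Finset.sum_singleton, one_mul, norm_mul, norm_mul, norm_div, norm_one,
        Complex.norm_real, Real.norm_of_nonneg hY0.le, hch w]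
      ring
    rw [hlhs] at key
    calc ∑ w ∈ SJ D J, ‖Qsg z h u w ^ l‖ ^ 2 * ‖(bv D w.1 w.2 : Hs D) ia‖ ^ 2
        = Y ia ^ 2 * ((1 / Y ia ^ 2) * ∑ w ∈ SJ D J, ‖Qsg z h u w ^ l‖ ^ 2 *
          ‖(bv D w.1 w.2 : Hs D) ia‖ ^ 2) := by field_simp
      _ ≤ _ := mul_le_mul_of_nonneg_left key (by positivity)
  have hsum : ∑ w ∈ SJ D J, ‖Qsg z h u w ^ l‖ ^ 2 =
      ∑ ia, ∑ w ∈ SJ D J, ‖Qsg z h u w ^ l‖ ^ 2 * ‖(bv D w.1 w.2 : Hs D) ia‖ ^ 2 := by
    rw [Finset.sum_comm]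
    refine Finset.sum_congr rfl fun w _ => ?_
    rw [← Finset.mul_sum, sum_bv16, mul_one]
  rw [hsum]
  have hEpow : ∀ ia, Y ia ^ 2 * (G ia ^ (l + 1) * (l.factorial : ℝ) ^ 2) ≤
      (Y ia ^ 2 * G ia) * (1 + E) ^ l * (l.factorial : ℝ) ^ 2 := by
    intro ia
    have h0 : 0 ≤ Y ia := by linarith [hY1 ia]
    have h1 : G ia ≤ 1 + E := by
      have h2 : Y ia ^ 2 * G ia ≤ E :=
        Finset.single_le_sum (f := fun ia => Y ia ^ 2 * G ia)
          (fun ia _ => by linarith [hYG ia]) (Finset.mem_univ ia)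
      have h3 : 1 ≤ Y ia ^ 2 := one_le_pow₀ (hY1 ia)
      have h4 := hG1 ia
      have h5 : 1 * G ia ≤ Y ia ^ 2 * G ia := mul_le_mul_of_nonneg_right h3 (by linarith)
      linarith
    have h2 : G ia ^ l ≤ (1 + E) ^ l :=
      pow_le_pow_left₀ (by linarith [hG1 ia]) h1 l
    have h3 : 0 ≤ G ia := by linarith [hG1 ia]
    calc Y ia ^ 2 * (G ia ^ (l + 1) * (l.factorial : ℝ) ^ 2)
        = (Y ia ^ 2 * G ia) * G ia ^ l * (l.factorial : ℝ) ^ 2 := by rw [pow_succ]; ring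
      _ ≤ _ := by
          apply mul_le_mul_of_nonneg_right _ (by positivity)
          exact mul_le_mul_of_nonneg_left h2 (by positivity)
  calc ∑ ia, ∑ w ∈ SJ D J, ‖Qsg z h u w ^ l‖ ^ 2 * ‖(bv D w.1 w.2 : Hs D) ia‖ ^ 2
      ≤ ∑ ia, (Y ia ^ 2 * G ia) * (1 + E) ^ l * (l.factorial : ℝ) ^ 2 :=
        Finset.sum_le_sum fun ia _ => (hone ia).trans (hEpow ia)
    _ = E * (1 + E) ^ l * (l.factorial : ℝ) ^ 2 := by
        rw [← Finset.sum_mul, ← Finset.sum_mul]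
    _ ≤ (1 + E) ^ (l + 1) * (l.factorial : ℝ) ^ 2 := by
        apply mul_le_mul_of_nonneg_right _ (by positivity)
        have hE0 : 0 ≤ E := Finset.sum_nonneg fun ia _ => by linarith [hYG ia]
        rw [pow_succ']
        exact mul_le_mul_of_nonneg_right (by linarith) (by positivity)

end fin

end Pool.Agent.Lib.MP_a17b09_nt.MRH
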