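import Pool.Agent.Lib.MP_a17b09_nt.MRH.StrD17
import Pool.Agent.Lib.MP_a17b09_nt.MRS.GlueB90

/-!
Project MRH: the interface `HMrsQ` for every indefinite form (`StMrsH`), from the assembly `StCoreG`
and Parseval for the representatives.
-/

set_option autoImplicit false

open Filter Topology Finset

namespace Pool.Agent.Lib.MP_a17b09_nt.MRH

open CH CH.PE HY HY.S68

/-- the weights of equivalent forms -/
theorem gc_comp90 {K : ℕ} {Q : Form} {γ : Mat} (h : γ.det = 1) (z : ℂ) (α : ZMod K × ZMod K)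
    (v : V) : gc z (Q.comp γ) K α v = gc z Q K (az γ α) (γ.app v) := by
  have hdet : ((γ.det : ℤ) : ZMod K) = 1 := by rw [h]; simp
  have hiff : (Prim (γ.app v) ∧ cl K (γ.app v) = az γ α) ↔ (Prim v ∧ cl K v = α) := by
    rw [MRS.Glue90.prim_app_iff h, cl_app]
    refine and_congr_right fun _ => ⟨fun h3 => ?_, fun h3 => by rw [h3]⟩
    rw [← adj_az γ hdet (cl K v), h3, adj_az γ hdet α]
  unfold gc gz
  rw [Form.comp_q]
  by_cases h1 : Prim v ∧ cl K v = α
  · rw [if_pos h1, if_pos (hiff.2 h1)]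
  · rw [if_neg h1, if_neg (fun h2 => h1 (hiff.1 h2))]

/-- the shell sum of a form over its sector is, up to a phase, a coordinate of the vector of the
shell sums of the representatives -/
theorem mshH_eq90 (D : Dat) (i : Cx D) {γ : Mat} (h : γ.det = 1)
    (hQ : Hyp D.d ((rp i).comp γ)) (hc : Cn (rp i) (γ.app (1, 0))) (z : ℂ)
    (α : ZMod D.K × ZMod D.K) (r1 r2 n : ℝ) (j : ℤ) :
    ‖MshH ((rp i).comp γ) D.T (gc z ((rp i).comp γ) D.K α) r1 r2 n j‖ =
      ‖VPg D z r1 r2 n j (i, az γ α)‖ := by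
  classical
  set Q := (rp i).comp γ with hQdef
  set s := ps (rp i) (γ.app (1, 0)) with hs
  set c : ℂ := Complex.exp (((2 * Real.pi * s / D.T : ℝ) : ℂ) * Complex.I) with hcdef
  have hcn : ‖c‖ = 1 := Complex.norm_exp_ofReal_mul_I _
  have hc0 : c ≠ 0 := Complex.exp_ne_zero _
  have hsim : ∀ u, (rp i).q (γ.app u) = 1 * Q.q u := fun u => by
    rw [hQdef, Form.comp_q, one_mul]
  have hcone : ∀ u, Cn (rp i) (γ.app u) ↔ Cn Q u := cone_iff (rp_hyp i) hQ one_pos hsim hc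
  have hps : ∀ v, Cn Q v → ps (rp i) (γ.app v) = s + ps Q v := fun v hv =>
    ps_app (rp_hyp i) hQ one_pos h hsim hcone hv
  set A : Set V := {v : V | Sec Q D.T v ∧ r1 * n < Q.q v ∧ (Q.q v : ℝ) ≤ r2 * n} with hA
  have hAf : A.Finite := by
    obtain ⟨C, -, h1⟩ := CntH84.cnt hQ D.T_pos
    rcases lt_or_ge (r2 * n) 0 with hb | hb
    · refine (Set.finite_empty).subset ?_
      rintro v ⟨h2, -, h4⟩
      have h5 : (0 : ℝ) < Q.q v := by exact_mod_cast h2.1.q_pos hQ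
      linarith
    · exact (h1 _ hb).1.subset fun v hv => ⟨hv.1, hv.2.2⟩
  set F : Finset V := hAf.toFinset with hF
  have hFm : ∀ v, v ∈ F ↔ Sec Q D.T v ∧ r1 * n < Q.q v ∧ (Q.q v : ℝ) ≤ r2 * n := fun v => by
    rw [hF, Set.Finite.mem_toFinset]
    rfl
  -- the shifted sector of the representative
  set S : Finset V := F.image (fun v => γ.app v) with hS
  have hSm : ∀ w, w ∈ S ↔ Cn (rp i) w ∧ s ≤ ps (rp i) w ∧ ps (rp i) w < s + D.T ∧
      r1 * n < (rp i).q w ∧ ((rp i).q w : ℝ) ≤ r2 * n := by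
    intro w
    rw [hS, Finset.mem_image]
    constructor
    · rintro ⟨v, hv, rfl⟩
      obtain ⟨⟨h1, h2, h3⟩, h4, h5⟩ := (hFm v).1 hv
      have h6 := hsim v
      rw [one_mul] at h6
      rw [hps v h1, h6]
      exact ⟨(hcone v).2 h1, by linarith, by linarith, h4, h5⟩
    · rintro ⟨h1, h2, h3, h4, h5⟩
      have hw : γ.app (γ.adj.app w) = w := MRS.Glue90.app_adj1 h w
      refine ⟨γ.adj.app w, ?_, hw⟩
      have h6 : Cn Q (γ.adj.app w) := by rw [← hcone, hw]; exact h1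
      have h7 := hps _ h6
      rw [hw] at h7
      have h8 := hsim (γ.adj.app w)
      rw [one_mul, hw] at h8
      rw [hFm, ← h8]
      exact ⟨⟨h6, by linarith, by linarith⟩, h4, h5⟩
  have hinj : Set.InjOn (fun v : V => γ.app v) (F : Set V) := by
    intro v _ w _ hvw
    have h1 : γ.adj.app (γ.app v) = γ.adj.app (γ.app w) := congrArg _ hvw
    rwa [MRS.Glue90.adj_app1 h, MRS.Glue90.adj_app1 h] at h1
  -- the invariant function
  set f : Cx D → V → ℂ := fun i' v =>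
    (if Prim v ∧ cl D.K v = az γ α then gz z (rp i') v else 0) * uu i' v ^ j with hf
  have hfi : FInv D f := by
    intro i' v hv
    simp only [hf]
    rw [uu_act i' hv, cl_act, gz_act]
    congr 1
    by_cases h1 : Prim v ∧ cl D.K v = az γ α
    · rw [if_pos h1, if_pos ⟨(prim_act i' v).2 h1.1, h1.2⟩]
    · rw [if_neg h1, if_neg (fun h3 => h1 ⟨(prim_act i' v).1 h3.1, h3.2⟩)]
  have hunf := stUnfG_17 D f hfi i (r1 * n) (r2 * n) s S hSm
  have hsum : ∑ v ∈ F, gc z Q D.K α v *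
      Complex.exp (((2 * Real.pi * ps Q v / D.T : ℝ) : ℂ) * Complex.I) ^ j =
      c⁻¹ ^ j * ∑ w ∈ S, f i w := by
    rw [hS, Finset.sum_image hinj, Finset.mul_sum]
    refine Finset.sum_congr rfl fun v hv => ?_
    obtain ⟨⟨h1, -, -⟩, -, -⟩ := (hFm v).1 hv
    have h2 : uu i (γ.app v) = c * Complex.exp (((2 * Real.pi * ps Q v / D.T : ℝ) : ℂ) *
        Complex.I) := by
      unfold uu
      rw [hps v h1, hcdef, ← Complex.exp_add]
      congr 1
      push_cast
      ring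
    simp only [hf]
    rw [h2, mul_zpow, hQdef, gc_comp90 h]
    unfold gc
    rw [inv_zpow]
    have h3 : c ^ j ≠ 0 := zpow_ne_zero _ hc0
    field_simp
  have hvp : VPg D z r1 r2 n j (i, az γ α) = (1 / (n : ℂ)) * ∑ w ∈ Shg i (r1 * n) (r2 * n), f i w := by
    unfold VPg
    rw [vec_apply, Finset.filter_filter, Finset.mul_sum, Finset.sum_filter]
    refine Finset.sum_congr rfl fun v _ => ?_
    simp only [hf]
    by_cases h1 : Prim v ∧ cl D.K v = az γ α
    · rw [if_pos h1, if_pos h1]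
      ring
    · rw [if_neg h1, if_neg h1]
      ring
  have hms : MshH Q D.T (gc z Q D.K α) r1 r2 n j = (1 / (n : ℂ)) * ∑ v ∈ F, gc z Q D.K α v *
      Complex.exp (((2 * Real.pi * ps Q v / D.T : ℝ) : ℂ) * Complex.I) ^ j := by
    unfold MshH
    congr 1
    rw [← hA, finsum_mem_eq_finite_toFinset_sum _ hAf]
  rw [hms, hsum, hunf, hvp, norm_mul, norm_mul, norm_mul, norm_zpow, norm_inv, hcn, inv_one,
    one_zpow, one_mul]

/-- the interface for a form and a period -/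
theorem hmrsQ_90 (D : Dat) (hCore : StCoreG D) {Q : Form} (hQ : Hyp D.d Q) {z : ℂ} {k : ℕ}
    (hk : 0 < k) (hz : z ^ k = 1) (hz1 : z ≠ 1) : HMrsQ Q D.T z D.K := by
  classical
  intro α r1 r2 h1 h12 A hA ε hε
  obtain ⟨i, hi⟩ := CHI.exists_clI hQ.disc
  have hE : Eqv (hr D.ns i) Q := (hr_eqv D.ns i).symm.trans hi.symm
  obtain ⟨γ, hγ, hQγ, hcn⟩ := exists_gamma (hr_hyp D.ns i) hQ.apos hE
  subst hQγ
  obtain ⟨H0, hH0, h2⟩ := hCore z k hk hz hz1 r1 r2 h1 h12 ε hε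
  refine ⟨max 1 (A * H0), le_max_left _ _, fun L hL => ?_⟩
  have hL1 : 1 ≤ L := (le_max_left _ _).trans hL
  have hL2 : A * H0 ≤ L := (le_max_right _ _).trans hL
  have hL0 : 0 < L := by linarith
  obtain ⟨N0, hN0⟩ := h2 (L / A) (by rw [le_div_iff₀ hA]; linarith)
  obtain ⟨n0, hn0⟩ := exists_nat_ge N0
  refine ⟨n0, fun n hn => ?_⟩
  have hn1 : (N0 : ℝ) ≤ n := hn0.trans (by exact_mod_cast hn)
  have h3 := hN0 n hn1
  have h4 : (n : ℝ) / (L / A) = A * n / L := by field_simp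
  rw [h4, sum_SJ] at h3
  refine le_trans (Finset.sum_le_sum fun j _ => ?_) h3
  obtain ⟨-, -, -, h5⟩ := stParG_17 D z r1 r2 n j
  have h6 := mshH_eq90 D i hγ hQ hcn z α r1 r2 n j
  have h7 : ‖MshH ((hr D.ns i).comp γ) D.T (gc z ((hr D.ns i).comp γ) D.K α) r1 r2 n j‖ =
      ‖VPg D z r1 r2 n j (i, az γ α)‖ := h6
  rw [h5, h7]
  exact Finset.single_le_sum
    (f := fun ia : Cx D × (ZMod D.K × ZMod D.K) => ‖VPg D z r1 r2 n j ia‖ ^ 2)
    (fun ia _ => by positivity)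
    (Finset.mem_univ ((i, az γ α) : Cx D × (ZMod D.K × ZMod D.K)))

/-- the interface for every indefinite form of discriminant `d` -/
theorem stMrsH_90 {d : ℕ} (hCore : ∀ D : Dat, D.d = d → StCoreG D) : StMrsH d :=
  fun _ hQ _ _ hk hz hz1 K hK a ha hPK =>
    hmrsQ_90 ⟨d, K, hQ.nsq, hK, a, ha, hPK⟩ (hCore _ rfl) hQ hk hz hz1

end Pool.Agent.Lib.MP_a17b09_nt.MRH
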