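import Pool.Agent.Lib.MP_a17b09_nt.MRH.AlgA91
import Pool.Agent.Lib.MP_a17b09_nt.MRSG.AlgH91
import Pool.Agent.Lib.MP_a17b09_nt.MRH.LegH91

/-!
MRH, frequency 0, the algebra, second part: the principal genus theorem with a modulus for the
joint eigenvalues, positive discriminant.
-/

set_option autoImplicit false

open Finset

namespace Pool.Agent.Lib.MP_a17b09_nt.MRH91

open CH CH.PE HY HY.S68 MRH
open CHI (rtI rtI_spec)
open MRSG (Stp sc)
open Pool.Agent.MRS1.F3 (Val main)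

/-- the primes which split -/
def Good (d K p : ℕ) : Prop := p.Prime ∧ p.Coprime (2 * d * K) ∧ jacobiSym (d : ℤ) p = 1

lemma jac_inv {d : ℕ} {p a q : ℕ} (h4 : 4 * d ∣ q) (hp : p % 2 = 1) (ha : a % 2 = 1)
    (hm : p * a ≡ 1 [MOD q]) (hj : jacobiSym (d : ℤ) p = 1) :
    jacobiSym (d : ℤ) a = 1 := by
  have hodd : Odd (p * a) := (Nat.odd_iff.2 hp).mul (Nat.odd_iff.2 ha)
  have h1 : jacobiSym (d : ℤ) (p * a) = 1 := by
    rw [jacobiSym.mod_right _ hodd]
    have h2 : p * a ≡ 1 [MOD 4 * (d : ℤ).natAbs] := by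
      rw [Int.natAbs_natCast]
      exact hm.of_dvd h4
    rw [h2, ← jacobiSym.mod_right _ odd_one, jacobiSym.one_right]
  have hp0 : NeZero p := ⟨by omega⟩
  have ha0 : NeZero a := ⟨by omega⟩
  rw [jacobiSym.mul_right, hj, one_mul] at h1
  exact h1

/-- the group part of the principal genus argument, positive discriminant -/
theorem f3 (d K q : ℕ) (h4 : 4 * d ∣ q) (hKq : K ∣ q) (hq : 0 < q)
    (hqd : ∀ p : ℕ, p.Prime → p.Coprime (2 * d * K) → p.Coprime q)
    (c1 c2 : ℕ → ℂ) (ω : ℂ) (M : ℕ) (hM : 0 < M)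
    (hi : ∀ m, 0 < m → m ≡ 1 [MOD q] → (∀ p, p.Prime → p ∣ m → Good d K p) →
      ∃ n, 0 < n ∧ ∃ L L' : List (ℕ × ℂ), (∀ x ∈ L, Val (Good d K) c1 c2 x) ∧
        (∀ x ∈ L', Val (Good d K) c1 c2 x) ∧
        (L.map Prod.fst).Perm (m * n ^ 2).primeFactorsList ∧
        (L'.map Prod.fst).Perm (n ^ 2).primeFactorsList ∧
        (L.map Prod.snd).prod = (L'.map Prod.snd).prod)
    (hii : ∀ L : List ℕ, (∀ p ∈ L, Good d K p) → L.prod ≡ 1 [MOD K] →
      (L.map (fun p => c1 p * c2 p)).prod = 1)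
    (hiii : ∀ p, Good d K p → c1 p ^ M = 1 ∧ c2 p ^ M = 1)
    (hiv : ∀ a : ℕ, a.Coprime q → jacobiSym (d : ℤ) a = 1 →
      ∃ p, Good d K p ∧ p ≡ a [MOD q] ∧ c1 p = ω ∧ c2 p = ω) : ω = 1 := by
  refine main (G := Good d K) (c1 := c1) (c2 := c2) (q := q) ω M hM (fun p hp => hp.1) hi
    ?_ ?_ hiii ?_ ?_
  · intro p hp hm
    have := hii [p] (by simpa using hp) (by simpa using hm.of_dvd hKq)
    simpa using this
  · intro p p' hp hp' hm
    have := hii [p, p'] (by simpa using ⟨hp, hp'⟩) (by simpa using hm.of_dvd hKq)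
    simpa using this
  · exact hiv 1 (Nat.coprime_one_left _) (jacobiSym.one_right _)
  · intro p hp
    have hcop := hqd p hp.1 hp.2.1
    have h2q : 2 ∣ q := (Dvd.intro (2 * d) (by ring)).trans h4
    have hq1 : 1 < q := by
      have := Nat.le_of_dvd hq h2q
      omega
    obtain ⟨a, -, ha⟩ := Nat.exists_mul_mod_eq_one_of_coprime hcop hq1
    have hm : p * a ≡ 1 [MOD q] := by
      rw [Nat.ModEq, ha, Nat.mod_eq_of_lt hq1]
    have hac : a.Coprime q := Nat.coprime_of_mul_modEq_one p (by rw [mul_comm]; exact hm)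
    have hp2 : p % 2 = 1 := by
      rw [← Nat.odd_iff, ← Nat.coprime_two_right]
      exact hcop.coprime_dvd_right h2q
    have ha2 : a % 2 = 1 := by
      rw [← Nat.odd_iff, ← Nat.coprime_two_right]
      exact hac.coprime_dvd_right h2q
    obtain ⟨p', hp', hpa, e1, e2⟩ := hiv a hac (jac_inv h4 hp2 ha2 hm hp.2.2)
    exact ⟨p', hp', (Nat.ModEq.mul_left p hpa).trans hm, e1, e2⟩

variable {D : Dat}

theorem adm_of_good {p : ℕ} (b : Bool) (h : Good D.d D.K p) : Adm D (p, b) := by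
  obtain ⟨hp, hc, hJ⟩ := h
  have : Fact p.Prime := ⟨hp⟩
  refine ⟨hp, (Nat.Prime.coprime_iff_not_dvd hp).1 hc, ?_⟩
  have h1 : IsSquare (((D.d : ℤ) : ℤ) : ZMod p) := ZMod.isSquare_of_jacobiSym_eq_one hJ
  obtain ⟨y, hy⟩ := h1
  obtain ⟨r, rfl⟩ := ZMod.intCast_surjective y
  refine ⟨r, ?_⟩
  rw [← ZMod.intCast_zmod_eq_zero_iff_dvd]
  push_cast at hy ⊢
  rw [sq, ← hy]; ring

theorem good_of_adm {P : ℕ × Bool} (h : Adm D P) : Good D.d D.K P.1 := by
  obtain ⟨hp, hnd, r, hr⟩ := h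
  have : Fact P.1.Prime := ⟨hp⟩
  refine ⟨hp, (Nat.Prime.coprime_iff_not_dvd hp).2 hnd, ?_⟩
  rw [← jacobiSym.legendreSym.to_jacobiSym, legendreSym.eq_one_iff]
  · refine ⟨(r : ZMod P.1), ?_⟩
    have h1 : ((r ^ 2 - D.d : ℤ) : ZMod P.1) = 0 := (ZMod.intCast_zmod_eq_zero_iff_dvd _ P.1).2 hr
    push_cast at h1 ⊢
    linear_combination -h1
  · intro h0
    have h1 : (P.1 : ℤ) ∣ (D.d : ℤ) := (ZMod.intCast_zmod_eq_zero_iff_dvd _ P.1).1 h0
    apply hnd
    have h2 : P.1 ∣ D.d := by exact_mod_cast h1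
    exact Dvd.dvd.mul_right (Dvd.dvd.mul_left h2 2) D.K

/-- a root of `-Δ` modulo `m` from roots modulo the primes -/
theorem root_all (Δ : ℤ) (m : ℕ) : m ≠ 0 →
    (∀ p : ℕ, p.Prime → p ∣ m → ¬ (p : ℤ) ∣ 2 * Δ ∧ ∃ r : ℤ, (p : ℤ) ∣ r ^ 2 + Δ) →
    ∃ r : ℤ, (m : ℤ) ∣ r ^ 2 + Δ := by
  induction m using induction_on_primes with
  | zero => intro h; exact absurd rfl h
  | one => intro _ _; exact ⟨0, by simp⟩
  | prime_mul p a hp ih =>
    intro hne h
    have ha0 : a ≠ 0 := by rintro rfl; simp at hne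
    obtain ⟨r, hr⟩ := ih ha0 (fun l hl hla => h l hl (Dvd.dvd.mul_left hla p))
    obtain ⟨hp2, s, hs⟩ := h p hp (Dvd.intro _ rfl)
    have hpp : Prime (p : ℤ) := Nat.prime_iff_prime_int.1 hp
    by_cases hpa : p ∣ a
    · have hpr : ¬ (p : ℤ) ∣ 2 * r := by
        intro h1
        apply hp2
        rcases hpp.dvd_or_dvd h1 with h2 | h2
        · exact Dvd.dvd.mul_right h2 Δ
        · have h3 : (p : ℤ) ∣ r ^ 2 + Δ := (Int.natCast_dvd_natCast.2 hpa).trans hr
          have h4 : (p : ℤ) ∣ r ^ 2 := Dvd.dvd.trans h2 (dvd_pow_self r two_ne_zero)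
          exact Dvd.dvd.mul_left ((dvd_add_right h4).1 h3) 2
      obtain ⟨k, hk⟩ := hr
      obtain ⟨x, y, hxy⟩ := (hpp.coprime_iff_not_dvd).2 hpr
      obtain ⟨c, hc⟩ := hpa
      have hc' : (a : ℤ) = p * c := by exact_mod_cast hc
      refine ⟨r - a * (k * y), ⟨k * x + c * (k * y) ^ 2, ?_⟩⟩
      push_cast
      linear_combination hk - a * k * hxy + a * (k * y) ^ 2 * hc'
    · have hco : IsCoprime (p : ℤ) (a : ℤ) :=
        Nat.isCoprime_iff_coprime.2 ((Nat.Prime.coprime_iff_not_dvd hp).2 hpa)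
      obtain ⟨u, v, huv⟩ := hco
      refine ⟨r * (u * p) + s * (v * a), ?_⟩
      push_cast
      apply IsCoprime.mul_dvd ⟨u, v, huv⟩
      · obtain ⟨t, ht⟩ := hs
        refine ⟨t + r ^ 2 * u ^ 2 * p + 2 * r * u * s * v * a + s ^ 2 * (- 2 * u + u ^ 2 * p), ?_⟩
        have e : v * (a : ℤ) = 1 - u * p := by linarith
        have : (r * (u * p) + s * (v * a)) ^ 2 + Δ =
            r ^ 2 * u ^ 2 * p * p + 2 * r * u * s * v * a * p + s ^ 2 * (v * a) ^ 2 + Δ := by ring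
        rw [this, e]
        linear_combination ht
      · obtain ⟨t, ht⟩ := hr
        refine ⟨t + s ^ 2 * v ^ 2 * a + 2 * r * u * s * v * p + r ^ 2 * (- 2 * v + v ^ 2 * a), ?_⟩
        have e : u * (p : ℤ) = 1 - v * a := by linarith
        have : (r * (u * p) + s * (v * a)) ^ 2 + Δ =
            s ^ 2 * v ^ 2 * a * a + 2 * r * u * s * v * p * a + r ^ 2 * (u * p) ^ 2 + Δ := by ring
        rw [this, e]
        linear_combination ht

theorem se_congr (k : Fin (mm D 0)) {n n' : ℤ} (h : (n : ZMod D.K) = (n' : ZMod D.K)) :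
    se D k n = se D k n' := by
  classical
  exact congrArg (fun t : ZMod D.K => if h : IsUnit t then sv D h.unit 0 k else 0) h

theorem se_one (k : Fin (mm D 0)) : se D k 1 = 1 := by
  obtain ⟨i, u, hu, hne⟩ := EE_ne k
  have h := se_val k (n := 1) isCoprime_one_left i (cl D.K u)
  rw [Int.cast_one, MRSG.sc_one] at h
  have hne' : (starRingEnd ℂ) ((bv D 0 k : Hs D) (i, cl D.K u)) ≠ 0 := by
    rw [Ne, map_eq_zero]; exact hne
  exact (mul_right_cancel₀ hne' (by rw [one_mul]; exact h)).symm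

theorem se_mul (k : Fin (mm D 0)) {a b : ℤ} (ha : IsCoprime a (D.K : ℤ))
    (hb : IsCoprime b (D.K : ℤ)) : se D k (a * b) = se D k a * se D k b := by
  obtain ⟨i, u, hu, hne⟩ := EE_ne k
  have h := se_val k (n := a * b) (ha.mul_left hb) i (cl D.K u)
  rw [Int.cast_mul, ← MRSG.sc_sc, se_val k ha, se_val k hb, ← mul_assoc] at h
  have hne' : (starRingEnd ℂ) ((bv D 0 k : Hs D) (i, cl D.K u)) ≠ 0 := by
    rw [Ne, map_eq_zero]; exact hne
  exact (mul_right_cancel₀ hne' h).symm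

/-- first and second eigenvalue -/
noncomputable def c1 (D : Dat) (k : Fin (mm D 0)) (p : ℕ) : ℂ := cv D (p, true) 0 k

/-- first and second eigenvalue -/
noncomputable def c2 (D : Dat) (k : Fin (mm D 0)) (p : ℕ) : ℂ := cv D (p, false) 0 k

theorem c12 (k : Fin (mm D 0)) {p : ℕ} (hp : Good D.d D.K p) :
    c1 D k p * c2 D k p = se D k p := by
  have hA : Adm D (p, true) := adm_of_good true hp
  have h2 : cv D (p, true) 0 k * cv D (p, false) 0 k =
    sv D (ZMod.unitOfCoprime p hA.cop) 0 k := cv_conj hA 0 k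
  unfold c1 c2
  rw [h2]
  have hu : IsUnit (((p : ℤ)) : ZMod D.K) := by
    have := unit_p hA
    simpa using this
  unfold se
  rw [dif_pos hu]
  congr 1
  apply Units.ext
  rw [IsUnit.unit_spec, ZMod.coe_unitOfCoprime]
  simp

theorem good_cop {p : ℕ} (hp : Good D.d D.K p) : IsCoprime (p : ℤ) (D.K : ℤ) :=
  Nat.isCoprime_iff_coprime.2 (Nat.Coprime.coprime_mul_left_right hp.2.1)

theorem list_cop (L : List ℕ) (hL : ∀ p ∈ L, Good D.d D.K p) :
    IsCoprime ((L.prod : ℕ) : ℤ) (D.K : ℤ) := by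
  induction L with
  | nil => simpa using isCoprime_one_left
  | cons p L ih =>
    rw [List.prod_cons, Nat.cast_mul]
    exact (good_cop (hL p (by simp))).mul_left (ih fun q hq => hL q (by simp [hq]))

theorem list_prod (k : Fin (mm D 0)) (L : List ℕ) (hL : ∀ p ∈ L, Good D.d D.K p) :
    (L.map (fun p => c1 D k p * c2 D k p)).prod = se D k ((L.prod : ℕ) : ℤ) := by
  induction L with
  | nil => simpa using (se_one k).symm
  | cons p L ih =>
    have h1 := hL p (by simp)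
    have h2 : ∀ q ∈ L, Good D.d D.K q := fun q hq => hL q (by simp [hq])
    rw [List.map_cons, List.prod_cons, List.prod_cons, ih h2, c12 k h1]
    rw [Nat.cast_mul, se_mul k (good_cop h1) (list_cop L h2)]

/-- the list of the conjugate pairs of `s` -/
noncomputable def TT (D : Dat) (k : Fin (mm D 0)) (L : List ℕ) : List (ℕ × ℂ) :=
  L.flatMap (fun p => [(p, c1 D k p), (p, c2 D k p)])

theorem TT_val (k : Fin (mm D 0)) (L : List ℕ) (hL : ∀ p ∈ L, Good D.d D.K p) :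
    ∀ x ∈ TT D k L, Val (Good D.d D.K) (c1 D k) (c2 D k) x := by
  intro x hx
  unfold TT at hx
  rw [List.mem_flatMap] at hx
  obtain ⟨p, hp, hx⟩ := hx
  simp only [List.mem_cons, List.not_mem_nil, or_false] at hx
  rcases hx with rfl | rfl
  · exact ⟨hL p hp, Or.inl rfl⟩
  · exact ⟨hL p hp, Or.inr rfl⟩

theorem TT_fst (k : Fin (mm D 0)) (L : List ℕ) :
    ((TT D k L).map Prod.fst).prod = L.prod ^ 2 := by
  induction L with
  | nil => simp [TT]
  | cons p L ih =>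
    have : TT D k (p :: L) = [(p, c1 D k p), (p, c2 D k p)] ++ TT D k L := by
      unfold TT
      rw [List.flatMap_cons]
    rw [this, List.map_append, List.prod_append, ih, List.prod_cons]
    simp
    ring

theorem TT_snd (k : Fin (mm D 0)) (L : List ℕ) :
    ((TT D k L).map Prod.snd).prod = (L.map (fun p => c1 D k p * c2 D k p)).prod := by
  induction L with
  | nil => simp [TT]
  | cons p L ih =>
    have : TT D k (p :: L) = [(p, c1 D k p), (p, c2 D k p)] ++ TT D k L := by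
      unfold TT
      rw [List.flatMap_cons]
    rw [this, List.map_append, List.prod_append, ih, List.map_cons, List.prod_cons]
    simp

/-- (i) of `f3` -/
theorem hi_91 (k : Fin (mm D 0)) (m : ℕ) (hm : 0 < m)
    (hmq : m ≡ 1 [MOD 16 * D.d * D.K ^ 2]) (hG : ∀ p : ℕ, p.Prime → p ∣ m → Good D.d D.K p) :
    ∃ n, 0 < n ∧ ∃ L L' : List (ℕ × ℂ),
      (∀ x ∈ L, Val (Good D.d D.K) (c1 D k) (c2 D k) x) ∧
      (∀ x ∈ L', Val (Good D.d D.K) (c1 D k) (c2 D k) x) ∧
      (L.map Prod.fst).Perm (m * n ^ 2).primeFactorsList ∧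
      (L'.map Prod.fst).Perm (n ^ 2).primeFactorsList ∧
      (L.map Prod.snd).prod = (L'.map Prod.snd).prod := by
  have hK : 0 < D.K := D.Kpos
  obtain ⟨r, hr⟩ := root_all (-(D.d : ℤ)) m hm.ne' (fun p hp hpm => by
    have h1 := adm_of_good true (hG p hp hpm)
    refine ⟨fun h => h1.nd ?_, ?_⟩
    · have h2 : (p : ℤ) ∣ 2 * D.d := by
        have h3 : (2 : ℤ) * -(D.d : ℤ) = -(2 * D.d) := by ring
        rw [h3, dvd_neg] at h
        exact h
      exact_mod_cast h2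
    · obtain ⟨r, hr⟩ := h1.2.2
      exact ⟨r, by rw [← sub_eq_add_neg]; exact hr⟩)
  rw [← sub_eq_add_neg] at hr
  obtain ⟨X, Y, n, hX0, hn, hnc, hXY, hXn, hprim⟩ := MRH91.conic D.d D.K m D.ns hK hm hmq r hr
  -- coprimality
  have hmc : m.Coprime (2 * D.d * D.K) := by
    have h1 : m ≡ 1 [MOD 2 * D.d * D.K] := hmq.of_dvd ⟨8 * D.K, by ring⟩
    have := h1.gcd_eq
    rw [Nat.gcd_one_left] at this
    exact this
  have hNc : (m * n ^ 2).Coprime (2 * D.d * D.K) := hmc.mul_left (hnc.pow_left 2)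
  have hNK : (m * n ^ 2).Coprime D.K := Nat.Coprime.coprime_mul_left_right hNc
  have hN2d : IsCoprime (((m * n ^ 2 : ℕ)) : ℤ) (2 * (D.d : ℤ)) := by
    have h1 : (m * n ^ 2).Coprime (2 * D.d) := Nat.Coprime.coprime_mul_right_right hNc
    have := Nat.isCoprime_iff_coprime.2 h1
    push_cast at this ⊢
    exact this
  -- primes of `n`
  have hGn : ∀ p : ℕ, p.Prime → p ∣ n → Good D.d D.K p := by
    intro p hp hpn
    have hpp : Prime (p : ℤ) := Nat.prime_iff_prime_int.1 hp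
    have hpc : p.Coprime (2 * D.d * D.K) := Nat.Coprime.coprime_dvd_left hpn hnc
    have hpK : ¬ (p : ℤ) ∣ (D.K : ℤ) := by
      intro h
      have h1 : p ∣ D.K := by exact_mod_cast h
      exact (Nat.Prime.coprime_iff_not_dvd hp).1 (Nat.Coprime.coprime_mul_left_right hpc) h1
    have hpn' : (p : ℤ) ∣ (n : ℤ) := by exact_mod_cast hpn
    have hdv : (p : ℤ) ∣ X ^ 2 - D.d * (D.K * Y) ^ 2 := by
      rw [hXY]
      exact Dvd.dvd.mul_left (dvd_pow hpn' two_ne_zero) _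
    have hY : ¬ (p : ℤ) ∣ Y := by
      intro h
      have hX : (p : ℤ) ∣ X := by
        have h2 : (p : ℤ) ∣ (D.d : ℤ) * (D.K * Y) ^ 2 :=
          Dvd.dvd.mul_left (dvd_pow (Dvd.dvd.mul_left h _) two_ne_zero) _
        have h3 := dvd_add hdv h2
        rw [sub_add_cancel] at h3
        exact hpp.dvd_of_dvd_pow h3
      exact hprim p hpp hX h hpn'
    have hKY : ¬ (p : ℤ) ∣ D.K * Y := fun h => (hpp.dvd_or_dvd h).elim hpK hY
    obtain ⟨x, y, hxy⟩ := (hpp.coprime_iff_not_dvd).2 hKY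
    have hA : Adm D (p, true) := by
      refine ⟨hp, (Nat.Prime.coprime_iff_not_dvd hp).1 hpc, X * y, ?_⟩
      obtain ⟨t, ht⟩ := hdv
      refine ⟨t * y ^ 2 - D.d * (2 * x - x ^ 2 * p), ?_⟩
      have e : y * (D.K * Y) = 1 - x * p := by linarith
      have : (X * y) ^ 2 - (D.d : ℤ) =
          (X ^ 2 - D.d * (D.K * Y) ^ 2) * y ^ 2 + D.d * (y * (D.K * Y)) ^ 2 - D.d := by
        ring
      rw [this, e, ht]
      show _ = (p : ℤ) * _
      ring
    exact good_of_adm hA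
  obtain ⟨k0, L, hk0, hk0K, hL1, hL2, hσ⟩ := conicE (D := D) (n := m * n ^ 2) (X := X) (Y := Y)
    hX0 (by positivity) hNK hN2d (by rw [hXY]; push_cast; ring) k
  have hσX : se D k X = se D k n := by
    apply se_congr
    have h1 : ((D.K : ℕ) : ℤ) ∣ X - n := by
      refine Dvd.dvd.trans ?_ hXn
      push_cast
      exact Dvd.intro_left _ rfl
    have h2 := (ZMod.intCast_zmod_eq_zero_iff_dvd (X - n) D.K).2 h1
    push_cast at h2 ⊢
    exact sub_eq_zero.1 h2
  -- primes of `m n ^ 2` are good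
  have hGN : ∀ p : ℕ, p.Prime → p ∣ m * n ^ 2 → Good D.d D.K p := by
    intro p hp h
    rcases (Nat.Prime.dvd_mul hp).1 h with h | h
    · exact hG p hp h
    · exact hGn p hp (hp.dvd_of_dvd_pow h)
  have hk0N : k0 ∣ m * n ^ 2 := by
    rw [← hL2]
    exact Dvd.dvd.mul_right (dvd_pow_self k0 two_ne_zero) _
  have hGk : ∀ p ∈ k0.primeFactorsList, Good D.d D.K p := fun p hp =>
    hGN p (Nat.prime_of_mem_primeFactorsList hp) ((Nat.dvd_of_mem_primeFactorsList hp).trans hk0N)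
  have hGn' : ∀ p ∈ n.primeFactorsList, Good D.d D.K p := fun p hp =>
    hGn p (Nat.prime_of_mem_primeFactorsList hp) (Nat.dvd_of_mem_primeFactorsList hp)
  have hGL : ∀ x ∈ L, Good D.d D.K x.1 := by
    intro x hx
    refine hGN x.1 (hL1 x hx).1 ?_
    rw [← hL2]
    exact Dvd.dvd.mul_left (List.dvd_prod (List.mem_map.2 ⟨x, hx, rfl⟩)) _
  set L1 : List (ℕ × ℂ) := L.map (fun x => (x.1, ce D k x.1 x.2)) with hL1def
  have hL1v : ∀ x ∈ L1, Val (Good D.d D.K) (c1 D k) (c2 D k) x := by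
    intro x hx
    rw [hL1def, List.mem_map] at hx
    obtain ⟨y, hy, rfl⟩ := hx
    refine ⟨hGL y hy, ?_⟩
    show ce D k y.1 y.2 = c1 D k y.1 ∨ ce D k y.1 y.2 = c2 D k y.1
    unfold ce c1 c2
    cases h : decide ((y.1 : ℤ) ∣ y.2 - rtI D.d y.1)
    · exact Or.inr rfl
    · exact Or.inl rfl
  have hL1f : (L1.map Prod.fst).prod = (L.map Prod.fst).prod := by
    rw [hL1def, List.map_map]
    rfl
  have hL1s : (L1.map Prod.snd).prod = (L.map (fun x => ce D k x.1 x.2)).prod := by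
    rw [hL1def, List.map_map]
    rfl
  refine ⟨n, hn, L1 ++ TT D k k0.primeFactorsList, TT D k n.primeFactorsList, ?_, ?_, ?_, ?_,
    ?_⟩
  · intro x hx
    rcases List.mem_append.1 hx with hx | hx
    · exact hL1v x hx
    · exact TT_val k _ hGk x hx
  · exact TT_val k _ hGn'
  · apply Nat.primeFactorsList_unique
    · rw [List.map_append, List.prod_append, TT_fst, hL1f, Nat.prod_primeFactorsList hk0.ne',
        mul_comm, hL2]
    · intro p hp
      rw [List.map_append, List.mem_append, List.mem_map, List.mem_map] at hp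
      rcases hp with ⟨x, hx, rfl⟩ | ⟨x, hx, rfl⟩
      · exact (hL1v x hx).1.1
      · exact (TT_val k _ hGk x hx).1.1
  · apply Nat.primeFactorsList_unique
    · rw [TT_fst, Nat.prod_primeFactorsList hn.ne']
    · intro p hp
      rw [List.mem_map] at hp
      obtain ⟨x, hx, rfl⟩ := hp
      exact (TT_val k _ hGn' x hx).1.1
  · rw [List.map_append, List.prod_append, TT_snd, TT_snd, hL1s, list_prod k _ hGk,
      list_prod k _ hGn', Nat.prod_primeFactorsList hk0.ne', Nat.prod_primeFactorsList hn.ne',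
      ← hσX, hσ, mul_comm]

/-- the eigenvalues are roots of unity -/
theorem root_unity (D : Dat) : ∃ M : ℕ, 0 < M ∧ ∀ (P : ℕ × Bool), Adm D P →
    ∀ k : Fin (mm D 0), cv D P 0 k ^ M = 1 := by
  refine ⟨Nat.card (Equiv.Perm (Cx D × (ZMod D.K × ZMod D.K))), Nat.card_pos, fun P hP k => ?_⟩
  set M := Nat.card (Equiv.Perm (Cx D × (ZMod D.K × ZMod D.K)))
  set e : Cx D × (ZMod D.K × ZMod D.K) → ℂ := fun ia => (bv D 0 k : Hs D) ia with he
  have h1 : ∀ ia, e (jE hP ia) = cv D P 0 k * e ia := by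
    rintro ⟨i, α⟩
    exact bv_app hP k i α
  have h2 : ∀ (n : ℕ) ia, e ((jE hP ^ n) ia) = cv D P 0 k ^ n * e ia := by
    intro n
    induction n with
    | zero => intro ia; simp
    | succ n ih =>
      intro ia
      rw [pow_succ, Equiv.Perm.mul_apply, ih, h1, pow_succ]
      ring
  have h3 : jE hP ^ M = 1 := pow_card_eq_one'
  obtain ⟨ia, hia⟩ : ∃ ia, e ia ≠ 0 := by
    by_contra hne
    push Not at hne
    have h2 : (bv D 0 k : Hs D) ≠ 0 := by
      intro h3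
      have := norm_bv (D := D) 0 k
      rw [h3, norm_zero] at this
      exact zero_ne_one this
    apply h2
    ext ia
    exact hne ia
  have h4 := h2 M ia
  rw [h3, Equiv.Perm.one_apply] at h4
  exact (mul_right_cancel₀ hia (by rw [one_mul]; exact h4)).symm

theorem jac_congr {d : ℕ} {q a b : ℕ} (hq : 4 * d ∣ q) (h2 : 2 ∣ q) (h : a ≡ b [MOD q]) :
    (Odd a ∧ jacobiSym (d : ℤ) a = 1) ↔ (Odd b ∧ jacobiSym (d : ℤ) b = 1) := by
  have key : ∀ a b : ℕ, a ≡ b [MOD q] → (Odd a ∧ jacobiSym (d : ℤ) a = 1) →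
      (Odd b ∧ jacobiSym (d : ℤ) b = 1) := by
    rintro a b h ⟨ho, hJ⟩
    have hb : Odd b := by
      have h1 : a ≡ b [MOD 2] := h.of_dvd h2
      unfold Nat.ModEq at h1
      rw [Nat.odd_iff] at ho ⊢
      omega
    refine ⟨hb, ?_⟩
    rw [jacobiSym.mod_right _ hb]
    rw [jacobiSym.mod_right _ ho] at hJ
    have h1 : a ≡ b [MOD 4 * (d : ℤ).natAbs] := by
      rw [Int.natAbs_natCast]
      exact h.of_dvd hq
    unfold Nat.ModEq at h1
    rw [← h1]
    exact hJ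
  exact ⟨key a b h, key b a h.symm⟩

/-- **(ALG)** for the systems of positive discriminant -/
theorem algH (k : Fin (mm D 0)) (ω : ℂ) (hω : ω ≠ 1) :
    ∃ a : ℕ, (Odd a ∧ jacobiSym (D.d : ℤ) a = 1) ∧ a.Coprime (16 * D.d * D.K ^ 2) ∧
      ∀ p : ℕ, p.Prime → p ≡ a [MOD 16 * D.d * D.K ^ 2] →
        ¬ (c1 D k p = ω ∧ c2 D k p = ω) := by
  have hK : 0 < D.K := D.Kpos
  have hd : 0 < D.d := D.d_pos
  by_contra hcon
  push Not at hcon
  apply hω
  obtain ⟨M, hM, hroot⟩ := root_unity D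
  have h4 : 4 * D.d ∣ 16 * D.d * D.K ^ 2 := ⟨4 * D.K ^ 2, by ring⟩
  have h2 : 2 ∣ 16 * D.d * D.K ^ 2 := ⟨8 * D.d * D.K ^ 2, by ring⟩
  refine f3 D.d D.K (16 * D.d * D.K ^ 2) h4 ⟨16 * D.d * D.K, by ring⟩ (by positivity)
    (fun p _ h => MRSG91.cop_q h) (c1 D k) (c2 D k) ω M hM
    (fun m hm hmq hG => hi_91 k m hm hmq hG) ?_ ?_ ?_
  · intro L hL hLK
    rw [list_prod k L hL, ← se_one k]
    apply se_congr
    have := (ZMod.natCast_eq_natCast_iff L.prod 1 D.K).2 hLK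
    rw [Int.cast_natCast, Int.cast_one, this, Nat.cast_one]
  · intro p hp
    exact ⟨hroot (p, true) (adm_of_good true hp) k, hroot (p, false) (adm_of_good false hp) k⟩
  · intro a ha hJ
    have hodd : Odd a := by
      rw [← Nat.coprime_two_right]
      exact ha.coprime_dvd_right h2
    obtain ⟨p, hp, hpa, h1, h3⟩ := hcon a ⟨hodd, hJ⟩ ha
    have hpq : p.Coprime (16 * D.d * D.K ^ 2) := by
      have := hpa.gcd_eq
      unfold Nat.Coprime at ha ⊢
      rw [this, ha]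
    have h5 := (jac_congr h4 h2 hpa).2 ⟨hodd, hJ⟩
    exact ⟨p, ⟨hp, MRSG91.cop_q' hpq, h5.2⟩, hpa, h1, h3⟩

end Pool.Agent.Lib.MP_a17b09_nt.MRH91
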