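import Pool.Agent.Lib.MP_a17b09_nt.MRH.Red79
import Pool.Agent.Lib.MP_a17b09_nt.MRH.ExpH67
import Pool.Agent.Lib.MP_a17b09_nt.MRSG.SplG7
import Pool.Agent.Lib.MP_a17b09_nt.MRSG.NugC12
import Pool.Agent.Lib.MP_a17b09_nt.MRSG.Win2_40

/-!
Project MRH, row DJ (helper40): the eigenvalues of the primes and of their conjugates differ, positive
discriminant.
-/

set_option autoImplicit false

open Finset Filter Topology

namespace Pool.Agent.Lib.MP_a17b09_nt.MRH

open CH CH.PE HY HY.S68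
open MRSG (Cgr NuG win1_abs djabs_40 sc ai az_mul sc_one adj_mul_rev)

namespace Win40

/-! ### one window -/

/-- the sieve majorant of an indefinite form -/
theorem nuG_hyp {d : ℕ} {Q : Form} (hQ : Hyp d Q) : NuG Q.q := by
  classical
  intro z00
  have hD0 : Q.D ≠ 0 := by
    have h1 := hQ.disc
    have h2 := hQ.d_pos
    omega
  obtain ⟨C, hC, z0, hz0, Y0, hY0, h⟩ := MRSG.NugC12.nug Q hQ.apos.ne' hD0 (by
    haveI : NeZero (-Q.D) := ⟨neg_ne_zero.2 hD0⟩
    refine MRSG.kro_ne_7 (-Q.D) ?_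
    rw [hQ.disc, neg_neg, Int.isSquare_natCast_iff]
    exact hQ.nsq) z00
  refine ⟨C, hC, z0, hz0, Y0, fun Y hY => ?_⟩
  obtain ⟨L, ν, hL1, hL, hν0, hν1, htr⟩ := h Y hY
  refine ⟨ν, hν0, hν1, fun S F M E hE hcls => ?_⟩
  have h1 := htr S F M E hE (fun δ hδ hδL _ _ κ => by
    have h2 := hcls δ hδ ((Nat.cast_le.2 hδL).trans hL) κ
    have h3 : S.filter (fun w => MRSG.NugC12.Cls δ κ w) = S.filter (fun w => Cgr δ κ w) := by
      refine Finset.filter_congr fun w _ => ?_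
      exact and_congr (Int.modEq_comm.trans Int.modEq_iff_dvd)
        (Int.modEq_comm.trans Int.modEq_iff_dvd)
    convert h2 using 4)
  refine h1.trans (add_le_add le_rfl ?_)
  refine Finset.sum_le_sum_of_subset_of_nonneg ?_ fun n _ _ => ?_
  · exact Finset.Icc_subset_Icc le_rfl (Nat.le_floor hL)
  · have := hE n
    positivity

/-- **One window of primes represented by a form of the class.** -/
theorem winH (D : Dat) (i : Cx D) (K a' : ℕ) (hK : 0 < K) (ha' : 0 < a') (δ : ℝ) (hδ : 0 < δ) :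
    ∃ K0 : ℕ, 0 < K0 ∧ ∀ κ : ℝ, 0 < κ → ∃ U0 : ℕ, ∀ u : ℕ, U0 ≤ u → ∀ h : ℤ, h ≠ 0 →
      |(h : ℝ)| ≤ Real.exp (u / κ) → ∀ f : V → ℂ, (∀ w, ‖f w‖ = 1) →
      (∀ w w', Cgr K w w' → f w' = f w) → ∀ R : Finset V,
      (∀ w ∈ R, Sec (rp i) D.T w ∧ ∃ p : ℕ, p.Prime ∧ Real.exp u < p ∧
        (p : ℝ) ≤ Real.exp (u + 1) ∧ (rp i).q w = p * a') →
      δ * Real.exp u / u ≤ R.card →
      (R.card : ℝ) / (4 * (K0 : ℝ) ^ 2) ≤ ∑ w ∈ R, ‖1 - f w * uu i w ^ h‖ ^ 2 := by
  classical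
  have hQ := rp_hyp i
  have ha'0 : (0 : ℝ) < a' := by exact_mod_cast ha'
  have ha'1 : (1 : ℝ) ≤ a' := by exact_mod_cast ha'
  have he1 : Real.exp 1 ≤ 3 := by
    have := Real.exp_one_lt_d9
    linarith
  have he1' : 1 ≤ Real.exp 1 := Real.one_le_exp zero_le_one
  obtain ⟨R0, hR0, hcrd⟩ := Pool.Agent.XH67.crd_bd hQ (B := D.T)
  set B : ℝ := R0 * √(3 * a') + 1 with hB
  have hB1 : 1 ≤ B := by
    have : 0 ≤ R0 * √(3 * (a' : ℝ)) := by positivity
    linarith
  set Su : ℕ → Finset V := fun u => Shg i ((a' : ℝ) * Real.exp u)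
    ((a' : ℝ) * Real.exp ((u : ℝ) + 1)) with hSu
  have hbox : ∀ u, ∀ w ∈ Su u, |(w.1 : ℝ)| ≤ B * Real.exp (u / 2) ∧
      |(w.2 : ℝ)| ≤ B * Real.exp (u / 2) := by
    intro u w hw
    obtain ⟨h0, h1, h2⟩ := mem_Shg.1 hw
    obtain ⟨hx, hy⟩ := hcrd w _ h0.1 (abs_le.2 ⟨by linarith [h0.2.1, D.T_pos], h0.2.2.le⟩) h2
    have h3 : √((a' : ℝ) * Real.exp ((u : ℝ) + 1)) ≤ √(3 * (a' : ℝ)) * Real.exp ((u : ℝ) / 2) := by
      rw [← Real.sqrt_sq (Real.exp_pos ((u : ℝ) / 2)).le, ← Real.sqrt_mul (by positivity)]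
      refine Real.sqrt_le_sqrt ?_
      have h4 : Real.exp ((u : ℝ) / 2) ^ 2 = Real.exp u := by
        rw [← Real.exp_nat_mul]
        congr 1
        push_cast
        ring
      rw [h4, Real.exp_add]
      calc (a' : ℝ) * (Real.exp u * Real.exp 1) = (a' * Real.exp u) * Real.exp 1 := by ring
        _ ≤ (a' * Real.exp u) * 3 := mul_le_mul_of_nonneg_left he1 (by positivity)
        _ = _ := by ring
    have h5 : R0 * √((a' : ℝ) * Real.exp ((u : ℝ) + 1)) ≤ B * Real.exp ((u : ℝ) / 2) := by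
      calc R0 * √((a' : ℝ) * Real.exp ((u : ℝ) + 1)) ≤
            R0 * (√(3 * (a' : ℝ)) * Real.exp ((u : ℝ) / 2)) := mul_le_mul_of_nonneg_left h3 hR0.le
        _ = (R0 * √(3 * (a' : ℝ))) * Real.exp ((u : ℝ) / 2) := by ring
        _ ≤ B * Real.exp ((u : ℝ) / 2) :=
            mul_le_mul_of_nonneg_right (by linarith) (Real.exp_pos _).le
    exact ⟨hx.trans h5, hy.trans h5⟩
  obtain ⟨K0, hK0, hmain⟩ := win1_abs (rp i).q (nuG_hyp hQ) B hB1 Su hbox (uu i)
    (fun u w _ => norm_uu i w) (by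
      intro κ hκ
      obtain ⟨c, C, hc, hc2, hC, hexp⟩ := expS67 D κ hκ
      refine ⟨c, hc, C * (3 * a'), by positivity, ?_⟩
      intro T hT h hh hhT q a hq u hqu
      have hq0 : (0 : ℝ) < q := by exact_mod_cast hq
      have hT0 : (0 : ℝ) < T := by linarith
      have hTk : 0 < T ^ κ := Real.rpow_pos_of_pos hT0 _
      have hY : (q : ℝ) ^ 2 * T ^ κ ≤ (a' : ℝ) * Real.exp ((u : ℝ) + 1) := by
        refine hqu.trans ?_
        rw [Real.exp_add]
        calc Real.exp (u : ℝ) = 1 * (Real.exp u * 1) := by ring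
          _ ≤ a' * (Real.exp u * Real.exp 1) := by gcongr
      have h1 := hexp i T h q a ((a' : ℝ) * Real.exp ((u : ℝ) + 1)) ((a' : ℝ) * Real.exp u)
        ((a' : ℝ) * Real.exp ((u : ℝ) + 1)) ((Su u).filter (fun w => Cgr q a w)) hT hhT hq hY
        (by positivity) (mul_le_mul_of_nonneg_left (Real.exp_le_exp.2 (by linarith)) ha'0.le)
        le_rfl (fun v => by
          rw [Finset.mem_filter, mem_Shg]
          tauto)
      rw [if_neg hh, sub_zero] at h1
      refine h1.trans ?_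
      set X : ℝ := Real.exp u / (q : ℝ) ^ 2 with hX
      have hX0 : 0 < X := by positivity
      have h3 : ((a' : ℝ) * Real.exp ((u : ℝ) + 1) / (q : ℝ) ^ 2) ^ (1 - c) ≤
          3 * a' * X ^ (1 - c) := by
        have h4 : (a' : ℝ) * Real.exp ((u : ℝ) + 1) / (q : ℝ) ^ 2 ≤ (3 * a') * X := by
          rw [hX, Real.exp_add]
          have h5 : (a' : ℝ) * (Real.exp u * Real.exp 1) / (q : ℝ) ^ 2 =
              Real.exp 1 * (a' * (Real.exp u / (q : ℝ) ^ 2)) := by ring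
          rw [h5]
          calc Real.exp 1 * (a' * (Real.exp u / (q : ℝ) ^ 2)) ≤
                3 * (a' * (Real.exp u / (q : ℝ) ^ 2)) :=
                mul_le_mul_of_nonneg_right he1 (by positivity)
            _ = _ := by ring
        calc _ ≤ ((3 * a') * X) ^ (1 - c) :=
              Real.rpow_le_rpow (by positivity) h4 (by linarith)
          _ = (3 * a' : ℝ) ^ (1 - c) * X ^ (1 - c) := Real.mul_rpow (by positivity) hX0.le
          _ ≤ (3 * a' : ℝ) ^ (1 : ℝ) * X ^ (1 - c) := by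
            refine mul_le_mul_of_nonneg_right ?_ (by positivity)
            exact Real.rpow_le_rpow_of_exponent_le (by linarith) (by linarith)
          _ = _ := by rw [Real.rpow_one]
      calc _ ≤ C * (3 * a' * X ^ (1 - c)) := mul_le_mul_of_nonneg_left h3 hC.le
        _ = C * (3 * a') * X ^ (1 - c) := by ring)
    K a' hK ha' δ hδ
  refine ⟨K0, hK0, fun κ hκ => ?_⟩
  obtain ⟨U0, hU0⟩ := hmain κ hκ
  refine ⟨U0, fun u hu h hh hhu f hf hfp R hR hRc => ?_⟩
  refine hU0 u hu h hh hhu f hf hfp R ?_ ?_ hRc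
  · intro w hw
    obtain ⟨hS, p, hp, hp1, hp2, hp3⟩ := hR w hw
    rw [hSu]
    simp only
    rw [mem_Shg, hp3]
    push_cast
    refine ⟨hS, ?_, ?_⟩
    · rw [mul_comm]
      exact mul_lt_mul_of_pos_right hp1 ha'0
    · rw [mul_comm]
      exact mul_le_mul_of_nonneg_left hp2 ha'0.le
  · intro w hw
    obtain ⟨hS, p, hp, hp1, hp2, hp3⟩ := hR w hw
    refine ⟨p, hp, hp1, ?_⟩
    rw [hp3]
    exact Int.natAbs_natCast (p * a')

/-! ### the structure -/

/-- the second column of a similitude -/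
theorem sim_col {p : ℤ} (hp : p ≠ 0) {Q Q' : Form} {M : Mat} (h2 : M.det = p)
    (hs : ∀ u, Q.q (M.app u) = p * Q'.q u) :
    2 * Q'.a * M.b = (Q'.b - Q.b) * M.a - 2 * Q.c * M.c ∧
      2 * Q'.a * M.d = 2 * Q.a * M.a + (Q.b + Q'.b) * M.c := by
  have h1 := hs (1, 1)
  have h3 := hs (1, 0)
  have h4 := hs (0, 1)
  unfold Mat.det at h2
  unfold Form.q Mat.app at h1 h3 h4
  simp only [mul_one, mul_zero, add_zero, zero_add, one_pow, ne_eq, OfNat.ofNat_ne_zero,
    not_false_eq_true, zero_pow] at h1 h3 h4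
  constructor
  · apply mul_left_cancel₀ hp
    linear_combination (-2 * M.b) * h3 + M.a * (h1 - h3 - h4) - (Q.b * M.a + 2 * Q.c * M.c) * h2
  · apply mul_left_cancel₀ hp
    linear_combination (-2 * M.d) * h3 + M.c * (h1 - h3 - h4) + (2 * Q.a * M.a + Q.b * M.c) * h2

/-- the matrices modulo `K` are determined by the first columns modulo `2 a' K` -/
theorem az_eq {K : ℕ} {p p' : ℤ} (hp : p ≠ 0) (hp' : p' ≠ 0) {Q Q' : Form} {M M' : Mat}
    (h2 : M.det = p) (hs : ∀ u, Q.q (M.app u) = p * Q'.q u)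
    (h2' : M'.det = p') (hs' : ∀ u, Q.q (M'.app u) = p' * Q'.q u) (ha : Q'.a ≠ 0)
    (k5 : 2 * Q'.a * K ∣ M'.a - M.a) (k6 : 2 * Q'.a * K ∣ M'.c - M.c) (α : ZMod K × ZMod K) :
    az M'.adj α = az M.adj α := by
  obtain ⟨e1, e2⟩ := sim_col hp h2 hs
  obtain ⟨e1', e2'⟩ := sim_col hp' h2' hs'
  have h2a : (2 * Q'.a) ≠ 0 := mul_ne_zero two_ne_zero ha
  have k1 : (K : ℤ) ∣ M'.a - M.a := (Dvd.intro_left _ rfl).trans k5
  have k2 : (K : ℤ) ∣ M'.c - M.c := (Dvd.intro_left _ rfl).trans k6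
  have k3 : (K : ℤ) ∣ M'.b - M.b := by
    rw [← mul_dvd_mul_iff_left h2a]
    have : 2 * Q'.a * (M'.b - M.b) = (Q'.b - Q.b) * (M'.a - M.a) - 2 * Q.c * (M'.c - M.c) := by
      linear_combination e1' - e1
    rw [this]
    exact dvd_sub (Dvd.dvd.mul_left k5 _) (Dvd.dvd.mul_left k6 _)
  have k4 : (K : ℤ) ∣ M'.d - M.d := by
    rw [← mul_dvd_mul_iff_left h2a]
    have : 2 * Q'.a * (M'.d - M.d) = 2 * Q.a * (M'.a - M.a) + (Q.b + Q'.b) * (M'.c - M.c) := by
      linear_combination e2' - e2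
    rw [this]
    exact dvd_add (Dvd.dvd.mul_left k5 _) (Dvd.dvd.mul_left k6 _)
  have z1 : (M.a : ZMod K) = M'.a := (ZMod.intCast_eq_intCast_iff_dvd_sub _ _ _).2 k1
  have z2 : (M.c : ZMod K) = M'.c := (ZMod.intCast_eq_intCast_iff_dvd_sub _ _ _).2 k2
  have z3 : (M.b : ZMod K) = M'.b := (ZMod.intCast_eq_intCast_iff_dvd_sub _ _ _).2 k3
  have z4 : (M.d : ZMod K) = M'.d := (ZMod.intCast_eq_intCast_iff_dvd_sub _ _ _).2 k4
  unfold az Mat.adj
  push_cast
  rw [z1, z2, z3, z4]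

/-- powers of solutions congruent to `1` -/
theorem pk_zpow {d K : ℕ} {a : Pell.Solution₁ (d : ℤ)} (h : PK K a) (n : ℤ) : PK K (a ^ n) := by
  obtain ⟨h1, h2⟩ := h
  induction n using Int.induction_on with
  | zero =>
    rw [zpow_zero]
    refine ⟨?_, ?_⟩
    · rw [Pell.Solution₁.x_one, sub_self]
      exact dvd_zero _
    · rw [Pell.Solution₁.y_one]
      exact dvd_zero _
  | succ n ih =>
    obtain ⟨h3, h4⟩ := ih
    rw [zpow_add_one]
    refine ⟨?_, ?_⟩
    · rw [Pell.Solution₁.x_mul]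
      have e : (a ^ (n : ℤ)).x * a.x + d * ((a ^ (n : ℤ)).y * a.y) - 1 =
          ((a ^ (n : ℤ)).x - 1) * a.x + (a.x - 1) + d * (a ^ (n : ℤ)).y * a.y := by ring
      rw [e]
      exact dvd_add (dvd_add (Dvd.dvd.mul_right h3 _) h1) (Dvd.dvd.mul_left h2 _)
    · rw [Pell.Solution₁.y_mul]
      exact dvd_add (Dvd.dvd.mul_left h2 _) (Dvd.dvd.mul_right h4 _)
  | pred n ih =>
    obtain ⟨h3, h4⟩ := ih
    rw [zpow_sub_one]
    refine ⟨?_, ?_⟩
    · rw [Pell.Solution₁.x_mul, Pell.Solution₁.x_inv, Pell.Solution₁.y_inv]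
      have e : (a ^ (-(n : ℤ))).x * a.x + d * ((a ^ (-(n : ℤ))).y * -a.y) - 1 =
          ((a ^ (-(n : ℤ))).x - 1) * a.x + (a.x - 1) - d * (a ^ (-(n : ℤ))).y * a.y := by ring
      rw [e]
      exact dvd_sub (dvd_add (Dvd.dvd.mul_right h3 _) h1) (Dvd.dvd.mul_left h2 _)
    · rw [Pell.Solution₁.y_mul, Pell.Solution₁.x_inv, Pell.Solution₁.y_inv]
      exact dvd_add (Dvd.dvd.mul_left (dvd_neg.2 h2) _) (Dvd.dvd.mul_right h4 _)

/-- the automorph of a solution congruent to `1` -/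
theorem az_au {d K : ℕ} (Q : Form) {a : Pell.Solution₁ (d : ℤ)} (h : PK K a)
    (α : ZMod K × ZMod K) : az (au Q a.x a.y).adj α = α := by
  obtain ⟨h1, h2⟩ := h
  have e1 : ((a.x : ℤ) : ZMod K) = 1 := by
    have := (ZMod.intCast_zmod_eq_zero_iff_dvd (a.x - 1) K).2 h1
    push_cast at this
    exact sub_eq_zero.1 this
  have e2 : ((a.y : ℤ) : ZMod K) = 0 := (ZMod.intCast_zmod_eq_zero_iff_dvd _ K).2 h2
  unfold az Mat.adj au
  push_cast
  rw [e1, e2]
  simp

/-- the reduced similitude: its first column is the representative of the sector -/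
theorem red_mat {D : Dat} {P : ℕ × Bool} (h : Adm D P) (i : Cx D) :
    ∃ M : Mat, M.app (1, 0) = Red79.rd i ((Mg D P i).app (1, 0)) ∧ M.det = P.1 ∧
      (∀ u, (rp i).q (M.app u) = P.1 * (rp (sg D P i)).q u) ∧
      ∀ α : ZMod D.K × ZMod D.K, az M.adj α = az (Mg D P i).adj α := by
  have hr := (rel_g h i).2
  set n : ℤ := -⌊ps (rp i) ((Mg D P i).app (1, 0)) / D.T⌋ with hn
  refine ⟨(au (rp i) (D.a ^ n).x (D.a ^ n).y).mul (Mg D P i), ?_, ?_, ?_, ?_⟩
  · rw [Mat.app_mul]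
    rfl
  · rw [Mat.det_mul, det_au (rp_hyp i), one_mul, hr.det]
  · intro u
    rw [Mat.app_mul]
    have h1 := q_act (rp_hyp i) (D.a ^ n) ((Mg D P i).app u)
    unfold act at h1
    rw [h1, hr.sim]
  · intro α
    rw [adj_mul_rev, az_mul, az_au (rp i) (pk_zpow D.hK n)]

/-- the eigenvalue of the scalar `1` -/
theorem sw_one {D : Dat} (w : Fq D) : sw (1 : (ZMod D.K)ˣ) w = 1 := by
  obtain ⟨-, h⟩ := bv_spec_sc (D := D) (1 : (ZMod D.K)ˣ) w.1 w.2
  have h1 : Rn D 1 (bv D w.1 w.2 : Hs D) = (bv D w.1 w.2 : Hs D) := by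
    ext ia
    obtain ⟨i, α⟩ := ia
    rw [Rn_apply, inv_one, Units.val_one, sc_one]
  rw [h1] at h
  have h2 : (bv D w.1 w.2 : Hs D) ≠ 0 := by
    intro h3
    have := norm_bv (D := D) w.1 w.2
    rw [h3, norm_zero] at this
    exact zero_ne_one this
  have h3 : (1 : ℂ) • (bv D w.1 w.2 : Hs D) = sw (1 : (ZMod D.K)ˣ) w • (bv D w.1 w.2 : Hs D) := by
    rw [one_smul]
    exact h
  exact (smul_left_injective ℂ h2 h3).symm

/-- primes `1` modulo `K`: the conjugate has the conjugate eigenvalue -/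
theorem norm_diff {D : Dat} {p : ℕ} (h : Adm D (p, true)) (h1 : p ≡ 1 [MOD D.K]) (w : Fq D) :
    ‖cw (p, true) w - cw (p, false) w‖ ^ 2 = ‖1 - cw (p, true) w ^ 2‖ ^ 2 := by
  have h2 := cw_conj h w
  have h3 : ZMod.unitOfCoprime p h.cop = 1 := by
    apply Units.ext
    rw [ZMod.coe_unitOfCoprime, Units.val_one]
    have := (ZMod.natCast_eq_natCast_iff p 1 D.K).2 h1
    simpa using this
  rw [h3, sw_one] at h2
  simp only [Bool.not_true] at h2
  have h4 := norm_cw h w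
  have h5 : 1 - cw (p, true) w ^ 2 = -(cw (p, true) w * (cw (p, true) w - cw (p, false) w)) := by
    linear_combination (-1 : ℂ) * h2
  rw [h5, norm_neg, norm_mul, h4, one_mul]

/-- some coordinate of an eigenvector is not zero -/
theorem exists_coord {D : Dat} (w : Fq D) :
    ∃ (i : Cx D) (α : ZMod D.K × ZMod D.K), (bv D w.1 w.2 : Hs D) (i, α) ≠ 0 := by
  by_contra hcon
  push Not at hcon
  have h1 : (bv D w.1 w.2 : Hs D) = 0 := by
    ext ia
    exact hcon ia.1 ia.2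
  have h2 := norm_bv (D := D) w.1 w.2
  rw [h1, norm_zero] at h2
  exact zero_ne_one h2

open Classical in
/-- the square of the eigenvalue -/
theorem fun_exists {D : Dat} (w : Fq D) (i i' : Cx D)
    (α : ZMod D.K × ZMod D.K) (hx : (bv D w.1 w.2 : Hs D) (i, α) ≠ 0) :
    ∃ f : V → ℂ, (∀ v, ‖f v‖ = 1) ∧
      (∀ v v', Cgr ((2 * (rp i').a * D.K).toNat) v v' → f v' = f v) ∧
      ∀ p : ℕ, p.Prime → p ≡ 1 [MOD 4 * D.d] → p ≡ 1 [MOD D.K] → sg D (p, true) i = i' →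
        cw (p, true) w ^ 2 = f (Red79.rd i ((Mg D (p, true) i).app (1, 0))) *
          uu i (Red79.rd i ((Mg D (p, true) i).app (1, 0))) ^ (2 * w.1) := by
  have hK : 0 < D.K := D.Kpos
  set x : Hs D := (bv D w.1 w.2 : Hs D) with hxdef
  set m : ℕ := (2 * (rp i').a * D.K).toNat with hm
  have ha' : 0 < (rp i').a := (rp_hyp i').apos
  have hmz : (m : ℤ) = 2 * (rp i').a * D.K := Int.toNat_of_nonneg (by positivity)
  set G : ℕ → Prop := fun p => p.Prime ∧ p ≡ 1 [MOD 4 * D.d] ∧ p ≡ 1 [MOD D.K] ∧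
    sg D (p, true) i = i' with hG
  set F : ℕ → ℂ := fun p => (x (i', az (Mg D (p, true) i).adj α) / x (i, α)) ^ 2 with hF
  set mv : ℕ → V := fun p => Red79.rd i ((Mg D (p, true) i).app (1, 0)) with hmv
  -- the eigenvalue equation
  have heig : ∀ p, G p → cw (p, true) w ^ 2 = F p * uu i (mv p) ^ (2 * w.1) := by
    rintro p ⟨hp, h4, hk, hs⟩
    have hA : Adm D (p, true) := adm_of_one true hp h4 hk
    have h1 : Ug D (p, true) w.1 x (i, α) = cw (p, true) w * x (i, α) := by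
      rw [hxdef, (bv_spec hA w.1 w.2).2]
      rfl
    rw [Ug_apply, hs] at h1
    have h2 : ai (Mg D (p, true) i) α = az (Mg D (p, true) i).adj α := by
      have h3 : (((Mg D (p, true) i).det : ℤ) : ZMod D.K) = 1 := by
        rw [(rel_g hA i).2.det]
        have := (ZMod.natCast_eq_natCast_iff p 1 D.K).2 hk
        simpa using this
      have h4 : ((1 : ZMod D.K))⁻¹ = 1 := by
        have := ZMod.mul_inv_of_unit (1 : ZMod D.K) isUnit_one
        rwa [one_mul] at this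
      unfold ai
      rw [h3, h4, sc_one]
    rw [h2] at h1
    have hcone : Cn (rp i) ((Mg D (p, true) i).app (1, 0)) := (cn_M hA i _).2 (cn_e1 (rp_hyp _))
    have huu : uu i (mv p) = uu i ((Mg D (p, true) i).app (1, 0)) := Red79.rd_uu i hcone
    rw [huu]
    set U := uu i ((Mg D (p, true) i).app (1, 0)) with hU
    have hU0 : U ≠ 0 := uu_ne i _
    have h6 : U ^ (2 * w.1) = (U ^ w.1) ^ 2 := by
      rw [two_mul, zpow_add₀ hU0, sq]
    rw [h6, hF]
    simp only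
    have h7 : cw (p, true) w = (U ^ w.1) * (x (i', az (Mg D (p, true) i).adj α) / x (i, α)) := by
      rw [← mul_div_assoc, h1, mul_div_assoc, div_self hx, mul_one]
    rw [h7]
    ring
  have hFn : ∀ p, G p → ‖F p‖ = 1 := by
    intro p hp
    have h1 := heig p hp
    obtain ⟨hp, h4, hk, hs⟩ := hp
    have hA : Adm D (p, true) := adm_of_one true hp h4 hk
    have h2 := congrArg norm h1
    rw [norm_mul, norm_pow, norm_cw hA, norm_zpow, norm_uu, one_zpow, mul_one, one_pow] at h2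
    exact h2.symm
  set S : V → ℕ → Prop := fun v p => G p ∧ Cgr m (mv p) v with hS
  refine ⟨fun v => if ∃ p, S v p then F (Classical.epsilon (S v)) else 1, ?_, ?_, ?_⟩
  · intro v
    simp only
    split_ifs with h
    · exact hFn _ (Classical.epsilon_spec h).1
    · exact norm_one
  · intro v v' hv
    have h1 : S v' = S v := by
      funext p
      apply propext
      simp only [hS]
      refine and_congr_right fun _ => ?_
      obtain ⟨hv1, hv2⟩ := hv
      constructor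
      · rintro ⟨h1, h2⟩
        refine ⟨?_, ?_⟩
        · have := dvd_sub h1 hv1
          have e : v'.1 - (mv p).1 - (v'.1 - v.1) = v.1 - (mv p).1 := by ring
          rwa [e] at this
        · have := dvd_sub h2 hv2
          have e : v'.2 - (mv p).2 - (v'.2 - v.2) = v.2 - (mv p).2 := by ring
          rwa [e] at this
      · rintro ⟨h1, h2⟩
        refine ⟨?_, ?_⟩
        · have := dvd_add h1 hv1
          have e : v.1 - (mv p).1 + (v'.1 - v.1) = v'.1 - (mv p).1 := by ring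
          rwa [e] at this
        · have := dvd_add h2 hv2
          have e : v.2 - (mv p).2 + (v'.2 - v.2) = v'.2 - (mv p).2 := by ring
          rwa [e] at this
    simp only [h1]
  · intro p hp h4 hk hs
    have hg : G p := ⟨hp, h4, hk, hs⟩
    have hex : ∃ q, S (mv p) q :=
      ⟨p, hg, by rw [sub_self]; exact dvd_zero _, by rw [sub_self]; exact dvd_zero _⟩
    have h1 := Classical.epsilon_spec hex
    show cw (p, true) w ^ 2 = (if ∃ q, S (mv p) q then
      F (Classical.epsilon (S (mv p))) else 1) * uu i (mv p) ^ (2 * w.1)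
    rw [if_pos hex, heig p hg]
    set q := Classical.epsilon (S (mv p)) with hq
    congr 1
    -- `F p = F q`
    obtain ⟨⟨hq1, hq2, hq3, hq4⟩, hq5, hq6⟩ := h1
    have hA : Adm D (p, true) := adm_of_one true hp h4 hk
    have hB : Adm D (q, true) := adm_of_one true hq1 hq2 hq3
    obtain ⟨M1, r1, r2, r3, r4⟩ := red_mat hA i
    obtain ⟨M2, s1, s2, s3, s4⟩ := red_mat hB i
    rw [hs] at r3
    rw [hq4] at s3
    have e1 : ∀ M : Mat, (M.app (1, 0)).1 = M.a := fun M => by unfold Mat.app; simp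
    have e2 : ∀ M : Mat, (M.app (1, 0)).2 = M.c := fun M => by unfold Mat.app; simp
    have f1 : mv p = M1.app (1, 0) := r1.symm
    have f2 : mv q = M2.app (1, 0) := s1.symm
    rw [f1, f2, e1, e1, hmz] at hq5
    rw [f1, f2, e2, e2, hmz] at hq6
    have h5 := az_eq (K := D.K) (by exact_mod_cast hq1.ne_zero) (by exact_mod_cast hp.ne_zero)
      s2 s3 r2 r3 ha'.ne' hq5 hq6 α
    rw [r4, s4] at h5
    simp only [hF]
    rw [h5]

open Classical in
/-- the terms of the windows -/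
noncomputable def gP {D : Dat} (w : Fq D) (p : ℕ) : ℝ :=
  if p.Prime ∧ p ≡ 1 [MOD 4 * D.d * D.K] then
    (1 / (p : ℝ)) * ‖cw (p, true) w - cw (p, false) w‖ ^ 2 else 0

theorem gP_nonneg {D : Dat} (w : Fq D) (p : ℕ) : 0 ≤ gP w p := by
  unfold gP
  split_ifs <;> positivity

open Classical in
/-- one window -/
theorem winG (D : Dat) :
    ∃ c0 : ℝ, 0 < c0 ∧ ∀ κ : ℝ, 0 < κ → ∃ U0 : ℕ, ∀ u : ℕ, U0 ≤ u → ∀ w : Fq D, w.1 ≠ 0 →
      |(w.1 : ℝ)| ≤ Real.exp (u / κ) →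
      c0 / u ≤ ∑ p ∈ Finset.Ioc ⌊Real.exp u⌋₊ ⌊Real.exp ((u : ℝ) + 1)⌋₊, gP w p := by
  have hK : 0 < D.K := D.Kpos
  have hd : 0 < D.d := D.d_pos
  obtain ⟨δ1, hδ1, U1, hU1⟩ := MRSG.Win2.primes_win (4 * D.d * D.K) (by positivity)
  set Nc : ℕ := Fintype.card (Cx D) with hNc
  set δ2 : ℝ := δ1 / (Nc + 1) with hδ2
  have hδ20 : 0 < δ2 := by positivity
  have hm : ∀ i' : Cx D, 0 < (2 * (rp i').a * (D.K : ℤ)).toNat := by
    intro i'
    have ha' : 0 < (rp i').a := (rp_hyp i').apos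
    have : 0 < 2 * (rp i').a * (D.K : ℤ) := by positivity
    omega
  have haN : ∀ i' : Cx D, 0 < ((rp i').a).toNat := by
    intro i'
    have ha' : 0 < (rp i').a := (rp_hyp i').apos
    omega
  choose K0 hK0 hk using fun ii : Cx D × Cx D => winH D ii.1
    (2 * (rp ii.2).a * (D.K : ℤ)).toNat ((rp ii.2).a).toNat (hm ii.2) (haN ii.2) δ2 hδ20
  set Km : ℕ := 1 + ∑ ii, K0 ii with hKm
  have hKle : ∀ ii, K0 ii ≤ Km := by
    intro ii
    have := Finset.single_le_sum (f := K0) (fun _ _ => Nat.zero_le _) (Finset.mem_univ ii)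
    omega
  have hKm0 : (0 : ℝ) < Km := by
    have : 0 < Km := by omega
    exact_mod_cast this
  refine ⟨δ2 / (4 * (Km : ℝ) ^ 2) * Real.exp (-1), by positivity, fun κ hκ => ?_⟩
  choose U hU using fun ii => hk ii (κ / 2) (by positivity)
  refine ⟨U1 + ∑ ii, U ii + ⌈κ⌉₊ + 1, fun u hu w hw hwu => ?_⟩
  have hUle : ∀ ii, U ii ≤ u := by
    intro ii
    have := Finset.single_le_sum (f := U) (fun _ _ => Nat.zero_le _) (Finset.mem_univ ii)
    omega
  have hu1 : 1 ≤ u := by omega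
  have hu0 : (0 : ℝ) < u := by exact_mod_cast hu1
  have hκu : κ ≤ u := (Nat.le_ceil κ).trans (by exact_mod_cast (by omega : ⌈κ⌉₊ ≤ u))
  have hexp2 : (2 : ℝ) ≤ Real.exp (u / κ) := by
    have h1 : (1 : ℝ) ≤ u / κ := by rwa [le_div_iff₀ hκ, one_mul]
    have h2 := Real.add_one_le_exp ((u : ℝ) / κ)
    linarith
  have h2w : |((2 * w.1 : ℤ) : ℝ)| ≤ Real.exp (u / (κ / 2)) := by
    have h1 : Real.exp ((u : ℝ) / (κ / 2)) = Real.exp (u / κ) * Real.exp (u / κ) := by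
      rw [← Real.exp_add]
      congr 1
      field_simp
      ring
    rw [h1]
    push_cast
    rw [abs_mul, abs_two]
    exact mul_le_mul hexp2 hwu (abs_nonneg _) (Real.exp_pos _).le
  obtain ⟨i, α, hx⟩ := exists_coord w
  set PS : Finset ℕ := (Finset.Ioc ⌊Real.exp u⌋₊ ⌊Real.exp ((u : ℝ) + 1)⌋₊).filter
    (fun p : ℕ => p.Prime ∧ p ≡ 1 [MOD 4 * D.d * D.K]) with hPS
  have hPSc : δ1 * Real.exp u / u ≤ (PS.card : ℝ) := hU1 u (by omega)
  -- pigeonhole
  obtain ⟨i', -, hi'⟩ := Finset.exists_le_card_fiber_of_nsmul_le_card_of_maps_to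
    (s := PS) (t := (Finset.univ : Finset (Cx D))) (f := fun p => sg D (p, true) i)
    (b := (PS.card : ℝ) / (Nc + 1)) (fun _ _ => Finset.mem_univ _) ⟨i, Finset.mem_univ _⟩ (by
      rw [Finset.card_univ, nsmul_eq_mul, ← hNc, ← mul_div_assoc, div_le_iff₀ (by positivity)]
      have : (0 : ℝ) ≤ PS.card := Nat.cast_nonneg _
      nlinarith)
  set T : Finset ℕ := PS.filter (fun p => sg D (p, true) i = i') with hT
  set mv : ℕ → V := fun p => Red79.rd i ((Mg D (p, true) i).app (1, 0)) with hmv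
  have hTp : ∀ p ∈ T, p.Prime ∧ p ≡ 1 [MOD 4 * D.d] ∧ p ≡ 1 [MOD D.K] ∧ sg D (p, true) i = i' ∧
      Real.exp u < p ∧ (p : ℝ) ≤ Real.exp (u + 1) ∧ Adm D (p, true) := by
    intro p hp
    rw [hT, Finset.mem_filter, hPS, Finset.mem_filter, Finset.mem_Ioc] at hp
    obtain ⟨⟨⟨h1, h2⟩, h3, h4⟩, h5⟩ := hp
    have h6 : p ≡ 1 [MOD 4 * D.d] := Nat.ModEq.of_mul_right D.K h4
    have h7 : p ≡ 1 [MOD D.K] := Nat.ModEq.of_mul_left (4 * D.d) h4
    refine ⟨h3, h6, h7, h5, (Nat.floor_lt (Real.exp_pos _).le).1 h1, ?_,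
      adm_of_one true h3 h6 h7⟩
    exact (Nat.cast_le.2 h2).trans (Nat.floor_le (Real.exp_pos _).le)
  have ha' : 0 < (rp i').a := (rp_hyp i').apos
  have hqv : ∀ p ∈ T, (rp i).q (mv p) = p * (((rp i').a).toNat : ℤ) := by
    intro p hp
    obtain ⟨h1, h2, h3, h4, h5, h6, h7⟩ := hTp p hp
    have h8 := (rel_g h7 i).2.sim (1, 0)
    rw [h4] at h8
    rw [hmv]
    simp only
    rw [Red79.rd_q, h8, Int.toNat_of_nonneg ha'.le]
    unfold Form.q
    simp
  have hinj : Set.InjOn mv T := by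
    intro p hp p' hp' he
    have h1 := hqv p hp
    have h2 := hqv p' hp'
    rw [he, h2] at h1
    have h3 : (((rp i').a).toNat : ℤ) ≠ 0 := by
      have := haN i'
      omega
    have h4 := mul_right_cancel₀ h3 h1
    exact_mod_cast h4.symm
  set R : Finset V := T.image mv with hR
  have hRc : (R.card : ℝ) = T.card := by
    rw [hR, Finset.card_image_of_injOn hinj]
  obtain ⟨f, hf1, hf2, hf3⟩ := fun_exists w i i' α hx
  have hTc : δ2 * Real.exp u / u ≤ (T.card : ℝ) := by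
    refine le_trans ?_ hi'
    rw [hδ2]
    calc δ1 / ((Nc : ℝ) + 1) * Real.exp u / u = (δ1 * Real.exp u / u) / (Nc + 1) := by ring
      _ ≤ (PS.card : ℝ) / (Nc + 1) := by
        apply div_le_div_of_nonneg_right hPSc
        positivity
  have hmain := hU (i, i') u (hUle _) (2 * w.1) (mul_ne_zero two_ne_zero hw) h2w f hf1 hf2 R
    (by
      intro v hv
      rw [hR, Finset.mem_image] at hv
      obtain ⟨p, hp, rfl⟩ := hv
      obtain ⟨h1, h2, h3, h4, h5, h6, h7⟩ := hTp p hp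
      exact ⟨Red79.rd_sec i ((cn_M h7 i _).2 (cn_e1 (rp_hyp _))), p, h1, h5, h6, hqv p hp⟩)
    (by rw [hRc]; exact hTc)
  rw [hR, Finset.sum_image hinj, ← hR, hRc] at hmain
  have hterm : ∀ p ∈ T, ‖1 - f (mv p) * uu i (mv p) ^ (2 * w.1)‖ ^ 2 =
      ‖cw (p, true) w - cw (p, false) w‖ ^ 2 := by
    intro p hp
    obtain ⟨h1, h2, h3, h4, h5, h6, h7⟩ := hTp p hp
    rw [norm_diff h7 h3 w, hf3 p h1 h2 h3 h4]
  rw [Finset.sum_congr rfl hterm] at hmain
  have hTsub : T ⊆ Finset.Ioc ⌊Real.exp u⌋₊ ⌊Real.exp ((u : ℝ) + 1)⌋₊ :=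
    (Finset.filter_subset _ _).trans (Finset.filter_subset _ _)
  have hlow : ∑ p ∈ T, gP w p ≤
      ∑ p ∈ Finset.Ioc ⌊Real.exp u⌋₊ ⌊Real.exp ((u : ℝ) + 1)⌋₊, gP w p :=
    Finset.sum_le_sum_of_subset_of_nonneg hTsub fun p _ _ => gP_nonneg w p
  have hlow2 : Real.exp (-((u : ℝ) + 1)) * ∑ p ∈ T, ‖cw (p, true) w - cw (p, false) w‖ ^ 2 ≤
      ∑ p ∈ T, gP w p := by
    rw [Finset.mul_sum]
    refine Finset.sum_le_sum fun p hp => ?_
    obtain ⟨h1, h2, h3, h4, h5, h6, h7⟩ := hTp p hp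
    have h8 : p.Prime ∧ p ≡ 1 [MOD 4 * D.d * D.K] := by
      rw [hT, Finset.mem_filter, hPS, Finset.mem_filter] at hp
      exact hp.1.2
    unfold gP
    rw [if_pos h8]
    refine mul_le_mul_of_nonneg_right ?_ (by positivity)
    have hp0 : (0 : ℝ) < p := by exact_mod_cast h1.pos
    rw [Real.exp_neg, ← one_div]
    exact one_div_le_one_div_of_le hp0 h6
  refine le_trans ?_ (hlow2.trans hlow)
  have hKr : (K0 (i, i') : ℝ) ≤ Km := by exact_mod_cast hKle _
  have hK00 : (0 : ℝ) < K0 (i, i') := by exact_mod_cast hK0 _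
  calc δ2 / (4 * (Km : ℝ) ^ 2) * Real.exp (-1) / u
      = Real.exp (-((u : ℝ) + 1)) * ((δ2 * Real.exp u / u) / (4 * (Km : ℝ) ^ 2)) := by
        have : Real.exp (-1) = Real.exp (-((u : ℝ) + 1)) * Real.exp u := by
          rw [← Real.exp_add]
          congr 1
          ring
        rw [this]
        ring
    _ ≤ Real.exp (-((u : ℝ) + 1)) * ((T.card : ℝ) / (4 * (K0 (i, i') : ℝ) ^ 2)) := by
        refine mul_le_mul_of_nonneg_left ?_ (Real.exp_pos _).le
        gcongr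
    _ ≤ _ := mul_le_mul_of_nonneg_left hmain (Real.exp_pos _).le

end Win40

open Win40 in
open Classical in
/-- **DJ**: the eigenvalues of the primes and of their conjugates differ. -/
theorem stDjG_40 (D : Dat) : StDjG D := by
  intro c B hc
  obtain ⟨c0, hc0, hwin⟩ := winG D
  obtain ⟨kap, hkap, hsum⟩ := djabs_40 hc0 (half_pos hc) (two_pos (α := ℝ)) B
  obtain ⟨U0, hU0⟩ := hwin kap hkap
  obtain ⟨N0, hN0, hN⟩ := hsum U0
  refine ⟨max N0 2, hN0.trans (le_max_left _ _), fun N hNN w hw hwN => ?_⟩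
  have hN2 : 2 ≤ N := (le_max_right _ _).trans hNN
  have h1 := hN N ((le_max_left _ _).trans hNN) (gP w) (gP_nonneg w) (fun u hu _ hNu _ => by
    refine hU0 u hu w hw (hwN.trans ?_)
    rw [Real.rpow_two] at hNu
    exact hNu)
  refine h1.trans ?_
  set FS : Finset ℕ := (Finset.Ioc 0 ⌊N ^ (c / 2)⌋₊).filter
    (fun p : ℕ => p.Prime ∧ p ≡ 1 [MOD 4 * D.d * D.K]) with hFS
  have h2 : ∑ p ∈ Finset.Ioc 0 ⌊N ^ (c / 2)⌋₊, gP w p =
      ∑ p ∈ FS, (1 / (p : ℝ)) * ‖cw (p, true) w - cw (p, false) w‖ ^ 2 := by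
    rw [hFS, Finset.sum_filter]
    rfl
  rw [h2]
  have hinj : Set.InjOn (fun p : ℕ => ((p, true) : ℕ × Bool)) FS := by
    intro a _ b _ hab
    exact (Prod.ext_iff.1 hab).1
  have h3 : ∑ p ∈ FS, (1 / (p : ℝ)) * ‖cw (p, true) w - cw (p, false) w‖ ^ 2 =
      ∑ P ∈ FS.image (fun p : ℕ => ((p, true) : ℕ × Bool)),
        (1 / (P.1 : ℝ)) * ‖cw P w - cw (P.1, !P.2) w‖ ^ 2 := by
    rw [Finset.sum_image hinj]
    rfl
  rw [h3]
  refine Finset.sum_le_sum_of_subset_of_nonneg ?_ fun P _ _ => by positivity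
  intro P hP
  rw [Finset.mem_image] at hP
  obtain ⟨p, hp, rfl⟩ := hP
  rw [hFS, Finset.mem_filter, Finset.mem_Ioc] at hp
  obtain ⟨⟨-, hp1⟩, hp2, hp3⟩ := hp
  have h6 : p ≡ 1 [MOD 4 * D.d] := Nat.ModEq.of_mul_right D.K hp3
  have h7 : p ≡ 1 [MOD D.K] := Nat.ModEq.of_mul_left (4 * D.d) hp3
  rw [mem_slg]
  refine ⟨adm_of_one true hp2 h6 h7, ?_, ?_⟩
  · have h8 : p % 4 = 1 := Nat.ModEq.of_mul_right D.d h6
    have h9 := hp2.two_le
    have : 3 ≤ p := by omega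
    exact_mod_cast this
  · have h8 : (p : ℝ) ≤ N ^ (c / 2) := (Nat.cast_le.2 hp1).trans (Nat.floor_le (by positivity))
    refine lt_of_le_of_lt h8 ?_
    exact Real.rpow_lt_rpow_of_exponent_lt (by linarith) (by linarith)

end Pool.Agent.Lib.MP_a17b09_nt.MRH
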