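import Pool.Agent.Lib.MP_a17b09_nt.MRH.Core29
import Pool.Agent.Lib.MP_a17b09_nt.MRH.DecHD42
import Pool.Agent.Lib.MP_a17b09_nt.MRH.HmuH96
import Pool.Agent.Lib.MP_a17b09_nt.MRH.LevH38
import Pool.Agent.Lib.MP_a17b09_nt.MRH.LipH42
import Pool.Agent.Lib.MP_a17b09_nt.MRH.LspH22
import Pool.Agent.Lib.MP_a17b09_nt.MRH.MerH7
import Pool.Agent.Lib.MP_a17b09_nt.MRH.MomH16
import Pool.Agent.Lib.MP_a17b09_nt.MRH.Pa0H91
import Pool.Agent.Lib.MP_a17b09_nt.MRH.Pw0H29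
import Pool.Agent.Lib.MP_a17b09_nt.MRH.PwtH84
import Pool.Agent.Lib.MP_a17b09_nt.MRH.Uall39
import Pool.Agent.Lib.MP_a17b09_nt.MRH.Up70
import Pool.Agent.Lib.MP_a17b09_nt.MRH.Win40
import Pool.Agent.Lib.MP_a17b09_nt.MRS.Sch27
import Pool.Agent.Lib.MP_a17b09_nt.MRH.MrsH90

/-!
Project MRH: assembly of all rows.  The only hypothesis is the row `StTkhG`.
-/

set_option autoImplicit false

namespace Pool.Agent.Lib.MP_a17b09_nt.MRH

open CH CH.PE HY HY.S68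

theorem stLevG_all90 (D : Dat) : StLevG D :=
  stLevG_38 MRS.stSch_27 D (stDecG_42 D) (stMomG_16 D (stLsG_22 D)) (stMom1G_16 D (stLsG_22 D))
    (stMerG_7 D)

theorem stUpG_all90 (D : Dat) (hT : StTkhG D) : StUpG D :=
  stUpG_70 D (stUallG_39 D hT (stDjG_40 D)) (stHmuG_96 D)

theorem stPw0G_all90 (D : Dat) : StPw0G D :=
  stPw0G_29 D (stPa0G_91 D (stPwtG_84 D) (stLipG_42 D))

theorem stCoreG_all90 (D : Dat) (hT : StTkhG D) : StCoreG D :=
  stCoreG_29 D (stLevG_all90 D) (stUpG_all90 D hT) (stPw0G_all90 D)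

/-- the interface for every indefinite form of discriminant `d` -/
theorem stMrsH_all90 {d : ℕ} (hT : ∀ D : Dat, D.d = d → StTkhG D) : StMrsH d :=
  stMrsH_90 fun D hD => stCoreG_all90 D (hT D hD)

end Pool.Agent.Lib.MP_a17b09_nt.MRH
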