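import Pool.Agent.Lib.MP_a17b09_nt.MRH.Defs79
import Pool.Agent.Lib.MP_a17b09_nt.MRSG.AlgG91

/-!
MRH, frequency 0, the algebra: the eigenvectors as functions of pairs (form, vector of positive
value), even in the vector.
-/

set_option autoImplicit false

open Finset

namespace Pool.Agent.Lib.MP_a17b09_nt.MRH91

open CH CH.PE HY HY.S68 MRH
open CHI (ClI exists_clI rtI rtI_spec)
open MRSG (Efn Stp mX mX_det mX_q az_mul az_sc sc_sc sc_one az_ai ai_az cl_app' cl_smul'
  comp_adj_of adj_mul_rev adj_adj sc ai)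

variable {D : Dat}

/-- every form has a representative -/
theorem exists_cx {Q : Form} (hD : Q.D = -(D.d : ℤ)) :
    ∃ (i : Cx D) (γ : Mat), γ.det = 1 ∧ rp i = Q.comp γ := by
  obtain ⟨i, hi⟩ := exists_clI hD
  obtain ⟨γ, h1, h2⟩ := hi.trans (hr_eqv D.ns i)
  exact ⟨i, γ, h1, h2⟩

open Classical in
/-- the invariant function on pairs (form, vector) defined by an element of `E_0` -/
noncomputable def EE (x : Hs D) (Q : Form) (v : V) : ℂ :=
  if h : Q.D = -(D.d : ℤ) ∧ 0 < Q.q v then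
    (starRingEnd ℂ) (x ((exists_cx h.1).choose, cl D.K
      (if Cn (rp (exists_cx h.1).choose) ((exists_cx h.1).choose_spec.choose.adj.app v) then
        (exists_cx h.1).choose_spec.choose.adj.app v
      else -((exists_cx h.1).choose_spec.choose.adj.app v))))
  else 0

theorem EE_neg {x : Hs D} {Q : Form} {v : V} (h : ¬ (Q.D = -(D.d : ℤ) ∧ 0 < Q.q v)) :
    EE x Q v = 0 := by
  classical
  unfold EE
  rw [dif_neg h]

theorem az_auto {N : Mat} {x : Hs D} (hx : x ∈ Ej D 0) {i : Cx D} (h1 : N.det = 1)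
    (h2 : (rp i).comp N = rp i) (h3 : Cn (rp i) (N.app (1, 0))) (α : ZMod D.K × ZMod D.K) :
    x (i, az N α) = x (i, α) := by
  have := (mem_Ej.1 hx) i N h1 h2 h3 α
  rwa [zpow_zero, one_mul] at this

theorem ng_comp {Q : Form} {N : Mat} (h : Q.comp N = Q) : Q.comp (ng N) = Q := by
  apply Form.ext_q
  intro v
  rw [Form.comp_q, ng_app, q_neg, ← Form.comp_q, h]

open Classical in
theorem aux {x : Hs D} (hx : x ∈ Ej D 0) {Q : Form} {i i' : Cx D} {γ γ' : Mat}
    (h1 : γ.det = 1) (h2 : rp i = Q.comp γ) (h1' : γ'.det = 1) (h2' : rp i' = Q.comp γ')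
    {u w : V} (hu : Cn (rp i) u) (hw : w = γ.app u ∨ w = -(γ.app u)) :
    x (i', cl D.K (if Cn (rp i') (γ'.adj.app w) then γ'.adj.app w else -(γ'.adj.app w))) =
      x (i, cl D.K u) := by
  have e : i = i' := rp_inj (Eqv.trans (Eqv.symm ⟨γ, h1, h2⟩) ⟨γ', h1', h2'⟩)
  subst e
  set N : Mat := γ'.adj.mul γ with hN
  have hN1 : N.det = 1 := by rw [hN, Mat.det_mul, Mat.det_adj, h1, h1', one_mul]
  have hN2 : (rp i).comp N = rp i := by
    nth_rewrite 1 [h2']
    rw [hN, Form.comp_comp, ← Mat.mul_assoc', Mat.mul_adj h1', Mat.one_mul', ← h2]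
  have hsim : ∀ u, (rp i).q (N.app u) = 1 * (rp i).q u := fun u => by
    rw [← Form.comp_q, hN2, one_mul]
  obtain ⟨N', hd, hc, hcn, hNN⟩ : ∃ N' : Mat, N'.det = 1 ∧ (rp i).comp N' = rp i ∧
      (∀ u, Cn (rp i) (N'.app u) ↔ Cn (rp i) u) ∧
      ∀ u, N.app u = N'.app u ∨ N.app u = -(N'.app u) := by
    rcases cone_or (rp_hyp i) (rp_hyp i) one_pos hsim with h | h
    · exact ⟨N, hN1, hN2, h, fun u => Or.inl rfl⟩
    · refine ⟨ng N, by rw [ng_det, hN1], ng_comp hN2, h, fun u => Or.inr ?_⟩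
      rw [ng_app, neg_neg]
  have happ : ∀ v : V, γ'.adj.app (-v) = -(γ'.adj.app v) := by
    intro v
    unfold Mat.app
    ext <;> simp <;> ring
  have hw' : γ'.adj.app w = N'.app u ∨ γ'.adj.app w = -(N'.app u) := by
    have h3 : γ'.adj.app (γ.app u) = N.app u := by rw [hN, Mat.app_mul]
    rcases hw with rfl | rfl
    · rw [h3]; exact hNN u
    · rw [happ, h3]
      rcases hNN u with h | h
      · right; rw [h]
      · left; rw [h, neg_neg]
  have hNu : Cn (rp i) (N'.app u) := (hcn u).2 hu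
  have hN0 : Cn (rp i) (N'.app (1, 0)) := (hcn _).2 (cn_e1 (rp_hyp i))
  have hfin : x (i, cl D.K (N'.app u)) = x (i, cl D.K u) := by
    rw [cl_app', az_auto hx hd hc hN0]
  rcases hw' with h | h
  · rw [h, if_pos hNu, hfin]
  · rw [h, if_neg (cn_not hNu), neg_neg, hfin]

/-- the value at `± γ u`, `u` in the cone -/
theorem EE_val {x : Hs D} (hx : x ∈ Ej D 0) {Q : Form} (hD : Q.D = -(D.d : ℤ)) {i : Cx D}
    {γ : Mat} (h1 : γ.det = 1) (h2 : rp i = Q.comp γ) {u w : V} (hu : Cn (rp i) u)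
    (hw : w = γ.app u ∨ w = -(γ.app u)) : EE x Q w = (starRingEnd ℂ) (x (i, cl D.K u)) := by
  classical
  have hq : 0 < Q.q w := by
    have h3 : Q.q w = (rp i).q u := by
      rw [h2, Form.comp_q]
      rcases hw with rfl | rfl
      · rfl
      · rw [q_neg]
    rw [h3]
    exact hu.q_pos (rp_hyp i)
  have h : Q.D = -(D.d : ℤ) ∧ 0 < Q.q w := ⟨hD, hq⟩
  unfold EE
  rw [dif_pos h]
  congr 1
  obtain ⟨h1', h2'⟩ := (exists_cx h.1).choose_spec.choose_spec
  exact aux hx h1 h2 h1' h2' hu hw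

theorem app_adj_one {γ : Mat} (h : γ.det = 1) (v : V) : γ.app (γ.adj.app v) = v := by
  rw [Mat.app_adj, h, one_smul]

theorem app_neg (A : Mat) (v : V) : A.app (-v) = -(A.app v) := by
  unfold Mat.app
  ext <;> simp <;> ring

/-- vectors of positive value are `± γ u`, `u` in the cone -/
theorem rep_of {Q : Form} {i : Cx D} {γ : Mat} (h1 : γ.det = 1) (h2 : rp i = Q.comp γ) {v : V}
    (hv : 0 < Q.q v) : ∃ u : V, Cn (rp i) u ∧ (v = γ.app u ∨ v = -(γ.app u)) := by
  have h3 : 0 < (rp i).q (γ.adj.app v) := by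
    rw [h2, Form.comp_q, app_adj_one h1]
    exact hv
  rcases cn_or (rp_hyp i) h3 with h | h
  · exact ⟨_, h, Or.inl (app_adj_one h1 v).symm⟩
  · exact ⟨_, h, Or.inr (by rw [app_neg, app_adj_one h1, neg_neg])⟩

theorem EE_rep {x : Hs D} (hx : x ∈ Ej D 0) (i : Cx D) {v : V} (hv : Cn (rp i) v) :
    EE x (rp i) v = (starRingEnd ℂ) (x (i, cl D.K v)) := by
  refine EE_val hx (rp_D i) Mat.det_one (Form.comp_one _).symm hv (Or.inl ?_)
  unfold Mat.one Mat.app
  ext <;> simp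

theorem EE_inv {x : Hs D} (hx : x ∈ Ej D 0) (Q : Form) (γ : Mat) (u : V)
    (hD : Q.D = -(D.d : ℤ)) (hγ : γ.det = 1) : EE x (Q.comp γ) u = EE x Q (γ.app u) := by
  have hD' : (Q.comp γ).D = -(D.d : ℤ) := by rw [Form.comp_D, hγ, hD]; ring
  by_cases hq : 0 < Q.q (γ.app u)
  · obtain ⟨i, γ1, h1, h2⟩ := exists_cx (D := D) hD
    obtain ⟨w, hw, hw'⟩ := rep_of h1 h2 hq
    have hd : (γ.adj.mul γ1).det = 1 := by rw [Mat.det_mul, Mat.det_adj, hγ, h1, one_mul]
    have hc : rp i = (Q.comp γ).comp (γ.adj.mul γ1) := by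
      rw [Form.comp_comp, ← Mat.mul_assoc', Mat.mul_adj hγ, Mat.one_mul', h2]
    have hu : u = (γ.adj.mul γ1).app w ∨ u = -((γ.adj.mul γ1).app w) := by
      have h3 : u = γ.adj.app (γ.app u) := by rw [Mat.adj_app, hγ, one_smul]
      rw [Mat.app_mul]
      rcases hw' with h | h
      · left; rw [← h]; exact h3
      · right
        rw [← app_neg, ← h]; exact h3
    rw [EE_val hx hD h1 h2 hw hw', EE_val hx hD' hd hc hw hu]
  · rw [EE_neg (fun h => hq h.2), EE_neg (fun h => hq (by rw [← Form.comp_q]; exact h.2))]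

/-- eigenvalues as functions of the root -/
noncomputable def ce (D : Dat) (k : Fin (mm D 0)) (p : ℕ) (r : ℤ) : ℂ :=
  cv D (p, decide ((p : ℤ) ∣ r - rtI D.d p)) 0 k

/-- the eigenvector, `j = 0` -/
theorem bv_app {P : ℕ × Bool} (h : Adm D P) (k : Fin (mm D 0)) (i : Cx D)
    (α : ZMod D.K × ZMod D.K) : (bv D 0 k : Hs D) (sg D P i, ai (Mg D P i) α) =
      cv D P 0 k * (bv D 0 k : Hs D) (i, α) := by
  have h1 := (bv_spec h 0 k).2
  have h2 := congrArg (fun y : Hs D => y (i, α)) h1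
  simp only [Ug_apply, zpow_zero, one_mul, PiLp.smul_apply, smul_eq_mul] at h2
  exact h2

theorem rel_D {p r : ℤ} (hp : p ≠ 0) {Q Q' : Form} {M : Mat} (h : Rel p r Q Q' M) :
    Q'.D = Q.D := by
  have h1 : Q.comp M = ⟨p * Q'.a, p * Q'.b, p * Q'.c⟩ := by
    apply Form.ext_q
    intro v
    rw [Form.comp_q, h.sim]
    unfold Form.q
    ring
  have h2 := Q.comp_D M
  rw [h1, h.det] at h2
  have h3 : p ^ 2 * Q'.D = p ^ 2 * Q.D := by
    unfold Form.D at h2 ⊢
    simp only at h2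
    linear_combination h2
  exact mul_left_cancel₀ (pow_ne_zero 2 hp) h3

theorem rel_root {p r : ℤ} (hpp : Prime p) {Q Q' : Form} {M : Mat} (hR : Rel p r Q Q' M) :
    p ∣ r ^ 2 + Q.D := by
  have e1 : ∀ w : V, p ∣ (r ^ 2 + Q.D) * (M.app w).1 ∧ p ∣ (r ^ 2 + Q.D) * (M.app w).2 := by
    intro w
    have h1 := hR.eig w (1, 0)
    have h2 := hR.eig w (0, 1)
    simp only [Form.B, wd] at h1 h2
    constructor
    · have : (r ^ 2 + Q.D) * (M.app w).1 = (2 * Q.c) *
          (2 * Q.a * 1 * (M.app w).1 + Q.b * (1 * (M.app w).2 + 0 * (M.app w).1) +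
            2 * Q.c * 0 * (M.app w).2 - r * (1 * (M.app w).2 - 0 * (M.app w).1)) -
          (Q.b - r) * (2 * Q.a * 0 * (M.app w).1 + Q.b * (0 * (M.app w).2 +
            1 * (M.app w).1) + 2 * Q.c * 1 * (M.app w).2 -
            r * (0 * (M.app w).2 - 1 * (M.app w).1)) := by
        unfold Form.D; ring
      rw [this]
      exact dvd_sub (Dvd.dvd.mul_left h1 _) (Dvd.dvd.mul_left h2 _)
    · have : (r ^ 2 + Q.D) * (M.app w).2 = (2 * Q.a) *
          (2 * Q.a * 0 * (M.app w).1 + Q.b * (0 * (M.app w).2 +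
            1 * (M.app w).1) + 2 * Q.c * 1 * (M.app w).2 -
            r * (0 * (M.app w).2 - 1 * (M.app w).1)) - (Q.b + r) *
          (2 * Q.a * 1 * (M.app w).1 + Q.b * (1 * (M.app w).2 + 0 * (M.app w).1) +
            2 * Q.c * 0 * (M.app w).2 - r * (1 * (M.app w).2 - 0 * (M.app w).1)) := by
        unfold Form.D; ring
      rw [this]
      exact dvd_sub (Dvd.dvd.mul_left h2 _) (Dvd.dvd.mul_left h1 _)
  by_contra hne
  have e2 := e1 (1, 0)
  have e3 := e1 (0, 1)
  simp only [Mat.app, mul_one, mul_zero, add_zero, zero_add] at e2 e3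
  have f1 := (hpp.dvd_or_dvd e2.1).resolve_left hne
  have f2 := (hpp.dvd_or_dvd e2.2).resolve_left hne
  have f3 := (hpp.dvd_or_dvd e3.1).resolve_left hne
  have f4 := (hpp.dvd_or_dvd e3.2).resolve_left hne
  obtain ⟨a, ha⟩ := f1
  obtain ⟨c, hc⟩ := f2
  obtain ⟨b, hb⟩ := f3
  obtain ⟨e, he⟩ := f4
  have h5 := hR.det
  unfold Mat.det at h5
  rw [ha, hc, hb, he] at h5
  have h6 : p * (a * e - b * c) * p = 1 * p := by linear_combination h5
  have h7 := mul_right_cancel₀ hpp.ne_zero h6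
  exact hpp.not_isUnit (isUnit_of_dvd_one ⟨_, h7.symm⟩)

theorem EE_rel (k : Fin (mm D 0)) (p : ℕ) (r : ℤ) (Q Q' : Form) (M : Mat) (u : V)
    (hp : p.Prime) (hpK : p.Coprime D.K) (hr : ¬ (p : ℤ) ∣ 2 * r) (hD : Q.D = -(D.d : ℤ))
    (hR : Rel p r Q Q' M) :
    EE (bv D 0 k : Hs D) Q (M.app u) = ce D k p r * EE (bv D 0 k : Hs D) Q' u := by
  have hx : (bv D 0 k : Hs D) ∈ Ej D 0 := (bv D 0 k).2
  have hpp : Prime (p : ℤ) := Nat.prime_iff_prime_int.1 hp
  have hp0 : (0 : ℤ) < p := by exact_mod_cast hp.pos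
  have hD' : Q'.D = -(D.d : ℤ) := by rw [rel_D hp0.ne' hR, hD]
  by_cases hq : 0 < Q'.q u
  · -- the root
    have hroot : (p : ℤ) ∣ r ^ 2 - D.d := by
      have := rel_root hpp hR
      rwa [hD, ← sub_eq_add_neg] at this
    have h2d : ¬ p ∣ 2 * D.d := by
      intro h
      rcases (Nat.Prime.dvd_mul hp).1 h with h | h
      · apply hr
        exact Dvd.dvd.mul_right (by exact_mod_cast h) r
      · apply hr
        have h3 : (p : ℤ) ∣ r ^ 2 := by
          have h4 : (p : ℤ) ∣ (D.d : ℤ) := by exact_mod_cast h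
          have := dvd_add hroot h4
          rwa [sub_add_cancel] at this
        exact Dvd.dvd.mul_left (hpp.dvd_of_dvd_pow h3) 2
    have hnd : ¬ p ∣ 2 * D.d * D.K := by
      intro h
      rcases (Nat.Prime.dvd_mul hp).1 h with h | h
      · exact h2d h
      · exact (Nat.Prime.coprime_iff_not_dvd hp).1 hpK h
    set b : Bool := decide ((p : ℤ) ∣ r - rtI D.d p) with hb
    have hA : Adm D (p, b) := ⟨hp, hnd, r, hroot⟩
    have hrg : (p : ℤ) ∣ r - rg D (p, b) := by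
      by_cases h : (p : ℤ) ∣ r - rtI D.d p
      · have : b = true := by rw [hb]; simpa using h
        rw [this]
        exact h
      · have hbf : b = false := by rw [hb]; simpa using h
        rw [hbf]
        have h3 : (p : ℤ) ∣ (r - rtI D.d p) * (r + rtI D.d p) := by
          have h4 : (p : ℤ) ∣ rtI D.d p ^ 2 - D.d := by
            have hA' : Adm D (p, true) := ⟨hp, hnd, r, hroot⟩
            exact rg_sq hA'
          have h5 : (r - rtI D.d p) * (r + rtI D.d p) =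
              (r ^ 2 - D.d) - (rtI D.d p ^ 2 - D.d) := by ring
          rw [h5]
          exact dvd_sub hroot h4
        have h6 := (hpp.dvd_or_dvd h3).resolve_left h
        show (p : ℤ) ∣ r - -rtI D.d p
        rw [sub_neg_eq_add]
        exact h6
    obtain ⟨i, γ, h1, h2⟩ := exists_cx (D := D) hD
    have hR1 : Rel p (rg D (p, b)) (rp i) Q' (γ.adj.mul M) := by
      rw [h2]
      exact (MRSG91.Rel.congr hrg hR).left h1
    obtain ⟨hr0, hR0⟩ := rel_g hA i
    obtain ⟨N, hN, hMN, hQN⟩ := Rel.uniq hpp hr0 hR0 hR1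
    have hNa : N.adj.det = 1 := by rw [Mat.det_adj, hN]
    have h2' : rp (sg D (p, b) i) = Q'.comp N.adj := by
      rw [hQN, Form.comp_comp, Mat.mul_adj hN, Form.comp_one]
    obtain ⟨w, hw, hu⟩ := rep_of hNa h2' hq
    have hMw : Cn (rp i) ((Mg D (p, b) i).app w) := (cn_M hA i w).2 hw
    have hkey : M.app (N.adj.app w) = γ.app ((Mg D (p, b) i).app w) := by
      have e1 : M.app (N.adj.app w) = γ.app ((γ.adj.mul M).app (N.adj.app w)) := by
        rw [Mat.app_mul, app_adj_one h1]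
      rw [e1, hMN, Mat.app_mul, app_adj_one hN]
    have hMu : M.app u = γ.app ((Mg D (p, b) i).app w) ∨
        M.app u = -(γ.app ((Mg D (p, b) i).app w)) := by
      rcases hu with h | h
      · left; rw [h, hkey]
      · right; rw [h, app_neg, hkey]
    rw [EE_val hx hD h1 h2 hMw hMu, EE_val hx hD' hNa h2' hw hu]
    have hdet := unit_M hA i
    have h3 := bv_app hA k i (az (Mg D (p, b) i) (cl D.K w))
    rw [ai_az hdet] at h3
    rw [cl_app', h3]
    unfold ce
    rw [← hb, map_mul, ← mul_assoc, Complex.mul_conj, Complex.normSq_eq_norm_sq,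
      (bv_spec hA 0 k).1]
    norm_num
  · have hq' : ¬ 0 < Q.q (M.app u) := by
      rw [hR.sim]
      intro h
      exact hq ((mul_pos_iff_of_pos_left hp0).1 h)
    rw [EE_neg (fun h => hq h.2), EE_neg (fun h => hq' h.2), mul_zero]

open Classical in
/-- the eigenvalues of the scalars as functions of integers -/
noncomputable def se (D : Dat) (k : Fin (mm D 0)) (n : ℤ) : ℂ :=
  if h : IsUnit ((n : ℤ) : ZMod D.K) then sv D h.unit 0 k else 0

/-- the same, even -/
noncomputable def sh (D : Dat) (k : Fin (mm D 0)) (n : ℤ) : ℂ :=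
  if n = 0 then 0 else se D k |n|

theorem se_val (k : Fin (mm D 0)) {n : ℤ} (hn : IsCoprime n (D.K : ℤ)) (i : Cx D)
    (α : ZMod D.K × ZMod D.K) : (starRingEnd ℂ) ((bv D 0 k : Hs D) (i, sc (n : ZMod D.K) α)) =
      se D k n * (starRingEnd ℂ) ((bv D 0 k : Hs D) (i, α)) := by
  have hu : IsUnit ((n : ℤ) : ZMod D.K) := by
    obtain ⟨a, b, hab⟩ := hn
    have := congrArg (fun t : ℤ => (t : ZMod D.K)) hab
    push_cast at this
    rw [ZMod.natCast_self, mul_zero, add_zero] at this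
    exact IsUnit.of_mul_eq_one _ (by rw [mul_comm]; exact this)
  have h3 := (bv_spec_sc (D := D) hu.unit 0 k).2
  have h4 := congrArg (fun y : Hs D => y (i, sc (n : ZMod D.K) α)) h3
  simp only [Rn_apply, PiLp.smul_apply, smul_eq_mul] at h4
  rw [sc_sc] at h4
  have h5 : ((hu.unit⁻¹ : (ZMod D.K)ˣ) : ZMod D.K) * (n : ZMod D.K) = 1 := by
    have := Units.inv_mul hu.unit
    rwa [IsUnit.unit_spec] at this
  rw [h5, sc_one] at h4
  rw [h4]
  unfold se
  rw [dif_pos hu, map_mul, ← mul_assoc, Complex.mul_conj, Complex.normSq_eq_norm_sq,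
    (bv_spec_sc (D := D) hu.unit 0 k).1]
  norm_num

theorem EE_sca (k : Fin (mm D 0)) (n : ℤ) (Q : Form) (u : V) (hn : IsCoprime n (D.K : ℤ))
    (hD : Q.D = -(D.d : ℤ)) :
    EE (bv D 0 k : Hs D) Q (n • u) = sh D k n * EE (bv D 0 k : Hs D) Q u := by
  have hx : (bv D 0 k : Hs D) ∈ Ej D 0 := (bv D 0 k).2
  by_cases hn0 : n = 0
  · subst hn0
    unfold sh
    rw [if_pos rfl, zero_mul, zero_smul]
    apply EE_neg
    intro h
    have : Q.q (0 : V) = 0 := by unfold Form.q; simp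
    rw [this] at h
    exact lt_irrefl _ h.2
  by_cases hq : 0 < Q.q u
  · obtain ⟨i, γ, h1, h2⟩ := exists_cx (D := D) hD
    obtain ⟨w, hw, hu⟩ := rep_of h1 h2 hq
    have hab : 0 < |n| := abs_pos.2 hn0
    have hw' : Cn (rp i) (|n| • w) := (cn_smul hab w).2 hw
    have hsm : ∀ (c : ℤ) (v : V), γ.app (c • v) = c • γ.app v := by
      intro c v
      unfold Mat.app
      ext <;> simp <;> ring
    have hnu : n • u = γ.app (|n| • w) ∨ n • u = -(γ.app (|n| • w)) := by
      rw [hsm]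
      rcases hu with h | h <;> rcases abs_choice n with h3 | h3
      · left; rw [h, h3]
      · right; rw [h, h3, neg_smul, neg_neg]
      · right; rw [h, h3, smul_neg]
      · left; rw [h, h3, smul_neg, neg_smul]
    rw [EE_val hx hD h1 h2 hw' hnu, EE_val hx hD h1 h2 hw hu, cl_smul']
    unfold sh
    rw [if_neg hn0]
    refine se_val k ?_ i _
    rcases abs_choice n with h3 | h3
    · rw [h3]; exact hn
    · rw [h3]; exact hn.neg_left
  · have hq' : ¬ 0 < Q.q (n • u) := by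
      rw [Form.q_smul]
      intro h
      apply hq
      have : 0 < n ^ 2 := by positivity
      exact (mul_pos_iff_of_pos_left this).1 h
    rw [EE_neg (fun h => hq h.2), EE_neg (fun h => hq' h.2), mul_zero]

/-- the eigenvectors are eigenfunctions in the sense of `Fac68` -/
theorem efn (k : Fin (mm D 0)) :
    Efn (-(D.d : ℤ)) D.K (ce D k) (sh D k) (EE (bv D 0 k : Hs D)) where
  inv Q γ u hD hγ := EE_inv (bv D 0 k).2 Q γ u hD hγ
  rel p r Q Q' M u hp hpK hr hD hR := EE_rel k p r Q Q' M u hp hpK hr hD hR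
  sca n Q u hn hD := EE_sca k n Q u hn hD

/-- every class modulo `K` contains a vector of the cone -/
theorem exists_cn (i : Cx D) (α : ZMod D.K × ZMod D.K) : ∃ u : V, Cn (rp i) u ∧ cl D.K u = α := by
  have ha := (rp_hyp i).sa
  have hK : (0 : ℝ) < D.K := by exact_mod_cast D.Kpos
  set y : ℤ := (α.2.val : ℤ) with hy
  set R : ℝ := |√(-((rp i).D : ℝ)) * y / (2 * √((rp i).a : ℝ))| +
    |((rp i).b : ℝ) * y / (2 * √((rp i).a : ℝ))| + 1 with hR
  obtain ⟨n, hn⟩ := exists_nat_gt (R / (√((rp i).a : ℝ) * D.K))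
  rw [div_lt_iff₀ (mul_pos ha hK)] at hn
  refine ⟨((α.1.val : ℤ) + D.K * n, y), ?_, ?_⟩
  · unfold Cn hX hY
    simp only
    push_cast
    have h1 : (0 : ℝ) ≤ √((rp i).a : ℝ) * (α.1.val : ℝ) := mul_nonneg ha.le (Nat.cast_nonneg _)
    have h2 := neg_abs_le (((rp i).b : ℝ) * y / (2 * √((rp i).a : ℝ)))
    have h3 : √((rp i).a : ℝ) * ((α.1.val : ℝ) + D.K * n) =
        √((rp i).a : ℝ) * (α.1.val : ℝ) + n * (√((rp i).a : ℝ) * D.K) := by ring
    rw [h3]
    linarith
  · unfold cl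
    rw [hy]
    apply Prod.ext
    · simp
    · simp

/-- the eigenfunction does not vanish -/
theorem EE_ne (k : Fin (mm D 0)) : ∃ (i : Cx D) (u : V), Cn (rp i) u ∧
    (bv D 0 k : Hs D) (i, cl D.K u) ≠ 0 := by
  have h2 : (bv D 0 k : Hs D) ≠ 0 := by
    intro h3
    have := norm_bv (D := D) 0 k
    rw [h3, norm_zero] at this
    exact zero_ne_one this
  by_contra hne
  push Not at hne
  apply h2
  ext ia
  obtain ⟨i, α⟩ := ia
  obtain ⟨u, hu, rfl⟩ := exists_cn i α
  exact hne i u hu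

/-- multiplication by `X + Z √d`, `X > 0`, of positive norm preserves the cone -/
theorem mX_cn {i : Cx D} {X Z n : ℤ} (hX0 : 0 < X) (hn : 0 < n) (h : X ^ 2 - D.d * Z ^ 2 = n)
    (u : V) : Cn (rp i) ((mX (rp i) X Z).app u) ↔ Cn (rp i) u := by
  have hQ := rp_hyp i
  refine cone_iff hQ hQ hn (fun u => ?_) ?_ u
  · rw [mX_q, rp_D, ← h]; ring
  · have ha := hQ.sa
    have hs := Hyp.sd_sq D.d
    unfold Cn
    rw [hQ.hY_eq]
    unfold hX mX Mat.app
    simp only [mul_one, mul_zero, add_zero]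
    push_cast
    have h2 := hQ.sa_sq
    have e1 : √(D.d : ℝ) * (2 * (rp i).a * Z) / (2 * √((rp i).a : ℝ)) =
        √((rp i).a : ℝ) * (√(D.d : ℝ) * Z) := by
      field_simp
      rw [h2]; ring
    have e2 : √((rp i).a : ℝ) * ((X : ℝ) - (rp i).b * Z) +
        (rp i).b * (2 * (rp i).a * Z) / (2 * √((rp i).a : ℝ)) = √((rp i).a : ℝ) * X := by
      field_simp
      rw [h2]; ring
    rw [e1, e2, abs_mul, abs_of_pos ha]
    refine mul_lt_mul_of_pos_left ?_ ha
    have hXr : (0 : ℝ) < X := by exact_mod_cast hX0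
    rw [← abs_of_pos hXr, ← sq_lt_sq, mul_pow, hs]
    have h3 : (0 : ℝ) < n := by exact_mod_cast hn
    have h4 : (X : ℝ) ^ 2 - D.d * (Z : ℝ) ^ 2 = n := by exact_mod_cast h
    linarith

/-- (F2): the principal ideal `X + K Y √d`, `X > 0` -/
theorem conicE {n : ℕ} {X Y : ℤ} (hX : 0 < X) (hn : 0 < n) (hK : n.Coprime D.K)
    (hd : IsCoprime (n : ℤ) (2 * D.d)) (h : X ^ 2 - D.d * (D.K * Y) ^ 2 = n)
    (k : Fin (mm D 0)) :
    ∃ (k0 : ℕ) (L : List (ℕ × ℤ)), 0 < k0 ∧ k0.Coprime D.K ∧ (∀ x ∈ L, Stp (-(D.d : ℤ)) x) ∧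
      k0 ^ 2 * (L.map Prod.fst).prod = n ∧
      se D k X = se D k k0 * (L.map (fun x => ce D k x.1 x.2)).prod := by
  obtain ⟨i, u, hu, hne⟩ := EE_ne k
  have hn' : (0 : ℤ) < n := by exact_mod_cast hn
  obtain ⟨k0, L, h1, h2, h3, h4, h5⟩ := MRSG.factor (d := -(D.d : ℤ)) (K := D.K) hn hK
    (by
      have : (2 : ℤ) * -(D.d : ℤ) = -(2 * D.d) := by ring
      rw [this]; exact hd.neg_right) (A := mX (rp i) X (D.K * Y)) (Q := rp i) (Q' := rp i)
    (rp_D i) (by rw [mX_det, rp_D, ← h]; ring)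
    (fun u => by rw [mX_q, rp_D, ← h]; ring)
  refine ⟨k0, L, h1, h2, h3, h4, ?_⟩
  have hx : (bv D 0 k : Hs D) ∈ Ej D 0 := (bv D 0 k).2
  have h6 := h5 _ _ _ (efn k) u
  have hcn := (mX_cn (i := i) hX hn' h u).2 hu
  rw [EE_rep hx i hu, EE_rep hx i hcn] at h6
  have h7 : cl D.K ((mX (rp i) X (D.K * Y)).app u) = sc ((X : ℤ) : ZMod D.K) (cl D.K u) := by
    rw [← cl_smul']
    have h8 : (mX (rp i) X (D.K * Y)).app u = X • u + (D.K : ℤ) •
        ((-((rp i).b * Y) * u.1 - 2 * (rp i).c * Y * u.2,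
          2 * (rp i).a * Y * u.1 + (rp i).b * Y * u.2) : V) := by
      unfold mX Mat.app
      ext <;> simp <;> ring
    rw [h8]
    unfold cl
    simp
  have hXK : IsCoprime X (D.K : ℤ) := by
    have h8 : IsCoprime (n : ℤ) (D.K : ℤ) := Nat.isCoprime_iff_coprime.2 hK
    rw [← h] at h8
    have h9 : X ^ 2 - D.d * (D.K * Y) ^ 2 = X ^ 2 + (D.K : ℤ) * (-(D.d * D.K * Y ^ 2)) := by ring
    rw [h9] at h8
    have h10 := (IsCoprime.add_mul_left_left_iff).1 h8
    exact (IsCoprime.pow_left_iff (by norm_num : 0 < 2)).1 h10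
  rw [h7, se_val k hXK] at h6
  have hne' : (starRingEnd ℂ) ((bv D 0 k : Hs D) (i, cl D.K u)) ≠ 0 := by
    rw [Ne, map_eq_zero]
    exact hne
  have h8 := mul_right_cancel₀ hne' h6
  rw [h8]
  unfold sh
  rw [if_neg (by exact_mod_cast h1.ne'), abs_of_nonneg (Int.natCast_nonneg k0)]

end Pool.Agent.Lib.MP_a17b09_nt.MRH91
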