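import Pool.Agent.Lib.MP_a17b09_nt.MRH.Stmts79

/-! MRH: assembly of levels, the set `U` and frequency `0`. -/

set_option autoImplicit false

open Filter Topology Finset

namespace Pool.Agent.Lib.MP_a17b09_nt.MRH

open CH CH.PE

theorem stCoreG_29 (D : Dat) (h1 : StLevG D) (h2 : StUpG D) (h3 : StPw0G D) :
    StCoreG D := by
  classical
  intro z k hk hz hz1 r1 r2 hr1 hr2 ε hε
  have hzn : ‖z‖ = 1 := by
    have : ‖z‖ ^ k = 1 := by rw [← norm_pow, hz, norm_one]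
    exact (pow_eq_one_iff_of_nonneg (norm_nonneg z) hk.ne').1 this
  obtain ⟨c, hc, hup⟩ := h2 z hzn r1 r2 hr1.le hr2
  obtain ⟨N1, hN1⟩ := hup (ε / 3) (by positivity)
  obtain ⟨H0, hH0, hlev⟩ := h1 z hzn r1 r2 hr1 hr2 (ε / 3) c (by positivity) hc
  have h0' : ∀ᶠ N : ℝ in atTop,
      ∑ e : Fin (mm D 0), ‖Mpg z r1 r2 N (⟨0, e⟩ : Fq D)‖ ^ 2 < ε / 3 := by
    have h4 : Tendsto (fun N : ℝ => ∑ e : Fin (mm D 0), ‖Mpg z r1 r2 N (⟨0, e⟩ : Fq D)‖ ^ 2)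
        atTop (𝓝 (∑ e : Fin (mm D 0), (0 : ℝ))) := by
      refine tendsto_finsetSum _ fun e _ => ?_
      have h5 := ((h3 z k hk hz hz1 r1 r2 hr1.le hr2 (⟨0, e⟩ : Fq D) rfl).norm).pow 2
      simpa using h5
    rw [Finset.sum_const_zero] at h4
    exact h4.eventually (gt_mem_nhds (by positivity))
  obtain ⟨N2, hN2⟩ := eventually_atTop.1 h0'
  refine ⟨H0, hH0, fun H hH => ?_⟩
  obtain ⟨N0, hN0⟩ := hlev H hH
  refine ⟨max (max N0 1) (max N1 N2), fun N hN => ?_⟩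
  have hNa : N0 ≤ N := (le_max_left _ _).trans ((le_max_left _ _).trans hN)
  have hNb : 1 ≤ N := (le_max_right _ _).trans ((le_max_left _ _).trans hN)
  have hNc : N1 ≤ N := (le_max_left _ _).trans ((le_max_right _ _).trans hN)
  have hNd : N2 ≤ N := (le_max_right _ _).trans ((le_max_right _ _).trans hN)
  obtain ⟨U, hU, hUc, hlevU⟩ := hN0 N hNa
  have hH : 1 ≤ H := hH0.trans hH
  set U' : Finset (Fq D) := U.filter (fun w => w.1 ≠ 0) with hU'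
  have hUs : ∀ w ∈ U', |(w.1 : ℝ)| ≤ N := by
    intro w hw
    have h4 := mem_SJ.1 (hU (Finset.mem_filter.1 hw).1)
    have h5 : |w.1| ≤ (⌊N / H⌋₊ : ℤ) := abs_le.2 h4
    have h6 : |(w.1 : ℝ)| ≤ ((⌊N / H⌋₊ : ℕ) : ℝ) := by exact_mod_cast h5
    refine h6.trans ((Nat.floor_le (by positivity)).trans ?_)
    rw [div_le_iff₀ (by positivity)]
    nlinarith
  have h7 := hN1 N hNc U' (le_trans (by exact_mod_cast Finset.card_filter_le _ _) hUc)
    (fun w hw => (Finset.mem_filter.1 hw).2) hUs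
  have h8 := (hN2 N hNd).le
  have h9 : ∑ w ∈ U.filter (fun w => ¬ w.1 ≠ 0), ‖Mpg z r1 r2 N w‖ ^ 2 ≤
      ∑ e : Fin (mm D 0), ‖Mpg z r1 r2 N (⟨0, e⟩ : Fq D)‖ ^ 2 := by
    have h10 : U.filter (fun w => ¬ w.1 ≠ 0) ⊆
        Finset.univ.image (fun e : Fin (mm D 0) => (⟨0, e⟩ : Fq D)) := by
      intro w hw
      obtain ⟨-, hw0⟩ := Finset.mem_filter.1 hw
      obtain ⟨j, e⟩ := w
      have hj : j = 0 := by simpa using hw0
      subst hj
      exact Finset.mem_image.2 ⟨e, Finset.mem_univ _, rfl⟩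
    refine (Finset.sum_le_sum_of_subset_of_nonneg h10 fun _ _ _ => by positivity).trans ?_
    rw [Finset.sum_image]
    intro a _ b _ hab
    simpa using hab
  calc ∑ w ∈ SJ D ⌊N / H⌋₊, ‖Mpg z r1 r2 N w‖ ^ 2
      = ∑ w ∈ SJ D ⌊N / H⌋₊ \ U, ‖Mpg z r1 r2 N w‖ ^ 2 + ∑ w ∈ U, ‖Mpg z r1 r2 N w‖ ^ 2 :=
        (Finset.sum_sdiff hU).symm
    _ ≤ ε / 3 + (ε / 3 + ε / 3) := by
        refine add_le_add hlevU ?_
        rw [← Finset.sum_filter_add_sum_filter_not U (fun w => w.1 ≠ 0)]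
        exact add_le_add h7 (h9.trans h8)
    _ = ε := by ring

end Pool.Agent.Lib.MP_a17b09_nt.MRH
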