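import Pool.Agent.Lib.MP_a17b09_nt.MRSG.DecGC21

/-!
MRH, decomposition by slices: the abstract estimate for a finite set of points with a size, a
family of divisors and a large sieve.
-/

set_option autoImplicit false

open Finset

namespace Pool.Agent.Lib.MP_a17b09_nt.MRH.Dec21

open MRSG.Dec21

variable {ι X : Type}

open Classical in
/-- the number of divisors -/
noncomputable def om (P : Finset ι) (Dv : ι → X → Prop) (v : X) : ℝ :=
  ∑ a ∈ P, if Dv a v then 1 else 0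

open Classical in
/-- the coefficient in the main term -/
noncomputable def bet (q : X → ℝ) (h : ℕ) (r1 r2 N : ℝ) (P : Finset ι) (p : ι → ℕ)
    (Dv : ι → X → Prop) (v : X) : ℝ :=
  ∑ a ∈ P, if Dv a v then bwN h r1 r2 N (p a) (q v / p a) else 0

open Classical in
theorem bet_cmp {q : X → ℝ} {h : ℕ} (hh : 0 < h) (r1 r2 N : ℝ)
    (P : Finset ι) (p : ι → ℕ) (Dv : ι → X → Prop) (hP : ∀ a ∈ P, (p a).Prime) {v : X}
    (hq : 0 ≤ q v) :
    |(if r1 * N < q v ∧ q v ≤ r2 * N then om P Dv v else 0) - bet q h r1 r2 N P p Dv v| ≤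
      om P Dv v * (1 / h + if ThinG r1 r2 N h (q v) then 1 else 0) := by
  have e1 : (if r1 * N < q v ∧ q v ≤ r2 * N then om P Dv v else 0) -
      bet q h r1 r2 N P p Dv v = ∑ a ∈ P, if Dv a v then
        (if r1 * N < q v ∧ q v ≤ r2 * N then 1 else 0) -
          bwN h r1 r2 N (p a) (q v / p a) else 0 := by
    have e2 : (if r1 * N < q v ∧ q v ≤ r2 * N then om P Dv v else 0) =
        ∑ a ∈ P, if Dv a v then
          (if r1 * N < q v ∧ q v ≤ r2 * N then (1 : ℝ) else 0) else 0 := by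
      by_cases h1 : r1 * N < q v ∧ q v ≤ r2 * N
      · simp only [if_pos h1]
        rfl
      · simp only [if_neg h1]
        simp
    rw [e2]
    unfold bet
    rw [← Finset.sum_sub_distrib]
    refine Finset.sum_congr rfl fun a _ => ?_
    by_cases h1 : Dv a v
    · simp only [if_pos h1]
    · simp only [if_neg h1, sub_zero]
  rw [e1]
  refine (Finset.abs_sum_le_sum_abs _ _).trans ?_
  have e3 : om P Dv v * (1 / h + if ThinG r1 r2 N h (q v) then 1 else 0) =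
      ∑ a ∈ P, if Dv a v then
        (1 / (h : ℝ) + if ThinG r1 r2 N h (q v) then 1 else 0) else 0 := by
    unfold om
    rw [Finset.sum_mul]
    refine Finset.sum_congr rfl fun a _ => ?_
    by_cases h1 : Dv a v
    · simp only [if_pos h1, one_mul]
    · simp only [if_neg h1, zero_mul]
  rw [e3]
  refine Finset.sum_le_sum fun a ha => ?_
  by_cases h1 : Dv a v
  · rw [if_pos h1, if_pos h1]
    have hpos : 0 < p a := (hP a ha).pos
    have hpr : (p a : ℝ) ≠ 0 := by exact_mod_cast hpos.ne'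
    have hq2 : (0 : ℝ) ≤ q v / p a := by positivity
    have h2 := bwN_cmp hh r1 r2 N hpos hq2
    rw [mul_div_cancel₀ _ hpr] at h2
    exact h2
  · rw [if_neg h1, if_neg h1, abs_zero]

theorem om_sq {R L : ℝ} (P : Finset ι) (Dv : ι → X → Prop) (T U : Finset X) (hTU : T ⊆ U)
    (h : ∑ v ∈ U, (om P Dv v - L) ^ 2 ≤ R) :
    ∑ v ∈ T, om P Dv v ^ 2 ≤ 2 * R + 2 * L ^ 2 * T.card := by
  have h1 : ∑ v ∈ T, (om P Dv v - L) ^ 2 ≤ R :=
    (Finset.sum_le_sum_of_subset_of_nonneg hTU fun v _ _ => sq_nonneg _).trans h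
  calc ∑ v ∈ T, om P Dv v ^ 2 ≤ ∑ v ∈ T, (2 * (om P Dv v - L) ^ 2 + 2 * L ^ 2) :=
        Finset.sum_le_sum fun v _ => by nlinarith [sq_nonneg (om P Dv v - 2 * L)]
    _ = 2 * ∑ v ∈ T, (om P Dv v - L) ^ 2 + 2 * L ^ 2 * T.card := by
        rw [Finset.sum_add_distrib, ← Finset.mul_sum, Finset.sum_const, nsmul_eq_mul]
        ring
    _ ≤ _ := by linarith

open Classical in
/-- **the abstract decomposition** -/
theorem dec_abs {W : Finset X} {q : X → ℝ} {P : Finset ι} {p : ι → ℕ} {Dv : ι → X → Prop}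
    (hp : ∀ a ∈ P, (p a).Prime) (hfib : ∀ n : ℕ, (P.filter (fun a => p a = n)).card ≤ 2)
    (hq0 : ∀ v ∈ W, 0 ≤ q v) {h J : ℕ} (hh : 0 < h) {N L r1 r2 B CA CT CB Cw Ct Cc : ℝ}
    (hN : 0 < N) (hCA : 0 < CA) (hCT : 0 < CT) (hCB : 0 < CB) (hCw : 0 < Cw) (hCt : 0 < Ct)
    (hCc : 0 < Cc) (hL : L = ∑ a ∈ P, 1 / (p a : ℝ)) (hL1 : 1 ≤ L)
    {χ : ℤ → X → ℂ} {f e : X → ℂ} (hf : ∀ v, ‖f v‖ ≤ 1)
    (he : ∀ v ∈ W, ‖e v‖ ≤ ∑ a ∈ P, if (p a : ℝ) ^ 2 * q v ≤ B * N then 1 else 0)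
    (hLS : ∀ c : X → ℂ, ∑ j ∈ Finset.Icc (-(J : ℤ)) J, ‖(1 / (N : ℂ)) *
      ∑ v ∈ W, c v * χ j v‖ ^ 2 ≤ CA / N * ∑ v ∈ W, ‖c v‖ ^ 2)
    (hT : ∑ v ∈ W.filter (fun v => q v ≤ r2 * N), (om P Dv v - L) ^ 2 ≤ CT * N * L)
    (hTB : ∑ v ∈ W, (om P Dv v - L) ^ 2 ≤ CB * N * L)
    (hcW : (W.card : ℝ) ≤ Cw * N)
    (hcT : ((W.filter (fun v => ThinG r1 r2 N h (q v))).card : ℝ) ≤ Ct * (N / h))
    (hcc : ∀ a ∈ P, ((W.filter (fun v => (p a : ℝ) ^ 2 * q v ≤ B * N)).card : ℝ) ≤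
      Cc * (N / (p a : ℝ) ^ 2)) :
    ∑ j ∈ Finset.Icc (-(J : ℤ)) J, ‖(1 / (N : ℂ)) * ∑ v ∈ W,
        (((if r1 * N < q v ∧ q v ≤ r2 * N then 1 else 0 : ℝ)) : ℂ) * (f v * χ j v) -
      (1 / (L : ℂ)) * ((1 / (N : ℂ)) * (∑ v ∈ W,
        (bet q h r1 r2 N P p Dv v : ℂ) * (f v * χ j v) + ∑ v ∈ W, e v * χ j v))‖ ^ 2 ≤
      3 * (CA * CT + 4 * CA * Cc + CA * (4 * CB) +
        CA * (4 * CB + 152 * (Cw / 38) + 4 * Ct)) * (1 / L + 1 / h) := by
  have hL0 : 0 < L := by linarith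
  have hLc : (L : ℂ) ≠ 0 := by exact_mod_cast hL0.ne'
  have hh0 : (0 : ℝ) < h := by exact_mod_cast hh
  set s1 : X → ℝ := fun v => if r1 * N < q v ∧ q v ≤ r2 * N then 1 - om P Dv v / L else 0
    with hs1
  set s2 : X → ℝ := fun v => (if r1 * N < q v ∧ q v ≤ r2 * N then om P Dv v else 0) -
    bet q h r1 r2 N P p Dv v with hs2
  set X1 : ℤ → ℂ := fun j => (1 / (N : ℂ)) * ∑ v ∈ W, ((s1 v : ℂ) * f v) * χ j v with hX1
  set X2 : ℤ → ℂ := fun j => (1 / (N : ℂ)) * ∑ v ∈ W, ((s2 v : ℂ) * f v) * χ j v with hX2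
  set X3 : ℤ → ℂ := fun j => (1 / (N : ℂ)) * ∑ v ∈ W, e v * χ j v with hX3
  have hid : ∀ j : ℤ, (1 / (N : ℂ)) * ∑ v ∈ W,
        (((if r1 * N < q v ∧ q v ≤ r2 * N then 1 else 0 : ℝ)) : ℂ) * (f v * χ j v) -
      (1 / (L : ℂ)) * ((1 / (N : ℂ)) * (∑ v ∈ W,
        (bet q h r1 r2 N P p Dv v : ℂ) * (f v * χ j v) + ∑ v ∈ W, e v * χ j v)) =
      X1 j + (1 / (L : ℂ)) * X2 j - (1 / (L : ℂ)) * X3 j := by
    intro j
    have hsum : ∑ v ∈ W, ((s1 v : ℂ) * f v) * χ j v +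
        (1 / (L : ℂ)) * ∑ v ∈ W, ((s2 v : ℂ) * f v) * χ j v =
        ∑ v ∈ W, (((if r1 * N < q v ∧ q v ≤ r2 * N then 1 else 0 : ℝ)) : ℂ) *
          (f v * χ j v) - (1 / (L : ℂ)) * ∑ v ∈ W, (bet q h r1 r2 N P p Dv v : ℂ) *
          (f v * χ j v) := by
      rw [Finset.mul_sum, Finset.mul_sum, ← Finset.sum_add_distrib, ← Finset.sum_sub_distrib]
      refine Finset.sum_congr rfl fun v _ => ?_
      simp only [hs1, hs2]
      by_cases hc : r1 * N < q v ∧ q v ≤ r2 * N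
      · rw [if_pos hc, if_pos hc, if_pos hc]
        rw [Complex.ofReal_sub, Complex.ofReal_sub, Complex.ofReal_div, Complex.ofReal_one]
        field_simp
        ring
      · rw [if_neg hc, if_neg hc, if_neg hc]
        rw [Complex.ofReal_sub, Complex.ofReal_zero]
        ring
    simp only [hX1, hX2, hX3]
    linear_combination (-(1 / (N : ℂ))) * hsum
  have hLs : ∀ s : X → ℝ, ∑ j ∈ Finset.Icc (-(J : ℤ)) J, ‖(1 / (N : ℂ)) *
      ∑ v ∈ W, ((s v : ℂ) * f v) * χ j v‖ ^ 2 ≤ CA / N * ∑ v ∈ W, s v ^ 2 := by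
    intro s
    refine (hLS (fun v => (s v : ℂ) * f v)).trans ?_
    apply mul_le_mul_of_nonneg_left _ (by positivity)
    refine Finset.sum_le_sum fun v _ => ?_
    rw [norm_mul, Complex.norm_real, mul_pow, Real.norm_eq_abs, sq_abs]
    apply mul_le_of_le_one_right (sq_nonneg _)
    exact pow_le_one₀ (norm_nonneg _) (hf v)
  have b1 : ∑ j ∈ Finset.Icc (-(J : ℤ)) J, ‖X1 j‖ ^ 2 ≤ CA / N * ((1 / L ^ 2) * (CT * N * L)) := by
    refine (hLs s1).trans (mul_le_mul_of_nonneg_left ?_ (by positivity))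
    calc ∑ v ∈ W, s1 v ^ 2 ≤ ∑ v ∈ W.filter (fun v => q v ≤ r2 * N),
          (1 - om P Dv v / L) ^ 2 := by
          rw [Finset.sum_filter]
          refine Finset.sum_le_sum fun v _ => ?_
          simp only [hs1]
          by_cases hc : r1 * N < q v ∧ q v ≤ r2 * N
          · rw [if_pos hc, if_pos hc.2]
          · rw [if_neg hc]
            split_ifs
            · have := sq_nonneg (1 - om P Dv v / L)
              simpa using this
            · simp
      _ = (1 / L ^ 2) * ∑ v ∈ W.filter (fun v => q v ≤ r2 * N), (om P Dv v - L) ^ 2 := by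
          rw [Finset.mul_sum]
          refine Finset.sum_congr rfl fun v _ => ?_
          field_simp
          ring
      _ ≤ (1 / L ^ 2) * (CT * N * L) := mul_le_mul_of_nonneg_left hT (by positivity)
  have b2 : ∑ j ∈ Finset.Icc (-(J : ℤ)) J, ‖X2 j‖ ^ 2 ≤ CA / N * ((2 / (h : ℝ) ^ 2) *
      (2 * (CB * N * L) + 2 * L ^ 2 * (38 * ((Cw / 38) * N))) + 2 * (2 * (CB * N * L) +
      2 * L ^ 2 * (Ct * (N / h)))) := by
    refine (hLs s2).trans (mul_le_mul_of_nonneg_left ?_ (by positivity))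
    set T := W.filter (fun v => ThinG r1 r2 N h (q v)) with hTdef
    have hpt : ∀ v ∈ W, s2 v ^ 2 ≤ (2 / (h : ℝ) ^ 2) * om P Dv v ^ 2 +
        2 * (if ThinG r1 r2 N h (q v) then om P Dv v ^ 2 else 0) := by
      intro v hv
      have h1 := bet_cmp hh r1 r2 N P p Dv hp (hq0 v hv)
      have h2 : s2 v ^ 2 ≤ (om P Dv v * (1 / h + if ThinG r1 r2 N h (q v) then 1 else 0)) ^ 2 := by
        rw [← sq_abs (s2 v)]
        exact pow_le_pow_left₀ (abs_nonneg _) h1 2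
      refine h2.trans ?_
      have h3 : (2 : ℝ) / (h : ℝ) ^ 2 = 2 * (1 / h) ^ 2 := by ring
      rw [h3]
      split_ifs
      · nlinarith [mul_nonneg (sq_nonneg (om P Dv v)) (sq_nonneg (1 / (h : ℝ) - 1))]
      · nlinarith [mul_nonneg (sq_nonneg (om P Dv v)) (sq_nonneg (1 / (h : ℝ)))]
    have hcW' : (W.card : ℝ) ≤ 38 * ((Cw / 38) * N) := by
      refine hcW.trans (le_of_eq ?_)
      ring
    have hsV := om_sq P Dv W W (Finset.Subset.refl _) hTB
    have hsT := om_sq P Dv T W (Finset.filter_subset _ _) hTB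
    calc ∑ v ∈ W, s2 v ^ 2 ≤ ∑ v ∈ W, ((2 / (h : ℝ) ^ 2) * om P Dv v ^ 2 +
          2 * (if ThinG r1 r2 N h (q v) then om P Dv v ^ 2 else 0)) :=
          Finset.sum_le_sum fun v hv => hpt v hv
      _ = (2 / (h : ℝ) ^ 2) * ∑ v ∈ W, om P Dv v ^ 2 + 2 * ∑ v ∈ T, om P Dv v ^ 2 := by
          rw [Finset.sum_add_distrib, ← Finset.mul_sum, ← Finset.mul_sum, hTdef,
            Finset.sum_filter]
      _ ≤ _ := by
          apply add_le_add
          · apply mul_le_mul_of_nonneg_left _ (by positivity)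
            refine hsV.trans ?_
            have : 2 * L ^ 2 * (W.card : ℝ) ≤ 2 * L ^ 2 * (38 * ((Cw / 38) * N)) :=
              mul_le_mul_of_nonneg_left hcW' (by positivity)
            linarith
          · apply mul_le_mul_of_nonneg_left _ (by norm_num)
            refine hsT.trans ?_
            have : 2 * L ^ 2 * (T.card : ℝ) ≤ 2 * L ^ 2 * (Ct * (N / h)) :=
              mul_le_mul_of_nonneg_left hcT (by positivity)
            linarith
  have b3 : ∑ j ∈ Finset.Icc (-(J : ℤ)) J, ‖X3 j‖ ^ 2 ≤ (4 * CA * Cc) * L := by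
    refine (hLS e).trans ?_
    have h1 : ∑ v ∈ W, ‖e v‖ ^ 2 ≤ 4 * (Cc * N * L) := by
      calc ∑ v ∈ W, ‖e v‖ ^ 2 ≤ ∑ v ∈ W, (∑ a ∈ P,
            if (p a : ℝ) ^ 2 * q v ≤ B * N then 1 else 0) ^ 2 :=
            Finset.sum_le_sum fun v hv => pow_le_pow_left₀ (norm_nonneg _) (he v hv) 2
        _ ≤ ∑ v ∈ W, 4 * ∑ a ∈ P, (if (p a : ℝ) ^ 2 * q v ≤ B * N then 1 else 0) * (p a : ℝ) := by
            refine Finset.sum_le_sum fun v _ => sq_leG P p (fun a ha => (hp a ha).pos) hfib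
              (fun a => if (p a : ℝ) ^ 2 * q v ≤ B * N then 1 else 0) fun a => ?_
            split_ifs
            · right; rfl
            · left; rfl
        _ = 4 * ∑ a ∈ P, ((W.filter (fun v => (p a : ℝ) ^ 2 * q v ≤ B * N)).card : ℝ) *
              (p a : ℝ) := by
            rw [← Finset.mul_sum, Finset.sum_comm]
            congr 1
            refine Finset.sum_congr rfl fun a _ => ?_
            rw [← Finset.sum_mul, Finset.sum_ite, Finset.sum_const_zero, add_zero,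
              Finset.sum_const, nsmul_eq_mul, mul_one]
        _ ≤ 4 * ∑ a ∈ P, (Cc * (N / (p a : ℝ) ^ 2)) * (p a : ℝ) := by
            apply mul_le_mul_of_nonneg_left _ (by norm_num)
            exact Finset.sum_le_sum fun a ha =>
              mul_le_mul_of_nonneg_right (hcc a ha) (Nat.cast_nonneg _)
        _ = 4 * (Cc * N * L) := by
            have h9 : ∀ a ∈ P, (Cc * (N / (p a : ℝ) ^ 2)) * (p a : ℝ) =
                (Cc * N) * (1 / (p a : ℝ)) := by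
              intro a ha
              have hpos : (0 : ℝ) < p a := by exact_mod_cast (hp a ha).pos
              field_simp
            rw [Finset.sum_congr rfl h9, ← Finset.mul_sum, ← hL]
    calc CA / N * ∑ v ∈ W, ‖e v‖ ^ 2 ≤ CA / N * (4 * (Cc * N * L)) :=
          mul_le_mul_of_nonneg_left h1 (by positivity)
      _ = _ := by
          field_simp
  have hLn : ‖(1 / (L : ℂ))‖ ^ 2 = 1 / L ^ 2 := by
    rw [norm_div, norm_one, Complex.norm_real, Real.norm_of_nonneg hL0.le, div_pow, one_pow]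
  refine le_trans ?_ (numG hCA hCT (by positivity : (0 : ℝ) < 4 * CA * Cc) hCB
    (by positivity : (0 : ℝ) < Cw / 38) hCt hN hL1 hh)
  calc _ ≤ ∑ j ∈ Finset.Icc (-(J : ℤ)) J, 3 * (‖X1 j‖ ^ 2 + (1 / L ^ 2) * ‖X2 j‖ ^ 2 +
          (1 / L ^ 2) * ‖X3 j‖ ^ 2) := by
        refine Finset.sum_le_sum fun j _ => ?_
        rw [hid j]
        refine (three _ _ _).trans (le_of_eq ?_)
        rw [norm_mul (1 / (L : ℂ)), norm_mul (1 / (L : ℂ)), mul_pow, mul_pow, hLn]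
    _ = 3 * (∑ j ∈ Finset.Icc (-(J : ℤ)) J, ‖X1 j‖ ^ 2 +
          (1 / L ^ 2) * ∑ j ∈ Finset.Icc (-(J : ℤ)) J, ‖X2 j‖ ^ 2 +
          (1 / L ^ 2) * ∑ j ∈ Finset.Icc (-(J : ℤ)) J, ‖X3 j‖ ^ 2) := by
        rw [← Finset.mul_sum, Finset.sum_add_distrib, Finset.sum_add_distrib, ← Finset.mul_sum,
          ← Finset.mul_sum]
    _ ≤ _ := by
        apply mul_le_mul_of_nonneg_left _ (by norm_num)
        apply add_le_add (add_le_add b1 _)
        · exact mul_le_mul_of_nonneg_left b3 (by positivity)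
        · exact mul_le_mul_of_nonneg_left b2 (by positivity)

end Pool.Agent.Lib.MP_a17b09_nt.MRH.Dec21
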