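import Pool.Agent.Lib.MP_a17b09_nt.MRH.DecAbs21
import Pool.Agent.Lib.MP_a17b09_nt.MRH.StrD17
import Pool.Agent.Lib.MP_a17b09_nt.MRH.PwtH84
import Pool.Agent.Lib.MP_a17b09_nt.MRH.LspH22

/-!
MRH, decomposition by slices: `stDecG_21`.
-/

set_option autoImplicit false

open Finset

namespace Pool.Agent.Lib.MP_a17b09_nt.MRH.Dec21

open CH CH.PE HY HY.S68
open MRSG.Dec21 (uslN exp_le_iffN bwN wtN bwN_bd bwN_nm ThinG rpow_le_sqrt sqrt_le_div prim_of_app)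

section slices

variable {D : Dat}

/-- the primes between two ends of slices -/
theorem slice_iff {h : ℕ} (hh : 0 < h) {u0 u1 : ℕ} {P : ℕ × Bool} :
    P ∈ slg D (Real.exp (u0 / h)) (Real.exp (u1 / h)) ↔
      Adm D P ∧ u0 ≤ uslN h P.1 ∧ uslN h P.1 < u1 := by
  rw [mem_slg]
  constructor
  · rintro ⟨h1, h2, h3⟩
    refine ⟨h1, (exp_le_iffN hh h1.1.pos u0).1 h2, ?_⟩
    by_contra hcon
    rw [not_lt] at hcon
    have := (exp_le_iffN hh h1.1.pos u1).2 hcon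
    linarith
  · rintro ⟨h1, h2, h3⟩
    refine ⟨h1, (exp_le_iffN hh h1.1.pos u0).2 h2, ?_⟩
    by_contra hcon
    rw [not_lt] at hcon
    have := (exp_le_iffN hh h1.1.pos u1).1 hcon
    omega

/-- sums over the slices -/
theorem sum_slices {h : ℕ} (hh : 0 < h) (u0 u1 : ℕ) (f : ℕ → ℕ × Bool → ℂ) :
    ∑ u ∈ Finset.Ico u0 u1,
      ∑ P ∈ slg D (Real.exp (u / h)) (Real.exp ((u + 1) / h)), f u P =
      ∑ P ∈ slg D (Real.exp (u0 / h)) (Real.exp (u1 / h)), f (uslN h P.1) P := by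
  classical
  have hmaps : ∀ P ∈ slg D (Real.exp (u0 / h)) (Real.exp (u1 / h)),
      uslN h P.1 ∈ Finset.Ico u0 u1 := by
    intro P hP
    rw [slice_iff hh] at hP
    exact Finset.mem_Ico.2 hP.2
  rw [← Finset.sum_fiberwise_of_maps_to hmaps]
  refine Finset.sum_congr rfl fun u hu => ?_
  rw [Finset.mem_Ico] at hu
  have hset : slg D (Real.exp (u / h)) (Real.exp ((u + 1) / h)) =
      (slg D (Real.exp (u0 / h)) (Real.exp (u1 / h))).filter (fun P => uslN h P.1 = u) := by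
    ext P
    have h1 := slice_iff (D := D) hh (u0 := u) (u1 := u + 1) (P := P)
    push_cast at h1
    rw [Finset.mem_filter, h1, slice_iff hh]
    constructor
    · rintro ⟨h2, h3, h4⟩
      exact ⟨⟨h2, by omega, by omega⟩, by omega⟩
    · rintro ⟨⟨h2, _⟩, h3⟩
      exact ⟨h2, by omega, by omega⟩
  rw [hset]
  refine Finset.sum_congr rfl fun P hP => ?_
  rw [(Finset.mem_filter.1 hP).2]

end slices

/-! ### counting in the sector -/

section count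

variable (D : Dat)

theorem q_one {D : Dat} {i : Cx D} {v : V} (hv : Sec (rp i) D.T v) : (1 : ℝ) ≤ (rp i).q v := by
  have := hv.1.q_pos (rp_hyp i)
  exact_mod_cast this

/-- the number of vectors up to `T` and in shells -/
theorem counts : ∃ C : ℝ, 0 < C ∧
    (∀ (i : Cx D) (U : Finset V) (T : ℝ), 0 ≤ T → (∀ v ∈ U, Sec (rp i) D.T v ∧
      ((rp i).q v : ℝ) ≤ T) → (U.card : ℝ) ≤ C * T) ∧
    ∀ (i : Cx D) (U : Finset V) (a b : ℝ), 0 ≤ a → a ≤ b → (∀ v ∈ U, Sec (rp i) D.T v ∧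
      a < ((rp i).q v : ℝ) ∧ ((rp i).q v : ℝ) ≤ b) →
      (U.card : ℝ) ≤ C * (b - a) + C * (√b + 1) := by
  classical
  obtain ⟨E, hE, hcnt⟩ := PwtH84.cnt_all D
  have hk := PwtH84.kp_pos (D := D)
  refine ⟨PwtH84.kp D + 2 * E, by positivity, ?_, ?_⟩
  · intro i U T hT hU
    rcases U.eq_empty_or_nonempty with h | ⟨u0, hu0⟩
    · rw [h]
      simp only [Finset.card_empty, Nat.cast_zero]
      positivity
    have hT1 : 1 ≤ T := (q_one (hU u0 hu0).1).trans (hU u0 hu0).2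
    have hsub : U ⊆ shS (rp i) D.T 0 T := by
      intro v hv
      rw [mem_shS (rp_hyp i)]
      obtain ⟨h1, h2⟩ := hU v hv
      have := q_one h1
      exact ⟨h1, by linarith, h2⟩
    have h1 : (U.card : ℝ) ≤ (shS (rp i) D.T 0 T).card := by
      exact_mod_cast Finset.card_le_card hsub
    have h2 := (abs_le.1 (hcnt i T hT)).2
    have h4 : √T ≤ T := by
      rw [Real.sqrt_le_left hT]
      nlinarith
    nlinarith
  · intro i U a b ha hab hU
    have hb : 0 ≤ b := ha.trans hab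
    have hsub : U ⊆ shS (rp i) D.T 0 b \ shS (rp i) D.T 0 a := by
      intro v hv
      obtain ⟨h1, h2, h3⟩ := hU v hv
      have := q_one h1
      rw [Finset.mem_sdiff, mem_shS (rp_hyp i), mem_shS (rp_hyp i)]
      refine ⟨⟨h1, by linarith, h3⟩, ?_⟩
      rintro ⟨_, _, h4⟩
      linarith
    have hsub2 : shS (rp i) D.T 0 a ⊆ shS (rp i) D.T 0 b := by
      intro v hv
      rw [mem_shS (rp_hyp i)] at hv ⊢
      exact ⟨hv.1, hv.2.1, hv.2.2.trans hab⟩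
    have h0 : (U.card : ℝ) ≤ (shS (rp i) D.T 0 b).card - (shS (rp i) D.T 0 a).card := by
      have h1 := Finset.card_le_card hsub
      rw [Finset.card_sdiff_of_subset hsub2] at h1
      have h2 := Finset.card_le_card hsub2
      have h3 : ((U.card : ℕ) : ℝ) ≤ (((shS (rp i) D.T 0 b).card -
          (shS (rp i) D.T 0 a).card : ℕ) : ℝ) := by exact_mod_cast h1
      rwa [Nat.cast_sub h2] at h3
    have h1 := (abs_le.1 (hcnt i b hb)).2
    have h2 := (abs_le.1 (hcnt i a ha)).1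
    have h6 : √a ≤ √b := Real.sqrt_le_sqrt hab
    have h7 : 0 ≤ √b := Real.sqrt_nonneg _
    have h8 : 0 ≤ b - a := by linarith
    have h9 : 0 ≤ E * (b - a) := by positivity
    have h10 : 0 ≤ PwtH84.kp D * (√b + 1) := by positivity
    have h11 : E * √a ≤ E * √b := mul_le_mul_of_nonneg_left h6 hE.le
    nlinarith

/-- thin shells -/
theorem thin (r : ℝ) (hr : 0 < r) : ∃ C : ℝ, 0 < C ∧ ∀ (i : Cx D)
    (N : ℝ) (h : ℕ), 1 ≤ N → 0 < h → (h : ℝ) ≤ N ^ (1 / 8 : ℝ) → ∀ U : Finset V,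
    (∀ u ∈ U, Sec (rp i) D.T u ∧ r * N < ((rp i).q u : ℝ) ∧
      ((rp i).q u : ℝ) ≤ r * N * Real.exp (1 / h)) → (U.card : ℝ) ≤ C * (N / h) := by
  obtain ⟨E, hE, -, hsh⟩ := counts D
  refine ⟨E * (2 * r) + E * (√(3 * r) + 1), by positivity, ?_⟩
  intro i N h hN hh hhN U hU
  have hh1 : (1 : ℝ) ≤ h := by exact_mod_cast hh
  have hh0 : (0 : ℝ) < h := by linarith
  have hN0 : (0 : ℝ) < N := by linarith
  have hx0 : (0 : ℝ) < 1 / h := by positivity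
  have hx1 : (1 : ℝ) / h ≤ 1 := by
    rw [div_le_one hh0]
    exact hh1
  have he1 : Real.exp (1 / h) - 1 ≤ 2 * (1 / h) := by
    have h1 := Real.abs_exp_sub_one_le (x := (1 : ℝ) / h) (by rw [abs_of_pos hx0]; exact hx1)
    rw [abs_of_pos hx0] at h1
    exact (le_abs_self _).trans h1
  have he0 : 1 ≤ Real.exp (1 / h) := Real.one_le_exp hx0.le
  have he3 : Real.exp (1 / h) ≤ 3 := by
    have h1 : Real.exp (1 / h) ≤ Real.exp 1 := Real.exp_le_exp.2 hx1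
    linarith [Real.exp_one_lt_d9]
  have hrN : 0 ≤ r * N := by positivity
  have h1 := hsh i U (r * N) (r * N * Real.exp (1 / h)) hrN
    (le_mul_of_one_le_right hrN he0) hU
  have h2 : √(r * N * Real.exp (1 / h)) ≤ √(3 * r) * √N := by
    rw [← Real.sqrt_mul (by positivity)]
    apply Real.sqrt_le_sqrt
    nlinarith
  have h3 := sqrt_le_div hN hh hhN
  have h4 : (1 : ℝ) ≤ N / h := by
    have : (1 : ℝ) ≤ √N := Real.one_le_sqrt.2 hN
    linarith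
  have h5 : r * N * Real.exp (1 / h) - r * N ≤ 2 * r * (N / h) := by
    have e : r * N * Real.exp (1 / h) - r * N = r * N * (Real.exp (1 / h) - 1) := by ring
    rw [e]
    calc r * N * (Real.exp (1 / h) - 1) ≤ r * N * (2 * (1 / h)) :=
          mul_le_mul_of_nonneg_left he1 hrN
      _ = 2 * r * (N / h) := by ring
  have h6 : √(3 * r) * √N ≤ √(3 * r) * (N / h) :=
    mul_le_mul_of_nonneg_left h3 (Real.sqrt_nonneg _)
  calc (U.card : ℝ) ≤ E * (r * N * Real.exp (1 / h) - r * N) +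
        E * (√(r * N * Real.exp (1 / h)) + 1) := h1
    _ ≤ E * (2 * r * (N / h)) + E * (√(3 * r) * (N / h) + N / h) := by
        apply add_le_add (mul_le_mul_of_nonneg_left h5 hE.le)
        apply mul_le_mul_of_nonneg_left _ hE.le
        linarith
    _ = _ := by ring

/-- the primes up to `N ^ (1/8)` -/
theorem sq_le {r : ℝ} (hr : 0 < r) {N : ℝ} (hN1 : 1 ≤ N) (hN : (1 / r) ^ 2 ≤ N) {x : ℝ}
    (hx : 0 ≤ x) (hxN : x ≤ N ^ (1 / 8 : ℝ)) : x ^ 2 ≤ r * N := by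
  have hN0 : 0 < N := by linarith
  have h2 : x ^ 2 ≤ √N := by
    have h3 : N ^ (1 / 8 : ℝ) * N ^ (1 / 8 : ℝ) ≤ √N := by
      rw [← Real.rpow_add hN0, Real.sqrt_eq_rpow]
      exact Real.rpow_le_rpow_of_exponent_le hN1 (by norm_num)
    calc x ^ 2 = x * x := sq _
      _ ≤ N ^ (1 / 8 : ℝ) * N ^ (1 / 8 : ℝ) := mul_le_mul hxN hxN hx (by positivity)
      _ ≤ √N := h3
  have h6 : 1 / r ≤ √N := Real.le_sqrt_of_sq_le hN
  rw [div_le_iff₀ hr] at h6
  have h7 : √N * √N = N := Real.mul_self_sqrt hN0.le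
  have h8 : 0 ≤ √N := Real.sqrt_nonneg _
  nlinarith

open Classical in
/-- Turan-Kubilius -/
theorem tk : ∃ C : ℝ, 0 < C ∧ ∀ (r : ℝ), 0 < r → ∀ (i : Cx D) (N : ℝ), 1 ≤ N → (1 / r) ^ 2 ≤ N →
    1 / r ≤ N → ∀ PP : Finset (ℕ × Bool), (∀ P ∈ PP, Adm D P ∧ (P.1 : ℝ) ≤ N ^ (1 / 8 : ℝ)) →
    ∀ W : Finset V, (∀ v ∈ W, Sec (rp i) D.T v ∧ ((rp i).q v : ℝ) ≤ r * N) →
    ∑ v ∈ W, (om PP (fun P v => Eig P.1 (rg D P) (rp i) v) v - ∑ P ∈ PP, 1 / (P.1 : ℝ)) ^ 2 ≤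
      (C * r) * N * ∑ P ∈ PP, 1 / (P.1 : ℝ) := by
  obtain ⟨C, hC, h⟩ := PwtH84.tkE D
  refine ⟨C, hC, ?_⟩
  intro r hr i N hN1 hN hN2 PP hPP W hW
  have hrN : 1 ≤ r * N := by
    rw [div_le_iff₀ hr] at hN2
    linarith
  have h1 := h i (r * N) hrN PP (fun P hP => ⟨(hPP P hP).1,
    sq_le hr hN1 hN (Nat.cast_nonneg _) (hPP P hP).2⟩) (fun _ => 1)
  simp only [norm_one, one_pow, one_mul] at h1
  have hsub : W ⊆ shS (rp i) D.T 0 (r * N) := by
    intro v hv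
    rw [mem_shS (rp_hyp i)]
    have := q_one (hW v hv).1
    exact ⟨(hW v hv).1, by linarith, (hW v hv).2⟩
  calc ∑ v ∈ W, (om PP (fun P v => Eig P.1 (rg D P) (rp i) v) v -
        ∑ P ∈ PP, 1 / (P.1 : ℝ)) ^ 2
      ≤ ∑ v ∈ shS (rp i) D.T 0 (r * N), (om PP (fun P v => Eig P.1 (rg D P) (rp i) v) v -
        ∑ P ∈ PP, 1 / (P.1 : ℝ)) ^ 2 :=
        Finset.sum_le_sum_of_subset_of_nonneg hsub fun _ _ _ => sq_nonneg _
    _ = ∑ v ∈ shS (rp i) D.T 0 (r * N), ‖∑ P ∈ PP,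
        ((if Eig P.1 (rg D P) (rp i) v then 1 else 0) - 1 / (P.1 : ℂ))‖ ^ 2 := by
        refine Finset.sum_congr rfl fun v _ => ?_
        have e2 : ∑ P ∈ PP, ((if Eig P.1 (rg D P) (rp i) v then 1 else 0) - 1 / (P.1 : ℂ)) =
            ((om PP (fun P v => Eig P.1 (rg D P) (rp i) v) v -
              ∑ P ∈ PP, 1 / (P.1 : ℝ) : ℝ) : ℂ) := by
          rw [Finset.sum_sub_distrib]
          unfold om
          push_cast
          congr 1
          refine Finset.sum_congr rfl fun a _ => ?_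
          split_ifs <;> simp
        rw [e2, Complex.norm_real, Real.norm_eq_abs, sq_abs]
    _ ≤ C * (r * N) * ∑ P ∈ PP, 1 / (P.1 : ℝ) := h1
    _ = _ := by ring

/-- the large sieve, normalized -/
theorem lsn (i : Cx D) (B : ℝ) (hB : 1 ≤ B) : ∃ C : ℝ, 0 < C ∧ ∀ (N : ℝ), 1 ≤ N →
    ∀ J : ℕ, (J : ℝ) ≤ N → ∀ S : Finset V, (∀ v ∈ S, Sec (rp i) D.T v ∧ Prim v ∧
      ((rp i).q v : ℝ) ≤ B * N) → ∀ a : V → ℂ,
    ∑ j ∈ Finset.Icc (-(J : ℤ)) J, ‖(1 / (N : ℂ)) * ∑ v ∈ S, a v * uu i v ^ j‖ ^ 2 ≤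
      C / N * ∑ v ∈ S, ‖a v‖ ^ 2 := by
  obtain ⟨C1, hC1, hls⟩ := LspH22.lsp (rp_hyp i) D.T_pos
  refine ⟨2 * B * C1, by positivity, ?_⟩
  intro N hN J hJ S hS a
  have hN0 : (0 : ℝ) < N := by linarith
  have hBN : 1 ≤ B * N := by nlinarith
  have hmain := hls (B * N) J hBN S hS a
  have hSn : 0 ≤ ∑ v ∈ S, ‖a v‖ ^ 2 := Finset.sum_nonneg fun v _ => by positivity
  calc ∑ j ∈ Finset.Icc (-(J : ℤ)) J, ‖(1 / (N : ℂ)) * ∑ v ∈ S, a v * uu i v ^ j‖ ^ 2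
      = (1 / N) ^ 2 * ∑ j ∈ Finset.Icc (-(J : ℤ)) J,
        ‖∑ v ∈ S, a v * LspH22.uh (rp i) D.T v ^ j‖ ^ 2 := by
        rw [Finset.mul_sum]
        refine Finset.sum_congr rfl fun j _ => ?_
        rw [norm_mul, mul_pow, norm_div, norm_one, Complex.norm_real,
          Real.norm_of_nonneg hN0.le]
        rfl
    _ ≤ (1 / N) ^ 2 * (C1 * (B * N + J) * ∑ v ∈ S, ‖a v‖ ^ 2) :=
        mul_le_mul_of_nonneg_left hmain (by positivity)
    _ ≤ (1 / N) ^ 2 * (C1 * (B * N + B * N) * ∑ v ∈ S, ‖a v‖ ^ 2) := by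
        apply mul_le_mul_of_nonneg_left _ (by positivity)
        apply mul_le_mul_of_nonneg_right _ hSn
        apply mul_le_mul_of_nonneg_left _ hC1.le
        nlinarith
    _ = 2 * B * C1 / N * ∑ v ∈ S, ‖a v‖ ^ 2 := by
        field_simp
        ring

end count

end Pool.Agent.Lib.MP_a17b09_nt.MRH.Dec21
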