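import Pool.Agent.Lib.MP_a17b09_nt.MRH.PwtH84
import Pool.Agent.Lib.MP_a17b09_nt.MRH.StrD17
import Pool.Agent.Lib.MP_a17b09_nt.MRH.LipH42
import Pool.Agent.Lib.MP_a17b09_nt.MRSG.DecGC21

/-!
MRH, decomposition by slices for one class of forms of positive discriminant: counting in the
sector, the large sieve, Turan-Kubilius, and the pairs `(P, m)` with `m` primitive and `M_P m` not
primitive.
-/

set_option autoImplicit false

open Finset

namespace Pool.Agent.Lib.MP_a17b09_nt.MRH.Dec42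

open CH CH.PE HY HY.S68
open MRSG.Dec21 (omG uslN bwN ThinG betaG s1 s2 s3 app_smul conj_dvdG prim_of_app sq_leG three
  sum_sqG sqrt_le_div rpow_le_sqrt bwN_bd bwN_nm bwN_cmp numG exp_le_iffN wtN)

variable {D : Dat}

theorem imL_iff (A : Mat) (v : V) : MRS.LatU84.Im A v ↔ Im A v := by
  constructor
  · rintro ⟨u, hu⟩
    exact ⟨u, hu.symm⟩
  · rintro ⟨u, hu⟩
    exact ⟨u, hu.symm⟩

theorem q_nonneg {i : Cx D} {v : V} (hv : Sec (rp i) D.T v) : (0 : ℝ) ≤ (rp i).q v := by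
  have h := hv.1.q_pos (rp_hyp i)
  exact_mod_cast h.le

/-! ### counting -/

theorem card_ballH (i : Cx D) : ∃ Cb : ℝ, 0 < Cb ∧ ∀ (U : Finset V) (T : ℝ), 0 ≤ T →
    (∀ u ∈ U, Sec (rp i) D.T u ∧ ((rp i).q u : ℝ) ≤ T) → (U.card : ℝ) ≤ Cb * T := by
  classical
  obtain ⟨A, C, hA, hC, hb1, -⟩ := Lip42.card_sec D
  have hCi := hC i
  refine ⟨A + 2 * C i, by positivity, ?_⟩
  intro U T hT hU
  rcases U.eq_empty_or_nonempty with h | ⟨u0, hu0⟩
  · rw [h, Finset.card_empty, Nat.cast_zero]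
    positivity
  have h1 := (hU u0 hu0).1.1.q_pos (rp_hyp i)
  have hT1 : 1 ≤ T := by
    have h2 : (1 : ℝ) ≤ (rp i).q u0 := by exact_mod_cast h1
    exact h2.trans (hU u0 hu0).2
  have hsub : U ⊆ Shg i 0 T := by
    intro u hu
    refine mem_Shg.2 ⟨(hU u hu).1, ?_, (hU u hu).2⟩
    exact_mod_cast (hU u hu).1.1.q_pos (rp_hyp i)
  have h2 : (U.card : ℝ) ≤ (Shg i 0 T).card := by exact_mod_cast Finset.card_le_card hsub
  have h3 := hb1 i T hT
  have h4 : √T ≤ T := by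
    rw [Real.sqrt_le_left hT]
    nlinarith
  have h5 := mul_le_mul_of_nonneg_left h4 hCi.le
  nlinarith

theorem card_shellH (i : Cx D) : ∃ A B : ℝ, 0 < A ∧ 0 < B ∧ ∀ (U : Finset V) (a b : ℝ), 0 ≤ a →
    a ≤ b → (∀ u ∈ U, Sec (rp i) D.T u ∧ a < ((rp i).q u : ℝ) ∧ ((rp i).q u : ℝ) ≤ b) →
    (U.card : ℝ) ≤ A * (b - a) + B * (√b + 1) := by
  classical
  obtain ⟨A, C, hA, hC, -, hb2⟩ := Lip42.card_sec D
  have hCi := hC i
  refine ⟨A, 2 * C i, hA, by positivity, ?_⟩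
  intro U a b ha hab hU
  have hsub : U ⊆ Shg i a b := fun u hu => mem_Shg.2 (hU u hu)
  have h2 : (U.card : ℝ) ≤ (Shg i a b).card := by exact_mod_cast Finset.card_le_card hsub
  exact h2.trans (hb2 i a b ha hab)

/-- the number of vectors in a thin shell -/
theorem card_thinH (i : Cx D) (r : ℝ) (hr : 0 < r) : ∃ C : ℝ, 0 < C ∧
    ∀ (N : ℝ) (h : ℕ), 1 ≤ N → 0 < h → (h : ℝ) ≤ N ^ (1 / 8 : ℝ) → ∀ U : Finset V,
    (∀ u ∈ U, Sec (rp i) D.T u ∧ r * N < ((rp i).q u : ℝ) ∧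
      ((rp i).q u : ℝ) ≤ r * N * Real.exp (1 / h)) →
    (U.card : ℝ) ≤ C * (N / h) := by
  obtain ⟨A, B, hA, hB, hc⟩ := card_shellH i
  refine ⟨2 * A * r + B * √(3 * r) + B, by positivity, ?_⟩
  intro N h hN hh hhN U hU
  have hh1 : (1 : ℝ) ≤ h := by exact_mod_cast hh
  have hh0 : (0 : ℝ) < h := by linarith
  have hN0 : (0 : ℝ) < N := by linarith
  have hx0 : (0 : ℝ) < 1 / h := by positivity
  have hx1 : (1 : ℝ) / h ≤ 1 := by
    rw [div_le_one hh0]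
    exact hh1
  have he1 : Real.exp (1 / h) - 1 ≤ 2 * (1 / h) := by
    have h1 := Real.abs_exp_sub_one_le (x := (1 : ℝ) / h) (by rw [abs_of_pos hx0]; exact hx1)
    rw [abs_of_pos hx0] at h1
    exact (le_abs_self _).trans h1
  have he0 : 1 ≤ Real.exp (1 / h) := Real.one_le_exp hx0.le
  have he3 : Real.exp (1 / h) ≤ 3 := by
    have h1 : Real.exp (1 / h) ≤ Real.exp 1 := Real.exp_le_exp.2 hx1
    linarith [Real.exp_one_lt_d9]
  have hrN : 0 ≤ r * N := by positivity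
  have h1 := hc U (r * N) (r * N * Real.exp (1 / h)) hrN
    (le_mul_of_one_le_right hrN he0) hU
  have h2 : √(r * N * Real.exp (1 / h)) ≤ √(3 * r) * √N := by
    rw [← Real.sqrt_mul (by positivity)]
    apply Real.sqrt_le_sqrt
    nlinarith
  have h3 := sqrt_le_div hN hh hhN
  have h4 : (1 : ℝ) ≤ N / h := by
    have : (1 : ℝ) ≤ √N := Real.one_le_sqrt.2 hN
    linarith
  have h5 : r * N * Real.exp (1 / h) - r * N ≤ 2 * r * (N / h) := by
    have e : r * N * Real.exp (1 / h) - r * N = r * N * (Real.exp (1 / h) - 1) := by ring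
    rw [e]
    calc r * N * (Real.exp (1 / h) - 1) ≤ r * N * (2 * (1 / h)) :=
          mul_le_mul_of_nonneg_left he1 hrN
      _ = 2 * r * (N / h) := by ring
  have h6 : √(3 * r) * √N ≤ √(3 * r) * (N / h) :=
    mul_le_mul_of_nonneg_left h3 (Real.sqrt_nonneg _)
  calc (U.card : ℝ) ≤ A * (r * N * Real.exp (1 / h) - r * N) +
        B * (√(r * N * Real.exp (1 / h)) + 1) := h1
    _ ≤ A * (2 * r * (N / h)) + B * (√(3 * r) * (N / h) + N / h) :=
        add_le_add (mul_le_mul_of_nonneg_left h5 hA.le)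
          (mul_le_mul_of_nonneg_left (by linarith) hB.le)
    _ = _ := by ring

/-! ### the large sieve -/

/-- the large sieve for the primitive vectors of the sector, one class -/
def Ls1 (D : Dat) : Prop := ∀ i : Cx D, ∃ C : ℝ, 0 < C ∧ ∀ (X : ℝ) (J : ℕ), 1 ≤ X →
  ∀ S : Finset V, (∀ v ∈ S, Sec (rp i) D.T v ∧ Prim v ∧ ((rp i).q v : ℝ) ≤ X) → ∀ a : V → ℂ,
  ∑ j ∈ Finset.Icc (-(J : ℤ)) J, ‖∑ v ∈ S, a v * uu i v ^ j‖ ^ 2 ≤
    C * (X + J) * ∑ v ∈ S, ‖a v‖ ^ 2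

/-- normalized -/
theorem lsNH (hLs : Ls1 D) (i : Cx D) (B : ℝ) (hB : 1 ≤ B) : ∃ C : ℝ, 0 < C ∧ ∀ (N : ℝ), 1 ≤ N →
    ∀ J : ℕ, (J : ℝ) ≤ N → ∀ S : Finset V,
    (∀ v ∈ S, Sec (rp i) D.T v ∧ Prim v ∧ ((rp i).q v : ℝ) ≤ B * N) → ∀ a : V → ℂ,
    ∑ j ∈ Finset.Icc (-(J : ℤ)) J, ‖(1 / (N : ℂ)) * ∑ v ∈ S, a v * uu i v ^ j‖ ^ 2 ≤
      C / N * ∑ v ∈ S, ‖a v‖ ^ 2 := by
  obtain ⟨C1, hC1, hls⟩ := hLs i
  refine ⟨2 * B * C1, by positivity, ?_⟩
  intro N hN J hJ S hS a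
  have hN0 : (0 : ℝ) < N := by linarith
  have hBN : 1 ≤ B * N := by nlinarith
  have hmain := hls (B * N) J hBN S hS a
  have hSn : 0 ≤ ∑ v ∈ S, ‖a v‖ ^ 2 := Finset.sum_nonneg fun v _ => by positivity
  calc ∑ j ∈ Finset.Icc (-(J : ℤ)) J, ‖(1 / (N : ℂ)) * ∑ v ∈ S, a v * uu i v ^ j‖ ^ 2
      = (1 / N) ^ 2 * ∑ j ∈ Finset.Icc (-(J : ℤ)) J, ‖∑ v ∈ S, a v * uu i v ^ j‖ ^ 2 := by
        rw [Finset.mul_sum]
        refine Finset.sum_congr rfl fun j _ => ?_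
        rw [norm_mul, mul_pow, norm_div, norm_one, Complex.norm_real,
          Real.norm_of_nonneg hN0.le]
    _ ≤ (1 / N) ^ 2 * (C1 * (B * N + J) * ∑ v ∈ S, ‖a v‖ ^ 2) :=
        mul_le_mul_of_nonneg_left hmain (by positivity)
    _ ≤ (1 / N) ^ 2 * (C1 * (B * N + B * N) * ∑ v ∈ S, ‖a v‖ ^ 2) := by
        apply mul_le_mul_of_nonneg_left _ (by positivity)
        apply mul_le_mul_of_nonneg_right _ hSn
        apply mul_le_mul_of_nonneg_left _ hC1.le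
        nlinarith
    _ = 2 * B * C1 / N * ∑ v ∈ S, ‖a v‖ ^ 2 := by
        field_simp
        ring

/-! ### Turan-Kubilius -/

theorem tkHP (D : Dat) : ∃ CT : ℝ, 0 < CT ∧ ∀ (i : Cx D) (r : ℝ), 0 < r → ∃ N0 : ℝ, 1 ≤ N0 ∧
    ∀ N : ℝ, N0 ≤ N → ∀ PP : Finset (ℕ × Bool), (∀ P ∈ PP, Adm D P) →
    (∀ P ∈ PP, (P.1 : ℝ) ≤ N ^ (1 / 8 : ℝ)) →
    ∑ v ∈ Shg i 0 (r * N), (omG PP (fun P => Mg D P i) v - ∑ P ∈ PP, 1 / (P.1 : ℝ)) ^ 2 ≤
      CT * r * N * ∑ P ∈ PP, 1 / (P.1 : ℝ) := by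
  classical
  obtain ⟨CT, hCT, htk⟩ := PwtH84.tkE D
  refine ⟨CT, hCT, ?_⟩
  intro i r hr
  have h1r : 0 < 1 / r := by positivity
  refine ⟨1 + 1 / r + (1 / r) ^ 2, by nlinarith [sq_nonneg (1 / r)], ?_⟩
  intro N hN PP hPP hpN
  have hN1 : 1 ≤ N := by nlinarith [sq_nonneg (1 / r)]
  have hN0 : 0 < N := by linarith
  have hrN : 1 ≤ r * N := by
    have h1 : 1 / r ≤ N := by nlinarith [sq_nonneg (1 / r)]
    rw [div_le_iff₀ hr] at h1
    linarith
  have hp2 : ∀ P ∈ PP, (P.1 : ℝ) ^ 2 ≤ r * N := by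
    intro P hP
    have h1 := hpN P hP
    have h2 : (P.1 : ℝ) ^ 2 ≤ √N := by
      have h3 : N ^ (1 / 8 : ℝ) * N ^ (1 / 8 : ℝ) ≤ √N := by
        rw [← Real.rpow_add hN0, Real.sqrt_eq_rpow]
        exact Real.rpow_le_rpow_of_exponent_le hN1 (by norm_num)
      have h4 : (0 : ℝ) ≤ P.1 := Nat.cast_nonneg _
      calc (P.1 : ℝ) ^ 2 = P.1 * P.1 := sq _
        _ ≤ N ^ (1 / 8 : ℝ) * N ^ (1 / 8 : ℝ) := mul_le_mul h1 h1 h4 (by positivity)
        _ ≤ √N := h3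
    have h6 : 1 / r ≤ √N := by
      apply Real.le_sqrt_of_sq_le
      nlinarith
    rw [div_le_iff₀ hr] at h6
    have h7 : √N * √N = N := Real.mul_self_sqrt hN0.le
    have h8 : 0 ≤ √N := Real.sqrt_nonneg _
    nlinarith
  have h1 := htk i (r * N) hrN PP (fun P hP => ⟨hPP P hP, hp2 P hP⟩) (fun _ => 1)
  have e1 : ∀ v : V, ‖∑ P ∈ PP, (1 : ℂ) * ((if Eig P.1 (rg D P) (rp i) v then 1 else 0) -
      1 / (P.1 : ℂ))‖ ^ 2 = (omG PP (fun P => Mg D P i) v - ∑ P ∈ PP, 1 / (P.1 : ℝ)) ^ 2 := by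
    intro v
    have e2 : ∑ P ∈ PP, (1 : ℂ) * ((if Eig P.1 (rg D P) (rp i) v then 1 else 0) -
        1 / (P.1 : ℂ)) =
        ((omG PP (fun P => Mg D P i) v - ∑ P ∈ PP, 1 / (P.1 : ℝ) : ℝ) : ℂ) := by
      simp only [one_mul]
      rw [Finset.sum_sub_distrib]
      unfold omG
      push_cast
      congr 1
      refine Finset.sum_congr rfl fun P hP => ?_
      have h3 : MRS.LatU84.Im (Mg D P i) v ↔ Eig P.1 (rg D P) (rp i) v :=
        (imL_iff _ v).trans (im_iff (hPP P hP) i v)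
      by_cases h4 : Eig P.1 (rg D P) (rp i) v
      · rw [if_pos h4, if_pos (h3.2 h4), Complex.ofReal_one]
      · rw [if_neg h4, if_neg (fun h5 => h4 (h3.1 h5)), Complex.ofReal_zero]
    rw [e2, Complex.norm_real, Real.norm_eq_abs, sq_abs]
  rw [Finset.sum_congr rfl fun v _ => e1 v] at h1
  simp only [norm_one, one_pow] at h1
  rw [Shg_eq]
  refine h1.trans (le_of_eq ?_)
  ring

/-! ### the pairs with `M_P m` not primitive -/

theorem act_smul42 {d : ℕ} (Q : Form) (b : Pell.Solution₁ (d : ℤ)) (n : ℤ) (v : V) :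
    act Q b (n • v) = n • act Q b v := app_smul _ n v

theorem rd_smul42 {d : ℕ} (Q : Form) (b : Pell.Solution₁ (d : ℤ)) {n : ℤ} (hn : 0 < n) (v : V) :
    rd Q b (n • v) = n • rd Q b v := by
  unfold rd
  rw [ps_smul hn, act_smul42]

theorem uu_rd42 (i : Cx D) {v : V} (hv : Cn (rp i) v) : uu i (rd (rp i) D.a v) = uu i v :=
  f_rd (rp_hyp i) D.ha (fun _ hv => uu_act i hv) hv

/-- **pairs with `M_P m` not primitive** -/
theorem conjH (hLs : Ls1 D) (i : Cx D) (B : ℝ) (hB : 1 ≤ B) : ∃ C : ℝ, 0 < C ∧ ∀ (N : ℝ), 1 ≤ N →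
    ∀ PP : Finset (ℕ × Bool), (∀ P ∈ PP, Adm D P) → ∀ J : ℕ, (J : ℝ) ≤ N →
    ∀ S : ℕ × Bool → Finset V, (∀ P ∈ PP, ∀ m ∈ S P, Sec (rp (sg D P i)) D.T m ∧ Prim m) →
    ∀ c : ℕ × Bool → V → ℂ, (∀ P ∈ PP, ∀ m ∈ S P, ‖c P m‖ ≤ 1) →
    (∀ P ∈ PP, ∀ m ∈ S P, c P m ≠ 0 → ¬ Prim ((Mg D P i).app m) ∧
      ((rp i).q ((Mg D P i).app m) : ℝ) ≤ B * N) →
    ∑ j ∈ Finset.Icc (-(J : ℤ)) J, ‖(1 / (N : ℂ)) * ∑ P ∈ PP, ∑ m ∈ S P,
      c P m * uu i ((Mg D P i).app m) ^ j‖ ^ 2 ≤ C * ∑ P ∈ PP, 1 / (P.1 : ℝ) := by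
  classical
  obtain ⟨C1, hC1, hls⟩ := lsNH hLs i B hB
  obtain ⟨Cb, hCb, hball⟩ := card_ballH i
  refine ⟨4 * Cb * B * C1, by positivity, ?_⟩
  intro N hN PP hPP J hJ S hS c hc1 hc
  have hN0 : (0 : ℝ) < N := by linarith
  have hBN : 0 ≤ B * N := by nlinarith
  obtain ⟨W, hWmem⟩ : ∃ W : Finset V, ∀ w, w ∈ W ↔
      Sec (rp i) D.T w ∧ Prim w ∧ ((rp i).q w : ℝ) ≤ B * N := by
    refine ⟨(Shg i 0 (B * N)).filter Prim, fun w => ?_⟩
    rw [Finset.mem_filter, mem_Shg]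
    constructor
    · rintro ⟨⟨h1, -, h2⟩, h3⟩
      exact ⟨h1, h3, h2⟩
    · rintro ⟨h1, h3, h2⟩
      exact ⟨⟨h1, by exact_mod_cast h1.1.q_pos (rp_hyp i), h2⟩, h3⟩
  have hp0 : ∀ P ∈ PP, (0 : ℤ) < P.1 := fun P hP => (hPP P hP).pos
  have hqs : ∀ (n : ℕ) (w : V), (((rp i).q ((n : ℤ) • w) : ℤ) : ℝ) =
      (n : ℝ) ^ 2 * (rp i).q w := by
    intro n w
    unfold Form.q
    simp only [Prod.smul_fst, Prod.smul_snd, smul_eq_mul]
    push_cast
    ring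
  -- the vector of the pair
  have hw0 : ∀ P ∈ PP, ∀ m ∈ S P, c P m ≠ 0 → ∃ w ∈ W,
      rd (rp i) D.a ((Mg D P i).app m) = (P.1 : ℤ) • w := by
    intro P hP m hm hne
    obtain ⟨hnp, hle⟩ := hc P hP m hm hne
    obtain ⟨hsec, hprim⟩ := hS P hP m hm
    have hA := hPP P hP
    have hdet := (rel_g hA i).2.det
    obtain ⟨w, hmw, hw⟩ := conj_dvdG hA.1 hdet hprim hnp
    have h1 : (Mg D P i).app m = (P.1 : ℤ) • w := by
      rw [hmw, Mat.app_adj, hdet]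
    have hcn : Cn (rp i) w := by
      have h2 := (cn_M hA i m).2 hsec.1
      rw [h1] at h2
      exact (cn_smul hA.pos w).1 h2
    refine ⟨rd (rp i) D.a w, ?_, ?_⟩
    · rw [hWmem]
      refine ⟨sec_rd (rp_hyp i) D.ha hcn, (prim_rd (rp_hyp i) D.a w).2 hw, ?_⟩
      rw [q_rd (rp_hyp i)]
      rw [h1, hqs] at hle
      have h3 : (1 : ℝ) ≤ (P.1 : ℝ) ^ 2 := by
        have : (1 : ℝ) ≤ P.1 := by exact_mod_cast hA.1.pos
        nlinarith
      have h4 : (0 : ℝ) ≤ (rp i).q w := by exact_mod_cast (hcn.q_pos (rp_hyp i)).le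
      nlinarith
    · rw [h1, rd_smul42 _ _ hA.pos]
  set e1 : ℕ × Bool → V → ℂ := fun P w => ∑ m ∈ S P,
    if rd (rp i) D.a ((Mg D P i).app m) = (P.1 : ℤ) • w then c P m else 0 with he1
  set e : V → ℂ := fun w => ∑ P ∈ PP, e1 P w with he
  -- regrouping
  have hkey : ∀ P ∈ PP, ∀ j : ℤ, ∑ m ∈ S P, c P m * uu i ((Mg D P i).app m) ^ j =
      ∑ w ∈ W, e1 P w * uu i w ^ j := by
    intro P hP j
    have hA := hPP P hP
    rw [he1]
    simp only [Finset.sum_mul]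
    rw [Finset.sum_comm]
    refine Finset.sum_congr rfl fun m hm => ?_
    by_cases h0 : c P m = 0
    · rw [h0, zero_mul]
      symm
      refine Finset.sum_eq_zero fun w _ => ?_
      rw [ite_self, zero_mul]
    · obtain ⟨w0, hw0W, hw0e⟩ := hw0 P hP m hm h0
      rw [Finset.sum_eq_single w0]
      · rw [if_pos hw0e]
        have hcn : Cn (rp i) ((Mg D P i).app m) := (cn_M hA i m).2 (hS P hP m hm).1.1
        have h1 := uu_rd42 i hcn
        rw [hw0e, uu_smul i hA.pos] at h1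
        rw [h1]
      · intro w _ hne
        rw [if_neg, zero_mul]
        intro h1
        rw [hw0e] at h1
        exact hne (smul_right_injective V hA.pos.ne' h1).symm
      · intro h1
        exact absurd hw0W h1
  have hsum : ∀ j : ℤ, ∑ P ∈ PP, ∑ m ∈ S P, c P m * uu i ((Mg D P i).app m) ^ j =
      ∑ w ∈ W, e w * uu i w ^ j := by
    intro j
    rw [Finset.sum_congr rfl fun P hP => hkey P hP j, Finset.sum_comm]
    refine Finset.sum_congr rfl fun w _ => ?_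
    rw [he, Finset.sum_mul]
  -- the coefficients
  set x : V → ℕ × Bool → ℝ := fun w P =>
    if (P.1 : ℝ) ^ 2 * (rp i).q w ≤ B * N then 1 else 0 with hx
  have hex : ∀ w, ‖e w‖ ≤ ∑ P ∈ PP, x w P := by
    intro w
    rw [he]
    refine (norm_sum_le _ _).trans (Finset.sum_le_sum fun P hP => ?_)
    have hA := hPP P hP
    have hx0 : (0 : ℝ) ≤ x w P := by
      rw [hx]
      simp only
      split_ifs <;> norm_num
    by_cases hex1 : ∃ m ∈ S P, rd (rp i) D.a ((Mg D P i).app m) = (P.1 : ℤ) • w ∧ c P m ≠ 0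
    · obtain ⟨m0, hm0, hrd, hne⟩ := hex1
      have h1 : e1 P w = c P m0 := by
        rw [he1]
        simp only
        rw [Finset.sum_eq_single m0]
        · rw [if_pos hrd]
        · intro m hm hmm
          rw [if_neg]
          intro h2
          apply hmm
          exact rd_app_inj (rp_hyp i) (rp_hyp _) D.ha hA.1.pos (rel_g hA i).2.det
            (rel_g hA i).2.sim (cn_M hA i) (hS P hP m hm).1 (hS P hP m0 hm0).1
            (h2.trans hrd.symm)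
        · intro h2
          exact absurd hm0 h2
      have h2 : x w P = 1 := by
        rw [hx]
        simp only
        rw [if_pos]
        have h3 := (hc P hP m0 hm0 hne).2
        rw [← q_rd (rp_hyp i) D.a, hrd, hqs] at h3
        exact h3
      rw [h1, h2]
      exact hc1 P hP m0 hm0
    · have h1 : e1 P w = 0 := by
        rw [he1]
        simp only
        refine Finset.sum_eq_zero fun m hm => ?_
        split_ifs with h2
        · by_contra h3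
          exact hex1 ⟨m, hm, h2, h3⟩
        · rfl
      rw [h1, norm_zero]
      exact hx0
  have hE : ∑ w ∈ W, ‖e w‖ ^ 2 ≤ 4 * Cb * B * N * ∑ P ∈ PP, 1 / (P.1 : ℝ) := by
    calc ∑ w ∈ W, ‖e w‖ ^ 2 ≤ ∑ w ∈ W, (∑ P ∈ PP, x w P) ^ 2 :=
          Finset.sum_le_sum fun w _ => pow_le_pow_left₀ (norm_nonneg _) (hex w) 2
      _ ≤ ∑ w ∈ W, 4 * ∑ P ∈ PP, x w P * P.1 := by
          refine Finset.sum_le_sum fun w _ => sq_leG PP Prod.fst (fun P hP => (hPP P hP).1.pos)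
            (fun n => MRSG.PwtG84.fib_le PP n) (x w) fun P => ?_
          rw [hx]
          simp only
          split_ifs
          · right; rfl
          · left; rfl
      _ = 4 * ∑ P ∈ PP, (∑ w ∈ W, x w P) * P.1 := by
          rw [← Finset.mul_sum, Finset.sum_comm]
          congr 1
          refine Finset.sum_congr rfl fun P _ => ?_
          rw [Finset.sum_mul]
      _ ≤ 4 * ∑ P ∈ PP, (Cb * (B * N / (P.1 : ℝ) ^ 2)) * P.1 := by
          apply mul_le_mul_of_nonneg_left _ (by norm_num)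
          refine Finset.sum_le_sum fun P hP => ?_
          have hpos : (0 : ℝ) < P.1 := by exact_mod_cast (hPP P hP).1.pos
          refine mul_le_mul_of_nonneg_right ?_ hpos.le
          rw [hx]
          simp only
          rw [Finset.sum_ite, Finset.sum_const_zero, add_zero, Finset.sum_const, nsmul_eq_mul,
            mul_one]
          refine hball _ _ (by positivity) ?_
          intro u hu
          rw [Finset.mem_filter, hWmem] at hu
          refine ⟨hu.1.1, ?_⟩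
          rw [le_div_iff₀ (by positivity)]
          linarith [hu.2]
      _ = 4 * Cb * B * N * ∑ P ∈ PP, 1 / (P.1 : ℝ) := by
          rw [Finset.mul_sum, Finset.mul_sum]
          refine Finset.sum_congr rfl fun P hP => ?_
          have hpos : (0 : ℝ) < P.1 := by exact_mod_cast (hPP P hP).1.pos
          field_simp
  have hmain := hls N hN J hJ W (fun w hw => (hWmem w).1 hw) e
  calc ∑ j ∈ Finset.Icc (-(J : ℤ)) J, ‖(1 / (N : ℂ)) * ∑ P ∈ PP, ∑ m ∈ S P,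
        c P m * uu i ((Mg D P i).app m) ^ j‖ ^ 2
      = ∑ j ∈ Finset.Icc (-(J : ℤ)) J, ‖(1 / (N : ℂ)) * ∑ w ∈ W, e w * uu i w ^ j‖ ^ 2 := by
        refine Finset.sum_congr rfl fun j _ => ?_
        rw [hsum j]
    _ ≤ C1 / N * ∑ w ∈ W, ‖e w‖ ^ 2 := hmain
    _ ≤ C1 / N * (4 * Cb * B * N * ∑ P ∈ PP, 1 / (P.1 : ℝ)) :=
        mul_le_mul_of_nonneg_left hE (by positivity)
    _ = 4 * Cb * B * C1 * ∑ P ∈ PP, 1 / (P.1 : ℝ) := by
        field_simp

end Pool.Agent.Lib.MP_a17b09_nt.MRH.Dec42
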