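import Pool.Agent.Lib.MP_a17b09_nt.MRH.DecHA42

/-!
MRH, decomposition by slices for one class: the regrouping, the coefficients and the final
estimate `coordH`.
-/

set_option autoImplicit false

open Finset

namespace Pool.Agent.Lib.MP_a17b09_nt.MRH.Dec42

open CH CH.PE HY HY.S68
open MRSG.Dec21 (omG uslN bwN ThinG betaG s1 s2 s3 app_smul conj_dvdG prim_of_app sq_leG three
  sum_sqG sqrt_le_div rpow_le_sqrt bwN_bd bwN_nm bwN_cmp numG exp_le_iffN wtN)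

variable {D : Dat}

/-- comparison of the coefficients -/
theorem betaH_cmp (i : Cx D) {h : ℕ} (hh : 0 < h) (r1 r2 N : ℝ)
    (PP : Finset (ℕ × Bool)) (hP : ∀ P ∈ PP, Adm D P) {v : V} (hv : Sec (rp i) D.T v) :
    |s2 (rp i) h r1 r2 N PP Prod.fst (fun P => Mg D P i) v| ≤
      omG PP (fun P => Mg D P i) v *
        (1 / h + open Classical in if ThinG r1 r2 N h ((rp i).q v : ℝ) then 1 else 0) := by
  classical
  have e1 : s2 (rp i) h r1 r2 N PP Prod.fst (fun P => Mg D P i) v =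
      ∑ P ∈ PP, if MRS.LatU84.Im (Mg D P i) v then
        (if r1 * N < ((rp i).q v : ℝ) ∧ ((rp i).q v : ℝ) ≤ r2 * N then 1 else 0) -
          bwN h r1 r2 N P.1 (((rp i).q v : ℝ) / P.1) else 0 := by
    have e2 : (if r1 * N < ((rp i).q v : ℝ) ∧ ((rp i).q v : ℝ) ≤ r2 * N then
        omG PP (fun P => Mg D P i) v else 0) =
        ∑ P ∈ PP, if MRS.LatU84.Im (Mg D P i) v then
          (if r1 * N < ((rp i).q v : ℝ) ∧ ((rp i).q v : ℝ) ≤ r2 * N then (1 : ℝ) else 0)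
            else 0 := by
      by_cases h1 : r1 * N < ((rp i).q v : ℝ) ∧ ((rp i).q v : ℝ) ≤ r2 * N
      · simp only [if_pos h1]
        rfl
      · simp only [if_neg h1]
        simp
    unfold s2 betaG
    rw [if_congr Iff.rfl rfl rfl] at e2
    have e3 : (open Classical in if r1 * N < ((rp i).q v : ℝ) ∧ ((rp i).q v : ℝ) ≤ r2 * N then
        omG PP (fun P => Mg D P i) v else 0) =
        ∑ P ∈ PP, if MRS.LatU84.Im (Mg D P i) v then
          (if r1 * N < ((rp i).q v : ℝ) ∧ ((rp i).q v : ℝ) ≤ r2 * N then (1 : ℝ) else 0)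
            else 0 := by
      rw [← e2]
    rw [e3, ← Finset.sum_sub_distrib]
    refine Finset.sum_congr rfl fun P _ => ?_
    by_cases h1 : MRS.LatU84.Im (Mg D P i) v
    · simp only [if_pos h1]
    · simp only [if_neg h1, sub_zero]
  rw [e1]
  refine (Finset.abs_sum_le_sum_abs _ _).trans ?_
  have e3 : omG PP (fun P => Mg D P i) v *
      (1 / h + open Classical in if ThinG r1 r2 N h ((rp i).q v : ℝ) then 1 else 0) =
      ∑ P ∈ PP, if MRS.LatU84.Im (Mg D P i) v then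
        (1 / (h : ℝ) + open Classical in if ThinG r1 r2 N h ((rp i).q v : ℝ) then 1 else 0)
          else 0 := by
    unfold omG
    rw [Finset.sum_mul]
    refine Finset.sum_congr rfl fun P _ => ?_
    by_cases h1 : MRS.LatU84.Im (Mg D P i) v
    · simp only [if_pos h1, one_mul]
    · simp only [if_neg h1, zero_mul]
  rw [e3]
  refine Finset.sum_le_sum fun P hPP => ?_
  by_cases h1 : MRS.LatU84.Im (Mg D P i) v
  · rw [if_pos h1, if_pos h1]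
    have hpos : 0 < P.1 := (hP P hPP).1.pos
    have hpr : (P.1 : ℝ) ≠ 0 := by exact_mod_cast hpos.ne'
    have hq : (0 : ℝ) ≤ ((rp i).q v : ℝ) / P.1 := by
      have := q_nonneg hv
      positivity
    have h2 := bwN_cmp hh r1 r2 N hpos hq
    rw [mul_div_cancel₀ _ hpr] at h2
    convert h2 using 2
  · rw [if_neg h1, if_neg h1, abs_zero]

/-- regrouping the pairs with `M_P m` primitive -/
theorem regroupH {P : ℕ × Bool} (hP : Adm D P) (i : Cx D) {r1 r2 : ℝ} {h : ℕ} (hh : 0 < h)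
    {N B : ℝ} (hN : 0 < N) (hr2 : 0 < r2) (hB : Real.exp (1 / h) * r2 ≤ B) (G W : Finset V)
    (hG : ∀ m, m ∈ G ↔ Sec (rp (sg D P i)) D.T m ∧ Prim m ∧
      ((rp (sg D P i)).q m : ℝ) ≤ r2 * N)
    (hW : ∀ v, v ∈ W ↔ Sec (rp i) D.T v ∧ Prim v ∧ ((rp i).q v : ℝ) ≤ B * N) (F : V → ℂ)
    (hF : ∀ v, Cn (rp i) v → F (act (rp i) D.a v) = F v) :
    ∑ m ∈ G, ((if Prim ((Mg D P i).app m) then
      bwN h r1 r2 N P.1 ((rp (sg D P i)).q m) else 0 : ℝ) : ℂ) * F ((Mg D P i).app m) =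
      ∑ v ∈ W, (((open Classical in if MRS.LatU84.Im (Mg D P i) v then
        bwN h r1 r2 N P.1 (((rp i).q v : ℝ) / P.1) else 0) : ℝ) : ℂ) * F v := by
  classical
  have hpr : (P.1 : ℝ) ≠ 0 := by exact_mod_cast hP.1.ne_zero
  have hpp : (0 : ℝ) < P.1 := by exact_mod_cast hP.1.pos
  have hsim := (rel_g hP i).2.sim
  have hqd : ∀ m : V, ((rp i).q ((Mg D P i).app m) : ℝ) / P.1 = (rp (sg D P i)).q m := by
    intro m
    rw [hsim]
    push_cast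
    field_simp
  set f : V → ℂ := fun v => ((if Prim v then
    bwN h r1 r2 N P.1 (((rp i).q v : ℝ) / P.1) else 0 : ℝ) : ℂ) * F v with hf
  have hfi : ∀ v, Cn (rp i) v → f (act (rp i) D.a v) = f v := by
    intro v hv
    rw [hf]
    simp only
    rw [hF v hv, q_act (rp_hyp i)]
    congr 2
    exact if_congr (prim_act i v) rfl rfl
  have hWe : W = (Shg i 0 (B * N)).filter Prim := by
    ext v
    rw [hW, Finset.mem_filter, mem_Shg]
    constructor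
    · rintro ⟨h1, h2, h3⟩
      exact ⟨⟨h1, by exact_mod_cast h1.1.q_pos (rp_hyp i), h3⟩, h2⟩
    · rintro ⟨⟨h1, -, h3⟩, h2⟩
      exact ⟨h1, h2, h3⟩
  have hR : ∑ v ∈ W, (((if MRS.LatU84.Im (Mg D P i) v then
        bwN h r1 r2 N P.1 (((rp i).q v : ℝ) / P.1) else 0) : ℝ) : ℂ) * F v =
      ∑ v ∈ (Shg i 0 (B * N)).filter (fun v => Im (Mg D P i) v), f v := by
    rw [hWe, Finset.sum_filter, Finset.sum_filter]
    refine Finset.sum_congr rfl fun v _ => ?_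
    rw [hf]
    simp only
    by_cases h1 : Prim v
    · by_cases h2 : Im (Mg D P i) v
      · rw [if_pos h1, if_pos h2, if_pos ((imL_iff _ v).2 h2), if_pos h1]
      · rw [if_pos h1, if_neg h2, if_neg (fun h3 => h2 ((imL_iff _ v).1 h3)),
          Complex.ofReal_zero, zero_mul]
    · by_cases h2 : Im (Mg D P i) v
      · rw [if_neg h1, if_pos h2, if_neg h1, Complex.ofReal_zero, zero_mul]
      · rw [if_neg h1, if_neg h2]
  have hL : ∑ m ∈ G, ((if Prim ((Mg D P i).app m) then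
      bwN h r1 r2 N P.1 ((rp (sg D P i)).q m) else 0 : ℝ) : ℂ) * F ((Mg D P i).app m) =
      ∑ m ∈ G, f ((Mg D P i).app m) := by
    refine Finset.sum_congr rfl fun m _ => ?_
    rw [hf]
    simp only
    rw [hqd]
  rw [hL]
  refine Eq.trans ?_ hR.symm
  rw [sum_im hP i 0 (B * N) hfi, zero_div]
  rw [← Finset.sum_filter_ne_zero G, ← Finset.sum_filter_ne_zero (Shg _ _ _)]
  refine Finset.sum_congr ?_ fun _ _ => rfl
  ext m
  rw [Finset.mem_filter, Finset.mem_filter, hG, mem_Shg]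
  have key : f ((Mg D P i).app m) ≠ 0 → Sec (rp (sg D P i)) D.T m → Prim m ∧
      ((rp (sg D P i)).q m : ℝ) ≤ r2 * N ∧ ((rp (sg D P i)).q m : ℝ) ≤ B * N / P.1 := by
    intro hne hs
    have hpm : Prim ((Mg D P i).app m) := by
      by_contra hcon
      apply hne
      rw [hf]
      simp only
      rw [if_neg hcon, Complex.ofReal_zero, zero_mul]
    have hb : bwN h r1 r2 N P.1 ((rp (sg D P i)).q m) ≠ 0 := by
      intro h0
      apply hne
      rw [hf]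
      simp only
      rw [if_pos hpm, hqd, h0, Complex.ofReal_zero, zero_mul]
    obtain ⟨h1, h2⟩ := bwN_nm hh r1 r2 N hP.1.pos (q_nonneg hs) hb
    refine ⟨prim_of_app hpm, h1.trans ?_, ?_⟩
    · apply mul_le_mul_of_nonneg_left _ hr2.le
      apply mul_le_of_le_one_right hN.le
      rw [Real.exp_le_one_iff, neg_nonpos]
      positivity
    · rw [le_div_iff₀ hpp, mul_comm]
      refine h2.trans ?_
      rw [← mul_assoc]
      exact mul_le_mul_of_nonneg_right hB hN.le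
  constructor
  · rintro ⟨⟨h1, h2, h3⟩, h4⟩
    exact ⟨⟨h1, by exact_mod_cast h1.1.q_pos (rp_hyp _), (key h4 h1).2.2⟩, h4⟩
  · rintro ⟨⟨h1, -, -⟩, h4⟩
    exact ⟨⟨h1, (key h4 h1).1, (key h4 h1).2.1⟩, h4⟩

/-- the identity -/
theorem idH {i : Cx D} {r1 r2 : ℝ} (hr2 : 0 < r2)
    {h : ℕ} (hh : 0 < h) {N B L : ℝ} (hN : 0 < N) (hL : 0 < L) (hB : Real.exp (1 / h) * r2 ≤ B)
    (PP : Finset (ℕ × Bool)) (hPP : ∀ P ∈ PP, Adm D P)
    (W S : Finset V) (G : ℕ × Bool → Finset V)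
    (hG : ∀ P ∈ PP, ∀ m, m ∈ G P ↔ Sec (rp (sg D P i)) D.T m ∧ Prim m ∧
      ((rp (sg D P i)).q m : ℝ) ≤ r2 * N)
    (hW : ∀ v, v ∈ W ↔ Sec (rp i) D.T v ∧ Prim v ∧ ((rp i).q v : ℝ) ≤ B * N)
    (hS : ∀ v, v ∈ S ↔ v ∈ W ∧ (r1 * N < ((rp i).q v : ℝ) ∧ ((rp i).q v : ℝ) ≤ r2 * N))
    (F : V → ℂ) (hF : ∀ v, Cn (rp i) v → F (act (rp i) D.a v) = F v) :
    (1 / (N : ℂ)) * ∑ v ∈ S, F v - (1 / (L : ℂ)) * ((1 / (N : ℂ)) * ∑ P ∈ PP, ∑ m ∈ G P,
      (bwN h r1 r2 N P.1 ((rp (sg D P i)).q m) : ℂ) * F ((Mg D P i).app m)) =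
    (1 / (N : ℂ)) * ∑ v ∈ W, (s1 (rp i) r1 r2 N L PP (fun P => Mg D P i) v : ℂ) * F v +
      (1 / (L : ℂ)) * ((1 / (N : ℂ)) *
        ∑ v ∈ W, (s2 (rp i) h r1 r2 N PP Prod.fst (fun P => Mg D P i) v : ℂ) * F v) -
      (1 / (L : ℂ)) * ((1 / (N : ℂ)) * ∑ P ∈ PP, ∑ m ∈ G P,
        (s3 h r1 r2 N Prod.fst (fun P => Mg D P i) (fun P => rp (sg D P i)) P m : ℂ) *
          F ((Mg D P i).app m)) := by
  classical
  have hsplit : ∑ P ∈ PP, ∑ m ∈ G P, (bwN h r1 r2 N P.1 ((rp (sg D P i)).q m) : ℂ) *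
      F ((Mg D P i).app m) =
      ∑ v ∈ W, (betaG (rp i) h r1 r2 N PP Prod.fst (fun P => Mg D P i) v : ℂ) * F v +
        ∑ P ∈ PP, ∑ m ∈ G P,
        (s3 h r1 r2 N Prod.fst (fun P => Mg D P i) (fun P => rp (sg D P i)) P m : ℂ) *
          F ((Mg D P i).app m) := by
    have h1 : ∀ P ∈ PP, ∑ m ∈ G P, (bwN h r1 r2 N P.1 ((rp (sg D P i)).q m) : ℂ) *
        F ((Mg D P i).app m) =
        ∑ v ∈ W, (((if MRS.LatU84.Im (Mg D P i) v then
          bwN h r1 r2 N P.1 (((rp i).q v : ℝ) / P.1) else 0) : ℝ) : ℂ) * F v +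
        ∑ m ∈ G P, (s3 h r1 r2 N Prod.fst (fun P => Mg D P i) (fun P => rp (sg D P i)) P m : ℂ) *
          F ((Mg D P i).app m) := by
      intro P hP
      have h2 := regroupH (r1 := r1) (hPP P hP) i hh hN hr2 hB (G P) W (hG P hP) hW F hF
      rw [← h2, ← Finset.sum_add_distrib]
      refine Finset.sum_congr rfl fun m _ => ?_
      unfold s3
      by_cases hp : Prim ((Mg D P i).app m)
      · rw [if_pos hp, if_pos hp, Complex.ofReal_zero]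
        ring
      · rw [if_neg hp, if_neg hp, Complex.ofReal_zero]
        ring
    rw [Finset.sum_congr rfl h1, Finset.sum_add_distrib, Finset.sum_comm]
    congr 1
    refine Finset.sum_congr rfl fun v _ => ?_
    rw [← Finset.sum_mul]
    unfold betaG
    rw [Complex.ofReal_sum]
  have hM : ∑ v ∈ S, F v = ∑ v ∈ W,
      (((if r1 * N < ((rp i).q v : ℝ) ∧ ((rp i).q v : ℝ) ≤ r2 * N then 1 else 0 : ℝ)) : ℂ) *
        F v := by
    have hSW : S = W.filter (fun v => r1 * N < ((rp i).q v : ℝ) ∧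
        ((rp i).q v : ℝ) ≤ r2 * N) := by
      ext v
      rw [Finset.mem_filter, hS]
    rw [hSW, Finset.sum_filter]
    refine Finset.sum_congr rfl fun v _ => ?_
    split_ifs <;> simp
  have hLc : (L : ℂ) ≠ 0 := by exact_mod_cast hL.ne'
  have hsum : ∑ v ∈ W, (s1 (rp i) r1 r2 N L PP (fun P => Mg D P i) v : ℂ) * F v +
      (1 / (L : ℂ)) * ∑ v ∈ W,
        (s2 (rp i) h r1 r2 N PP Prod.fst (fun P => Mg D P i) v : ℂ) * F v =
      ∑ v ∈ W, (((if r1 * N < ((rp i).q v : ℝ) ∧ ((rp i).q v : ℝ) ≤ r2 * N then 1 else 0 :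
        ℝ)) : ℂ) * F v - (1 / (L : ℂ)) *
        ∑ v ∈ W, (betaG (rp i) h r1 r2 N PP Prod.fst (fun P => Mg D P i) v : ℂ) * F v := by
    rw [Finset.mul_sum, Finset.mul_sum, ← Finset.sum_add_distrib, ← Finset.sum_sub_distrib]
    refine Finset.sum_congr rfl fun v _ => ?_
    unfold s1 s2
    by_cases hc : r1 * N < ((rp i).q v : ℝ) ∧ ((rp i).q v : ℝ) ≤ r2 * N
    · rw [if_pos hc, if_pos hc, if_pos hc]
      rw [Complex.ofReal_sub, Complex.ofReal_sub, Complex.ofReal_div, Complex.ofReal_one]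
      field_simp
      ring
    · rw [if_neg hc, if_neg hc, if_neg hc]
      rw [Complex.ofReal_sub, Complex.ofReal_zero]
      ring
  rw [hM, hsplit]
  linear_combination (-(1 / (N : ℂ))) * hsum

/-- the second term -/
theorem b2H (D : Dat) : ∃ CT : ℝ, 0 < CT ∧ ∀ (i : Cx D) {r1 r2 B : ℝ}, 0 < r1 → 0 < r2 →
    0 < B → ∃ Cb Ct N0 : ℝ, 0 < Cb ∧ 0 < Ct ∧ 1 ≤ N0 ∧ ∀ PP : Finset (ℕ × Bool),
      (∀ P ∈ PP, Adm D P) → ∀ (h : ℕ) (N : ℝ), 0 < h → N0 ≤ N →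
      (h : ℝ) ≤ N ^ (1 / 8 : ℝ) → (∀ P ∈ PP, (P.1 : ℝ) ≤ N ^ (1 / 8 : ℝ)) →
      ∀ W : Finset V, (∀ v, v ∈ W ↔ Sec (rp i) D.T v ∧ Prim v ∧ ((rp i).q v : ℝ) ≤ B * N) →
      ∑ v ∈ W, s2 (rp i) h r1 r2 N PP Prod.fst (fun P => Mg D P i) v ^ 2 ≤ (2 / (h : ℝ) ^ 2) *
        (2 * (CT * B * N * ∑ P ∈ PP, 1 / (P.1 : ℝ)) +
          2 * (∑ P ∈ PP, 1 / (P.1 : ℝ)) ^ 2 * (Cb * (B * N))) +
        2 * (2 * (CT * B * N * ∑ P ∈ PP, 1 / (P.1 : ℝ)) +
          2 * (∑ P ∈ PP, 1 / (P.1 : ℝ)) ^ 2 * (Ct * (N / h))) := by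
  classical
  obtain ⟨CT, hCT, htk⟩ := tkHP D
  refine ⟨CT, hCT, ?_⟩
  intro i r1 r2 B hr1 hr2 hB
  obtain ⟨N1, hN1, tkB⟩ := htk i B hB
  obtain ⟨Cb', hCb', hball⟩ := card_ballH i
  obtain ⟨Ca, hCa, th1⟩ := card_thinH i r1 hr1
  obtain ⟨Cb, hCb, th2⟩ := card_thinH i r2 hr2
  refine ⟨Cb', Ca + Cb, N1, hCb', by positivity, hN1, ?_⟩
  intro PP hPP h N hh hN hhN hpN W hW
  have hN1' : 1 ≤ N := hN1.trans hN
  have hN0 : 0 < N := by linarith
  set A : ℕ × Bool → Mat := fun P => Mg D P i with hA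
  set L := ∑ P ∈ PP, 1 / (P.1 : ℝ) with hL
  have htk := tkB N hN PP hPP hpN
  rw [← hL] at htk
  have hWb : W ⊆ Shg i 0 (B * N) := by
    intro v hv
    obtain ⟨h1, h2, h3⟩ := (hW v).1 hv
    exact mem_Shg.2 ⟨h1, by exact_mod_cast h1.1.q_pos (rp_hyp i), h3⟩
  set T := W.filter (fun v => ThinG r1 r2 N h ((rp i).q v : ℝ)) with hTdef
  have hpt : ∀ v ∈ W, s2 (rp i) h r1 r2 N PP Prod.fst A v ^ 2 ≤
      (2 / (h : ℝ) ^ 2) * omG PP A v ^ 2 +
      2 * (if ThinG r1 r2 N h ((rp i).q v : ℝ) then omG PP A v ^ 2 else 0) := by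
    intro v hv
    have h1 := betaH_cmp i hh r1 r2 N PP hPP ((hW v).1 hv).1
    have h2 : s2 (rp i) h r1 r2 N PP Prod.fst A v ^ 2 ≤
        (omG PP A v * (1 / h + if ThinG r1 r2 N h ((rp i).q v : ℝ) then 1 else 0)) ^ 2 := by
      rw [← sq_abs (s2 (rp i) h r1 r2 N PP Prod.fst A v)]
      refine pow_le_pow_left₀ (abs_nonneg _) ?_ 2
      convert h1 using 2
    refine h2.trans ?_
    have h3 : (2 : ℝ) / (h : ℝ) ^ 2 = 2 * (1 / h) ^ 2 := by ring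
    rw [h3]
    split_ifs
    · nlinarith [mul_nonneg (sq_nonneg (omG PP A v)) (sq_nonneg (1 / (h : ℝ) - 1))]
    · nlinarith [mul_nonneg (sq_nonneg (omG PP A v)) (sq_nonneg (1 / (h : ℝ)))]
  have hcW : (W.card : ℝ) ≤ Cb' * (B * N) := by
    refine hball _ _ (by positivity) ?_
    intro u hu
    rw [hW] at hu
    exact ⟨hu.1, hu.2.2⟩
  have hcT : (T.card : ℝ) ≤ (Ca + Cb) * (N / h) := by
    have h2 : (T.card : ℝ) ≤ (W.filter (fun v => r1 * N < ((rp i).q v : ℝ) ∧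
        ((rp i).q v : ℝ) ≤ r1 * N * Real.exp (1 / h))).card +
        (W.filter (fun v => r2 * N < ((rp i).q v : ℝ) ∧
        ((rp i).q v : ℝ) ≤ r2 * N * Real.exp (1 / h))).card := by
      have h1 : T = W.filter (fun v => r1 * N < ((rp i).q v : ℝ) ∧
          ((rp i).q v : ℝ) ≤ r1 * N * Real.exp (1 / h)) ∪
          W.filter (fun v => r2 * N < ((rp i).q v : ℝ) ∧
          ((rp i).q v : ℝ) ≤ r2 * N * Real.exp (1 / h)) := by
        ext v
        rw [hTdef]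
        simp only [Finset.mem_filter, Finset.mem_union]
        unfold ThinG
        tauto
      rw [h1]
      exact_mod_cast Finset.card_union_le _ _
    have h3 := th1 N h hN1' hh hhN (W.filter (fun v => r1 * N < ((rp i).q v : ℝ) ∧
        ((rp i).q v : ℝ) ≤ r1 * N * Real.exp (1 / h)))
        (fun u hu => ⟨((hW u).1 (Finset.mem_filter.1 hu).1).1, (Finset.mem_filter.1 hu).2⟩)
    have h4 := th2 N h hN1' hh hhN (W.filter (fun v => r2 * N < ((rp i).q v : ℝ) ∧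
        ((rp i).q v : ℝ) ≤ r2 * N * Real.exp (1 / h)))
        (fun u hu => ⟨((hW u).1 (Finset.mem_filter.1 hu).1).1, (Finset.mem_filter.1 hu).2⟩)
    rw [add_mul]
    exact h2.trans (add_le_add h3 h4)
  have hsV := sum_sqG PP A W (Shg i 0 (B * N)) hWb htk
  have hsT := sum_sqG PP A T (Shg i 0 (B * N)) ((Finset.filter_subset _ _).trans hWb) htk
  calc ∑ v ∈ W, s2 (rp i) h r1 r2 N PP Prod.fst A v ^ 2 ≤
        ∑ v ∈ W, ((2 / (h : ℝ) ^ 2) * omG PP A v ^ 2 +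
        2 * (if ThinG r1 r2 N h ((rp i).q v : ℝ) then omG PP A v ^ 2 else 0)) :=
        Finset.sum_le_sum hpt
    _ = (2 / (h : ℝ) ^ 2) * ∑ v ∈ W, omG PP A v ^ 2 + 2 * ∑ v ∈ T, omG PP A v ^ 2 := by
        rw [Finset.sum_add_distrib, ← Finset.mul_sum, ← Finset.mul_sum, hTdef,
          Finset.sum_filter]
    _ ≤ _ := by
        apply add_le_add
        · apply mul_le_mul_of_nonneg_left _ (by positivity)
          refine hsV.trans ?_
          have : 2 * L ^ 2 * (W.card : ℝ) ≤ 2 * L ^ 2 * (Cb' * (B * N)) :=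
            mul_le_mul_of_nonneg_left hcW (by positivity)
          linarith
        · apply mul_le_mul_of_nonneg_left _ (by norm_num)
          refine hsT.trans ?_
          have : 2 * L ^ 2 * (T.card : ℝ) ≤ 2 * L ^ 2 * ((Ca + Cb) * (N / h)) :=
            mul_le_mul_of_nonneg_left hcT (by positivity)
          linarith

/-- the first term -/
theorem b1H (D : Dat) : ∃ CT : ℝ, 0 < CT ∧ ∀ (i : Cx D) {r1 r2 B : ℝ}, 0 < r2 →
    ∃ N0 : ℝ, 1 ≤ N0 ∧ ∀ PP : Finset (ℕ × Bool), (∀ P ∈ PP, Adm D P) → ∀ (N L : ℝ), N0 ≤ N →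
      L = ∑ P ∈ PP, 1 / (P.1 : ℝ) → 0 < L → (∀ P ∈ PP, (P.1 : ℝ) ≤ N ^ (1 / 8 : ℝ)) →
      ∀ W : Finset V, (∀ v, v ∈ W ↔ Sec (rp i) D.T v ∧ Prim v ∧ ((rp i).q v : ℝ) ≤ B * N) →
      ∑ v ∈ W, s1 (rp i) r1 r2 N L PP (fun P => Mg D P i) v ^ 2 ≤
        (1 / L ^ 2) * (CT * r2 * N * L) := by
  classical
  obtain ⟨CT, hCT, htk⟩ := tkHP D
  refine ⟨CT, hCT, ?_⟩
  intro i r1 r2 B hr2
  obtain ⟨N1, hN1, tk2⟩ := htk i r2 hr2
  refine ⟨N1, hN1, ?_⟩
  intro PP hPP N L hN hL hL0 hpN W hW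
  have hN1' : 1 ≤ N := hN1.trans hN
  have hN0 : 0 < N := by linarith
  set A : ℕ × Bool → Mat := fun P => Mg D P i with hA
  have h2 := tk2 N hN PP hPP hpN
  rw [← hL] at h2
  calc ∑ v ∈ W, s1 (rp i) r1 r2 N L PP A v ^ 2
      = ∑ v ∈ W.filter (fun v => r1 * N < ((rp i).q v : ℝ) ∧ ((rp i).q v : ℝ) ≤ r2 * N),
        (1 - omG PP A v / L) ^ 2 := by
        rw [Finset.sum_filter]
        refine Finset.sum_congr rfl fun v _ => ?_
        unfold s1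
        split_ifs <;> simp
    _ ≤ ∑ v ∈ Shg i 0 (r2 * N), (1 - omG PP A v / L) ^ 2 := by
        apply Finset.sum_le_sum_of_subset_of_nonneg
        · intro v hv
          rw [Finset.mem_filter] at hv
          have h3 := ((hW v).1 hv.1).1
          exact mem_Shg.2 ⟨h3, by exact_mod_cast h3.1.q_pos (rp_hyp i), hv.2.2⟩
        · intro v _ _
          exact sq_nonneg _
    _ = (1 / L ^ 2) * ∑ v ∈ Shg i 0 (r2 * N), (omG PP A v - L) ^ 2 := by
        rw [Finset.mul_sum]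
        refine Finset.sum_congr rfl fun v _ => ?_
        field_simp
        ring
    _ ≤ (1 / L ^ 2) * (CT * r2 * N * L) := mul_le_mul_of_nonneg_left h2 (by positivity)

/-- **decomposition by slices for one class** -/
theorem coordH (hLs : Ls1 D) (i : Cx D) {r1 r2 : ℝ} (hr1 : 0 < r1) (hr : r1 < r2) :
    ∃ C N0 : ℝ, 0 < C ∧ 1 ≤ N0 ∧ ∀ PP : Finset (ℕ × Bool), (∀ P ∈ PP, Adm D P) →
      ∀ (h : ℕ) (N L : ℝ), 0 < h → N0 ≤ N →
      (h : ℝ) ≤ N ^ (1 / 8 : ℝ) → (∀ P ∈ PP, (P.1 : ℝ) ≤ N ^ (1 / 8 : ℝ)) →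
      L = ∑ P ∈ PP, 1 / (P.1 : ℝ) → 1 ≤ L → ∀ J : ℕ, (J : ℝ) ≤ N →
      ∀ (S : Finset V) (G : ℕ × Bool → Finset V),
      (∀ v, v ∈ S ↔ Sec (rp i) D.T v ∧ Prim v ∧ r1 * N < ((rp i).q v : ℝ) ∧
        ((rp i).q v : ℝ) ≤ r2 * N) →
      (∀ P ∈ PP, ∀ m, m ∈ G P ↔ Sec (rp (sg D P i)) D.T m ∧ Prim m ∧
        ((rp (sg D P i)).q m : ℝ) ≤ r2 * N) →
      ∀ f : V → ℂ, (∀ v, ‖f v‖ ≤ 1) → (∀ v, Cn (rp i) v → f (act (rp i) D.a v) = f v) →
      ∑ j ∈ Finset.Icc (-(J : ℤ)) J, ‖(1 / (N : ℂ)) * ∑ v ∈ S, f v * uu i v ^ j -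
        (1 / (L : ℂ)) * ((1 / (N : ℂ)) * ∑ P ∈ PP, ∑ m ∈ G P,
          (bwN h r1 r2 N P.1 ((rp (sg D P i)).q m) : ℂ) *
            (f ((Mg D P i).app m) * uu i ((Mg D P i).app m) ^ j))‖ ^ 2 ≤
        C * (1 / L + 1 / h) := by
  classical
  have hr2 : 0 < r2 := hr1.trans hr
  obtain ⟨B, hB⟩ : ∃ B : ℝ, B = 3 * r2 + 1 := ⟨_, rfl⟩
  have hB0 : 0 < B := by rw [hB]; linarith
  have hB1 : 1 ≤ B := by rw [hB]; linarith
  obtain ⟨CA, hCA, ls⟩ := lsNH hLs i B hB1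
  obtain ⟨CC, hCC, cj⟩ := conjH hLs i B hB1
  obtain ⟨CT2, hCT2, hb2⟩ := b2H D
  obtain ⟨Cb, Ct, N1, hCb, hCt, hN1, h2G⟩ := hb2 i hr1 hr2 hB0
  obtain ⟨CT1, hCT1, hb1⟩ := b1H D
  obtain ⟨N2, hN2, h1G⟩ := hb1 i (r1 := r1) (B := B) hr2
  -- the constant `38` of `numG`
  obtain ⟨B', hB'⟩ : ∃ B' : ℝ, B' = Cb * B / 38 := ⟨_, rfl⟩
  have hB'0 : 0 < B' := by rw [hB']; positivity
  refine ⟨3 * (CA * (CT1 * r2) + CC + CA * (4 * (CT2 * B)) +
    CA * (4 * (CT2 * B) + 152 * B' + 4 * Ct)), max N1 N2, by positivity,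
    le_max_of_le_left hN1, ?_⟩
  intro PP hPP h N L hh hN hhN hpN hL hL1 J hJ S G hS hG f hf hfi
  have hNN1 : N1 ≤ N := (le_max_left _ _).trans hN
  have hNN2 : N2 ≤ N := (le_max_right _ _).trans hN
  have hN1' : 1 ≤ N := hN1.trans hNN1
  have hN0 : 0 < N := by linarith
  have hL0 : 0 < L := by linarith
  have hh1 : (1 : ℝ) ≤ h := by exact_mod_cast hh
  have hh0 : (0 : ℝ) < h := by linarith
  have hx1 : (1 : ℝ) / h ≤ 1 := by
    rw [div_le_one hh0]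
    exact hh1
  have he3 : Real.exp (1 / h) ≤ 3 := by
    have h1 : Real.exp (1 / h) ≤ Real.exp 1 := Real.exp_le_exp.2 hx1
    linarith [Real.exp_one_lt_d9]
  have hBe : Real.exp (1 / h) * r2 ≤ B := by rw [hB]; nlinarith
  obtain ⟨W, hW⟩ : ∃ W : Finset V, ∀ w, w ∈ W ↔
      Sec (rp i) D.T w ∧ Prim w ∧ ((rp i).q w : ℝ) ≤ B * N := by
    refine ⟨(Shg i 0 (B * N)).filter Prim, fun w => ?_⟩
    rw [Finset.mem_filter, mem_Shg]
    constructor
    · rintro ⟨⟨h1, -, h2⟩, h3⟩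
      exact ⟨h1, h3, h2⟩
    · rintro ⟨h1, h3, h2⟩
      exact ⟨⟨h1, by exact_mod_cast h1.1.q_pos (rp_hyp i), h2⟩, h3⟩
  have hSW : ∀ v, v ∈ S ↔ v ∈ W ∧ (r1 * N < ((rp i).q v : ℝ) ∧ ((rp i).q v : ℝ) ≤ r2 * N) := by
    intro v
    rw [hS, hW]
    constructor
    · rintro ⟨h1, h2, h3, h4⟩
      refine ⟨⟨h1, h2, h4.trans ?_⟩, h3, h4⟩
      apply mul_le_mul_of_nonneg_right _ hN0.le
      rw [hB]
      linarith
    · rintro ⟨⟨h1, h2, _⟩, h3, h4⟩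
      exact ⟨h1, h2, h3, h4⟩
  set A : ℕ × Bool → Mat := fun P => Mg D P i with hA
  set Q' : ℕ × Bool → Form := fun P => rp (sg D P i) with hQ'
  have hLs : ∀ s : V → ℝ, ∑ j ∈ Finset.Icc (-(J : ℤ)) J, ‖(1 / (N : ℂ)) *
      ∑ v ∈ W, (s v : ℂ) * (f v * uu i v ^ j)‖ ^ 2 ≤ CA / N * ∑ v ∈ W, s v ^ 2 := by
    intro s
    have h1 := ls N hN1' J hJ W (fun v hv => (hW v).1 hv) (fun v => (s v : ℂ) * f v)
    simp only [mul_assoc] at h1
    refine h1.trans ?_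
    apply mul_le_mul_of_nonneg_left _ (by positivity)
    refine Finset.sum_le_sum fun v _ => ?_
    rw [norm_mul, Complex.norm_real, mul_pow, Real.norm_eq_abs, sq_abs]
    apply mul_le_of_le_one_right (sq_nonneg _)
    exact pow_le_one₀ (norm_nonneg _) (hf v)
  have b1 := (hLs (s1 (rp i) r1 r2 N L PP A)).trans (mul_le_mul_of_nonneg_left
    (h1G PP hPP N L hNN2 hL hL0 hpN W hW) (by positivity : (0 : ℝ) ≤ CA / N))
  have b2 := (hLs (s2 (rp i) h r1 r2 N PP Prod.fst A)).trans (mul_le_mul_of_nonneg_left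
    (h2G PP hPP h N hh hNN1 hhN hpN W hW) (by positivity : (0 : ℝ) ≤ CA / N))
  have hs3 : ∀ P ∈ PP, ∀ m : V, |s3 h r1 r2 N Prod.fst A Q' P m| ≤ 1 := by
    intro P hP m
    unfold s3
    obtain ⟨h2, h3⟩ := bwN_bd hh r1 r2 N (hPP P hP).1.pos ((Q' P).q m : ℝ)
    split_ifs
    · rw [abs_zero]
      exact zero_le_one
    · rw [abs_of_nonneg h2]
      exact h3
  have b3 := cj N hN1' PP hPP J hJ G
    (fun P hP m hm => ⟨((hG P hP m).1 hm).1, ((hG P hP m).1 hm).2.1⟩)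
    (fun P m => (s3 h r1 r2 N Prod.fst A Q' P m : ℂ) * f ((Mg D P i).app m))
    (fun P hP m _ => by
      rw [norm_mul, Complex.norm_real, Real.norm_eq_abs]
      calc |s3 h r1 r2 N Prod.fst A Q' P m| * ‖f ((Mg D P i).app m)‖ ≤ 1 * 1 :=
            mul_le_mul (hs3 P hP m) (hf _) (norm_nonneg _) zero_le_one
        _ = 1 := one_mul 1)
    (fun P hP m hm hne => by
      have h1 : s3 h r1 r2 N Prod.fst A Q' P m ≠ 0 := by
        intro h0
        apply hne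
        rw [h0, Complex.ofReal_zero, zero_mul]
      unfold s3 at h1
      have h2 : ¬ Prim ((A P).app m) := by
        intro hp
        rw [if_pos hp] at h1
        exact h1 rfl
      rw [if_neg h2] at h1
      have hq0 : (0 : ℝ) ≤ (Q' P).q m := q_nonneg ((hG P hP m).1 hm).1
      refine ⟨h2, ?_⟩
      rw [(rel_g (hPP P hP) i).2.sim]
      push_cast
      refine ((bwN_nm hh r1 r2 N (hPP P hP).1.pos hq0 h1).2).trans ?_
      rw [← mul_assoc]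
      exact mul_le_mul_of_nonneg_right hBe hN0.le)
  rw [← hL] at b2 b3
  have e38 : Cb * (B * N) = 38 * (B' * N) := by rw [hB']; ring
  rw [e38] at b2
  simp only [mul_assoc] at b3
  have hLn : ‖(1 / (L : ℂ))‖ ^ 2 = 1 / L ^ 2 := by
    rw [norm_div, norm_one, Complex.norm_real, Real.norm_of_nonneg hL0.le, div_pow, one_pow]
  set X1 : ℤ → ℂ := fun j => (1 / (N : ℂ)) *
    ∑ v ∈ W, (s1 (rp i) r1 r2 N L PP A v : ℂ) * (f v * uu i v ^ j) with hX1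
  set X2 : ℤ → ℂ := fun j => (1 / (N : ℂ)) *
    ∑ v ∈ W, (s2 (rp i) h r1 r2 N PP Prod.fst A v : ℂ) * (f v * uu i v ^ j) with hX2
  set X3 : ℤ → ℂ := fun j => (1 / (N : ℂ)) * ∑ P ∈ PP, ∑ m ∈ G P,
    (s3 h r1 r2 N Prod.fst A Q' P m : ℂ) *
      (f ((Mg D P i).app m) * uu i ((Mg D P i).app m) ^ j) with hX3
  refine le_trans ?_ (numG hCA (by positivity : (0 : ℝ) < CT1 * r2) hCC
    (by positivity : (0 : ℝ) < CT2 * B) hB'0 hCt hN0 hL1 hh)
  calc _ ≤ ∑ j ∈ Finset.Icc (-(J : ℤ)) J, 3 * (‖X1 j‖ ^ 2 + (1 / L ^ 2) * ‖X2 j‖ ^ 2 +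
          (1 / L ^ 2) * ‖X3 j‖ ^ 2) := by
        refine Finset.sum_le_sum fun j _ => ?_
        rw [idH hr2 hh hN0 hL0 hBe PP hPP W S G hG hW hSW (fun v => f v * uu i v ^ j)
          (fun v hv => by rw [hfi v hv, uu_act i hv])]
        refine (three _ _ _).trans (le_of_eq ?_)
        rw [norm_mul (1 / (L : ℂ)), norm_mul (1 / (L : ℂ)), mul_pow, mul_pow, hLn]
    _ = 3 * (∑ j ∈ Finset.Icc (-(J : ℤ)) J, ‖X1 j‖ ^ 2 +
          (1 / L ^ 2) * ∑ j ∈ Finset.Icc (-(J : ℤ)) J, ‖X2 j‖ ^ 2 +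
          (1 / L ^ 2) * ∑ j ∈ Finset.Icc (-(J : ℤ)) J, ‖X3 j‖ ^ 2) := by
        rw [← Finset.mul_sum, Finset.sum_add_distrib, Finset.sum_add_distrib, ← Finset.mul_sum,
          ← Finset.mul_sum]
    _ ≤ _ := by
        apply mul_le_mul_of_nonneg_left _ (by norm_num)
        apply add_le_add (add_le_add b1 _)
        · exact mul_le_mul_of_nonneg_left b3 (by positivity)
        · exact mul_le_mul_of_nonneg_left b2 (by positivity)

end Pool.Agent.Lib.MP_a17b09_nt.MRH.Dec42
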