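import Pool.Agent.Lib.MP_a17b09_nt.MRH.DecH21

/-!
MRH, decomposition by slices: `stDecG_21`.
-/

set_option autoImplicit false

open Finset

namespace Pool.Agent.Lib.MP_a17b09_nt.MRH.Dec21

open CH CH.PE HY HY.S68
open MRSG.Dec21 (uslN exp_le_iffN bwN wtN bwN_bd bwN_nm ThinG rpow_le_sqrt sqrt_le_div prim_of_app)

variable {D : Dat}

/-! ### the functions on the vectors -/

open Classical in
/-- the coefficient of a vector -/
noncomputable def fch (z : ℂ) (i : Cx D) (α : ZMod D.K × ZMod D.K) (v : V) : ℂ :=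
  if cl D.K v = α then gz z (rp i) v else 0

theorem norm_fch {z : ℂ} (hz : ‖z‖ = 1) (i : Cx D) (α : ZMod D.K × ZMod D.K) (v : V) :
    ‖fch z i α v‖ ≤ 1 := by
  unfold fch
  split_ifs
  · unfold gz
    rw [norm_pow, hz, one_pow]
  · rw [norm_zero]
    exact zero_le_one

theorem fch_act (z : ℂ) (i : Cx D) (α : ZMod D.K × ZMod D.K) (v : V) :
    fch z i α (act (rp i) D.a v) = fch z i α v := by
  unfold fch
  rw [cl_act, gz_act]

/-- the function of the sums -/
noncomputable def Gv (z : ℂ) (j : ℤ) (i : Cx D) (α : ZMod D.K × ZMod D.K) (v : V) : ℂ :=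
  fch z i α v * uu i v ^ j

theorem Gv_act (z : ℂ) (j : ℤ) (i : Cx D) (α : ZMod D.K × ZMod D.K) {v : V}
    (hv : Cn (rp i) v) : Gv z j i α (act (rp i) D.a v) = Gv z j i α v := by
  unfold Gv
  rw [fch_act, uu_act i hv]

theorem VPg_comp (z : ℂ) (r1 r2 N : ℝ) (j : ℤ) (i : Cx D) (α : ZMod D.K × ZMod D.K) :
    VPg D z r1 r2 N j (i, α) = (1 / (N : ℂ)) *
      ∑ v ∈ (Shg i (r1 * N) (r2 * N)).filter Prim, Gv z j i α v := by
  classical
  unfold VPg
  rw [vec_apply, Finset.sum_filter, Finset.mul_sum]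
  refine Finset.sum_congr rfl fun v _ => ?_
  unfold Gv fch
  split_ifs <;> ring

/-- the function at the image of a vector -/
theorem Gv_M {P : ℕ × Bool} (hP : Adm D P) (z : ℂ) (j : ℤ) (i : Cx D)
    (α : ZMod D.K × ZMod D.K) {m : V} (hm : Cn (rp (sg D P i)) m) :
    Gv z j i α ((Mg D P i).app m) = z * (uu i ((Mg D P i).app (1, 0)) ^ j *
      Gv z j (sg D P i) (MRSG.ai (Mg D P i) α) m) := by
  unfold Gv fch
  have h1 : cl D.K ((Mg D P i).app m) = α ↔ cl D.K m = MRSG.ai (Mg D P i) α := by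
    rw [MRSG.cl_app']
    constructor
    · intro h2
      rw [← h2, MRSG.ai_az (unit_M hP i)]
    · intro h2
      rw [h2, MRSG.az_ai (unit_M hP i)]
  rw [uu_M hP i hm, mul_zpow]
  by_cases h2 : cl D.K m = MRSG.ai (Mg D P i) α
  · rw [if_pos h2, if_pos (h1.2 h2), gz_app hP z i hm]
    ring
  · rw [if_neg h2, if_neg (fun h3 => h2 (h1.1 h3))]
    ring

/-! ### the two kinds of pairs -/

open Classical in
/-- the coefficient of the pairs with `M m` not primitive -/
noncomputable def eP (z : ℂ) (h : ℕ) (r1 r2 N : ℝ) (P : ℕ × Bool) (i : Cx D)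
    (α : ZMod D.K × ZMod D.K) (v : V) : ℂ :=
  if Prim ((Mg D (P.1, !P.2) (sg D P i)).app v) ∧
    (r1 * (N * Real.exp (-(uslN h P.1 / h))) / P.1 < ((rp i).q v : ℝ) ∧
      ((rp i).q v : ℝ) ≤ r2 * (N * Real.exp (-(uslN h P.1 / h))) / P.1) then
    ((Real.exp (uslN h P.1 / h) / P.1 : ℝ) : ℂ) * fch z i α ((P.1 : ℤ) • v) else 0

theorem p_le {h p : ℕ} (hh : 0 < h) (hp : 0 < p) :
    (p : ℝ) ≤ Real.exp (uslN h p / h) * Real.exp (1 / h) := by
  have hp0 : (0 : ℝ) < p := by exact_mod_cast hp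
  have h2 := (wtN hh hp).1
  rw [le_div_iff₀ hp0] at h2
  have h4 : Real.exp (-(1 / (h : ℝ))) * Real.exp (1 / h) = 1 := by
    rw [← Real.exp_add, neg_add_cancel, Real.exp_zero]
  calc (p : ℝ) = (Real.exp (-(1 / (h : ℝ))) * p) * Real.exp (1 / h) := by
        rw [mul_right_comm, h4, one_mul]
    _ ≤ _ := mul_le_mul_of_nonneg_right h2 (Real.exp_pos _).le

/-- `p N_u ≤ e^(1/h) N` -/
theorem pN_le {h p : ℕ} (hh : 0 < h) (hp : 0 < p) {N : ℝ} (hN : 0 < N) :
    (p : ℝ) * (N * Real.exp (-(uslN h p / h))) ≤ Real.exp (1 / h) * N := by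
  have h5 : Real.exp (-(uslN h p / h : ℝ)) * Real.exp (uslN h p / h) = 1 := by
    rw [← Real.exp_add, neg_add_cancel, Real.exp_zero]
  calc (p : ℝ) * (N * Real.exp (-(uslN h p / h))) ≤
        (Real.exp (uslN h p / h) * Real.exp (1 / h)) * (N * Real.exp (-(uslN h p / h))) :=
        mul_le_mul_of_nonneg_right (p_le hh hp) (by positivity)
    _ = (Real.exp (-(uslN h p / h : ℝ)) * Real.exp (uslN h p / h)) * (Real.exp (1 / h) * N) := by
        ring
    _ = _ := by rw [h5, one_mul]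

theorem norm_eP {z : ℂ} (hz : ‖z‖ = 1) {h : ℕ} (hh : 0 < h) {r1 r2 N B : ℝ} (hr2 : 0 < r2)
    (hN : 0 < N) (hB : Real.exp (1 / h) * r2 ≤ B) {P : ℕ × Bool} (hP : Adm D P) (i : Cx D)
    (α : ZMod D.K × ZMod D.K) (v : V) : ‖eP z h r1 r2 N P i α v‖ ≤
      if (P.1 : ℝ) ^ 2 * ((rp i).q v : ℝ) ≤ B * N then 1 else 0 := by
  have hp0 : (0 : ℝ) < P.1 := by exact_mod_cast hP.1.pos
  unfold eP
  split_ifs with h1 h2 h2
  · rw [norm_mul, Complex.norm_real, Real.norm_of_nonneg (by positivity)]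
    calc Real.exp (uslN h P.1 / h) / P.1 * ‖fch z i α ((P.1 : ℤ) • v)‖ ≤ 1 * 1 :=
          mul_le_mul (wtN hh hP.1.pos).2 (norm_fch hz _ _ _) (norm_nonneg _) zero_le_one
      _ = 1 := one_mul 1
  · exfalso
    apply h2
    have h3 := h1.2.2
    rw [le_div_iff₀ hp0] at h3
    calc (P.1 : ℝ) ^ 2 * ((rp i).q v : ℝ) = P.1 * (((rp i).q v : ℝ) * P.1) := by ring
      _ ≤ P.1 * (r2 * (N * Real.exp (-(uslN h P.1 / h)))) :=
          mul_le_mul_of_nonneg_left h3 hp0.le
      _ = r2 * (P.1 * (N * Real.exp (-(uslN h P.1 / h)))) := by ring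
      _ ≤ r2 * (Real.exp (1 / h) * N) :=
          mul_le_mul_of_nonneg_left (pN_le hh hP.1.pos hN) hr2.le
      _ = (Real.exp (1 / h) * r2) * N := by ring
      _ ≤ B * N := mul_le_mul_of_nonneg_right hB hN.le
  · rw [norm_zero]
    exact zero_le_one
  · rw [norm_zero]

open Classical in
/-- the sum over the primitive vectors of the class `sg P i` -/
theorem sum_prim {P : ℕ × Bool} (hP : Adm D P) (z : ℂ) (j : ℤ) (i : Cx D)
    (α : ZMod D.K × ZMod D.K) (a b : ℝ) :
    ∑ m ∈ (Shg (sg D P i) a b).filter Prim, Gv z j i α ((Mg D P i).app m) =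
      ∑ v ∈ Shg i (P.1 * a) (P.1 * b),
        (if Eig P.1 (rg D P) (rp i) v ∧ Prim v then Gv z j i α v else 0) +
      ∑ v ∈ Shg i (a / P.1) (b / P.1),
        (if Prim ((Mg D (P.1, !P.2) (sg D P i)).app v) then
          Gv z j i α ((P.1 : ℤ) • v) else 0) := by
  obtain ⟨p, b'⟩ := P
  have hp0 : (0 : ℝ) < (p : ℝ) := by exact_mod_cast hP.1.pos
  have hP' : Adm D (p, !b') := hP
  obtain ⟨-, R⟩ := rel_g hP i
  -- the split
  have hsplit : ∑ m ∈ (Shg (sg D (p, b') i) a b).filter Prim,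
      Gv z j i α ((Mg D (p, b') i).app m) =
      ∑ m ∈ Shg (sg D (p, b') i) a b, (if Prim ((Mg D (p, b') i).app m) then
        Gv z j i α ((Mg D (p, b') i).app m) else 0) +
      ∑ m ∈ (Shg (sg D (p, b') i) a b).filter
        (fun m => Eig p (-rg D (p, b')) (rp (sg D (p, b') i)) m),
        (if Prim m then Gv z j i α ((Mg D (p, b') i).app m) else 0) := by
    rw [Finset.sum_filter, Finset.sum_filter, ← Finset.sum_add_distrib]
    refine Finset.sum_congr rfl fun m _ => ?_
    have h1 := prim_app_iff hP i (w := m)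
    simp only at h1
    by_cases h2 : Prim m
    · by_cases h3 : Eig p (-rg D (p, b')) (rp (sg D (p, b') i)) m
      · have h4 : ¬ Prim ((Mg D (p, b') i).app m) := fun h5 => (h1.1 h5).2 h3
        rw [if_pos h2, if_neg h4, if_pos h3, zero_add]
      · have h4 : Prim ((Mg D (p, b') i).app m) := h1.2 ⟨h2, h3⟩
        rw [if_pos h2, if_pos h4, if_neg h3, add_zero]
    · have h4 : ¬ Prim ((Mg D (p, b') i).app m) := fun h5 => h2 (h1.1 h5).1
      rw [if_neg h2, if_neg h4]
      split_ifs <;> simp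
  rw [hsplit]
  congr 1
  · -- primitive images
    have hinv : ∀ v, Cn (rp i) v → (fun v => if Prim v then Gv z j i α v else 0)
        (act (rp i) D.a v) = (fun v => if Prim v then Gv z j i α v else 0) v := by
      intro v hv
      simp only
      rw [Gv_act z j i α hv]
      simp only [prim_act i v]
    have h1 := sum_eig hP i (p * a) (p * b) (f := fun v => if Prim v then Gv z j i α v else 0)
      hinv
    simp only at h1
    rw [mul_div_cancel_left₀ _ hp0.ne', mul_div_cancel_left₀ _ hp0.ne'] at h1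
    rw [Shg_eq, Shg_eq, ← h1, Finset.sum_filter]
    refine Finset.sum_congr rfl fun v _ => ?_
    by_cases h2 : Eig p (rg D (p, b')) (rp i) v
    · simp only [h2, true_and, if_true]
    · simp only [h2, false_and, if_false]
  · -- the conjugate prime
    have hrg : rg D (p, !b') = -rg D (p, b') := by
      unfold rg
      cases b' <;> simp
    have hinv : ∀ m, Cn (rp (sg D (p, b') i)) m →
        (fun m => if Prim m then Gv z j i α ((Mg D (p, b') i).app m) else 0)
          (act (rp (sg D (p, b') i)) D.a m) =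
        (fun m => if Prim m then Gv z j i α ((Mg D (p, b') i).app m) else 0) m := by
      intro m hm
      simp only
      have h2 := Dils1.sim_act (rp_hyp i) (rp_hyp (sg D (p, b') i)) hP.1.pos R.det R.sim
        (cn_M hP i) D.a m
      rw [h2, Gv_act z j i α ((cn_M hP i m).2 hm)]
      simp only [prim_act (sg D (p, b') i) m]
    have h1 := sum_eig hP' (sg D (p, b') i) a b
      (f := fun m => if Prim m then Gv z j i α ((Mg D (p, b') i).app m) else 0) hinv
    simp only at h1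
    rw [hrg] at h1
    rw [Shg_eq, h1]
    have h3 := fun v => Mg_conj hP i v
    have h4 : sg D (p, !b') (sg D (p, b') i) = i := (h3 0).1
    rw [h4, Shg_eq]
    refine Finset.sum_congr rfl fun v _ => ?_
    rw [(h3 v).2]

end Pool.Agent.Lib.MP_a17b09_nt.MRH.Dec21
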