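import Pool.Agent.Lib.MP_a17b09_nt.MRH.DecI21

/-!
MRH, decomposition by slices: the vector of the differences and `stDecG_21`.
-/

set_option autoImplicit false

open Finset

namespace Pool.Agent.Lib.MP_a17b09_nt.MRH.Dec21

open CH CH.PE HY HY.S68
open MRSG.Dec21 (uslN exp_le_iffN bwN wtN bwN_bd bwN_nm ThinG rpow_le_sqrt sqrt_le_div prim_of_app)

variable {D : Dat}

open Classical in
/-- the component of the image under `U_P` -/
theorem Ug_comp {P : ℕ × Bool} (hP : Adm D P) (z : ℂ) {h : ℕ} (hh : 0 < h) {r1 r2 N B : ℝ}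
    (hr2 : 0 < r2) (hN : 0 < N) (hB : Real.exp (1 / h) * r2 ≤ B) (j : ℤ) (i : Cx D)
    (α : ZMod D.K × ZMod D.K) (W : Finset V)
    (hW : ∀ v, v ∈ W ↔ Sec (rp i) D.T v ∧ Prim v ∧ ((rp i).q v : ℝ) ≤ B * N)
    (hr1 : 0 < r1) :
    (z / (P.1 : ℂ)) * Ug D P j (VPg D z r1 r2 (N * Real.exp (-(uslN h P.1 / h))) j) (i, α) =
      (1 / (N : ℂ)) * (∑ v ∈ W, ((if Eig P.1 (rg D P) (rp i) v then
        bwN h r1 r2 N P.1 (((rp i).q v : ℝ) / P.1) else 0 : ℝ) : ℂ) * (fch z i α v * uu i v ^ j) +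
        ∑ v ∈ W, eP z h r1 r2 N P i α v * uu i v ^ j) := by
  set Nu : ℝ := N * Real.exp (-(uslN h P.1 / h)) with hNu
  set E : ℝ := Real.exp (uslN h P.1 / h) with hE
  have hNu0 : 0 < Nu := by positivity
  have hp0 : (0 : ℝ) < P.1 := by exact_mod_cast hP.1.pos
  have hpc : (P.1 : ℂ) ≠ 0 := by exact_mod_cast hP.1.ne_zero
  have hpN := pN_le hh hP.1.pos hN
  rw [← hNu] at hpN
  have hpr : P.1 * (r2 * Nu) ≤ B * N := by
    calc P.1 * (r2 * Nu) = r2 * (P.1 * Nu) := by ring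
      _ ≤ r2 * (Real.exp (1 / h) * N) := mul_le_mul_of_nonneg_left hpN hr2.le
      _ = (Real.exp (1 / h) * r2) * N := by ring
      _ ≤ B * N := mul_le_mul_of_nonneg_right hB hN.le
  -- the sum over the primitive vectors
  have e0 : (z / (P.1 : ℂ)) * Ug D P j (VPg D z r1 r2 Nu j) (i, α) =
      (1 / (N : ℂ)) * (((E / P.1 : ℝ) : ℂ) *
        ∑ m ∈ (Shg (sg D P i) (r1 * Nu) (r2 * Nu)).filter Prim,
          Gv z j i α ((Mg D P i).app m)) := by
    have h5 : Real.exp (-(uslN h P.1 / h : ℝ)) * E = 1 := by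
      rw [hE, ← Real.exp_add, neg_add_cancel, Real.exp_zero]
    have hN1 : (1 : ℂ) / (Nu : ℂ) = (1 / (N : ℂ)) * (E : ℂ) := by
      have h6 : (Nu : ℂ) ≠ 0 := by exact_mod_cast hNu0.ne'
      have h7 : (N : ℂ) ≠ 0 := by exact_mod_cast hN.ne'
      have h8 : (N : ℂ) = (Nu : ℂ) * (E : ℂ) := by
        rw [← Complex.ofReal_mul, hNu, mul_assoc, h5, mul_one]
      rw [div_eq_iff h6]
      have h9 : (1 / (N : ℂ)) * (E : ℂ) * (Nu : ℂ) = (1 / (N : ℂ)) * ((Nu : ℂ) * (E : ℂ)) := by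
        ring
      rw [h9, ← h8, one_div_mul_cancel h7]
    rw [Ug_apply, VPg_comp, hN1, Complex.ofReal_div, Complex.ofReal_natCast]
    have h6 : ∀ m ∈ (Shg (sg D P i) (r1 * Nu) (r2 * Nu)).filter Prim,
        Gv z j i α ((Mg D P i).app m) = z * uu i ((Mg D P i).app (1, 0)) ^ j *
          Gv z j (sg D P i) (MRSG.ai (Mg D P i) α) m := by
      intro m hm
      have h7 := (mem_Shg.1 (Finset.mem_filter.1 hm).1).1.1
      rw [Gv_M hP z j i α h7]
      ring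
    rw [Finset.sum_congr rfl h6, ← Finset.mul_sum]
    ring
  rw [e0, sum_prim hP z j i α (r1 * Nu) (r2 * Nu)]
  congr 1
  rw [mul_add]
  congr 1
  · -- primitive images
    rw [← Finset.sum_filter, Finset.mul_sum]
    have h1 : ∀ v ∈ W, ((if Eig P.1 (rg D P) (rp i) v then
        bwN h r1 r2 N P.1 (((rp i).q v : ℝ) / P.1) else 0 : ℝ) : ℂ) * (fch z i α v * uu i v ^ j) =
        if Eig P.1 (rg D P) (rp i) v ∧ (r1 * Nu < ((rp i).q v : ℝ) / P.1 ∧
          ((rp i).q v : ℝ) / P.1 ≤ r2 * Nu) then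
          ((E / P.1 : ℝ) : ℂ) * Gv z j i α v else 0 := by
      intro v _
      unfold bwN Gv
      by_cases h2 : Eig P.1 (rg D P) (rp i) v
      · by_cases h3 : r1 * Nu < ((rp i).q v : ℝ) / P.1 ∧ ((rp i).q v : ℝ) / P.1 ≤ r2 * Nu
        · rw [if_pos h2, if_pos h3, if_pos ⟨h2, h3⟩]
        · rw [if_pos h2, if_neg h3, if_neg (fun h4 => h3 h4.2), Complex.ofReal_zero, zero_mul]
      · rw [if_neg h2, if_neg (fun h4 => h2 h4.1), Complex.ofReal_zero, zero_mul]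
    rw [Finset.sum_congr rfl h1, ← Finset.sum_filter]
    refine Finset.sum_congr ?_ fun _ _ => rfl
    ext v
    rw [Finset.mem_filter, Finset.mem_filter, mem_Shg, hW, lt_div_iff₀ hp0, div_le_iff₀ hp0]
    constructor
    · rintro ⟨⟨h2, h3, h4⟩, h5, h6⟩
      exact ⟨⟨h2, h6, h4.trans hpr⟩, h5, by linarith, by linarith⟩
    · rintro ⟨⟨h2, h3, h4⟩, h5, h6, h7⟩
      exact ⟨⟨h2, by linarith, by linarith⟩, h5, h3⟩
  · -- the others
    rw [← Finset.sum_filter, Finset.mul_sum]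
    have h1 : ∀ v ∈ W, eP z h r1 r2 N P i α v * uu i v ^ j =
        if Prim ((Mg D (P.1, !P.2) (sg D P i)).app v) ∧ (r1 * Nu / P.1 < ((rp i).q v : ℝ) ∧
          ((rp i).q v : ℝ) ≤ r2 * Nu / P.1) then
          ((E / P.1 : ℝ) : ℂ) * Gv z j i α ((P.1 : ℤ) • v) else 0 := by
      intro v _
      unfold eP Gv
      rw [uu_smul i (by exact_mod_cast hP.1.pos)]
      split_ifs
      · ring
      · rw [zero_mul]
    rw [Finset.sum_congr rfl h1, ← Finset.sum_filter]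
    refine Finset.sum_congr ?_ fun _ _ => rfl
    ext v
    rw [Finset.mem_filter, Finset.mem_filter, mem_Shg, hW]
    constructor
    · rintro ⟨⟨h2, h3, h4⟩, h5⟩
      refine ⟨⟨h2, prim_of_app h5, h4.trans ?_⟩, h5, h3, h4⟩
      have hp1 : (1 : ℝ) ≤ P.1 := by exact_mod_cast hP.1.pos
      have h6 : r2 * Nu / P.1 ≤ r2 * Nu := div_le_self (by positivity) hp1
      have h7 : r2 * Nu ≤ P.1 * (r2 * Nu) := le_mul_of_one_le_left (by positivity) hp1
      linarith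
    · rintro ⟨⟨h2, h3, h4⟩, h5, h6, h7⟩
      exact ⟨⟨h2, h6, h7⟩, h5⟩

/-- the vector of the differences -/
noncomputable def yv (D : Dat) (z : ℂ) (h : ℕ) (r1 r2 N L : ℝ)
    (PP : Finset (ℕ × Bool)) (j : ℤ) : Hs D :=
  VPg D z r1 r2 N j - (1 / (L : ℂ)) • ∑ P ∈ PP, (z / (P.1 : ℂ)) •
    Ug D P j (VPg D z r1 r2 (N * Real.exp (-(uslN h P.1 / h))) j)

theorem co_yv (z : ℂ) (h : ℕ) (r1 r2 N L : ℝ) (PP : Finset (ℕ × Bool))
    (hPP : ∀ P ∈ PP, Adm D P) (j : ℤ) (k : Fin (mm D j)) :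
    co D j k (yv D z h r1 r2 N L PP j) = Mpg z r1 r2 N ⟨j, k⟩ -
      (1 / (L : ℂ)) * ∑ P ∈ PP, z * cw P (⟨j, k⟩ : Fq D) / (P.1 : ℂ) *
        Mpg z r1 r2 (N * Real.exp (-(uslN h P.1 / h))) ⟨j, k⟩ := by
  unfold yv
  rw [co_sub, co_smul, co_sum, co_VPg]
  congr 2
  refine Finset.sum_congr rfl fun P hP => ?_
  rw [co_smul, co_Ug (hPP P hP), co_VPg]
  unfold cw
  ring

theorem Hs_sum {ι : Type} (s : Finset ι) (x : ι → Hs D) (ia : Cx D × (ZMod D.K × ZMod D.K)) :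
    (∑ P ∈ s, x P) ia = ∑ P ∈ s, x P ia := by
  rw [WithLp.ofLp_sum, Finset.sum_apply]

open Classical in
/-- the component of the difference -/
theorem yv_comp (z : ℂ) {h : ℕ} (hh : 0 < h) {r1 r2 N L B : ℝ} (hr1 : 0 < r1) (hr2 : 0 < r2)
    (hN : 0 < N) (hB : Real.exp (1 / h) * r2 ≤ B) (hB2 : r2 ≤ B)
    (PP : Finset (ℕ × Bool)) (hPP : ∀ P ∈ PP, Adm D P) (j : ℤ) (i : Cx D)
    (α : ZMod D.K × ZMod D.K) (W : Finset V)
    (hW : ∀ v, v ∈ W ↔ Sec (rp i) D.T v ∧ Prim v ∧ ((rp i).q v : ℝ) ≤ B * N) :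
    yv D z h r1 r2 N L PP j (i, α) =
      (1 / (N : ℂ)) * ∑ v ∈ W, (((if r1 * N < ((rp i).q v : ℝ) ∧ ((rp i).q v : ℝ) ≤ r2 * N
        then 1 else 0 : ℝ)) : ℂ) * (fch z i α v * uu i v ^ j) -
      (1 / (L : ℂ)) * ((1 / (N : ℂ)) * (∑ v ∈ W,
        (bet (fun v => ((rp i).q v : ℝ)) h r1 r2 N PP Prod.fst
          (fun P v => Eig P.1 (rg D P) (rp i) v) v : ℂ) * (fch z i α v * uu i v ^ j) +
        ∑ v ∈ W, (∑ P ∈ PP, eP z h r1 r2 N P i α v) * uu i v ^ j)) := by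
  unfold yv
  rw [PiLp.sub_apply, PiLp.smul_apply, Hs_sum, VPg_comp, smul_eq_mul]
  have e1 : ∑ v ∈ (Shg i (r1 * N) (r2 * N)).filter Prim, Gv z j i α v =
      ∑ v ∈ W, (((if r1 * N < ((rp i).q v : ℝ) ∧ ((rp i).q v : ℝ) ≤ r2 * N
        then 1 else 0 : ℝ)) : ℂ) * (fch z i α v * uu i v ^ j) := by
    have h1 : ∀ v ∈ W, (((if r1 * N < ((rp i).q v : ℝ) ∧ ((rp i).q v : ℝ) ≤ r2 * N
        then 1 else 0 : ℝ)) : ℂ) * (fch z i α v * uu i v ^ j) =
        if r1 * N < ((rp i).q v : ℝ) ∧ ((rp i).q v : ℝ) ≤ r2 * N then Gv z j i α v else 0 := by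
      intro v _
      unfold Gv
      split_ifs <;> simp
    rw [Finset.sum_congr rfl h1, ← Finset.sum_filter]
    refine Finset.sum_congr ?_ fun _ _ => rfl
    ext v
    rw [Finset.mem_filter, Finset.mem_filter, mem_Shg, hW]
    constructor
    · rintro ⟨⟨h2, h3, h4⟩, h5⟩
      exact ⟨⟨h2, h5, h4.trans (mul_le_mul_of_nonneg_right hB2 hN.le)⟩, h3, h4⟩
    · rintro ⟨⟨h2, h3, h4⟩, h5, h6⟩
      exact ⟨⟨h2, h5, h6⟩, h3⟩
  have e2 : ∑ P ∈ PP, ((z / (P.1 : ℂ)) •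
      Ug D P j (VPg D z r1 r2 (N * Real.exp (-(uslN h P.1 / h))) j)) (i, α) =
      (1 / (N : ℂ)) * (∑ v ∈ W,
        (bet (fun v => ((rp i).q v : ℝ)) h r1 r2 N PP Prod.fst
          (fun P v => Eig P.1 (rg D P) (rp i) v) v : ℂ) * (fch z i α v * uu i v ^ j) +
        ∑ v ∈ W, (∑ P ∈ PP, eP z h r1 r2 N P i α v) * uu i v ^ j) := by
    have h1 : ∀ P ∈ PP, ((z / (P.1 : ℂ)) •
        Ug D P j (VPg D z r1 r2 (N * Real.exp (-(uslN h P.1 / h))) j)) (i, α) =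
        (1 / (N : ℂ)) * (∑ v ∈ W, ((if Eig P.1 (rg D P) (rp i) v then
        bwN h r1 r2 N P.1 (((rp i).q v : ℝ) / P.1) else 0 : ℝ) : ℂ) * (fch z i α v * uu i v ^ j) +
        ∑ v ∈ W, eP z h r1 r2 N P i α v * uu i v ^ j) := by
      intro P hP
      rw [PiLp.smul_apply, smul_eq_mul]
      exact Ug_comp (hPP P hP) z hh hr2 hN hB j i α W hW hr1
    rw [Finset.sum_congr rfl h1, ← Finset.mul_sum, Finset.sum_add_distrib, Finset.sum_comm,
      Finset.sum_comm (s := PP)]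
    congr 2
    · refine Finset.sum_congr rfl fun v _ => ?_
      rw [← Finset.sum_mul]
      unfold bet
      rw [Complex.ofReal_sum]
    · refine Finset.sum_congr rfl fun v _ => ?_
      rw [Finset.sum_mul]
  rw [e1, e2]

/-- **DECG** -/
theorem stDecG_21 (D : Dat) : StDecG D := by
  classical
  intro z hz r1 r2 hr1 hr
  have hr2 : 0 < r2 := hr1.trans hr
  obtain ⟨B, hB⟩ : ∃ B : ℝ, B = 3 * r2 + 1 := ⟨_, rfl⟩
  have hB0 : 0 < B := by rw [hB]; linarith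
  have hB1 : 1 ≤ B := by rw [hB]; linarith
  obtain ⟨Cn1, hCn1, hcard, -⟩ := counts D
  obtain ⟨Ca, hCa, th1⟩ := thin D r1 hr1
  obtain ⟨Cb, hCb, th2⟩ := thin D r2 hr2
  obtain ⟨CT, hCT, htk⟩ := tk D
  have hls := fun i : Cx D => lsn D i B hB1
  choose CA hCA hLs using hls
  set CC : Cx D → ℝ := fun i => 3 * (CA i * (CT * r2) + 4 * CA i * (Cn1 * B) +
    CA i * (4 * (CT * B)) + CA i * (4 * (CT * B) + 152 * ((Cn1 * B) / 38) + 4 * (Ca + Cb)))
    with hCC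
  have hCC0 : ∀ i, 0 < CC i := by
    intro i
    have := hCA i
    simp only [hCC]
    positivity
  set N0 : ℝ := 1 + 1 / r2 + (1 / r2) ^ 2 with hN0
  have hN01 : 1 ≤ N0 := by
    have h1 : 0 < 1 / r2 := by positivity
    nlinarith [sq_nonneg (1 / r2)]
  refine ⟨1 + ∑ i : Cx D, ∑ _α : ZMod D.K × ZMod D.K, CC i, N0, ?_, hN01, ?_⟩
  · have : 0 ≤ ∑ i : Cx D, ∑ _α : ZMod D.K × ZMod D.K, CC i :=
      Finset.sum_nonneg fun i _ => Finset.sum_nonneg fun _ _ => (hCC0 i).le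
    linarith
  intro h u0 u1 N hh hu0 hu01 hN hhN hyN hLL J hJ
  have hN1 : 1 ≤ N := hN01.trans hN
  have hNpos : 0 < N := by linarith
  have hq1 : (1 / r2) ^ 2 ≤ N := by
    have h1 : 0 < 1 / r2 := by positivity
    linarith
  have hq2 : 1 / r2 ≤ N := by
    have h1 : 0 < 1 / r2 := by positivity
    nlinarith [sq_nonneg (1 / r2)]
  have hqB1 : (1 / B) ^ 2 ≤ N := by
    have h1 : 1 / B ≤ 1 := by rw [div_le_one hB0]; exact hB1
    have h2 : 0 < 1 / B := by positivity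
    nlinarith
  have hqB2 : 1 / B ≤ N := by
    have h1 : 1 / B ≤ 1 := by rw [div_le_one hB0]; exact hB1
    linarith
  set PP := slg D (Real.exp (u0 / h)) (Real.exp (u1 / h)) with hPP
  set L := LLg D (Real.exp (u0 / h)) (Real.exp (u1 / h)) with hL
  have hLdef : L = ∑ P ∈ PP, 1 / (P.1 : ℝ) := rfl
  have hAdm : ∀ P ∈ PP, Adm D P := fun P hP => (mem_slg.1 hP).1
  have hpN : ∀ P ∈ PP, (P.1 : ℝ) ≤ N ^ (1 / 8 : ℝ) := fun P hP =>
    (mem_slg.1 hP).2.2.le.trans hyN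
  have hL0 : 0 < L := by linarith
  have hh0 : (0 : ℝ) < h := by exact_mod_cast hh
  have hh1 : (1 : ℝ) ≤ h := by exact_mod_cast hh
  have he3 : Real.exp (1 / h) ≤ 3 := by
    have hx1 : (1 : ℝ) / h ≤ 1 := by
      rw [div_le_one hh0]
      exact hh1
    have h1 : Real.exp (1 / h) ≤ Real.exp 1 := Real.exp_le_exp.2 hx1
    linarith [Real.exp_one_lt_d9]
  have hBe : Real.exp (1 / h) * r2 ≤ B := by rw [hB]; nlinarith
  have hB2 : r2 ≤ B := by rw [hB]; linarith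
  have hWex : ∀ i : Cx D, ∃ W : Finset V, ∀ v, v ∈ W ↔
      Sec (rp i) D.T v ∧ Prim v ∧ ((rp i).q v : ℝ) ≤ B * N := by
    intro i
    refine ⟨(shS (rp i) D.T 0 (B * N)).filter Prim, fun v => ?_⟩
    rw [Finset.mem_filter, mem_shS (rp_hyp i)]
    constructor
    · rintro ⟨⟨h1, _, h2⟩, h3⟩
      exact ⟨h1, h3, h2⟩
    · rintro ⟨h1, h2, h3⟩
      have := q_one h1
      exact ⟨⟨h1, by linarith, h3⟩, h2⟩
  choose W hW using hWex
  have hkey : ∀ (i : Cx D) (α : ZMod D.K × ZMod D.K),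
      ∑ j ∈ Finset.Icc (-(J : ℤ)) J, ‖yv D z h r1 r2 N L PP j (i, α)‖ ^ 2 ≤
        CC i * (1 / L + 1 / h) := by
    intro i α
    have hmain := dec_abs (W := W i) (q := fun v => ((rp i).q v : ℝ)) (P := PP)
      (p := Prod.fst) (Dv := fun P v => Eig P.1 (rg D P) (rp i) v)
      (fun P hP => (hAdm P hP).1) (fun n => MRSG.PwtG84.fib_le PP n)
      (fun v hv => zero_le_one.trans (q_one ((hW i v).1 hv).1)) (J := J) hh
      (r1 := r1) (r2 := r2) (B := B) hNpos (hCA i)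
      (by positivity : 0 < CT * r2) (by positivity : 0 < CT * B)
      (by positivity : 0 < Cn1 * B) (by positivity : 0 < Ca + Cb)
      (by positivity : 0 < Cn1 * B) hLdef hLL (χ := fun j v => uu i v ^ j)
      (f := fch z i α) (e := fun v => ∑ P ∈ PP, eP z h r1 r2 N P i α v)
      (norm_fch hz i α) ?_ ?_ ?_ ?_ ?_ ?_ ?_
    · refine le_trans (le_of_eq ?_) hmain
      refine Finset.sum_congr rfl fun j _ => ?_
      rw [yv_comp z hh hr1 hr2 hNpos hBe hB2 PP hAdm j i α (W i) (hW i)]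
    · intro v _
      refine (norm_sum_le _ _).trans (Finset.sum_le_sum fun P hP => ?_)
      exact norm_eP hz hh hr2 hNpos hBe (hAdm P hP) i α v
    · intro c
      exact hLs i N hN1 J hJ (W i) (fun v hv => (hW i v).1 hv) c
    · have h1 := htk r2 hr2 i N hN1 hq1 hq2 PP (fun P hP => ⟨hAdm P hP, hpN P hP⟩)
        ((W i).filter (fun v => ((rp i).q v : ℝ) ≤ r2 * N)) (fun v hv => by
          rw [Finset.mem_filter] at hv
          exact ⟨((hW i v).1 hv.1).1, hv.2⟩)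
      exact h1
    · exact htk B hB0 i N hN1 hqB1 hqB2 PP (fun P hP => ⟨hAdm P hP, hpN P hP⟩) (W i)
        (fun v hv => ⟨((hW i v).1 hv).1, ((hW i v).1 hv).2.2⟩)
    · have h1 := hcard i (W i) (B * N) (by positivity)
        (fun v hv => ⟨((hW i v).1 hv).1, ((hW i v).1 hv).2.2⟩)
      linarith
    · have h2 : (((W i).filter (fun v => ThinG r1 r2 N h ((rp i).q v : ℝ))).card : ℝ) ≤
          ((W i).filter (fun v => r1 * N < ((rp i).q v : ℝ) ∧
            ((rp i).q v : ℝ) ≤ r1 * N * Real.exp (1 / h))).card +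
          ((W i).filter (fun v => r2 * N < ((rp i).q v : ℝ) ∧
            ((rp i).q v : ℝ) ≤ r2 * N * Real.exp (1 / h))).card := by
        have h1 : (W i).filter (fun v => ThinG r1 r2 N h ((rp i).q v : ℝ)) =
            (W i).filter (fun v => r1 * N < ((rp i).q v : ℝ) ∧
              ((rp i).q v : ℝ) ≤ r1 * N * Real.exp (1 / h)) ∪
            (W i).filter (fun v => r2 * N < ((rp i).q v : ℝ) ∧
              ((rp i).q v : ℝ) ≤ r2 * N * Real.exp (1 / h)) := by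
          ext v
          simp only [Finset.mem_filter, Finset.mem_union]
          unfold ThinG
          tauto
        rw [h1]
        exact_mod_cast Finset.card_union_le _ _
      have h3 := th1 i N h hN1 hh hhN ((W i).filter (fun v => r1 * N < ((rp i).q v : ℝ) ∧
            ((rp i).q v : ℝ) ≤ r1 * N * Real.exp (1 / h))) (fun u hu => by
          rw [Finset.mem_filter] at hu
          exact ⟨((hW i u).1 hu.1).1, hu.2.1, hu.2.2⟩)
      have h4 := th2 i N h hN1 hh hhN ((W i).filter (fun v => r2 * N < ((rp i).q v : ℝ) ∧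
            ((rp i).q v : ℝ) ≤ r2 * N * Real.exp (1 / h))) (fun u hu => by
          rw [Finset.mem_filter] at hu
          exact ⟨((hW i u).1 hu.1).1, hu.2.1, hu.2.2⟩)
      rw [add_mul]
      exact h2.trans (add_le_add h3 h4)
    · intro P hP
      have hp0 : (0 : ℝ) < P.1 := by exact_mod_cast (hAdm P hP).1.pos
      have h1 := hcard i ((W i).filter (fun v => (P.1 : ℝ) ^ 2 * ((rp i).q v : ℝ) ≤ B * N))
        (B * N / (P.1 : ℝ) ^ 2) (by positivity) (fun v hv => by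
          rw [Finset.mem_filter] at hv
          refine ⟨((hW i v).1 hv.1).1, ?_⟩
          rw [le_div_iff₀ (by positivity)]
          linarith [hv.2])
      refine h1.trans (le_of_eq ?_)
      ring
  have hid : ∀ (j : ℤ) (k : Fin (mm D j)), Mpg z r1 r2 N (⟨j, k⟩ : Fq D) -
      (1 / (L : ℂ)) * ∑ u ∈ Finset.Ico u0 u1, Qsg z h u (⟨j, k⟩ : Fq D) *
        Mpg z r1 r2 (N * Real.exp (-(u / h))) ⟨j, k⟩ =
      co D j k (yv D z h r1 r2 N L PP j) := by
    intro j k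
    rw [co_yv z h r1 r2 N L PP hAdm j k]
    congr 2
    rw [hPP, ← sum_slices (D := D) hh u0 u1 (fun u P =>
      z * cw P (⟨j, k⟩ : Fq D) / (P.1 : ℂ) *
        Mpg z r1 r2 (N * Real.exp (-(u / h))) (⟨j, k⟩ : Fq D))]
    refine Finset.sum_congr rfl fun u _ => ?_
    unfold Qsg
    rw [Finset.sum_mul]
  rw [sum_SJ]
  calc ∑ j ∈ Finset.Icc (-(J : ℤ)) J, ∑ k : Fin (mm D j),
        ‖Mpg z r1 r2 N (⟨j, k⟩ : Fq D) - (1 / (L : ℂ)) * ∑ u ∈ Finset.Ico u0 u1,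
          Qsg z h u (⟨j, k⟩ : Fq D) * Mpg z r1 r2 (N * Real.exp (-(u / h))) ⟨j, k⟩‖ ^ 2
      = ∑ j ∈ Finset.Icc (-(J : ℤ)) J, ∑ k : Fin (mm D j),
        ‖co D j k (yv D z h r1 r2 N L PP j)‖ ^ 2 := by
        refine Finset.sum_congr rfl fun j _ => Finset.sum_congr rfl fun k _ => ?_
        rw [hid j k]
    _ ≤ ∑ j ∈ Finset.Icc (-(J : ℤ)) J, ∑ ia, ‖yv D z h r1 r2 N L PP j ia‖ ^ 2 :=
        Finset.sum_le_sum fun j _ => co_bessel j _
    _ = ∑ i : Cx D, ∑ α : ZMod D.K × ZMod D.K, ∑ j ∈ Finset.Icc (-(J : ℤ)) J,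
        ‖yv D z h r1 r2 N L PP j (i, α)‖ ^ 2 := by
        rw [Finset.sum_comm, Fintype.sum_prod_type]
    _ ≤ ∑ i : Cx D, ∑ _α : ZMod D.K × ZMod D.K, CC i * (1 / L + 1 / h) :=
        Finset.sum_le_sum fun i _ => Finset.sum_le_sum fun α _ => hkey i α
    _ = (∑ i : Cx D, ∑ _α : ZMod D.K × ZMod D.K, CC i) * (1 / L + 1 / h) := by
        rw [Finset.sum_mul]
        refine Finset.sum_congr rfl fun i _ => ?_
        rw [Finset.sum_mul]
    _ ≤ (1 + ∑ i : Cx D, ∑ _α : ZMod D.K × ZMod D.K, CC i) * (1 / L + 1 / h + h / u0) := by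
        have e1 : 0 ≤ ∑ i : Cx D, ∑ _α : ZMod D.K × ZMod D.K, CC i :=
          Finset.sum_nonneg fun i _ => Finset.sum_nonneg fun _ _ => (hCC0 i).le
        have e2 : 0 ≤ (h : ℝ) / u0 := by positivity
        have e3 : 0 ≤ 1 / L + 1 / h := by positivity
        apply mul_le_mul (by linarith) (by linarith) e3 (by linarith)

end Pool.Agent.Lib.MP_a17b09_nt.MRH.Dec21
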