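import Pool.Agent.Lib.MP_a17b09_nt.HY.Dils1
import Pool.Agent.Lib.MP_a17b09_nt.HY.Sys68
import Pool.Agent.Lib.MP_a17b09_nt.MRSG.StructC17

/-!
Project MRH (positive discriminant): directions of the vectors of the cone, shells of a sector,
unfolding.  Independent of the names of the project.
-/

set_option autoImplicit false

open Finset

namespace Pool.Agent.Lib.MP_a17b09_nt.MRH

open CH HY

/-! ### directions -/

/-- the direction of a vector of the cone, for the period `T` -/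
noncomputable def eh (T : ℝ) (Q : Form) (v : V) : ℂ :=
  Complex.exp (((2 * Real.pi * (ps Q v / T) : ℝ) : ℂ) * Complex.I)

theorem norm_eh (T : ℝ) (Q : Form) (v : V) : ‖eh T Q v‖ = 1 := Complex.norm_exp_ofReal_mul_I _

theorem eh_ne (T : ℝ) (Q : Form) (v : V) : eh T Q v ≠ 0 := Complex.exp_ne_zero _

theorem eh_of_add {T : ℝ} {Q Q' : Form} {v w : V} {c : ℝ} (h : ps Q v = ps Q' w + c) :
    eh T Q v = eh T Q' w * Complex.exp (((2 * Real.pi * (c / T) : ℝ) : ℂ) * Complex.I) := by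
  unfold eh
  rw [h, ← Complex.exp_add, ← add_mul, ← Complex.ofReal_add]
  congr 4
  ring

theorem eh_e1 (T : ℝ) (Q : Form) : eh T Q (1, 0) = 1 := by
  unfold eh
  rw [S68.ps_e1, zero_div, mul_zero, Complex.ofReal_zero, zero_mul, Complex.exp_zero]

/-- a direct similitude preserving the cone multiplies the directions by a constant -/
theorem eh_app {d : ℕ} {T : ℝ} {Q Q' : Form} (hQ : Hyp d Q) (hQ' : Hyp d Q') {M : Mat} {n : ℕ}
    (hn : 0 < n) (hdet : M.det = n) (hsim : ∀ u, Q.q (M.app u) = n * Q'.q u)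
    (hc : ∀ u, Cn Q (M.app u) ↔ Cn Q' u) {v : V} (hv : Cn Q' v) :
    eh T Q (M.app v) = eh T Q (M.app (1, 0)) * eh T Q' v := by
  obtain ⟨c, h⟩ := Dils1.sim_ps hQ hQ' hn hdet hsim hc
  rw [eh_of_add (T := T) (h v hv), eh_of_add (T := T) (h (1, 0) (S68.cn_e1 hQ')), eh_e1, one_mul,
    mul_comm]

/-- the period -/
theorem eh_act {d : ℕ} {Q : Form} (hQ : Hyp d Q) {a : Pell.Solution₁ (d : ℤ)} (ha : PP a) {v : V}
    (hv : Cn Q v) : eh (per a) Q (act Q a v) = eh (per a) Q v := by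
  rw [eh_of_add (T := per a) (ps_act hQ ha hv), div_self (per_pos ha).ne', mul_one,
    Complex.ofReal_mul, Complex.ofReal_ofNat, Complex.exp_two_pi_mul_I, mul_one]

theorem ps_smul17 (Q : Form) {n : ℤ} (hn : 0 < n) (v : V) : ps Q (n • v) = ps Q v := by
  have e1 : hX Q (n • v) = n * hX Q v := by unfold hX; simp; ring
  have e2 : hY Q (n • v) = n * hY Q v := by unfold hY; simp; ring
  have hnr : (n : ℝ) ≠ 0 := by exact_mod_cast hn.ne'
  unfold ps
  rw [e1, e2, ← mul_add, ← mul_sub, mul_div_mul_left _ _ hnr]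

theorem cn_smul17 (Q : Form) {n : ℤ} (hn : 0 < n) (v : V) : Cn Q (n • v) ↔ Cn Q v := by
  have e1 : hX Q (n • v) = n * hX Q v := by unfold hX; simp; ring
  have e2 : hY Q (n • v) = n * hY Q v := by unfold hY; simp; ring
  have hnr : (0 : ℝ) < n := by exact_mod_cast hn
  unfold Cn
  rw [e1, e2, abs_mul, abs_of_pos hnr, mul_lt_mul_iff_right₀ hnr]

theorem sec_smul (Q : Form) (T : ℝ) {n : ℤ} (hn : 0 < n) (v : V) :
    Sec Q T (n • v) ↔ Sec Q T v := by
  unfold Sec
  rw [cn_smul17 Q hn, ps_smul17 Q hn]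

/-- a positive multiple has the same direction -/
theorem eh_smul (T : ℝ) (Q : Form) {n : ℤ} (hn : 0 < n) (v : V) : eh T Q (n • v) = eh T Q v := by
  unfold eh
  rw [ps_smul17 Q hn]

/-! ### shells -/

theorem shS_finite {d : ℕ} {Q : Form} (hQ : Hyp d Q) (T a b : ℝ) :
    {v : V | Sec Q T v ∧ a < (Q.q v : ℝ) ∧ (Q.q v : ℝ) ≤ b}.Finite := by
  have h1 : ((Finset.Icc (1 : ℤ) ⌊b⌋).biUnion (fun A =>
      (S68.sec_finite hQ T A).toFinset) : Set V).Finite := Finset.finite_toSet _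
  refine h1.subset ?_
  rintro v ⟨⟨h2, h3, h4⟩, h5, h6⟩
  rw [Finset.mem_coe, Finset.mem_biUnion]
  refine ⟨Q.q v, ?_, ?_⟩
  · rw [Finset.mem_Icc]
    exact ⟨h2.q_pos hQ, Int.le_floor.2 h6⟩
  · rw [Set.Finite.mem_toFinset]
    exact ⟨h2, h3, h4, rfl⟩

open Classical in
/-- the vectors of the sector with `a < Q(v) ≤ b` -/
noncomputable def shS (Q : Form) (T a b : ℝ) : Finset V :=
  if h : {v : V | Sec Q T v ∧ a < (Q.q v : ℝ) ∧ (Q.q v : ℝ) ≤ b}.Finite then h.toFinset else ∅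

theorem mem_shS {d : ℕ} {Q : Form} (hQ : Hyp d Q) {T a b : ℝ} {v : V} :
    v ∈ shS Q T a b ↔ Sec Q T v ∧ a < (Q.q v : ℝ) ∧ (Q.q v : ℝ) ≤ b := by
  unfold shS
  rw [dif_pos (shS_finite hQ T a b), Set.Finite.mem_toFinset]
  rfl

/-- the action as a permutation -/
def actE {d : ℕ} {Q : Form} (hQ : Hyp d Q) (a : Pell.Solution₁ (d : ℤ)) : Equiv.Perm V where
  toFun := act Q a
  invFun := act Q a⁻¹
  left_inv v := by rw [← act_mul hQ, inv_mul_cancel, act_one]
  right_inv v := by rw [← act_mul hQ, mul_inv_cancel, act_one]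

/-- unfolding: the sector `[0, T)` against `{v : 0 ≤ s v < T}` for any equivariant `s` -/
theorem sum_unfold {d : ℕ} {Q : Form} (hQ : Hyp d Q) {a : Pell.Solution₁ (d : ℤ)} (ha : PP a)
    (x y : ℝ) {s : V → ℝ} (hs : ∀ v, Cn Q v → s (act Q a v) = s v + per a)
    {f : V → ℂ} (hf : ∀ v, Cn Q v → f (act Q a v) = f v) {S : Finset V}
    (hS : ∀ v, v ∈ S ↔ Cn Q v ∧ (0 ≤ s v ∧ s v < per a) ∧ x < (Q.q v : ℝ) ∧ (Q.q v : ℝ) ≤ y) :
    ∑ v ∈ shS Q (per a) x y, f v = ∑ v ∈ S, f v := by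
  classical
  let F : V → ℂ := fun v => if Cn Q v ∧ x < (Q.q v : ℝ) ∧ (Q.q v : ℝ) ≤ y then f v else 0
  have hP : ∀ v, Cn Q ((actE hQ a) v) ↔ Cn Q v := fun v => cn_act hQ ha v
  have hF : ∀ v, F ((actE hQ a) v) = F v := by
    intro v
    show F (act Q a v) = F v
    simp only [F]
    rw [cn_act hQ ha, q_act hQ]
    split_ifs with h
    · exact hf v h.1
    · rfl
  have hFP : ∀ v, F v ≠ 0 → Cn Q v := by
    intro v hv
    by_contra hc
    apply hv
    simp only [F]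
    rw [if_neg (fun h => hc h.1)]
  have key := Dils1.fold (actE hQ a) (P := Cn Q) hP (per_pos ha) (r := ps Q) (s := s)
    (fun v hv => ps_act hQ ha hv) hs F hF hFP
  have e1 : ∑' v, (if 0 ≤ ps Q v ∧ ps Q v < per a then F v else 0) =
      ∑ v ∈ shS Q (per a) x y, f v := by
    rw [tsum_eq_sum (s := shS Q (per a) x y)]
    · refine Finset.sum_congr rfl fun v hv => ?_
      rw [mem_shS hQ] at hv
      obtain ⟨⟨h1, h2, h3⟩, h4, h5⟩ := hv
      rw [if_pos ⟨h2, h3⟩]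
      simp only [F]
      rw [if_pos ⟨h1, h4, h5⟩]
    · intro v hv
      split_ifs with h
      · by_contra hne
        apply hv
        have h1 := hFP v hne
        rw [mem_shS hQ]
        simp only [F] at hne
        have h2 : Cn Q v ∧ x < (Q.q v : ℝ) ∧ (Q.q v : ℝ) ≤ y := by
          by_contra hcon
          rw [if_neg hcon] at hne
          exact hne rfl
        exact ⟨⟨h1, h.1, h.2⟩, h2.2⟩
      · rfl
  have e2 : ∑' v, (if 0 ≤ s v ∧ s v < per a then F v else 0) = ∑ v ∈ S, f v := by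
    rw [tsum_eq_sum (s := S)]
    · refine Finset.sum_congr rfl fun v hv => ?_
      rw [hS] at hv
      obtain ⟨h1, h2, h4, h5⟩ := hv
      rw [if_pos h2]
      simp only [F]
      rw [if_pos ⟨h1, h4, h5⟩]
    · intro v hv
      split_ifs with h
      · by_contra hne
        apply hv
        rw [hS]
        simp only [F] at hne
        have h2 : Cn Q v ∧ x < (Q.q v : ℝ) ∧ (Q.q v : ℝ) ≤ y := by
          by_contra hcon
          rw [if_neg hcon] at hne
          exact hne rfl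
        exact ⟨h2.1, h, h2.2⟩
      · rfl
  rw [← e1, key, e2]

/-- the sum over the images of a similitude -/
theorem sum_image {d : ℕ} {Q Q' : Form} (hQ : Hyp d Q) (hQ' : Hyp d Q')
    {a : Pell.Solution₁ (d : ℤ)} (ha : PP a) {M : Mat} {n : ℕ} (hn : 0 < n) (hdet : M.det = n)
    (hsim : ∀ u, Q.q (M.app u) = n * Q'.q u) (hc : ∀ u, Cn Q (M.app u) ↔ Cn Q' u) (x y : ℝ)
    {f : V → ℂ} (hf : ∀ v, Cn Q v → f (act Q a v) = f v) [DecidablePred fun v => ∃ w, M.app w = v] :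
    ∑ v ∈ (shS Q (per a) x y).filter (fun v => ∃ w, M.app w = v), f v =
      ∑ w ∈ shS Q' (per a) (x / n) (y / n), f (M.app w) := by
  have hnr : (0 : ℝ) < n := by exact_mod_cast hn
  have hdn : M.det ≠ 0 := by rw [hdet]; exact_mod_cast hn.ne'
  have hinj := MRSG.app_inj hdn
  have hact := Dils1.sim_act hQ hQ' hn hdet hsim hc
  -- the preimage of the filtered shell
  set S : Finset V := ((shS Q (per a) x y).filter (fun v => ∃ w, M.app w = v)).preimage M.app
    (hinj.injOn) with hSdef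
  have hqr : ∀ w, ((Q.q (M.app w) : ℤ) : ℝ) = n * (Q'.q w : ℝ) := by
    intro w; rw [hsim]; push_cast; ring
  have hS : ∀ w, w ∈ S ↔ Cn Q' w ∧ (0 ≤ ps Q (M.app w) ∧ ps Q (M.app w) < per a) ∧
      x / n < (Q'.q w : ℝ) ∧ (Q'.q w : ℝ) ≤ y / n := by
    intro w
    rw [hSdef, Finset.mem_preimage, Finset.mem_filter, mem_shS hQ, hqr, div_lt_iff₀ hnr,
      le_div_iff₀ hnr, mul_comm (n : ℝ)]
    unfold Sec
    rw [hc]
    constructor
    · rintro ⟨⟨⟨h1, h2, h3⟩, h4, h5⟩, -⟩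
      exact ⟨h1, ⟨h2, h3⟩, h4, h5⟩
    · rintro ⟨h1, ⟨h2, h3⟩, h4, h5⟩
      exact ⟨⟨⟨h1, h2, h3⟩, h4, h5⟩, w, rfl⟩
  have h1 := sum_unfold hQ' ha (x / n) (y / n) (s := fun w => ps Q (M.app w))
    (fun w hw => by
      show ps Q (M.app (act Q' a w)) = ps Q (M.app w) + per a
      rw [hact, ps_act hQ ha ((hc w).2 hw)])
    (f := fun w => f (M.app w))
    (fun w hw => by
      show f (M.app (act Q' a w)) = f (M.app w)
      rw [hact, hf _ ((hc w).2 hw)]) hS
  rw [h1, hSdef, Finset.sum_preimage M.app _ hinj.injOn (fun v => f v)]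
  intro v hv hne
  rw [Finset.mem_filter] at hv
  exact absurd hv.2 (fun h => hne h)

end Pool.Agent.Lib.MP_a17b09_nt.MRH
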