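import Pool.Agent.Lib.MP_a17b09_nt.MRSG.NugD12
import Pool.Agent.Lib.MP_a17b09_nt.MRSG.SplG7
import Pool.Agent.Lib.MP_a17b09_nt.HY.Defs20

/-!
Project MRH: the sieve majorant for the values of an indefinite form (module NUG). helper12.
-/

set_option autoImplicit false

namespace Pool.Agent.Lib.MP_a17b09_nt.MRH.NugH12

open Finset Filter Topology
open scoped Classical
open Pool.Agent.Lib.MP_a17b09_nt.CH (Form)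
open Pool.Agent.Lib.MP_a17b09_nt.HY (Hyp)
open MRSG.NugA12 MRSG.NugC12

/-- **The sieve majorant of an indefinite binary form.** -/
theorem nug_hyp {d : ℕ} {Q : Form} (hQ : Hyp d Q) (z00 : ℕ) :
    ∃ C : ℝ, 0 < C ∧ ∃ z0 : ℕ, z00 ≤ z0 ∧ ∃ Y0 : ℝ, 2 ≤ Y0 ∧ ∀ Y : ℝ, Y0 ≤ Y →
    ∃ (L : ℕ) (ν : ℤ × ℤ → ℝ), 1 ≤ L ∧ (L : ℝ) ≤ Y ^ (1 / 16 : ℝ) ∧ (∀ w, 0 ≤ ν w) ∧
      (∀ w, (∀ q : ℕ, q.Prime → z0 < q → (q : ℝ) ≤ Y ^ (1 / 16 : ℝ) → ¬ ((q : ℤ) ∣ Q.q w)) →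
        1 ≤ ν w) ∧
      (∀ (S : Finset (ℤ × ℤ)) (F : ℤ × ℤ → ℂ) (M : ℂ) (E : ℕ → ℝ), (∀ δ, 0 ≤ E δ) →
        (∀ δ : ℕ, 0 < δ → δ ≤ L → Squarefree δ → (∀ q : ℕ, q.Prime → q ∣ δ → z0 < q) →
          ∀ κ : ℤ × ℤ, ‖∑ w ∈ S.filter (fun w => Cls δ κ w), F w - M / (δ : ℂ) ^ 2‖ ≤ E δ) →
        ‖∑ w ∈ S, (ν w : ℂ) * F w‖ ≤ C * ‖M‖ / Real.log Y +
          ∑ δ ∈ Icc 1 L, (2 : ℝ) ^ (δ.primeFactors.card) * δ * E δ) := by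
  have hd0 : d ≠ 0 := by
    rintro rfl
    exact hQ.nsq ⟨0, rfl⟩
  have hD0 : Q.D ≠ 0 := by
    rw [hQ.disc]
    exact neg_ne_zero.2 (by exact_mod_cast hd0)
  refine nug Q hQ.apos.ne' hD0 ?_ z00
  intro hne
  have : NeZero (-Q.D) := ⟨neg_ne_zero.2 hD0⟩
  refine MRSG.kro_ne_7 (-Q.D) ?_ hne
  rw [hQ.disc, neg_neg, Int.isSquare_natCast_iff]
  exact hQ.nsq

end Pool.Agent.Lib.MP_a17b09_nt.MRH.NugH12
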