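import Pool.Agent.Lib.MP_a17b09_nt.MRH.Up70

/-! MRH: frequency `0`, primitive vectors (`StPw0G`), from `StPa0G`. -/

set_option autoImplicit false

open Filter Topology Finset

namespace Pool.Agent.Lib.MP_a17b09_nt.MRH

open CH CH.PE HY HY.S68

namespace Pw0H29

/-- convolution with `1 / D ^ 2` -/
theorem conv (A : ℝ → ℝ) (T : ℝ) (hA0 : ∀ N, 0 ≤ A N) (hT : ∀ N, 0 < N → A N ≤ T)
    (h : Tendsto A atTop (𝓝 0)) (ε : ℝ) (hε : 0 < ε) : ∃ N0 : ℝ, 0 < N0 ∧ ∀ N : ℝ, N0 ≤ N →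
    ∀ E : ℕ, ∑ D ∈ Finset.Icc 1 E, (1 / (D : ℝ) ^ 2) * A (N / (D : ℝ) ^ 2) ≤ ε := by
  have hT0 : 0 ≤ T := (hA0 1).trans (hT 1 one_pos)
  obtain ⟨m, hm⟩ := exists_nat_gt (2 * T / ε + 1)
  have hm1 : (1 : ℝ) < m := lt_of_le_of_lt (by have : 0 ≤ 2 * T / ε := by positivity
                                               linarith) hm
  have hm0 : 0 < m := by
    have : (0 : ℝ) < m := by linarith
    exact_mod_cast this
  have hmT : T * (1 / m) ≤ ε / 2 := by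
    have h1 : 2 * T / ε < m := by linarith
    rw [div_lt_iff₀ hε] at h1
    rw [mul_one_div, div_le_iff₀ (by linarith)]
    linarith
  obtain ⟨N1, hN1⟩ := eventually_atTop.1 (h.eventually (gt_mem_nhds (show 0 < ε / 4 by positivity)))
  refine ⟨(max N1 1) * (m : ℝ) ^ 2, by positivity, fun N hN E => ?_⟩
  have hNpos : 0 < N := lt_of_lt_of_le (by positivity) hN
  have key : ∀ D ∈ Finset.Icc 1 E, (1 / (D : ℝ) ^ 2) * A (N / (D : ℝ) ^ 2) ≤
      (ε / 4) * (1 / (D : ℝ) ^ 2) + T * (if m < D then (1 : ℝ) / (D : ℝ) ^ 2 else 0) := by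
    intro D hD
    have hD1 : 0 < D := (Finset.mem_Icc.1 hD).1
    have hD0 : (0 : ℝ) < D := by exact_mod_cast hD1
    have hi : 0 ≤ 1 / (D : ℝ) ^ 2 := by positivity
    rcases Nat.lt_or_ge m D with h1 | h1
    · rw [if_pos h1]
      have h2 := hT (N / (D : ℝ) ^ 2) (by positivity)
      nlinarith [mul_le_mul_of_nonneg_left h2 hi, mul_nonneg hε.le hi]
    · rw [if_neg (by omega), mul_zero, add_zero, mul_comm]
      refine mul_le_mul_of_nonneg_right ?_ hi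
      refine (hN1 _ ?_).le
      have h3 : (D : ℝ) ≤ m := by exact_mod_cast h1
      rw [le_div_iff₀ (by positivity)]
      have h4 : (D : ℝ) ^ 2 ≤ (m : ℝ) ^ 2 := by gcongr
      calc N1 * (D : ℝ) ^ 2 ≤ max N1 1 * (D : ℝ) ^ 2 := by
            gcongr
            exact le_max_left _ _
        _ ≤ max N1 1 * (m : ℝ) ^ 2 := by gcongr
        _ ≤ N := hN
  refine (Finset.sum_le_sum key).trans ?_
  rw [Finset.sum_add_distrib, ← Finset.mul_sum, ← Finset.mul_sum]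
  have h5 := UpH70.total E
  have h6 := UpH70.tail m E hm0
  calc _ ≤ ε / 4 * 2 + T * (1 / m) := by gcongr
    _ ≤ ε := by linarith

variable {Δ : Dat}

theorem shg_split (i : Cx Δ) {a b c : ℝ} (h1 : a ≤ b) (h2 : b ≤ c) (f : V → ℂ) :
    ∑ v ∈ Shg i a c, f v = ∑ v ∈ Shg i a b, f v + ∑ v ∈ Shg i b c, f v := by
  classical
  rw [← Finset.sum_union]
  · refine Finset.sum_congr ?_ fun _ _ => rfl
    ext v
    rw [Finset.mem_union, mem_Shg, mem_Shg, mem_Shg]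
    constructor
    · rintro ⟨h3, h4, h5⟩
      rcases le_or_gt ((rp i).q v : ℝ) b with h6 | h6
      · exact Or.inl ⟨h3, h4, h6⟩
      · exact Or.inr ⟨h3, h6, h5⟩
    · rintro (⟨h3, h4, h5⟩ | ⟨h3, h4, h5⟩)
      · exact ⟨h3, h4, h5.trans h2⟩
      · exact ⟨h3, lt_of_le_of_lt h1 h4, h5⟩
  · rw [Finset.disjoint_left]
    intro v h3 h4
    rw [mem_Shg] at h3 h4
    exact absurd h3.2.2 (not_le.2 h4.2.1)

theorem shell_id (z : ℂ) (r1 r2 N : ℝ) (h1 : 0 ≤ r1) (h2 : r1 < r2) (hN : 0 < N) (w : Fq Δ) :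
    Mag z r1 r2 N w = (r2 : ℂ) * Mag z 0 1 (r2 * N) w - (r1 : ℂ) * Mag z 0 1 (r1 * N) w := by
  have hr2 : 0 < r2 := lt_of_le_of_lt h1 h2
  have hN' : (N : ℂ) ≠ 0 := by exact_mod_cast hN.ne'
  have hr2' : (r2 : ℂ) ≠ 0 := by exact_mod_cast hr2.ne'
  have e : ∀ i : Cx Δ, ∑ v ∈ Shg i (r1 * N) (r2 * N), gz z (rp i) v * ch w i v =
      ∑ v ∈ Shg i 0 (r2 * N), gz z (rp i) v * ch w i v -
      ∑ v ∈ Shg i 0 (r1 * N), gz z (rp i) v * ch w i v := by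
    intro i
    rw [shg_split i (show (0 : ℝ) ≤ r1 * N by positivity)
      (show r1 * N ≤ r2 * N by nlinarith) (fun v => gz z (rp i) v * ch w i v)]
    ring
  unfold Mag
  rw [Finset.sum_congr rfl fun i _ => e i, Finset.sum_sub_distrib]
  simp only [zero_mul, one_mul]
  push_cast
  rcases h1.eq_or_lt with h0 | h0
  · have e0 : ∑ i : Cx Δ, ∑ v ∈ Shg i 0 (r1 * N), gz z (rp i) v * ch w i v = 0 := by
      refine Finset.sum_eq_zero fun i _ => Finset.sum_eq_zero fun v hv => ?_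
      rw [mem_Shg, ← h0, zero_mul] at hv
      exact absurd hv.2.2 (not_le.2 hv.2.1)
    rw [e0]
    field_simp
    ring
  · have hr1' : (r1 : ℂ) ≠ 0 := by exact_mod_cast h0.ne'
    field_simp

end Pw0H29

open Pw0H29 in
theorem stPw0G_29 (Δ : Dat) (h : StPa0G Δ) : StPw0G Δ := by
  intro z k hk hzk hz1 r1 r2 hr1 hr2 w hw
  have hz : ‖z‖ = 1 := Complex.norm_eq_one_of_pow_eq_one hzk hk.ne'
  have hr20 : 0 < r2 := lt_of_le_of_lt hr1 hr2
  obtain ⟨j, k0⟩ := w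
  have hj : j = 0 := hw
  subst hj
  set A : ℝ → ℝ := fun N => ∑ k : Fin (mm Δ 0), ‖Mag z r1 r2 N (⟨0, k⟩ : Fq Δ)‖ ^ 2 with hA
  have hA0 : ∀ N, 0 ≤ A N := fun N => Finset.sum_nonneg fun _ _ => by positivity
  have hAT : ∀ N, 0 < N → A N ≤ ∑ _k : Fin (mm Δ 0), (UpH70.CT Δ * r2) ^ 2 := fun N hN =>
    Finset.sum_le_sum fun k _ => pow_le_pow_left₀ (norm_nonneg _)
      (UpH70.ma_le hz r1 r2 N _ hN hr20.le) 2
  have hterm : ∀ (w : Fq Δ), w.1 = 0 → ∀ r : ℝ, 0 ≤ r →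
      Tendsto (fun N : ℝ => (r : ℂ) * Mag z 0 1 (r * N) w) atTop (𝓝 0) := by
    intro w hw r hr
    rcases hr.eq_or_lt with h0 | h0
    · rw [← h0]
      simp
    · have h1 : Tendsto (fun N : ℝ => r * N) atTop atTop := tendsto_id.const_mul_atTop h0
      have h2 := ((h z k hk hzk hz1 w hw).comp h1).const_mul (r : ℂ)
      simpa using h2
  have hA1 : Tendsto A atTop (𝓝 0) := by
    have h3 : Tendsto A atTop (𝓝 (∑ _k : Fin (mm Δ 0), (0 : ℝ))) := by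
      refine tendsto_finsetSum _ fun k _ => ?_
      have h4 := (hterm (⟨0, k⟩ : Fq Δ) rfl r2 hr20.le).sub
        (hterm (⟨0, k⟩ : Fq Δ) rfl r1 hr1)
      rw [sub_zero] at h4
      have h5 : Tendsto (fun N : ℝ => Mag z r1 r2 N (⟨0, k⟩ : Fq Δ)) atTop (𝓝 0) := by
        refine h4.congr' ?_
        filter_upwards [eventually_gt_atTop 0] with N hN
        exact (shell_id z r1 r2 N hr1 hr2 hN _).symm
      simpa using h5.norm.pow 2
    simpa using h3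
  have hB : Tendsto (fun N : ℝ => ‖Mpg z r1 r2 N (⟨0, k0⟩ : Fq Δ)‖ ^ 2) atTop (𝓝 0) := by
    rw [Metric.tendsto_atTop]
    intro ε hε
    have hn := UpH70.nI_pos Δ
    obtain ⟨N0, hN0, hc⟩ := conv A _ hA0 hAT hA1 (ε / (2 * (2 * UpH70.nI Δ ^ 2))) (by positivity)
    refine ⟨N0, fun N hN => ?_⟩
    have hNp : 0 < N := lt_of_lt_of_le hN0 hN
    obtain ⟨E, hE⟩ := exists_nat_ge (r2 * N)
    have h1 := UpH70.one_freq (Δ := Δ) hz r1 r2 N 0 hNp E hE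
    have h2 : ∀ M : ℝ, ∑ ib, ‖VAg Δ z r1 r2 M 0 ib‖ ^ 2 = A M := fun M =>
      (stParG_17 Δ z r1 r2 M 0).2.2.1.symm
    rw [← (stParG_17 Δ z r1 r2 N 0).2.2.2] at h1
    simp only [h2] at h1
    have h3 : ‖Mpg z r1 r2 N (⟨0, k0⟩ : Fq Δ)‖ ^ 2 ≤
        ∑ k, ‖Mpg z r1 r2 N (⟨0, k⟩ : Fq Δ)‖ ^ 2 :=
      Finset.single_le_sum (f := fun k => ‖Mpg z r1 r2 N (⟨0, k⟩ : Fq Δ)‖ ^ 2)
        (fun _ _ => by positivity) (Finset.mem_univ k0)
    have h4 := hc N hN E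
    rw [Real.dist_eq, sub_zero, abs_of_nonneg (by positivity)]
    have h5 : 2 * UpH70.nI Δ ^ 2 * (ε / (2 * (2 * UpH70.nI Δ ^ 2))) = ε / 2 := by
      have : UpH70.nI Δ ≠ 0 := by positivity
      field_simp
    calc _ ≤ _ := h3
      _ ≤ _ := h1
      _ ≤ 2 * UpH70.nI Δ ^ 2 * (ε / (2 * (2 * UpH70.nI Δ ^ 2))) := by gcongr
      _ < ε := by rw [h5]; linarith
  have hC : Tendsto (fun N : ℝ => ‖Mpg z r1 r2 N (⟨0, k0⟩ : Fq Δ)‖) atTop (𝓝 0) := by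
    have h1 := hB.sqrt
    rw [Real.sqrt_zero] at h1
    refine h1.congr fun N => ?_
    exact Real.sqrt_sq (norm_nonneg _)
  exact tendsto_zero_iff_norm_tendsto_zero.2 hC

end Pool.Agent.Lib.MP_a17b09_nt.MRH
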