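import Pool.Agent.Lib.MP_a17b09_nt.MRH.Stmts79

/-!
Project MRH, row RED: the representative in the sector.
-/

set_option autoImplicit false

open Filter Topology Finset

namespace Pool.Agent.Lib.MP_a17b09_nt.MRH

open CH CH.PE HY HY.S68

namespace Red79

variable {d : ℕ} {Q : Form}

theorem gcd_dvd_app (M : Mat) (v : V) : (Int.gcd v.1 v.2 : ℤ) ∣ (M.app v).1 ∧
    (Int.gcd v.1 v.2 : ℤ) ∣ (M.app v).2 := by
  have h1 : (Int.gcd v.1 v.2 : ℤ) ∣ v.1 := Int.gcd_dvd_left _ _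
  have h2 : (Int.gcd v.1 v.2 : ℤ) ∣ v.2 := Int.gcd_dvd_right _ _
  unfold Mat.app
  exact ⟨dvd_add (h1.mul_left _) (h2.mul_left _), dvd_add (h1.mul_left _) (h2.mul_left _)⟩

/-- unimodular matrices preserve the content -/
theorem gcd_app {M : Mat} (hM : M.det = 1) (v : V) :
    Int.gcd (M.app v).1 (M.app v).2 = Int.gcd v.1 v.2 := by
  have key : ∀ (A : Mat) (u : V), Int.gcd u.1 u.2 ∣ Int.gcd (A.app u).1 (A.app u).2 := by
    intro A u
    obtain ⟨h1, h2⟩ := gcd_dvd_app A u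
    exact Int.dvd_gcd h1 h2
  apply Nat.dvd_antisymm
  · have h1 := key M.adj (M.app v)
    rwa [Mat.adj_app, hM, one_smul] at h1
  · exact key M v

/-- the powers of the automorph -/
theorem zpow_inv (hQ : Hyp d Q) {a : Pell.Solution₁ (d : ℤ)} (ha : PP a) {β : Type*} (F : V → β)
    (hF : ∀ v, Cn Q v → F (act Q a v) = F v) (n : ℤ) :
    ∀ v, Cn Q v → Cn Q (act Q (a ^ n) v) ∧ F (act Q (a ^ n) v) = F v := by
  induction n using Int.induction_on with
  | zero =>
    intro v hv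
    rw [zpow_zero, act_one]
    exact ⟨hv, rfl⟩
  | succ n ih =>
    intro v hv
    obtain ⟨h1, h2⟩ := ih v hv
    have e : a ^ ((n : ℤ) + 1) = a * a ^ (n : ℤ) := by rw [zpow_add_one, mul_comm]
    rw [e, act_mul hQ]
    exact ⟨(cn_act hQ ha _).2 h1, by rw [hF _ h1, h2]⟩
  | pred n ih =>
    intro v hv
    obtain ⟨h1, h2⟩ := ih v hv
    set w := act Q (a ^ (-(n : ℤ) - 1)) v with hw
    have e : act Q a w = act Q (a ^ (-(n : ℤ))) v := by
      rw [hw, ← act_mul hQ]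
      congr 1
      rw [zpow_sub_one, mul_comm (a ^ (-(n : ℤ))) a⁻¹, ← mul_assoc, mul_inv_cancel, one_mul]
    have h3 : Cn Q w := by
      rw [← cn_act hQ ha, e]
      exact h1
    refine ⟨h3, ?_⟩
    rw [← hF w h3, e, h2]

theorem ps_zpow (hQ : Hyp d Q) {a : Pell.Solution₁ (d : ℤ)} (ha : PP a) (n : ℤ) :
    ∀ v, Cn Q v → ps Q (act Q (a ^ n) v) = ps Q v + n * per a := by
  have hc : ∀ (n : ℤ) (v : V), Cn Q v → Cn Q (act Q (a ^ n) v) := fun n v hv =>
    (zpow_inv hQ ha (fun _ => (0 : ℕ)) (fun _ _ => rfl) n v hv).1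
  induction n using Int.induction_on with
  | zero =>
    intro v hv
    rw [zpow_zero, act_one]
    simp
  | succ n ih =>
    intro v hv
    have e : a ^ ((n : ℤ) + 1) = a * a ^ (n : ℤ) := by rw [zpow_add_one, mul_comm]
    rw [e, act_mul hQ, ps_act hQ ha (hc _ _ hv), ih v hv]
    push_cast
    ring
  | pred n ih =>
    intro v hv
    set w := act Q (a ^ (-(n : ℤ) - 1)) v with hw
    have e : act Q a w = act Q (a ^ (-(n : ℤ))) v := by
      rw [hw, ← act_mul hQ]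
      congr 1
      rw [zpow_sub_one, mul_comm (a ^ (-(n : ℤ))) a⁻¹, ← mul_assoc, mul_inv_cancel, one_mul]
    have h3 : Cn Q w := hc _ _ hv
    have h4 := ps_act hQ ha h3
    rw [e, ih v hv] at h4
    push_cast
    push_cast at h4
    linarith

variable {D : Dat}

/-- the representative -/
noncomputable def rd (i : Cx D) (v : V) : V :=
  act (rp i) (D.a ^ (-⌊ps (rp i) v / D.T⌋)) v

theorem rd_cn (i : Cx D) {v : V} (hv : Cn (rp i) v) : Cn (rp i) (rd i v) :=
  (zpow_inv (rp_hyp i) D.ha (fun _ => (0 : ℕ)) (fun _ _ => rfl) _ v hv).1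

theorem rd_inv (i : Cx D) {β : Type*} (F : V → β)
    (hF : ∀ v, Cn (rp i) v → F (act (rp i) D.a v) = F v) {v : V} (hv : Cn (rp i) v) :
    F (rd i v) = F v :=
  (zpow_inv (rp_hyp i) D.ha F hF _ v hv).2

theorem rd_sec (i : Cx D) {v : V} (hv : Cn (rp i) v) : Sec (rp i) D.T (rd i v) := by
  have hT := D.T_pos
  refine ⟨rd_cn i hv, ?_⟩
  unfold rd
  rw [ps_zpow (rp_hyp i) D.ha _ v hv]
  have h0 : per D.a = D.T := rfl
  have h1 := Int.floor_le (ps (rp i) v / D.T)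
  have h2 := Int.lt_floor_add_one (ps (rp i) v / D.T)
  rw [le_div_iff₀ hT] at h1
  rw [div_lt_iff₀ hT] at h2
  rw [h0]
  push_cast
  constructor <;> nlinarith

theorem rd_act (i : Cx D) {v : V} (hv : Cn (rp i) v) :
    rd i (act (rp i) D.a v) = rd i v := by
  have hT := D.T_pos
  unfold rd
  rw [ps_act (rp_hyp i) D.ha hv, ← act_mul (rp_hyp i)]
  have h0 : per D.a = D.T := rfl
  have h1 : (ps (rp i) v + per D.a) / D.T = ps (rp i) v / D.T + 1 := by
    rw [h0]; field_simp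
  rw [h1, Int.floor_add_one]
  congr 1
  rw [← zpow_add_one]
  congr 1
  ring

theorem rd_self (i : Cx D) {v : V} (hv : Sec (rp i) D.T v) : rd i v = v := by
  have hT := D.T_pos
  have h1 : ⌊ps (rp i) v / D.T⌋ = 0 := by
    rw [Int.floor_eq_zero_iff]
    exact ⟨div_nonneg hv.2.1 hT.le, (div_lt_one hT).2 hv.2.2⟩
  unfold rd
  rw [h1, neg_zero, zpow_zero, act_one]

theorem rd_q (i : Cx D) (v : V) : (rp i).q (rd i v) = (rp i).q v := q_act (rp_hyp i) _ _

theorem rd_gcd (i : Cx D) (v : V) : Int.gcd (rd i v).1 (rd i v).2 = Int.gcd v.1 v.2 :=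
  gcd_app (det_au (rp_hyp i) _) v

theorem rd_uu (i : Cx D) {v : V} (hv : Cn (rp i) v) : uu i (rd i v) = uu i v :=
  rd_inv i (fun v => uu i v) (fun _ h => uu_act i h) hv

theorem rd_cl (i : Cx D) {v : V} (hv : Cn (rp i) v) : cl D.K (rd i v) = cl D.K v :=
  rd_inv i (fun v => cl D.K v) (fun v _ => cl_act i v) hv

theorem rd_ch (w : Fq D) (i : Cx D) {v : V} (hv : Cn (rp i) v) : ch w i (rd i v) = ch w i v :=
  rd_inv i (fun v => ch w i v) (fun _ h => ch_act w i h) hv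

/-- vectors with the same representative -/
theorem rd_eq_iff (i : Cx D) {v w : V} (hv : Cn (rp i) v) (_hw : Cn (rp i) w) :
    rd i v = rd i w ↔ ∃ n : ℤ, w = act (rp i) (D.a ^ n) v := by
  constructor
  · intro h
    refine ⟨⌊ps (rp i) w / D.T⌋ + -⌊ps (rp i) v / D.T⌋, ?_⟩
    have h1 : act (rp i) (D.a ^ ⌊ps (rp i) w / D.T⌋) (rd i w) = w := by
      unfold rd
      rw [← act_mul (rp_hyp i), ← zpow_add, add_neg_cancel, zpow_zero, act_one]
    rw [zpow_add, act_mul (rp_hyp i)]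
    have h2 : act (rp i) (D.a ^ (-⌊ps (rp i) v / D.T⌋)) v = rd i v := rfl
    rw [h2, h, h1]
  · rintro ⟨n, rfl⟩
    exact ((zpow_inv (rp_hyp i) D.ha (fun v => rd i v) (fun _ h => rd_act i h) n v hv).2).symm

/-- representatives are primitive when the vector is -/
theorem rd_prim (i : Cx D) (v : V) : Prim (rd i v) ↔ Prim v := by
  unfold Prim
  rw [rd_gcd]

end Red79

open Red79 in
/-- (RED) -/
theorem stRedG_79 (D : Dat) : StRedG D :=
  ⟨fun i v => rd i v, fun i v hv => ⟨rd_sec i hv, ⟨_, rfl⟩, rd_q i v, rd_uu i hv, rd_cl i hv,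
    rd_gcd i v, rd_act i hv, fun h => rd_self i h, fun w => rd_ch w i hv⟩⟩

end Pool.Agent.Lib.MP_a17b09_nt.MRH
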