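import Pool.Agent.Lib.MP_a17b09_nt.MRH.TkhHa12

/-!
Project MRH, module TKH: Turan - Kubilius and Halasz - Montgomery together, for the vectors of the
cone modulo the automorph of the period: the theorem. helper12.
-/

set_option autoImplicit false

open Finset

namespace Pool.Agent.Lib.MP_a17b09_nt.MRH

open CH CH.PE HY HmuH96 TkhH12

/-- module TKH -/
theorem stTkhG_12 (D : Dat) : StTkhG D := by
  classical
  intro z hz r1 r2 hr1 hr12
  have hr2 : 0 < r2 := lt_of_le_of_lt hr1 hr12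
  have hK1 : (1 : ℝ) ≤ D.K := by exact_mod_cast D.Kpos
  obtain ⟨c0, C, hc0, hc02, hC, H⟩ := expS67 D (1 / 16) (by norm_num)
  obtain ⟨C0, hC0, HC⟩ := card_Shg96 D
  set c : ℝ := c0 / 8 with hc
  have hcp : 0 < c := by positivity
  set hcl : ℝ := (Fintype.card (Cx D) : ℝ) with hhcl
  have hhcl0 : 0 ≤ hcl := Nat.cast_nonneg _
  set m : ℝ := hcl * ((D.K : ℝ) * D.K) with hm
  have hm0 : 0 ≤ m := by positivity
  set B : ℝ := r2 + (D.K : ℝ) ^ 2 with hB
  have hB1 : 1 ≤ B := by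
    have h1 : (1 : ℝ) ≤ (D.K : ℝ) ^ 2 := one_le_pow₀ hK1
    rw [hB]
    linarith
  set CG : ℝ := m * (hcl * (2 * C0 * r2)) + 4 * (hcl * ((D.K : ℝ) ^ 2 * (C * B))) with hCG
  have hCG0 : 0 ≤ CG := by positivity
  refine ⟨c, hcl * (C0 * r2) * CG + 1, max 2 ((1 / r2) ^ 2), hcp, by linarith, by positivity,
    le_trans (by norm_num) (le_max_left _ _), ?_⟩
  intro N hN U hU hUj
  have hN2 : 2 ≤ N := (le_max_left _ _).trans hN
  have hNr : (1 / r2) ^ 2 ≤ N := (le_max_right _ _).trans hN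
  have hN0 : 0 < N := by linarith
  have hN1 : 1 ≤ N := by linarith
  set s : ℝ := √N with hs
  have hs1 : 1 ≤ s := Real.one_le_sqrt.2 hN1
  have hss : s * s = N := Real.mul_self_sqrt hN0.le
  have hrs : 1 / r2 ≤ s := Real.le_sqrt_of_sq_le hNr
  have hsN : s ≤ r2 * N := by
    have h1 : 1 ≤ r2 * s := by
      rw [div_le_iff₀ hr2] at hrs
      linarith
    calc s = 1 * s := (one_mul s).symm
      _ ≤ (r2 * s) * s := mul_le_mul_of_nonneg_right h1 (by linarith)
      _ = r2 * N := by rw [mul_assoc, hss]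
  set n : ℝ := N ^ c with hn
  have hn1 : 1 ≤ n := Real.one_le_rpow hN1 hcp.le
  have hn0 : 0 < n := by linarith
  have hns : n ≤ s := by
    rw [hn, hs, Real.sqrt_eq_rpow]
    exact Real.rpow_le_rpow_of_exponent_le hN1 (by linarith)
  have hb1 : 1 ≤ r2 * N := hs1.trans hsN
  have ha0 : 0 ≤ r1 * N := by positivity
  have hab : r1 * N ≤ r2 * N := mul_le_mul_of_nonneg_right hr12.le hN0.le
  -- the primes
  set PP : Finset (ℕ × Bool) := slg D 3 (N ^ c) with hPP
  have hadm : ∀ P ∈ PP, Adm D P := fun P hP => (mem_slg.1 hP).1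
  have hPn : ∀ P ∈ PP, (P.1 : ℝ) ≤ n := fun P hP => (mem_slg.1 hP).2.2.le
  have hcard : (PP.card : ℝ) ≤ 4 * n := by
    have h1 : PP.card ≤ ((range ⌈n⌉₊) ×ˢ (univ : Finset Bool)).card := by
      apply card_le_card
      intro P hP
      rw [mem_product, mem_range]
      refine ⟨?_, mem_univ _⟩
      have h2 := (mem_slg.1 hP).2.2
      exact_mod_cast h2.trans_le (Nat.le_ceil n)
    rw [card_product, card_range, card_univ, Fintype.card_bool] at h1
    have h2 : (PP.card : ℝ) ≤ (⌈n⌉₊ : ℝ) * 2 := by exact_mod_cast h1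
    have h3 := Nat.ceil_lt_add_one hn0.le
    linarith
  -- the exponential sums
  set Y : ℝ := B * N with hY
  have hY1 : 1 ≤ Y := by
    rw [hY]
    exact one_le_mul_of_one_le_of_one_le hB1 hN1
  have hY0 : 0 < Y := by linarith
  have hrY : r2 * N ≤ Y := by
    rw [hY, hB]
    have h1 : 0 ≤ (D.K : ℝ) ^ 2 * N := by positivity
    linarith
  set E : ℝ := C * Y ^ (1 - c0) with hE
  have hE0 : 0 ≤ E := by positivity
  have hT1 : 1 ≤ N ^ (3 : ℝ) := Real.one_le_rpow hN1 (by norm_num)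
  have hG1' : 0 ≤ hcl * (2 * C0 * (r2 * N)) := by positivity
  have hG2' : 0 ≤ n * (hcl * ((D.K * n ^ 2) ^ 2 * E)) := by positivity
  have hmain := tkh_sys (D := D) (r1 * N) (r2 * N) U PP
    (hcl * (2 * C0 * (r2 * N))) (n * (hcl * ((D.K * n ^ 2) ^ 2 * E))) hG1' hG2'
    (fun w _ w' _ hj P hP => entry_diag (r1 * N) (r2 * N) C0 w w' hj (hadm P hP)
      ((hPn P hP).trans (hns.trans hsN)) HC)
    (fun w hw w' hw' P hP P' hP' hne => by
      set q : ℕ := D.K * (P.1 * P'.1) with hq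
      have hq0 : 0 < q := Nat.mul_pos D.Kpos (Nat.mul_pos (hadm P hP).1.pos (hadm P' hP').1.pos)
      have hq1 : (1 : ℝ) ≤ q := by exact_mod_cast hq0
      have hqn : (q : ℝ) ≤ D.K * n ^ 2 := by
        rw [hq]
        push_cast
        apply mul_le_mul_of_nonneg_left _ (Nat.cast_nonneg _)
        rw [sq]
        exact mul_le_mul (hPn P hP) (hPn P' hP') (Nat.cast_nonneg _) hn0.le
      apply entry_off (r1 * N) (r2 * N) E
        ((r2 * N - r1 * N) * D.T / (√(D.d : ℝ) * (q : ℝ) ^ 2)) w w'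
        (hadm P hP) (hadm P' hP') hne n (hPn P hP) (hPn P' hP') _ hE0
      intro i α S hS
      have hqY : (q : ℝ) ^ 2 * (N ^ (3 : ℝ)) ^ (1 / 16 : ℝ) ≤ Y := by
        calc (q : ℝ) ^ 2 * (N ^ (3 : ℝ)) ^ (1 / 16 : ℝ)
            ≤ (D.K * n ^ 2) ^ 2 * (N ^ (3 : ℝ)) ^ (1 / 16 : ℝ) :=
              mul_le_mul_of_nonneg_right (pow_le_pow_left₀ (by linarith) hqn 2) (by positivity)
          _ = (D.K : ℝ) ^ 2 * (n ^ 4 * (N ^ (3 : ℝ)) ^ (1 / 16 : ℝ)) := by ring
          _ ≤ (D.K : ℝ) ^ 2 * N := by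
              apply mul_le_mul_of_nonneg_left _ (by positivity)
              rw [hn, ← Real.rpow_natCast, ← Real.rpow_mul hN0.le, ← Real.rpow_mul hN0.le,
                ← Real.rpow_add hN0]
              calc N ^ (c * ((4 : ℕ) : ℝ) + 3 * (1 / 16)) ≤ N ^ (1 : ℝ) := by
                    apply Real.rpow_le_rpow_of_exponent_le hN1
                    push_cast
                    linarith
                _ = N := Real.rpow_one _
          _ ≤ Y := by
              rw [hY, hB]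
              have h1 : 0 ≤ r2 * N := by positivity
              linarith
      have h1 := H i (N ^ (3 : ℝ)) (w.1 - w'.1) q α Y (r1 * N) (r2 * N) S hT1 (by
        have h1 := hUj w hw
        have h2 := hUj w' hw'
        have h3 : |((w.1 - w'.1 : ℤ) : ℝ)| ≤ 2 * N ^ 2 := by
          push_cast
          refine (abs_sub _ _).trans ?_
          linarith
        have e1 : N ^ (3 : ℝ) = N ^ 3 := by
          rw [← Real.rpow_natCast]
          norm_num
        rw [e1]
        calc |((w.1 - w'.1 : ℤ) : ℝ)| ≤ 2 * N ^ 2 := h3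
          _ ≤ N * N ^ 2 := mul_le_mul_of_nonneg_right hN2 (by positivity)
          _ = N ^ 3 := by ring) hq0 hqY ha0 hab hrY hS
      refine h1.trans ?_
      rw [hE]
      apply mul_le_mul_of_nonneg_left _ hC.le
      apply Real.rpow_le_rpow (by positivity) _ (by linarith)
      exact div_le_self hY0.le (one_le_pow₀ hq1))
    (fun x => gz z (rp x.1) x.2) (fun x => by
      unfold gz
      rw [norm_pow, hz, one_pow])
  -- the number of vectors
  have hSx : ((Sx D (r1 * N) (r2 * N)).card : ℝ) ≤ hcl * (C0 * (r2 * N)) := by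
    unfold Sx
    rw [card_sigma]
    push_cast
    calc ∑ i : Cx D, ((Shg i (r1 * N) (r2 * N)).card : ℝ)
        ≤ ∑ _i : Cx D, C0 * (r2 * N) := sum_le_sum (fun i _ => HC i _ _ _ le_rfl hb1)
      _ = hcl * (C0 * (r2 * N)) := by rw [sum_const, card_univ, nsmul_eq_mul]
  -- the terms
  have hterm : ∑ w ∈ U, ∑ P ∈ PP, (1 / (P.1 : ℝ)) *
      ‖Mag z r1 r2 N w - z * cw P w * Mag z r1 r2 (N / P.1) w‖ ^ 2 =
      (1 / N ^ 2) * ∑ w ∈ U, ∑ P ∈ PP, ‖∑ x ∈ Sx D (r1 * N) (r2 * N),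
        ((1 : ℝ) : ℂ) * gz z (rp x.1) x.2 * ph (w, P) x‖ ^ 2 := by
    rw [mul_sum]
    refine sum_congr rfl (fun w _ => ?_)
    rw [mul_sum]
    exact sum_congr rfl (fun P hP => mag_id z r1 r2 N hN0 w (hadm P hP))
  rw [hterm]
  -- numerical bounds
  have b2 : (U.card : ℝ) * ((PP.card : ℝ) * (n * (hcl * ((D.K * n ^ 2) ^ 2 * E)))) ≤
      4 * (hcl * ((D.K : ℝ) ^ 2 * (C * B))) * N := by
    have e1 : Y ^ (1 - c0) ≤ B * N ^ (1 - c0) := by
      rw [hY, Real.mul_rpow (by linarith) hN0.le]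
      apply mul_le_mul_of_nonneg_right _ (by positivity)
      calc B ^ (1 - c0) ≤ B ^ (1 : ℝ) :=
            Real.rpow_le_rpow_of_exponent_le hB1 (by linarith)
        _ = B := Real.rpow_one _
    have e2 : E ≤ C * (B * N ^ (1 - c0)) := mul_le_mul_of_nonneg_left e1 hC.le
    calc (U.card : ℝ) * ((PP.card : ℝ) * (n * (hcl * ((D.K * n ^ 2) ^ 2 * E))))
        ≤ n * ((4 * n) * (n * (hcl * ((D.K * n ^ 2) ^ 2 * E)))) := by
          apply mul_le_mul hU _ (by positivity) hn0.le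
          exact mul_le_mul_of_nonneg_right hcard hG2'
      _ ≤ n * ((4 * n) * (n * (hcl * ((D.K * n ^ 2) ^ 2 * (C * (B * N ^ (1 - c0))))))) := by
          gcongr
      _ = 4 * (hcl * ((D.K : ℝ) ^ 2 * (C * B))) * (n ^ 7 * N ^ (1 - c0)) := by ring
      _ ≤ 4 * (hcl * ((D.K : ℝ) ^ 2 * (C * B))) * N := by
          apply mul_le_mul_of_nonneg_left _ (by positivity)
          rw [hn, ← Real.rpow_natCast, ← Real.rpow_mul hN0.le, ← Real.rpow_add hN0]
          calc N ^ (c * ((7 : ℕ) : ℝ) + (1 - c0)) ≤ N ^ (1 : ℝ) := by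
                apply Real.rpow_le_rpow_of_exponent_le hN1
                push_cast
                linarith
            _ = N := Real.rpow_one _
  have b3 : m * (hcl * (2 * C0 * (r2 * N))) +
      U.card * (PP.card * (n * (hcl * ((D.K * n ^ 2) ^ 2 * E)))) ≤ CG * N := by
    calc _ ≤ m * (hcl * (2 * C0 * (r2 * N))) +
          4 * (hcl * ((D.K : ℝ) ^ 2 * (C * B))) * N := add_le_add le_rfl b2
      _ = CG * N := by rw [hCG]; ring
  have b3' : 0 ≤ m * (hcl * (2 * C0 * (r2 * N))) +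
      U.card * (PP.card * (n * (hcl * ((D.K * n ^ 2) ^ 2 * E)))) := by positivity
  have b4 := hmain.trans (mul_le_mul hSx b3 b3' (by positivity))
  calc (1 / N ^ 2) * ∑ w ∈ U, ∑ P ∈ PP, ‖∑ x ∈ Sx D (r1 * N) (r2 * N),
        ((1 : ℝ) : ℂ) * gz z (rp x.1) x.2 * ph (w, P) x‖ ^ 2
      ≤ (1 / N ^ 2) * (hcl * (C0 * (r2 * N)) * (CG * N)) :=
        mul_le_mul_of_nonneg_left b4 (by positivity)
    _ = hcl * (C0 * r2) * CG := by
        field_simp
    _ ≤ hcl * (C0 * r2) * CG + 1 := by linarith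

end Pool.Agent.Lib.MP_a17b09_nt.MRH
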