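import Pool.Agent.Lib.MP_a17b09_nt.MRH.StrD17
import Pool.Agent.Lib.MP_a17b09_nt.MRH.PwtH84
import Pool.Agent.Lib.MP_a17b09_nt.MRH.HmuH96
import Pool.Agent.Lib.MP_a17b09_nt.MRH.ExpH67
import Pool.Agent.Lib.MP_a17b09_nt.MRS.HM96

/-!
Project MRH, module TKH: Turan - Kubilius and Halasz - Montgomery together, for the vectors of the
cone modulo the automorph of the period. helper12.
-/

set_option autoImplicit false

open Finset

namespace Pool.Agent.Lib.MP_a17b09_nt.MRH.TkhH12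

open CH CH.PE HY HmuH96

/-- the linear form of the condition -/
theorem eig_lin (r : ℤ) (Q : Form) (x v w : V) :
    Q.B x v - r * wd x v = (Q.B x w - r * wd x w) +
      ((v.1 - w.1) * (Q.B x (1, 0) - r * wd x (1, 0)) +
        (v.2 - w.2) * (Q.B x (0, 1) - r * wd x (0, 1))) := by
  unfold Form.B wd
  ring

theorem eig_per {p r : ℤ} {Q : Form} {v w : V} (h1 : p ∣ v.1 - w.1) (h2 : p ∣ v.2 - w.2) :
    Eig p r Q v ↔ Eig p r Q w := by
  unfold Eig
  refine forall_congr' (fun x => ?_)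
  rw [eig_lin r Q x v w]
  have h3 : p ∣ ((v.1 - w.1) * (Q.B x (1, 0) - r * wd x (1, 0)) +
        (v.2 - w.2) * (Q.B x (0, 1) - r * wd x (0, 1))) :=
    dvd_add (h1.mul_right _) (h2.mul_right _)
  exact dvd_add_left h3

theorem eig_shift {p r : ℤ} {Q : Form} {t : V} (ht : Eig p r Q t) (s : ℤ) (v : V) :
    Eig p r Q (v + s • t) ↔ Eig p r Q v := by
  unfold Eig
  refine forall_congr' (fun x => ?_)
  have e : Q.B x (v + s • t) - r * wd x (v + s • t) =
      (Q.B x v - r * wd x v) + s * (Q.B x t - r * wd x t) := by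
    unfold Form.B wd
    simp only [Prod.fst_add, Prod.snd_add, Prod.smul_fst, Prod.smul_snd, smul_eq_mul]
    ring
  rw [e]
  exact dvd_add_left ((ht x).mul_left _)

theorem eig_smul {p r : ℤ} {Q : Form} {t : V} (ht : Eig p r Q t) (s : ℤ) : Eig p r Q (s • t) := by
  have h := (eig_shift ht s 0).2 (fun x => by
    have : Q.B x 0 - r * wd x 0 = 0 := by
      unfold Form.B wd
      simp
    rw [this]
    exact dvd_zero _)
  rwa [zero_add] at h

open Classical in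
/-- the number of solutions of a linear congruence -/
theorem count_line (p : ℕ) (hp : p.Prime) (u w : ℤ) (hw : ¬ (p : ℤ) ∣ w) :
    ∑ s ∈ range p, (if (p : ℤ) ∣ u + (s : ℤ) * w then (1 : ℂ) else 0) = 1 := by
  have : Fact p.Prime := ⟨hp⟩
  have : NeZero p := ⟨hp.ne_zero⟩
  have hw0 : (w : ZMod p) ≠ 0 := by
    intro h
    exact hw ((ZMod.intCast_zmod_eq_zero_iff_dvd w p).1 h)
  set s0 : ZMod p := -(u : ZMod p) * (w : ZMod p)⁻¹ with hs0
  have key : ∀ s ∈ range p, ((p : ℤ) ∣ u + (s : ℤ) * w ↔ s = s0.val) := by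
    intro s hs
    rw [← ZMod.intCast_zmod_eq_zero_iff_dvd]
    push_cast
    constructor
    · intro h
      have h1 : (s : ZMod p) = s0 := by
        rw [hs0]
        field_simp
        linear_combination h
      rw [← h1, ZMod.val_natCast, Nat.mod_eq_of_lt (mem_range.1 hs)]
    · intro h
      rw [h, ZMod.natCast_zmod_val, hs0]
      field_simp
      ring
  rw [sum_congr rfl (fun s hs => if_congr (key s hs) rfl rfl), sum_ite_eq' (range p) s0.val,
    if_pos (mem_range.2 (ZMod.val_lt s0))]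

variable {D : Dat}

/-- a vector of the image which is not divisible by `p` -/
theorem exists_col {P : ℕ × Bool} (h : Adm D P) (i : Cx D) :
    ∃ f : V, Eig P.1 (rg D P) (rp i) f ∧ ¬ ((P.1 : ℤ) ∣ f.1 ∧ (P.1 : ℤ) ∣ f.2) := by
  obtain ⟨hr, R⟩ := rel_g h i
  have hp : Prime (P.1 : ℤ) := Nat.prime_iff_prime_int.1 h.1
  by_contra hcon
  push Not at hcon
  have k1 : (P.1 : ℤ) ∣ (Mg D P i).a ∧ (P.1 : ℤ) ∣ (Mg D P i).c := by
    have := R.eig (1, 0)
    have e : (Mg D P i).app (1, 0) = ((Mg D P i).a, (Mg D P i).c) := by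
      unfold Mat.app
      simp
    rw [e] at this
    by_contra h3
    rw [not_and] at h3
    have h4 := hcon _ this
    simp only at h4
    tauto
  have k2 : (P.1 : ℤ) ∣ (Mg D P i).b ∧ (P.1 : ℤ) ∣ (Mg D P i).d := by
    have := R.eig (0, 1)
    have e : (Mg D P i).app (0, 1) = ((Mg D P i).b, (Mg D P i).d) := by
      unfold Mat.app
      simp
    rw [e] at this
    by_contra h3
    rw [not_and] at h3
    have h4 := hcon _ this
    simp only at h4
    tauto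
  obtain ⟨⟨a, ha⟩, ⟨c, hc⟩⟩ := k1
  obtain ⟨⟨b, hb'⟩, ⟨e, he⟩⟩ := k2
  have hdet := R.det
  unfold Mat.det at hdet
  rw [ha, hc, hb', he] at hdet
  have h3 : (P.1 : ℤ) * 1 = P.1 * (P.1 * (a * e - b * c)) := by
    rw [mul_one]
    linear_combination -hdet
  have h4 := mul_left_cancel₀ hp.ne_zero h3
  exact hp.not_isUnit (isUnit_of_dvd_one ⟨_, h4⟩)

/-- the image is given by one linear condition -/
theorem eig_line {P : ℕ × Bool} (h : Adm D P) (i : Cx D) :
    ∃ f : V, ∀ v, Eig P.1 (rg D P) (rp i) v ↔ (P.1 : ℤ) ∣ wd f v := by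
  obtain ⟨hr, R⟩ := rel_g h i
  have hp : Prime (P.1 : ℤ) := Nat.prime_iff_prime_int.1 h.1
  obtain ⟨f, hf1, hf2⟩ := exists_col h i
  refine ⟨f, fun v => ⟨fun hv => Eig.wd_dvd hp hr hf1 hv, fun hv x => ?_⟩⟩
  have e1 : f.1 * ((rp i).B x v - rg D P * wd x v) =
      v.1 * ((rp i).B x f - rg D P * wd x f) +
        wd f v * ((rp i).B x (0, 1) - rg D P * wd x (0, 1)) := by
    unfold Form.B wd
    ring
  have e2 : f.2 * ((rp i).B x v - rg D P * wd x v) =
      v.2 * ((rp i).B x f - rg D P * wd x f) -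
        wd f v * ((rp i).B x (1, 0) - rg D P * wd x (1, 0)) := by
    unfold Form.B wd
    ring
  have h1 : (P.1 : ℤ) ∣ f.1 * ((rp i).B x v - rg D P * wd x v) := by
    rw [e1]
    exact dvd_add ((hf1 x).mul_left _) (hv.mul_right _)
  have h2 : (P.1 : ℤ) ∣ f.2 * ((rp i).B x v - rg D P * wd x v) := by
    rw [e2]
    exact dvd_sub ((hf1 x).mul_left _) (hv.mul_right _)
  by_cases h3 : (P.1 : ℤ) ∣ f.1
  · exact (hp.dvd_or_dvd h2).resolve_left (fun h4 => hf2 ⟨h3, h4⟩)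
  · exact (hp.dvd_or_dvd h1).resolve_left h3

open Classical in
/-- the normalised indicator of the image of `M_P` -/
noncomputable def Dp (i : Cx D) (P : ℕ × Bool) (v : V) : ℝ :=
  (if Eig P.1 (rg D P) (rp i) v then 1 else 0) - 1 / (P.1 : ℝ)

theorem abs_Dp {P : ℕ × Bool} (h : Adm D P) (i : Cx D) (v : V) : |Dp i P v| ≤ 1 := by
  have h1 : (1 : ℝ) ≤ P.1 := by exact_mod_cast h.1.one_lt.le
  have h2 : 1 / (P.1 : ℝ) ≤ 1 := (div_le_one (by linarith)).2 h1
  have h3 : 0 < 1 / (P.1 : ℝ) := by positivity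
  unfold Dp
  rw [abs_le]
  split_ifs <;> constructor <;> linarith

theorem Dp_per (i : Cx D) (P : ℕ × Bool) {v w : V} (h1 : (P.1 : ℤ) ∣ v.1 - w.1)
    (h2 : (P.1 : ℤ) ∣ v.2 - w.2) : Dp i P v = Dp i P w := by
  classical
  unfold Dp
  rw [if_congr (eig_per h1 h2) rfl rfl]

theorem Dp_shift (i : Cx D) (P : ℕ × Bool) {t : V} (ht : Eig P.1 (rg D P) (rp i) t) (s : ℤ)
    (v : V) : Dp i P (v + s • t) = Dp i P v := by
  classical
  unfold Dp
  rw [if_congr (eig_shift ht s v) rfl rfl]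

/-- vanishing average over translations -/
theorem Dp_zero {P : ℕ × Bool} (h : Adm D P) (i : Cx D) {t : V}
    (ht : ¬ Eig P.1 (rg D P) (rp i) t) (v : V) :
    ∑ s ∈ range P.1, ((Dp i P (v + (s : ℤ) • t) : ℝ) : ℂ) = 0 := by
  classical
  obtain ⟨f, hf⟩ := eig_line h i
  have hw : ¬ (P.1 : ℤ) ∣ wd f t := fun h1 => ht ((hf t).2 h1)
  have h1 := count_line P.1 h.1 (wd f v) (wd f t) hw
  have hp0 : (P.1 : ℂ) ≠ 0 := by exact_mod_cast h.1.ne_zero
  have e : ∀ s ∈ range P.1, ((Dp i P (v + (s : ℤ) • t) : ℝ) : ℂ) =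
      (if (P.1 : ℤ) ∣ wd f v + (s : ℤ) * wd f t then (1 : ℂ) else 0) - 1 / (P.1 : ℂ) := by
    intro s _
    unfold Dp
    have e2 : wd f (v + (s : ℤ) • t) = wd f v + (s : ℤ) * wd f t := by
      unfold wd
      simp only [Prod.fst_add, Prod.snd_add, Prod.smul_fst, Prod.smul_snd, smul_eq_mul]
      ring
    rw [if_congr (hf _) rfl rfl, e2]
    split_ifs
    · push_cast
      ring
    · push_cast
      ring
  rw [sum_congr rfl e, sum_sub_distrib, h1, sum_const, card_range, nsmul_eq_mul,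
    mul_one_div_cancel hp0, sub_self]

/-- two different primes: a vector in one image and not in the other -/
theorem exists_sep {P P' : ℕ × Bool} (h : Adm D P) (h' : Adm D P') (hne : P ≠ P')
    (i : Cx D) : ∃ e : V, Eig P'.1 (rg D P') (rp i) e ∧ ¬ Eig P.1 (rg D P) (rp i) e := by
  by_cases hp : P.1 = P'.1
  · obtain ⟨f, hf1, hf2⟩ := exists_col h' i
    refine ⟨f, hf1, fun h1 => hf2 ?_⟩
    have h2 := (PwtH84.eig_conj h hne hp i f).1 ⟨h1, hf1⟩
    rwa [hp] at h2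
  · by_contra hcon
    push Not at hcon
    have hpp : Prime (P.1 : ℤ) := Nat.prime_iff_prime_int.1 h.1
    have hnd : ¬ (P.1 : ℤ) ∣ (P'.1 : ℤ) := by
      intro h1
      exact hp ((Nat.prime_dvd_prime_iff_eq h.1 h'.1).1 (by exact_mod_cast h1))
    have key : ∀ v : V, Eig P.1 (rg D P) (rp i) v := by
      intro v
      have h1 : Eig P'.1 (rg D P') (rp i) ((P'.1 : ℤ) • v) := by
        intro x
        rw [Form.B_smul_right, wd_smul_right]
        exact ⟨(rp i).B x v - rg D P' * wd x v, by ring⟩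
      have h2 := hcon _ h1
      intro x
      have h3 := h2 x
      rw [Form.B_smul_right, wd_smul_right] at h3
      have h4 : (P.1 : ℤ) ∣ (P'.1 : ℤ) * ((rp i).B x v - rg D P * wd x v) := by
        have e : (P'.1 : ℤ) * ((rp i).B x v - rg D P * wd x v) =
            (P'.1 : ℤ) * (rp i).B x v - rg D P * ((P'.1 : ℤ) * wd x v) := by ring
        rw [e]
        exact h3
      exact (hpp.dvd_or_dvd h4).resolve_left hnd
    have h5 := Eig.wd_dvd hpp (rel_g h i).1 (key (1, 0)) (key (0, 1))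
    have h6 : wd ((1, 0) : V) (0, 1) = 1 := by
      unfold wd
      norm_num
    rw [h6] at h5
    exact hpp.not_isUnit (isUnit_of_dvd_one h5)

/-! ### classes modulo `q` -/

/-- periodic weights -/
theorem perH (q : ℕ) [NeZero q] (S : Finset V) (f G : V → ℂ)
    (hG : ∀ v w : V, (q : ℤ) ∣ v.1 - w.1 → (q : ℤ) ∣ v.2 - w.2 → G v = G w)
    (hG1 : ∀ v, ‖G v‖ ≤ 1) (M : ℂ) (E : ℝ)
    (hE : ∀ x : ZMod q × ZMod q, ‖∑ v ∈ S.filter (fun v => cl q v = x), f v - M‖ ≤ E) :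
    ‖∑ v ∈ S, G v * f v - M * ∑ x : ZMod q × ZMod q, G (rz x)‖ ≤ (q : ℝ) ^ 2 * E := by
  have h1 : ∑ v ∈ S, G v * f v =
      ∑ x : ZMod q × ZMod q, G (rz x) * ∑ v ∈ S.filter (fun v => cl q v = x), f v := by
    rw [← sum_fiberwise S (fun v => cl q v)]
    refine sum_congr rfl (fun x _ => ?_)
    rw [mul_sum]
    refine sum_congr rfl (fun v hv => ?_)
    have h2 := (cl_iff96 v x).1 (mem_filter.1 hv).2
    rw [hG v (rz x) h2.1 h2.2]
  rw [h1, mul_sum, ← sum_sub_distrib]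
  refine (norm_sum_le _ _).trans ?_
  have h2 : ∀ x ∈ (univ : Finset (ZMod q × ZMod q)),
      ‖G (rz x) * ∑ v ∈ S.filter (fun v => cl q v = x), f v - M * G (rz x)‖ ≤ E := by
    intro x _
    have e : G (rz x) * ∑ v ∈ S.filter (fun v => cl q v = x), f v - M * G (rz x) =
        G (rz x) * (∑ v ∈ S.filter (fun v => cl q v = x), f v - M) := by ring
    rw [e, norm_mul]
    calc ‖G (rz x)‖ * ‖∑ v ∈ S.filter (fun v => cl q v = x), f v - M‖ ≤ 1 * E :=
          mul_le_mul (hG1 _) (hE x) (norm_nonneg _) (by norm_num)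
      _ = E := one_mul _
  refine (sum_le_sum h2).trans (le_of_eq ?_)
  rw [sum_const, card_univ, Fintype.card_prod, ZMod.card, nsmul_eq_mul]
  push_cast
  ring

/-- sums over complete residue systems -/
theorem zero_sum (q : ℕ) [NeZero q] (G : V → ℂ)
    (hG : ∀ v w : V, (q : ℤ) ∣ v.1 - w.1 → (q : ℤ) ∣ v.2 - w.2 → G v = G w) (t : V) (p : ℕ)
    (hp : 0 < p) (h0 : ∀ v, ∑ s ∈ range p, G (v + (s : ℤ) • t) = 0) :
    ∑ x : ZMod q × ZMod q, G (rz x) = 0 := by
  have hcl : ∀ x : ZMod q × ZMod q, cl q (rz x) = x := by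
    intro x
    rw [cl_iff96]
    simp
  have key : ∀ s : ℕ, ∑ x : ZMod q × ZMod q, G (rz x + (s : ℤ) • t) =
      ∑ x : ZMod q × ZMod q, G (rz x) := by
    intro s
    refine Fintype.sum_equiv (Equiv.addRight (cl q ((s : ℤ) • t))) _ _ (fun x => ?_)
    have h1 : cl q (rz x + (s : ℤ) • t) = x + cl q ((s : ℤ) • t) := by
      have h2 : cl q (rz x + (s : ℤ) • t) = cl q (rz x) + cl q ((s : ℤ) • t) := by
        unfold cl
        apply Prod.ext
        · simp only [Prod.fst_add]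
          push_cast
          rfl
        · simp only [Prod.snd_add]
          push_cast
          rfl
      rw [h2, hcl]
    have h3 := (cl_iff96 _ _).1 h1
    exact hG _ _ h3.1 h3.2
  have h1 : (p : ℂ) * ∑ x : ZMod q × ZMod q, G (rz x) = 0 := by
    have h2 : (p : ℂ) * ∑ x : ZMod q × ZMod q, G (rz x) =
        ∑ s ∈ range p, ∑ x : ZMod q × ZMod q, G (rz x + (s : ℤ) • t) := by
      rw [sum_congr rfl (fun s _ => key s), sum_const, card_range, nsmul_eq_mul]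
    rw [h2, sum_comm, sum_congr rfl (fun x _ => h0 (rz x)), sum_const_zero]
  have hp0 : (p : ℂ) ≠ 0 := by exact_mod_cast hp.ne'
  exact (mul_eq_zero.1 h1).resolve_left hp0

/-! ### the system -/

/-- the weight of two frequencies -/
noncomputable def gw (w w' : Fq D) (i : Cx D) (v : V) : ℂ :=
  (starRingEnd ℂ) ((bv D w.1 w.2 : Hs D) (i, cl D.K v)) *
    (bv D w'.1 w'.2 : Hs D) (i, cl D.K v)

theorem norm_gw (w w' : Fq D) (i : Cx D) (v : V) : ‖gw w w' i v‖ ≤ 1 := by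
  unfold gw
  rw [norm_mul, RCLike.norm_conj]
  calc _ ≤ (1 : ℝ) * 1 := mul_le_mul (bv_le w _) (bv_le w' _) (norm_nonneg _) (by norm_num)
    _ = 1 := by norm_num

theorem cl_eq {K : ℕ} {v u : V} (h1 : (K : ℤ) ∣ v.1 - u.1) (h2 : (K : ℤ) ∣ v.2 - u.2) :
    cl K v = cl K u := by
  unfold cl
  rw [(ZMod.intCast_eq_intCast_iff_dvd_sub u.1 v.1 K).2 h1,
    (ZMod.intCast_eq_intCast_iff_dvd_sub u.2 v.2 K).2 h2]

theorem gw_per (w w' : Fq D) (i : Cx D) {v u : V} (h1 : (D.K : ℤ) ∣ v.1 - u.1)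
    (h2 : (D.K : ℤ) ∣ v.2 - u.2) : gw w w' i v = gw w w' i u := by
  unfold gw
  rw [cl_eq h1 h2]

/-- the vectors of a shell, all classes -/
noncomputable def Sx (D : Dat) (a b : ℝ) : Finset (Σ _ : Cx D, V) :=
  (univ : Finset (Cx D)).sigma (fun i => Shg i a b)

theorem sum_Sx (a b : ℝ) (f : (Σ _ : Cx D, V) → ℂ) :
    ∑ x ∈ Sx D a b, f x = ∑ i, ∑ v ∈ Shg i a b, f ⟨i, v⟩ := by
  unfold Sx
  rw [sum_sigma]

/-- the functions of the system -/
noncomputable def ph (wP : Fq D × (ℕ × Bool)) (x : Σ _ : Cx D, V) : ℂ :=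
  ((√(wP.2.1 : ℝ) * Dp x.1 wP.2 x.2 : ℝ) : ℂ) * ch wP.1 x.1 x.2

/-- the entries of the Gram matrix -/
theorem entry (a b : ℝ) (w w' : Fq D) (P P' : ℕ × Bool) :
    ∑ x ∈ Sx D a b, ((1 : ℝ) : ℂ) * (ph (w, P) x * (starRingEnd ℂ) (ph (w', P') x)) =
      ((√(P.1 : ℝ) * √(P'.1 : ℝ) : ℝ) : ℂ) * ∑ i, ∑ v ∈ Shg i a b,
        (((Dp i P v * Dp i P' v : ℝ) : ℂ) * gw w w' i v) * uu i v ^ (w.1 - w'.1) := by
  rw [sum_Sx, mul_sum]
  refine sum_congr rfl (fun i _ => ?_)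
  rw [mul_sum]
  refine sum_congr rfl (fun v _ => ?_)
  have h1 := ch_conj96 w w' i v
  unfold ph gw
  simp only
  rw [map_mul, Complex.conj_ofReal, mul_assoc, mul_assoc (((Dp i P v * Dp i P' v : ℝ) : ℂ)),
    ← h1]
  push_cast
  ring

theorem pp_le {P P' : ℕ × Bool} {n : ℝ} (h1 : (P.1 : ℝ) ≤ n) (h2 : (P'.1 : ℝ) ≤ n) :
    √(P.1 : ℝ) * √(P'.1 : ℝ) ≤ n := by
  have hn : 0 ≤ n := (Nat.cast_nonneg _).trans h1
  rw [← Real.sqrt_mul (by positivity)]
  apply Real.sqrt_le_iff.2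
  refine ⟨hn, ?_⟩
  rw [sq]
  exact mul_le_mul h1 h2 (Nat.cast_nonneg _) hn

/-- same frequency index, same prime -/
theorem entry_diag (a b C0 : ℝ) (w w' : Fq D) (hw : w'.1 = w.1)
    {P : ℕ × Bool} (h : Adm D P) (hb : (P.1 : ℝ) ≤ b)
    (HC : ∀ (i : Cx D) (a b X : ℝ), b ≤ X → 1 ≤ X → ((Shg i a b).card : ℝ) ≤ C0 * X) :
    ‖∑ x ∈ Sx D a b, ((1 : ℝ) : ℂ) * (ph (w, P) x * (starRingEnd ℂ) (ph (w', P) x))‖ ≤
      Fintype.card (Cx D) * (2 * C0 * b) := by
  classical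
  have hp1 : (1 : ℝ) ≤ P.1 := by exact_mod_cast h.1.one_lt.le
  have hp0 : (0 : ℝ) < P.1 := by linarith
  rw [entry, norm_mul, Complex.norm_real, Real.norm_of_nonneg (by positivity),
    Real.mul_self_sqrt (Nat.cast_nonneg _)]
  have key : ∀ i ∈ (univ : Finset (Cx D)), (P.1 : ℝ) * ‖∑ v ∈ Shg i a b,
      (((Dp i P v * Dp i P v : ℝ) : ℂ) * gw w w' i v) * uu i v ^ (w.1 - w'.1)‖ ≤
      2 * C0 * b := by
    intro i _
    have h0 : ‖∑ v ∈ Shg i a b,
        (((Dp i P v * Dp i P v : ℝ) : ℂ) * gw w w' i v) * uu i v ^ (w.1 - w'.1)‖ ≤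
        ∑ v ∈ Shg i a b, ((if Eig P.1 (rg D P) (rp i) v then (1 : ℝ) else 0) +
          1 / (P.1 : ℝ)) := by
      refine (norm_sum_le _ _).trans (sum_le_sum (fun v _ => ?_))
      rw [hw, sub_self, zpow_zero, mul_one, norm_mul, Complex.norm_real, Real.norm_eq_abs,
        ← sq, abs_of_nonneg (sq_nonneg _)]
      have h1 : Dp i P v ^ 2 * ‖gw w w' i v‖ ≤ Dp i P v ^ 2 * 1 :=
        mul_le_mul_of_nonneg_left (norm_gw w w' i v) (sq_nonneg _)
      refine h1.trans ?_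
      rw [mul_one]
      have h2 : 1 / (P.1 : ℝ) ≤ 1 := (div_le_one hp0).2 hp1
      have h3 : 0 < 1 / (P.1 : ℝ) := by positivity
      unfold Dp
      split_ifs
      · nlinarith
      · nlinarith
    have h2 : ∑ v ∈ Shg i a b, (if Eig P.1 (rg D P) (rp i) v then (1 : ℝ) else 0) ≤
        C0 * (b / P.1) := by
      have h3 := sum_im h i a b (f := fun _ => (1 : ℂ)) (fun _ _ => rfl)
      rw [sum_filter] at h3
      have h4 : ∑ v ∈ Shg i a b, (if Eig P.1 (rg D P) (rp i) v then (1 : ℝ) else 0) =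
          ((Shg (sg D P i) (a / P.1) (b / P.1)).card : ℝ) := by
        have h5 : ((∑ v ∈ Shg i a b,
            (if Eig P.1 (rg D P) (rp i) v then (1 : ℝ) else 0) : ℝ) : ℂ) =
            (((Shg (sg D P i) (a / P.1) (b / P.1)).card : ℝ) : ℂ) := by
          push_cast
          rw [sum_const, nsmul_eq_mul, mul_one] at h3
          rw [← h3]
          refine sum_congr rfl (fun v _ => ?_)
          by_cases h6 : Eig P.1 (rg D P) (rp i) v
          · rw [if_pos h6, if_pos ((im_iff h i v).2 h6)]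
            simp
          · rw [if_neg h6, if_neg (fun h7 => h6 ((im_iff h i v).1 h7))]
            simp
        exact_mod_cast h5
      rw [h4]
      exact HC _ _ _ _ le_rfl ((one_le_div hp0).2 hb)
    have h3 : ((Shg i a b).card : ℝ) ≤ C0 * b := HC i a b b le_rfl (hp1.trans hb)
    rw [sum_add_distrib, sum_const, nsmul_eq_mul] at h0
    have h4 := h0.trans (add_le_add h2 (mul_le_mul_of_nonneg_right h3
      (show (0 : ℝ) ≤ 1 / P.1 by positivity)))
    refine (mul_le_mul_of_nonneg_left h4 hp0.le).trans (le_of_eq ?_)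
    field_simp
    ring
  calc (P.1 : ℝ) * ‖∑ i, ∑ v ∈ Shg i a b,
      (((Dp i P v * Dp i P v : ℝ) : ℂ) * gw w w' i v) * uu i v ^ (w.1 - w'.1)‖
      ≤ (P.1 : ℝ) * ∑ i, ‖∑ v ∈ Shg i a b,
      (((Dp i P v * Dp i P v : ℝ) : ℂ) * gw w w' i v) * uu i v ^ (w.1 - w'.1)‖ :=
        mul_le_mul_of_nonneg_left (norm_sum_le _ _) (Nat.cast_nonneg _)
    _ = ∑ i, (P.1 : ℝ) * ‖∑ v ∈ Shg i a b,
      (((Dp i P v * Dp i P v : ℝ) : ℂ) * gw w w' i v) * uu i v ^ (w.1 - w'.1)‖ := by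
        rw [mul_sum]
    _ ≤ ∑ _i : Cx D, 2 * C0 * b := sum_le_sum key
    _ = Fintype.card (Cx D) * (2 * C0 * b) := by rw [sum_const, card_univ, nsmul_eq_mul]

/-- the other entries -/
theorem entry_off (a b E M0 : ℝ) (w w' : Fq D)
    {P P' : ℕ × Bool} (h : Adm D P) (h' : Adm D P') (hne : w.1 ≠ w'.1 ∨ P ≠ P') (n : ℝ)
    (h1 : (P.1 : ℝ) ≤ n) (h2 : (P'.1 : ℝ) ≤ n)
    (hE : ∀ i : Cx D, ∀ α : V, ∀ S : Finset V,
      (∀ v : V, v ∈ S ↔ (((D.K * (P.1 * P'.1) : ℕ) : ℤ) ∣ v.1 - α.1 ∧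
        ((D.K * (P.1 * P'.1) : ℕ) : ℤ) ∣ v.2 - α.2 ∧
        Sec (rp i) D.T v ∧ a < ((rp i).q v : ℝ) ∧ ((rp i).q v : ℝ) ≤ b)) →
      ‖∑ v ∈ S, uu i v ^ (w.1 - w'.1) - (if w.1 - w'.1 = 0 then ((M0 : ℝ) : ℂ) else 0)‖ ≤ E)
    (hE0 : 0 ≤ E) :
    ‖∑ x ∈ Sx D a b, ((1 : ℝ) : ℂ) * (ph (w, P) x * (starRingEnd ℂ) (ph (w', P') x))‖ ≤
      n * (Fintype.card (Cx D) * ((D.K * n ^ 2) ^ 2 * E)) := by
  have hn : 0 ≤ n := (Nat.cast_nonneg _).trans h1
  have hK : 0 < D.K := D.Kpos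
  rw [entry, norm_mul, Complex.norm_real, Real.norm_of_nonneg (by positivity)]
  apply mul_le_mul (pp_le h1 h2) _ (norm_nonneg _) hn
  refine (norm_sum_le _ _).trans ?_
  set q : ℕ := D.K * (P.1 * P'.1) with hq
  have hq0 : 0 < q := Nat.mul_pos hK (Nat.mul_pos h.1.pos h'.1.pos)
  have : NeZero q := ⟨hq0.ne'⟩
  have hqn : (q : ℝ) ≤ D.K * n ^ 2 := by
    rw [hq]
    push_cast
    apply mul_le_mul_of_nonneg_left _ (Nat.cast_nonneg _)
    rw [sq]
    exact mul_le_mul h1 h2 (Nat.cast_nonneg _) hn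
  have hdK : (D.K : ℤ) ∣ (q : ℤ) := by
    rw [hq]
    exact_mod_cast Dvd.intro _ rfl
  have hdP : (P.1 : ℤ) ∣ (q : ℤ) := by
    rw [hq]
    exact_mod_cast Dvd.intro (D.K * P'.1) (by ring)
  have hdP' : (P'.1 : ℤ) ∣ (q : ℤ) := by
    rw [hq]
    exact_mod_cast Dvd.intro (D.K * P.1) (by ring)
  have key : ∀ i ∈ (univ : Finset (Cx D)), ‖∑ v ∈ Shg i a b,
      (((Dp i P v * Dp i P' v : ℝ) : ℂ) * gw w w' i v) * uu i v ^ (w.1 - w'.1)‖ ≤
      (D.K * n ^ 2) ^ 2 * E := by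
    intro i _
    have hGper : ∀ v u : V, (q : ℤ) ∣ v.1 - u.1 → (q : ℤ) ∣ v.2 - u.2 →
        ((Dp i P v * Dp i P' v : ℝ) : ℂ) * gw w w' i v =
        ((Dp i P u * Dp i P' u : ℝ) : ℂ) * gw w w' i u := by
      intro v u h4 h5
      rw [Dp_per i P (hdP.trans h4) (hdP.trans h5), Dp_per i P' (hdP'.trans h4) (hdP'.trans h5),
        gw_per w w' i (hdK.trans h4) (hdK.trans h5)]
    set M : ℂ := if w.1 - w'.1 = 0 then ((M0 : ℝ) : ℂ) else 0 with hM
    have h3 := perH q (Shg i a b) (fun v => uu i v ^ (w.1 - w'.1))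
      (fun v => ((Dp i P v * Dp i P' v : ℝ) : ℂ) * gw w w' i v) hGper
      (fun v => by
        rw [norm_mul, Complex.norm_real, Real.norm_eq_abs, abs_mul]
        calc |Dp i P v| * |Dp i P' v| * ‖gw w w' i v‖ ≤ 1 * 1 * 1 :=
              mul_le_mul (mul_le_mul (abs_Dp h i v) (abs_Dp h' i v) (abs_nonneg _) (by norm_num))
                (norm_gw w w' i v) (norm_nonneg _) (by norm_num)
          _ = 1 := by norm_num) M E
      (fun x => hE i (rz x) _ (fun v => by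
        rw [mem_filter, mem_Shg, cl_iff96]
        tauto))
    have h4 : M * ∑ x : ZMod q × ZMod q,
        ((Dp i P (rz x) * Dp i P' (rz x) : ℝ) : ℂ) * gw w w' i (rz x) = 0 := by
      by_cases hj : w.1 - w'.1 = 0
      · have hPP : P ≠ P' := hne.resolve_left (fun h5 => h5 (sub_eq_zero.1 hj))
        obtain ⟨e, he1, he2⟩ := exists_sep h h' hPP i
        set t : V := (D.K : ℤ) • e with ht
        have ht1 : Eig P'.1 (rg D P') (rp i) t := eig_smul he1 _
        have ht2 : ¬ Eig P.1 (rg D P) (rp i) t := by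
          intro h1
          apply he2
          apply PwtH84.eig_smul _ h1
          rw [Nat.isCoprime_iff_coprime]
          exact h.cop
        have h5 := zero_sum q (fun v => ((Dp i P v * Dp i P' v : ℝ) : ℂ) * gw w w' i v) hGper t
          P.1 h.1.pos (fun v => by
            have e1 : ∀ s ∈ range P.1,
                ((Dp i P (v + (s : ℤ) • t) * Dp i P' (v + (s : ℤ) • t) : ℝ) : ℂ) *
                  gw w w' i (v + (s : ℤ) • t) =
                ((Dp i P (v + (s : ℤ) • t) : ℝ) : ℂ) *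
                  (((Dp i P' v : ℝ) : ℂ) * gw w w' i v) := by
              intro s _
              rw [Dp_shift i P' ht1 (s : ℤ) v, gw_per w w' i (v := v + (s : ℤ) • t) (u := v)]
              · push_cast
                ring
              · rw [ht]
                simp only [Prod.fst_add, Prod.smul_fst, smul_eq_mul]
                exact ⟨s * e.1, by ring⟩
              · rw [ht]
                simp only [Prod.snd_add, Prod.smul_snd, smul_eq_mul]
                exact ⟨s * e.2, by ring⟩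
            rw [sum_congr rfl e1, ← sum_mul, Dp_zero h i ht2 v, zero_mul])
        rw [h5, mul_zero]
      · rw [hM, if_neg hj, zero_mul]
    rw [h4, sub_zero] at h3
    refine h3.trans ?_
    apply mul_le_mul_of_nonneg_right _ hE0
    exact pow_le_pow_left₀ (Nat.cast_nonneg _) hqn 2
  refine (sum_le_sum key).trans (le_of_eq ?_)
  rw [sum_const, card_univ, nsmul_eq_mul]

/-- **the dual inequality for the system** -/
theorem tkh_sys (a b : ℝ) (U : Finset (Fq D)) (PP : Finset (ℕ × Bool)) (G1 G2 : ℝ)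
    (hG1 : 0 ≤ G1) (hG2 : 0 ≤ G2)
    (h1 : ∀ w ∈ U, ∀ w' ∈ U, w'.1 = w.1 → ∀ P ∈ PP,
      ‖∑ x ∈ Sx D a b, ((1 : ℝ) : ℂ) * (ph (w, P) x * (starRingEnd ℂ) (ph (w', P) x))‖ ≤ G1)
    (h2 : ∀ w ∈ U, ∀ w' ∈ U, ∀ P ∈ PP, ∀ P' ∈ PP, (w.1 ≠ w'.1 ∨ P ≠ P') →
      ‖∑ x ∈ Sx D a b, ((1 : ℝ) : ℂ) * (ph (w, P) x * (starRingEnd ℂ) (ph (w', P') x))‖ ≤ G2)
    (g : (Σ _ : Cx D, V) → ℂ) (hg : ∀ x, ‖g x‖ ≤ 1) :
    ∑ w ∈ U, ∑ P ∈ PP, ‖∑ x ∈ Sx D a b, ((1 : ℝ) : ℂ) * g x * ph (w, P) x‖ ^ 2 ≤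
      (Sx D a b).card * ((Fintype.card (Cx D) * ((D.K : ℝ) * D.K)) * G1 +
        U.card * (PP.card * G2)) := by
  classical
  set m : ℝ := Fintype.card (Cx D) * ((D.K : ℝ) * D.K) with hm
  set G : ℝ := m * G1 + U.card * (PP.card * G2) with hG
  have hGn : 0 ≤ G := by positivity
  have hrow : ∀ i ∈ U ×ˢ PP, ∑ k ∈ U ×ˢ PP, ‖∑ x ∈ Sx D a b,
      ((1 : ℝ) : ℂ) * (ph i x * (starRingEnd ℂ) (ph k x))‖ ≤ G := by
    rintro ⟨w, P⟩ hwP
    rw [mem_product] at hwP
    obtain ⟨hw, hP⟩ := hwP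
    simp only at hw hP
    have hterm : ∀ w' ∈ U, ∀ P' ∈ PP, ‖∑ x ∈ Sx D a b,
        ((1 : ℝ) : ℂ) * (ph (w, P) x * (starRingEnd ℂ) (ph (w', P') x))‖ ≤
        (if w'.1 = w.1 then (if P' = P then G1 else 0) else 0) + G2 := by
      intro w' hw' P' hP'
      by_cases hj : w'.1 = w.1
      · rw [if_pos hj]
        by_cases hPP : P' = P
        · subst hPP
          rw [if_pos rfl]
          have := h1 w hw w' hw' hj P' hP'
          linarith
        · rw [if_neg hPP]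
          have := h2 w hw w' hw' P hP P' hP' (Or.inr (Ne.symm hPP))
          linarith
      · rw [if_neg hj]
        have := h2 w hw w' hw' P hP P' hP' (Or.inl (Ne.symm hj))
        linarith
    rw [sum_product]
    refine (sum_le_sum fun w' hw' => sum_le_sum fun P' hP' => hterm w' hw' P' hP').trans ?_
    have e3 : ∀ w' ∈ U, ∑ P' ∈ PP,
        ((if w'.1 = w.1 then (if P' = P then G1 else 0) else 0) + G2) =
        (if w'.1 = w.1 then G1 else 0) + PP.card * G2 := by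
      intro w' _
      rw [sum_add_distrib, sum_const, nsmul_eq_mul]
      congr 1
      split_ifs
      · rw [sum_ite_eq' PP P, if_pos hP]
      · rw [sum_const_zero]
    rw [sum_congr rfl e3, sum_add_distrib, ← sum_filter, sum_const, sum_const, nsmul_eq_mul,
      nsmul_eq_mul, hG]
    have h3 := card_fib96 U w.1
    have h5 := mul_le_mul_of_nonneg_right h3 hG1
    linarith
  have hmain := MRS.hm_96 (Sx D a b) (U ×ˢ PP) (fun _ => (1 : ℝ)) (fun _ _ => zero_le_one)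
    ph g G hGn hrow
  rw [sum_product] at hmain
  have hS : ∑ x ∈ Sx D a b, (1 : ℝ) * ‖g x‖ ^ 2 ≤ (Sx D a b).card := by
    calc ∑ x ∈ Sx D a b, (1 : ℝ) * ‖g x‖ ^ 2
        ≤ ∑ x ∈ Sx D a b, (1 : ℝ) := by
          refine sum_le_sum fun v _ => ?_
          rw [one_mul]
          exact pow_le_one₀ (norm_nonneg _) (hg v)
      _ = _ := by rw [sum_const, nsmul_eq_mul, mul_one]
  exact hmain.trans (mul_le_mul_of_nonneg_right hS hGn)

/-- the basic identity -/
theorem mag_id (z : ℂ) (r1 r2 N : ℝ) (hN : 0 < N) (w : Fq D) {P : ℕ × Bool}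
    (h : Adm D P) :
    (1 / (P.1 : ℝ)) * ‖Mag z r1 r2 N w - z * cw P w * Mag z r1 r2 (N / P.1) w‖ ^ 2 =
      (1 / N ^ 2) * ‖∑ x ∈ Sx D (r1 * N) (r2 * N),
        ((1 : ℝ) : ℂ) * gz z (rp x.1) x.2 * ph (w, P) x‖ ^ 2 := by
  classical
  have hp0 : (0 : ℝ) < P.1 := by exact_mod_cast h.1.pos
  have hpC : (P.1 : ℂ) ≠ 0 := by exact_mod_cast hp0.ne'
  have hNC : (N : ℂ) ≠ 0 := by exact_mod_cast hN.ne'
  have h1 := (stIdG_17 D z (r1 * N) (r2 * N) P w h).2
  set S1 : ℂ := ∑ i, ∑ v ∈ Shg i (r1 * N) (r2 * N), gz z (rp i) v * ch w i v with hS1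
  set S2 : ℂ := ∑ i, ∑ u ∈ Shg i (r1 * N / P.1) (r2 * N / P.1), gz z (rp i) u * ch w i u
    with hS2
  have e1 : ∑ x ∈ Sx D (r1 * N) (r2 * N), ((1 : ℝ) : ℂ) * gz z (rp x.1) x.2 * ph (w, P) x =
      ((√(P.1 : ℝ) : ℝ) : ℂ) * (z * cw P w * S2 - (1 / (P.1 : ℂ)) * S1) := by
    rw [← h1, sum_Sx, hS1, mul_sum (s := univ) (a := (1 / (P.1 : ℂ))), ← sum_sub_distrib, mul_sum]
    refine sum_congr rfl (fun i _ => ?_)
    rw [sum_filter, mul_sum, ← sum_sub_distrib, mul_sum]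
    refine sum_congr rfl (fun v _ => ?_)
    unfold ph Dp
    simp only
    by_cases h2 : Eig P.1 (rg D P) (rp i) v
    · rw [if_pos h2, if_pos ((im_iff h i v).2 h2)]
      push_cast
      ring
    · rw [if_neg h2, if_neg (fun h3 => h2 ((im_iff h i v).1 h3))]
      push_cast
      ring
  have e2 : Mag z r1 r2 N w - z * cw P w * Mag z r1 r2 (N / P.1) w =
      -((P.1 : ℂ) / N) * (z * cw P w * S2 - (1 / (P.1 : ℂ)) * S1) := by
    unfold Mag
    rw [← mul_div_assoc, ← mul_div_assoc, ← hS1, ← hS2]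
    push_cast
    field_simp
    ring
  rw [e1, e2, norm_mul, norm_mul, norm_neg, norm_div, Complex.norm_natCast, Complex.norm_real,
    Complex.norm_real, Real.norm_of_nonneg hN.le, Real.norm_of_nonneg (Real.sqrt_nonneg _),
    mul_pow, mul_pow, Real.sq_sqrt hp0.le]
  field_simp

end Pool.Agent.Lib.MP_a17b09_nt.MRH.TkhH12
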